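import Pool.Agent.FTN.Region

set_option maxRecDepth 100000

namespace Pool.Agent.FTN.K10

open Pool.Agent.FTA (TM Alg Tr leaf leafS exNo exV chkA chkB chkC)

def A.t38 : Tr := .C (.B (.B (.A .L .L) (.A .L .L)) (.A .L .L)) (.B (.B (.A .L .L) (.A .L .L)) (.C (.A .L .L) (.A .L .L)))
theorem A.c38 : Tr.chk (leaf fun A => gA A ⟨10, 57, 226⟩) exNo A.t38 545259520 109051904 402653184 134217728 671088640 134217728 = true := by decide +kernel

def A.t39 : Tr := .B (.A (.C (.C .L .L) (.C .L .L)) .L) (.C (.A (.C .L .L) .L) (.A (.A .L .L) .L))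
theorem A.c39 : Tr.chk (leaf fun A => gA A ⟨10, 57, 226⟩) exNo A.t39 763363328 109051904 402653184 134217728 671088640 134217728 = true := by decide +kernel

def A.t40 : Tr := .C (.B (.C (.B .L .L) (.B .L .L)) (.A .L (.C .L .L))) (.B (.C (.B .L .L) (.A .L .L)) (.A (.C .L .L) (.B .L .L)))
theorem A.c40 : Tr.chk (leaf fun A => gA A ⟨10, 57, 226⟩) exNo A.t40 545259520 109051904 402653184 134217728 939524096 134217728 = true := by decide +kernel

def A.t41 : Tr := .C (.A .L (.C .L .L)) (.B (.C .L .L) (.A .L (.C .L .L)))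
theorem A.c41 : Tr.chk (leaf fun A => gA A ⟨10, 57, 226⟩) exNo A.t41 708837376 54525952 335544320 67108864 939524096 134217728 = true := by decide +kernel

def A.t42 : Tr := .C (.A (.C .L .L) (.B .L .L)) (.A (.C .L .L) (.B (.C .L .L) (.A (.C .L .L) (.B (.C .L .L) .L))))
theorem A.c42 : Tr.chk (leaf fun A => gA A ⟨10, 57, 226⟩) exNo A.t42 790626304 27262976 335544320 67108864 939524096 134217728 = true := by decide +kernel

def A.t43 : Tr := .B (.C .L (.A (.C .L .L) (.B (.A (.C .L .L) (.C .L (.B .L .L))) .L))) (.A (.C .L (.B (.A (.C .L .L) .L) .L)) .L)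
theorem A.c43 : Tr.chk (leaf fun A => gA A ⟨10, 57, 226⟩) exNo A.t43 845152256 27262976 335544320 67108864 939524096 134217728 = true := by decide +kernel

end Pool.Agent.FTN.K10
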