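import Pool.Agent.FTN.Region

set_option maxRecDepth 100000

namespace Pool.Agent.FTN.K10

open Pool.Agent.FTA (TM Alg Tr leaf leafS exNo exV chkA chkB chkC)

def A.t44 : Tr := .A (.A (.C .L .L) (.A (.C .L .L) (.C .L (.B .L .L)))) .L
theorem A.c44 : Tr.chk (leaf fun A => gA A ⟨10, 57, 226⟩) exNo A.t44 763363328 109051904 469762048 67108864 872415232 67108864 = true := by decide +kernel

def A.t45 : Tr := .A (.C .L .L) (.A (.C .L .L) (.B (.C .L .L) (.A (.C .L .L) .L)))
theorem A.c45 : Tr.chk (leaf fun A => gA A ⟨10, 57, 226⟩) exNo A.t45 708837376 54525952 469762048 67108864 1006632960 67108864 = true := by decide +kernel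

def A.t46 : Tr := .A (.B (.A (.A (.C .L .L) (.B (.C .L .L) .L)) .L) .L) .L
theorem A.c46 : Tr.chk (leaf fun A => gA A ⟨10, 57, 226⟩) exNo A.t46 817889280 54525952 469762048 67108864 1006632960 67108864 = true := by decide +kernel

def A.t47 : Tr := .A .L (.C .L .L)
theorem A.c47 : Tr.chk (leaf fun A => gA A ⟨10, 57, 226⟩) exNo A.t47 218103808 218103808 805306368 268435456 134217728 134217728 = true := by decide +kernel

def A.t48 : Tr := .B (.C (.A .L .L) (.B (.A .L .L) (.A .L .L))) (.C (.A .L .L) (.B (.A .L .L) (.A .L .L)))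
theorem A.c48 : Tr.chk (leaf fun A => gA A ⟨10, 57, 226⟩) exNo A.t48 218103808 218103808 805306368 268435456 335544320 67108864 = true := by decide +kernel

def A.t49 : Tr := .B (.C (.B (.A .L .L) (.A .L .L)) (.B (.A .L .L) (.A .L .L))) (.C (.B (.A .L .L) (.A .L .L)) (.B (.A .L .L) (.A .L .L)))
theorem A.c49 : Tr.chk (leaf fun A => gA A ⟨10, 57, 226⟩) exNo A.t49 218103808 218103808 671088640 134217728 436207616 33554432 = true := by decide +kernel

def A.t50 : Tr := .B (.A .L .L) (.A .L .L)
theorem A.c50 : Tr.chk (leaf fun A => gA A ⟨10, 57, 226⟩) exNo A.t50 218103808 218103808 671088640 134217728 503316480 33554432 = true := by decide +kernel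

def A.t51 : Tr := .C (.B (.A .L .L) (.A .L .L)) (.A .L .L)
theorem A.c51 : Tr.chk (leaf fun A => gA A ⟨10, 57, 226⟩) exNo A.t51 218103808 218103808 939524096 134217728 469762048 67108864 = true := by decide +kernel

def A.t52 : Tr := .A (.C (.A .L .L) (.B (.C (.A .L .L) (.A .L .L)) (.A .L .L))) .L
theorem A.c52 : Tr.chk (leaf fun A => gA A ⟨10, 57, 226⟩) exNo A.t52 654311424 218103808 671088640 134217728 134217728 134217728 = true := by decide +kernel

end Pool.Agent.FTN.K10
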