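import Pool.Agent.FTN.Region

set_option maxRecDepth 100000

namespace Pool.Agent.FTN.K10

open Pool.Agent.FTA (TM Alg Tr leaf leafS exNo exV chkA chkB chkC)

def A.t69 : Tr := .A (.A (.A (.C .L (.B .L .L)) (.B (.C .L .L) (.A (.C .L .L) .L))) (.B (.A (.A (.C .L .L) .L) .L) .L)) .L
theorem A.c69 : Tr.chk (leaf fun A => gA A ⟨10, 57, 226⟩) exNo A.t69 763363328 109051904 603979776 67108864 1006632960 67108864 = true := by decide +kernel

def A.t70 : Tr := .C .L (.A (.B (.A (.A (.C .L (.A .L .L)) .L) .L) .L) .L)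
theorem A.c70 : Tr.chk (leaf fun A => gA A ⟨10, 57, 226⟩) exNo A.t70 763363328 109051904 738197504 67108864 939524096 134217728 = true := by decide +kernel

def A.t71 : Tr := .A (.B (.A (.C .L .L) (.C (.C .L (.A .L .L)) (.A .L .L))) (.C (.A .L (.A .L .L)) (.A (.C .L .L) (.A (.C .L .L) .L)))) .L
theorem A.c71 : Tr.chk (leaf fun A => gA A ⟨10, 57, 226⟩) exNo A.t71 654311424 218103808 939524096 134217728 671088640 134217728 = true := by decide +kernel

def A.t72 : Tr := .A (.C .L .L) (.A (.C .L (.A .L .L)) (.A (.C .L (.B .L .L)) .L))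
theorem A.c72 : Tr.chk (leaf fun A => gA A ⟨10, 57, 226⟩) exNo A.t72 545259520 109051904 872415232 67108864 872415232 67108864 = true := by decide +kernel

def A.t73 : Tr := .A .L (.C .L .L)
theorem A.c73 : Tr.chk (leaf fun A => gA A ⟨10, 57, 226⟩) exNo A.t73 490733568 54525952 872415232 67108864 1006632960 67108864 = true := by decide +kernel

def A.t74 : Tr := .B (.A (.A .L (.C .L .L)) (.A (.C .L (.A .L (.B .L .L))) .L)) (.A (.A (.C .L .L) (.C .L (.A .L (.B .L .L)))) .L)
theorem A.c74 : Tr.chk (leaf fun A => gA A ⟨10, 57, 226⟩) exNo A.t74 599785472 54525952 872415232 67108864 1006632960 67108864 = true := by decide +kernel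

def A.t75 : Tr := .A (.A .L (.C .L .L)) (.B (.A (.A .L .L) .L) (.A (.A (.C .L .L) .L) .L))
theorem A.c75 : Tr.chk (leaf fun A => gA A ⟨10, 57, 226⟩) exNo A.t75 545259520 109051904 1006632960 67108864 872415232 67108864 = true := by decide +kernel

end Pool.Agent.FTN.K10
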