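import Pool.Agent.FTN.Region

set_option maxRecDepth 100000

namespace Pool.Agent.FTN.K10

open Pool.Agent.FTA (TM Alg Tr leaf leafS exNo exV chkA chkB chkC)

def A.t76 : Tr := .A (.C .L .L) (.A (.C .L .L) (.C .L (.B .L .L)))
theorem A.c76 : Tr.chk (leaf fun A => gA A ⟨10, 57, 226⟩) exNo A.t76 490733568 54525952 1006632960 67108864 1006632960 67108864 = true := by decide +kernel

def A.t77 : Tr := .C (.A (.A .L .L) .L) (.A (.A (.A .L .L) (.A (.B .L .L) .L)) .L)
theorem A.c77 : Tr.chk (leaf fun A => gA A ⟨10, 57, 226⟩) exNo A.t77 599785472 54525952 973078528 33554432 1006632960 67108864 = true := by decide +kernel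

def A.t78 : Tr := .C (.A (.A (.A .L .L) .L) .L) (.A (.A (.A (.B .L (.C .L (.A .L .L))) .L) .L) .L)
theorem A.c78 : Tr.chk (leaf fun A => gA A ⟨10, 57, 226⟩) exNo A.t78 599785472 54525952 1040187392 33554432 1006632960 67108864 = true := by decide +kernel

def A.t79 : Tr := .L
theorem A.c79 : Tr.chk (leaf fun A => gA A ⟨10, 57, 226⟩) exNo A.t79 763363328 109051904 939524096 134217728 939524096 134217728 = true := by decide +kernel

def B.t0 : Tr := .C (.A .L (.A .L (.C .L .L))) (.C (.A .L (.C (.A .L .L) (.A .L .L))) (.A .L (.A .L .L)))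
theorem B.c0 : Tr.chk (leaf fun A => gB A ⟨10, 57, 226⟩) exNo B.t0 218103808 218103808 134217728 134217728 268435456 268435456 = true := by decide +kernel

def B.t1 : Tr := .C (.A (.A .L .L) (.A (.C .L .L) (.C (.A .L .L) (.B .L .L)))) (.A (.C .L .L) (.A (.C .L .L) (.C (.A .L .L) (.A .L .L))))
theorem B.c1 : Tr.chk (leaf fun A => gB A ⟨10, 57, 226⟩) exNo B.t1 218103808 218103808 402653184 134217728 268435456 268435456 = true := by decide +kernel

def B.t2 : Tr := .A (.B (.C (.A .L .L) (.A .L .L)) (.C (.A (.C .L .L) .L) (.A (.C .L .L) .L))) .L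
theorem B.c2 : Tr.chk (leaf fun A => gB A ⟨10, 57, 226⟩) exNo B.t2 654311424 218103808 134217728 134217728 134217728 134217728 = true := by decide +kernel

def B.t3 : Tr := .A (.B (.C (.A .L .L) (.A .L .L)) (.C (.A (.A .L .L) .L) (.A (.C .L .L) .L))) .L
theorem B.c3 : Tr.chk (leaf fun A => gB A ⟨10, 57, 226⟩) exNo B.t3 654311424 218103808 134217728 134217728 402653184 134217728 = true := by decide +kernel

end Pool.Agent.FTN.K10
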