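import Pool.Agent.FTN.Region

set_option maxRecDepth 100000

namespace Pool.Agent.FTN.K10

open Pool.Agent.FTA (TM Alg Tr leaf leafS exNo exV chkA chkB chkC)

def B.t39 : Tr := .A (.C (.A (.A .L .L) .L) (.A (.C (.A .L .L) (.A .L .L)) (.C .L .L))) (.C (.A .L (.C .L .L)) (.A (.C .L .L) (.C .L .L)))
theorem B.c39 : Tr.chk (leaf fun A => gB A ⟨10, 57, 226⟩) exNo B.t39 218103808 218103808 671088640 134217728 939524096 134217728 = true := by decide +kernel

def B.t40 : Tr := .C (.A .L .L) (.A .L .L)
theorem B.c40 : Tr.chk (leaf fun A => gB A ⟨10, 57, 226⟩) exNo B.t40 109051904 109051904 939524096 134217728 671088640 134217728 = true := by decide +kernel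

def B.t41 : Tr := .B (.A (.C .L .L) (.C (.A .L .L) (.C .L .L))) (.A (.C (.A .L .L) .L) (.C (.A .L (.C .L .L)) (.C (.A .L .L) .L)))
theorem B.c41 : Tr.chk (leaf fun A => gB A ⟨10, 57, 226⟩) exNo B.t41 327155712 109051904 939524096 134217728 671088640 134217728 = true := by decide +kernel

def B.t42 : Tr := .C (.A (.A .L .L) .L) (.A (.C (.A .L .L) (.A .L .L)) (.C .L .L))
theorem B.c42 : Tr.chk (leaf fun A => gB A ⟨10, 57, 226⟩) exNo B.t42 109051904 109051904 939524096 134217728 939524096 134217728 = true := by decide +kernel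

def B.t43 : Tr := .C (.A (.A .L .L) (.C (.A .L .L) .L)) (.A (.C .L .L) (.C .L .L))
theorem B.c43 : Tr.chk (leaf fun A => gB A ⟨10, 57, 226⟩) exNo B.t43 327155712 109051904 939524096 134217728 939524096 134217728 = true := by decide +kernel

def B.t44 : Tr := .C (.A (.A .L .L) .L) (.A (.A .L (.A .L .L)) .L)
theorem B.c44 : Tr.chk (leaf fun A => gB A ⟨10, 57, 226⟩) exNo B.t44 545259520 109051904 603979776 67108864 671088640 134217728 = true := by decide +kernel

def B.t45 : Tr := .C (.A (.A (.C .L .L) .L) .L) (.A (.A (.C .L .L) (.A (.C .L .L) .L)) .L)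
theorem B.c45 : Tr.chk (leaf fun A => gB A ⟨10, 57, 226⟩) exNo B.t45 545259520 109051904 738197504 67108864 671088640 134217728 = true := by decide +kernel

def B.t46 : Tr := .L
theorem B.c46 : Tr.chk (leaf fun A => gB A ⟨10, 57, 226⟩) exNo B.t46 763363328 109051904 671088640 134217728 671088640 134217728 = true := by decide +kernel

end Pool.Agent.FTN.K10
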