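import Pool.Agent.FTN.Region

set_option maxRecDepth 100000

namespace Pool.Agent.FTN.K10

open Pool.Agent.FTA (TM Alg Tr leaf leafS exNo exV chkA chkB chkC)

def B.t47 : Tr := .C (.A (.A .L (.A .L (.C .L .L))) .L) (.A (.A .L (.A .L (.A (.C .L .L) (.C .L .L)))) .L)
theorem B.c47 : Tr.chk (leaf fun A => gB A ⟨10, 57, 226⟩) exNo B.t47 545259520 109051904 603979776 67108864 939524096 134217728 = true := by decide +kernel

def B.t48 : Tr := .C (.A (.A .L (.A (.C .L .L) (.A (.C .L .L) .L))) .L) (.A (.A .L (.A (.C .L .L) (.A (.C .L .L) (.C .L .L)))) .L)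
theorem B.c48 : Tr.chk (leaf fun A => gB A ⟨10, 57, 226⟩) exNo B.t48 545259520 109051904 738197504 67108864 939524096 134217728 = true := by decide +kernel

def B.t49 : Tr := .L
theorem B.c49 : Tr.chk (leaf fun A => gB A ⟨10, 57, 226⟩) exNo B.t49 763363328 109051904 671088640 134217728 939524096 134217728 = true := by decide +kernel

def B.t50 : Tr := .C (.A (.B (.A (.C .L .L) .L) (.C (.A .L .L) (.A .L .L))) .L) (.A (.A (.C .L .L) (.A .L .L)) .L)
theorem B.c50 : Tr.chk (leaf fun A => gB A ⟨10, 57, 226⟩) exNo B.t50 545259520 109051904 872415232 67108864 671088640 134217728 = true := by decide +kernel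

def B.t51 : Tr := .A (.B (.C (.A (.A .L .L) .L) (.A .L .L)) (.C .L (.A (.A .L .L) .L))) .L
theorem B.c51 : Tr.chk (leaf fun A => gB A ⟨10, 57, 226⟩) exNo B.t51 545259520 109051904 1006632960 67108864 603979776 67108864 = true := by decide +kernel

def B.t52 : Tr := .A (.B (.A (.C .L .L) .L) (.A (.C .L .L) .L)) .L
theorem B.c52 : Tr.chk (leaf fun A => gB A ⟨10, 57, 226⟩) exNo B.t52 545259520 109051904 1006632960 67108864 738197504 67108864 = true := by decide +kernel

def B.t53 : Tr := .L
theorem B.c53 : Tr.chk (leaf fun A => gB A ⟨10, 57, 226⟩) exNo B.t53 763363328 109051904 939524096 134217728 671088640 134217728 = true := by decide +kernel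

def B.t54 : Tr := .A (.A (.C .L .L) (.A (.C .L .L) .L)) .L
theorem B.c54 : Tr.chk (leaf fun A => gB A ⟨10, 57, 226⟩) exNo B.t54 545259520 109051904 872415232 67108864 872415232 67108864 = true := by decide +kernel

def B.t55 : Tr := .A (.A (.C .L .L) (.A (.C .L .L) (.A (.C .L .L) (.A (.C .L .L) (.C .L .L))))) .L
theorem B.c55 : Tr.chk (leaf fun A => gB A ⟨10, 57, 226⟩) exNo B.t55 545259520 109051904 872415232 67108864 1006632960 67108864 = true := by decide +kernel

end Pool.Agent.FTN.K10
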