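import Pool.Agent.FTN.Region

set_option maxRecDepth 100000

namespace Pool.Agent.FTN.K10

open Pool.Agent.FTA (TM Alg Tr leaf leafS exNo exV chkA chkB chkC)

def V.t11 : Tr := .B (.C (.B .L (.A .L .L)) (.A .L (.B .L .L))) (.C (.B (.A .L .L) (.B (.C .L .L) (.C (.B .L .L) .L))) .L)
theorem V.c11 : Tr.chk (leaf fun A => gV A ⟨10, 57, 226⟩) exV V.t11 134217728 134217728 1006632960 67108864 1006632960 67108864 = true := by decide +kernel

def V.t12 : Tr := .B (.C (.B .L (.A .L .L)) (.B .L (.C .L .L))) (.C (.B (.A .L (.C .L .L)) (.C .L .L)) (.B (.C .L .L) (.C .L (.A .L .L))))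
theorem V.c12 : Tr.chk (leaf fun A => gV A ⟨10, 57, 226⟩) exV V.t12 402653184 134217728 671088640 134217728 805306368 268435456 = true := by decide +kernel

def V.t13 : Tr := .C (.C (.B (.C .L (.A .L .L)) .L) (.B (.B (.A .L .L) .L) .L)) (.B (.C (.B (.A .L .L) .L) (.B (.A .L .L) (.A .L .L))) .L)
theorem V.c13 : Tr.chk (leaf fun A => gV A ⟨10, 57, 226⟩) exV V.t13 402653184 134217728 939524096 134217728 805306368 268435456 = true := by decide +kernel

def V.t14 : Tr := .B (.C (.C (.C (.B .L .L) .L) .L) (.C .L .L)) (.C (.B (.C .L .L) (.B .L .L)) (.B (.B .L .L) (.B .L .L)))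
theorem V.c14 : Tr.chk (leaf fun A => gV A ⟨10, 57, 226⟩) exV V.t14 671088640 134217728 268435456 268435456 268435456 268435456 = true := by decide +kernel

def V.t15 : Tr := .C (.B (.C (.B (.C (.B (.A .L (.C (.B (.C (.B (.A .L (.B (.A .L .X) .L)) .L) .L) .L) .L)) .L) .L) .L) .L) .L) (.C .L .L)
theorem V.c15 : Tr.chk (leaf fun A => gV A ⟨10, 57, 226⟩) exV V.t15 939524096 134217728 134217728 134217728 67108864 67108864 = true := by decide +kernel

def V.t16 : Tr := .C .L .L
theorem V.c16 : Tr.chk (leaf fun A => gV A ⟨10, 57, 226⟩) exV V.t16 939524096 134217728 134217728 134217728 201326592 67108864 = true := by decide +kernel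

def V.t17 : Tr := .B .L .L
theorem V.c17 : Tr.chk (leaf fun A => gV A ⟨10, 57, 226⟩) exV V.t17 939524096 134217728 134217728 134217728 402653184 134217728 = true := by decide +kernel

end Pool.Agent.FTN.K10
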