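import Pool.Agent.FTN.Region

set_option maxRecDepth 100000

namespace Pool.Agent.FTN.K10

open Pool.Agent.FTA (TM Alg Tr leaf leafS exNo exV chkA chkB chkC)

def V.t25 : Tr := .B (.B (.A (.C .L .L) (.B (.C .L .L) (.C .L .L))) (.A (.C .L .L) (.C .L .L))) (.B (.A (.C .L .L) (.C .L .L)) (.A .L .L))
theorem V.c25 : Tr.chk (leaf fun A => gV A ⟨10, 57, 226⟩) exV V.t25 671088640 134217728 671088640 134217728 939524096 134217728 = true := by decide +kernel

def V.t26 : Tr := .C .L .L
theorem V.c26 : Tr.chk (leaf fun A => gV A ⟨10, 57, 226⟩) exV V.t26 671088640 134217728 939524096 134217728 805306368 268435456 = true := by decide +kernel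

def V.t27 : Tr := .B (.C (.B .L .L) (.B .L .L)) .L
theorem V.c27 : Tr.chk (leaf fun A => gV A ⟨10, 57, 226⟩) exV V.t27 939524096 134217728 671088640 134217728 671088640 134217728 = true := by decide +kernel

def V.t28 : Tr := .A (.B (.A (.C .L .L) (.C .L .L)) (.A (.C .L .L) (.C .L .L))) (.B (.C .L (.A .L (.B .L .L))) (.C .L (.A .L .L)))
theorem V.c28 : Tr.chk (leaf fun A => gV A ⟨10, 57, 226⟩) exV V.t28 939524096 134217728 570425344 33554432 939524096 134217728 = true := by decide +kernel

def V.t29 : Tr := .A (.C .L (.A .L .L)) .L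
theorem V.c29 : Tr.chk (leaf fun A => gV A ⟨10, 57, 226⟩) exV V.t29 939524096 134217728 637534208 33554432 939524096 134217728 = true := by decide +kernel

def V.t30 : Tr := .L
theorem V.c30 : Tr.chk (leaf fun A => gV A ⟨10, 57, 226⟩) exV V.t30 939524096 134217728 738197504 67108864 939524096 134217728 = true := by decide +kernel

def V.t31 : Tr := .L
theorem V.c31 : Tr.chk (leaf fun A => gV A ⟨10, 57, 226⟩) exV V.t31 939524096 134217728 939524096 134217728 805306368 268435456 = true := by decide +kernel

def HN.t0 : Tr := .C (.A (.C (.A (.C (.A (.C (.B .L .L) .L) .L) .L) .L) (.B .L .L)) .L) (.B .L .L)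
theorem HN.c0 : Tr.chk (leaf fun A => gHN A ⟨10, 57, 226⟩) exNo HN.t0 25165824 25165824 268435456 268435456 33554432 33554432 = true := by decide +kernel

def HN.t1 : Tr := .C (.A (.C (.A (.C (.A (.C (.B .L .L) .L) .L) .L) .L) .L) .L) .L
theorem HN.c1 : Tr.chk (leaf fun A => gHN A ⟨10, 57, 226⟩) exNo HN.t1 25165824 25165824 805306368 268435456 33554432 33554432 = true := by decide +kernel

def HN.t2 : Tr := .B .L .L
theorem HN.c2 : Tr.chk (leaf fun A => gHN A ⟨10, 57, 226⟩) exNo HN.t2 75497472 25165824 536870912 536870912 33554432 33554432 = true := by decide +kernel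

def HN.t3 : Tr := .B .L .L
theorem HN.c3 : Tr.chk (leaf fun A => gHN A ⟨10, 57, 226⟩) exNo HN.t3 50331648 50331648 536870912 536870912 100663296 33554432 = true := by decide +kernel

def HN.t4 : Tr := .B .L .L
theorem HN.c4 : Tr.chk (leaf fun A => gHN A ⟨10, 57, 226⟩) exNo HN.t4 150994944 50331648 536870912 536870912 67108864 67108864 = true := by decide +kernel

def HN.t5 : Tr := .B (.B .L .L) (.C .L .L)
theorem HN.c5 : Tr.chk (leaf fun A => gHN A ⟨10, 57, 226⟩) exNo HN.t5 100663296 100663296 536870912 536870912 201326592 67108864 = true := by decide +kernel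

def HN.t6 : Tr := .B (.B .L .L) (.C .L .L)
theorem HN.c6 : Tr.chk (leaf fun A => gHN A ⟨10, 57, 226⟩) exNo HN.t6 100663296 100663296 536870912 536870912 402653184 134217728 = true := by decide +kernel

end Pool.Agent.FTN.K10
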