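import Pool.Agent.FTN.Region

set_option maxRecDepth 100000

namespace Pool.Agent.FTN.K10

open Pool.Agent.FTA (TM Alg Tr leaf leafS exNo exV chkA chkB chkC)

def N.t22 : Tr := .C (.A (.C .L (.C .L .L)) (.A (.C .L .L) .L)) (.A (.C (.A .L .L) (.A .L .L)) (.A (.C .L .L) (.C .L .L)))
theorem N.c22 : Tr.chk (leaf fun A => gN A ⟨10, 57, 226⟩) exNo N.t22 654311424 218103808 671088640 134217728 355467264 118489088 = true := by decide +kernel

def N.t23 : Tr := .C (.A (.C .L (.C .L .L)) (.A (.C .L .L) .L)) (.C (.A (.C .L .L) (.A .L (.A .L .L))) (.A (.C .L .L) (.A .L (.C .L .L))))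
theorem N.c23 : Tr.chk (leaf fun A => gN A ⟨10, 57, 226⟩) exNo N.t23 654311424 218103808 939524096 134217728 236978176 236978176 = true := by decide +kernel

def N.t24 : Tr := .A (.C (.C .L .L) (.A .L .L)) (.C (.A .L .L) (.A .L .L))
theorem N.c24 : Tr.chk (leaf fun A => gN A ⟨10, 57, 226⟩) exNo N.t24 218103808 218103808 805306368 268435456 533200896 59244544 = true := by decide +kernel

def N.t25 : Tr := .A (.A (.C (.A .L .L) (.A (.A .L .L) .L)) (.C .L .L)) (.A .L .L)
theorem N.c25 : Tr.chk (leaf fun A => gN A ⟨10, 57, 226⟩) exNo N.t25 218103808 218103808 805306368 268435456 651689984 59244544 = true := by decide +kernel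

def N.t26 : Tr := .A (.A (.A (.C (.A (.A (.C .L .L) .L) .L) (.A .L .L)) (.A (.C .L .L) (.C .L .L))) (.C .L .L)) (.C (.A .L .L) (.C .L .L))
theorem N.c26 : Tr.chk (leaf fun A => gN A ⟨10, 57, 226⟩) exNo N.t26 218103808 218103808 805306368 268435456 829423616 118489088 = true := by decide +kernel

def N.t27 : Tr := .A (.C (.C (.A .L .L) .L) (.C .L .L)) (.C (.A (.C .L .L) (.C .L .L)) (.C (.A .L .L) (.A .L .L)))
theorem N.c27 : Tr.chk (leaf fun A => gN A ⟨10, 57, 226⟩) exNo N.t27 654311424 218103808 671088640 134217728 592445440 118489088 = true := by decide +kernel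

end Pool.Agent.FTN.K10
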