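import Pool.Agent.FTN.Region

set_option maxRecDepth 100000

namespace Pool.Agent.FTN.K10

open Pool.Agent.FTA (TM Alg Tr leaf leafS exNo exV chkA chkB chkC)

def A.t10 : Tr := .A (.C (.A .L .L) (.C (.B (.A .L .L) (.A .L .L)) (.B (.B (.C .L .L) (.C .L .L)) (.B (.A .L .L) (.A .L .L))))) .L
theorem A.c10 : Tr.chk (leaf fun A => gA A ⟨10, 57, 226⟩) exNo A.t10 654311424 218103808 402653184 134217728 134217728 134217728 = true := by decide +kernel

def A.t11 : Tr := .A (.C (.B (.A .L (.B .L .L)) (.A .L .L)) (.B (.A .L (.B .L .L)) (.A .L .L))) .L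
theorem A.c11 : Tr.chk (leaf fun A => gA A ⟨10, 57, 226⟩) exNo A.t11 654311424 218103808 402653184 134217728 402653184 134217728 = true := by decide +kernel

def A.t12 : Tr := .B (.C (.A .L .L) (.A (.B (.A .L .L) .L) .L)) (.C .L .L)
theorem A.c12 : Tr.chk (leaf fun A => gA A ⟨10, 57, 226⟩) exNo A.t12 109051904 109051904 134217728 134217728 603979776 67108864 = true := by decide +kernel

def A.t13 : Tr := .A (.A (.B (.C (.A (.B (.C .L .L) .L) .L) (.A (.B (.A (.B .L .L) .L) .L) .L)) (.C .L .L)) (.B .L .L)) (.B .L .L)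
theorem A.c13 : Tr.chk (leaf fun A => gA A ⟨10, 57, 226⟩) exNo A.t13 109051904 109051904 67108864 67108864 738197504 67108864 = true := by decide +kernel

def A.t14 : Tr := .A (.C .L .L) .L
theorem A.c14 : Tr.chk (leaf fun A => gA A ⟨10, 57, 226⟩) exNo A.t14 109051904 109051904 201326592 67108864 738197504 67108864 = true := by decide +kernel

def A.t15 : Tr := .B (.C (.B (.C .L .L) (.C .L .L)) (.B (.A .L .L) (.A .L .L))) (.C (.B (.C .L .L) .L) (.B (.A .L .L) .L))
theorem A.c15 : Tr.chk (leaf fun A => gA A ⟨10, 57, 226⟩) exNo A.t15 327155712 109051904 134217728 134217728 671088640 134217728 = true := by decide +kernel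

def A.t16 : Tr := .A (.B (.A (.B (.A (.B .L .L) .L) (.A .L .L)) (.B .L .L)) (.A (.C .L .L) .L)) (.B (.B .L .L) .L)
theorem A.c16 : Tr.chk (leaf fun A => gA A ⟨10, 57, 226⟩) exNo A.t16 109051904 109051904 134217728 134217728 872415232 67108864 = true := by decide +kernel

end Pool.Agent.FTN.K10
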