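import Pool.Agent.FTN.Region

set_option maxRecDepth 100000

namespace Pool.Agent.FTN.K10

open Pool.Agent.FTA (TM Alg Tr leaf leafS exNo exV chkA chkB chkC)

def A.t24 : Tr := .C (.A (.A (.A (.C .L .L) .L) .L) (.A .L .L)) (.A (.C (.A .L .L) (.A .L (.A .L .L))) (.C (.A .L .L) (.B .L .L)))
theorem A.c24 : Tr.chk (leaf fun A => gA A ⟨10, 57, 226⟩) exNo A.t24 109051904 109051904 402653184 134217728 1006632960 67108864 = true := by decide +kernel

def A.t25 : Tr := .C (.B (.A .L .L) (.A .L .L)) (.A (.B .L .L) (.B .L .L))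
theorem A.c25 : Tr.chk (leaf fun A => gA A ⟨10, 57, 226⟩) exNo A.t25 327155712 109051904 402653184 134217728 1006632960 67108864 = true := by decide +kernel

def A.t26 : Tr := .C (.B (.A .L (.C .L .L)) (.A .L .L)) (.B (.B (.C .L .L) (.C .L .L)) (.B (.C .L .L) (.C .L .L)))
theorem A.c26 : Tr.chk (leaf fun A => gA A ⟨10, 57, 226⟩) exNo A.t26 545259520 109051904 67108864 67108864 671088640 134217728 = true := by decide +kernel

def A.t27 : Tr := .C (.B (.A .L .L) (.A .L .L)) (.B (.A .L .L) (.A .L .L))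
theorem A.c27 : Tr.chk (leaf fun A => gA A ⟨10, 57, 226⟩) exNo A.t27 545259520 109051904 201326592 67108864 671088640 134217728 = true := by decide +kernel

def A.t28 : Tr := .B (.C (.A .L .L) (.B (.A .L .L) (.A .L .L))) (.A (.B (.C .L .L) (.C .L .L)) .L)
theorem A.c28 : Tr.chk (leaf fun A => gA A ⟨10, 57, 226⟩) exNo A.t28 763363328 109051904 134217728 134217728 603979776 67108864 = true := by decide +kernel

def A.t29 : Tr := .C (.B (.B (.C .L .L) (.C .L .L)) (.B (.A .L .L) (.A .L .L))) (.B (.B (.C .L .L) (.C .L .L)) (.B (.C .L .L) (.A .L .L)))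
theorem A.c29 : Tr.chk (leaf fun A => gA A ⟨10, 57, 226⟩) exNo A.t29 763363328 109051904 67108864 67108864 738197504 67108864 = true := by decide +kernel

def A.t30 : Tr := .A (.B (.C .L .L) .L) (.A (.C .L .L) .L)
theorem A.c30 : Tr.chk (leaf fun A => gA A ⟨10, 57, 226⟩) exNo A.t30 763363328 109051904 201326592 67108864 738197504 67108864 = true := by decide +kernel

end Pool.Agent.FTN.K10
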