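import Pool.Agent.FTN.K.P10F0
import Pool.Agent.FTN.K.P10F1
import Pool.Agent.FTN.K.P10F2
import Pool.Agent.FTN.K.P10F3
import Pool.Agent.FTN.K.P10F4
import Pool.Agent.FTN.K.P10F5
import Pool.Agent.FTN.K.P10F6
import Pool.Agent.FTN.K.P10F7
import Pool.Agent.FTN.K.P10F8
import Pool.Agent.FTN.K.P10F9
import Pool.Agent.FTN.K.P10F10
import Pool.Agent.FTN.K.P10F11
import Pool.Agent.FTN.K.P10F12
import Pool.Agent.FTN.K.P10F13
import Pool.Agent.FTN.K.P10F14
import Pool.Agent.FTN.K.P10F15
import Pool.Agent.FTN.K.P10F16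
import Pool.Agent.FTN.K.P10F17
import Pool.Agent.FTN.K.P10F18
import Pool.Agent.FTN.K.P10F19
import Pool.Agent.FTN.K.P10F20
import Pool.Agent.FTN.K.P10F21
import Pool.Agent.FTN.K.P10F22
import Pool.Agent.FTN.K.P10F23
import Pool.Agent.FTN.K.P10F24
import Pool.Agent.FTN.K.P10F25
import Pool.Agent.FTN.K.P10F26
import Pool.Agent.FTN.K.P10F27
import Pool.Agent.FTN.K.P10F28
import Pool.Agent.FTN.REG

set_option maxRecDepth 100000

namespace Pool.Agent.FTN.K10

open Pool.Agent.FTA (TM Alg Tr leaf leafS exNo exV chkA chkB chkC)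

def N.u0 : Tr := .C N.t2 N.t3
theorem N.d0 : Tr.chk (leaf fun A => gN A ⟨10, 57, 226⟩) exNo N.u0 218103808 218103808 268435456 268435456 414711808 59244544 = true := chkC rfl N.c2 N.c3

def N.u1 : Tr := .C N.t1 N.u0
theorem N.d1 : Tr.chk (leaf fun A => gN A ⟨10, 57, 226⟩) exNo N.u1 218103808 218103808 268435456 268435456 355467264 118489088 = true := chkC rfl N.c1 N.d0

def N.u2 : Tr := .C N.t0 N.u1
theorem N.d2 : Tr.chk (leaf fun A => gN A ⟨10, 57, 226⟩) exNo N.u2 218103808 218103808 268435456 268435456 236978176 236978176 = true := chkC rfl N.c0 N.d1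

def N.u3 : Tr := .A N.t5 N.t6
theorem N.d3 : Tr.chk (leaf fun A => gN A ⟨10, 57, 226⟩) exNo N.u3 654311424 218103808 134217728 134217728 355467264 118489088 = true := chkA rfl N.c5 N.c6

def N.u4 : Tr := .C N.t4 N.u3
theorem N.d4 : Tr.chk (leaf fun A => gN A ⟨10, 57, 226⟩) exNo N.u4 654311424 218103808 134217728 134217728 236978176 236978176 = true := chkC rfl N.c4 N.d3

def N.u5 : Tr := .A N.t8 N.t9
theorem N.d5 : Tr.chk (leaf fun A => gN A ⟨10, 57, 226⟩) exNo N.u5 654311424 218103808 402653184 134217728 355467264 118489088 = true := chkA rfl N.c8 N.c9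

def N.u6 : Tr := .C N.t7 N.u5
theorem N.d6 : Tr.chk (leaf fun A => gN A ⟨10, 57, 226⟩) exNo N.u6 654311424 218103808 402653184 134217728 236978176 236978176 = true := chkC rfl N.c7 N.d5

def N.u7 : Tr := .B N.u4 N.u6
theorem N.d7 : Tr.chk (leaf fun A => gN A ⟨10, 57, 226⟩) exNo N.u7 654311424 218103808 268435456 268435456 236978176 236978176 = true := chkB rfl N.d4 N.d6

def N.u8 : Tr := .A N.u2 N.u7
theorem N.d8 : Tr.chk (leaf fun A => gN A ⟨10, 57, 226⟩) exNo N.u8 436207616 436207616 268435456 268435456 236978176 236978176 = true := chkA rfl N.d2 N.d7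

def N.u9 : Tr := .C N.t10 N.t11
theorem N.d9 : Tr.chk (leaf fun A => gN A ⟨10, 57, 226⟩) exNo N.u9 218103808 218103808 268435456 268435456 592445440 118489088 = true := chkC rfl N.c10 N.c11

def N.u10 : Tr := .A N.t12 N.t13
theorem N.d10 : Tr.chk (leaf fun A => gN A ⟨10, 57, 226⟩) exNo N.u10 218103808 218103808 268435456 268435456 829423616 118489088 = true := chkA rfl N.c12 N.c13

def N.u11 : Tr := .C N.u9 N.u10
theorem N.d11 : Tr.chk (leaf fun A => gN A ⟨10, 57, 226⟩) exNo N.u11 218103808 218103808 268435456 268435456 710934528 236978176 = true := chkC rfl N.d9 N.d10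

def N.u12 : Tr := .A N.t14 N.t15
theorem N.d12 : Tr.chk (leaf fun A => gN A ⟨10, 57, 226⟩) exNo N.u12 654311424 218103808 134217728 134217728 592445440 118489088 = true := chkA rfl N.c14 N.c15

def N.u13 : Tr := .C N.t16 N.t17
theorem N.d13 : Tr.chk (leaf fun A => gN A ⟨10, 57, 226⟩) exNo N.u13 654311424 218103808 134217728 134217728 829423616 118489088 = true := chkC rfl N.c16 N.c17

def N.u14 : Tr := .C N.u12 N.u13
theorem N.d14 : Tr.chk (leaf fun A => gN A ⟨10, 57, 226⟩) exNo N.u14 654311424 218103808 134217728 134217728 710934528 236978176 = true := chkC rfl N.d12 N.d13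

def N.u15 : Tr := .C N.t18 N.t19
theorem N.d15 : Tr.chk (leaf fun A => gN A ⟨10, 57, 226⟩) exNo N.u15 654311424 218103808 402653184 134217728 710934528 236978176 = true := chkC rfl N.c18 N.c19

def N.u16 : Tr := .B N.u14 N.u15
theorem N.d16 : Tr.chk (leaf fun A => gN A ⟨10, 57, 226⟩) exNo N.u16 654311424 218103808 268435456 268435456 710934528 236978176 = true := chkB rfl N.d14 N.d15

def N.u17 : Tr := .A N.u11 N.u16
theorem N.d17 : Tr.chk (leaf fun A => gN A ⟨10, 57, 226⟩) exNo N.u17 436207616 436207616 268435456 268435456 710934528 236978176 = true := chkA rfl N.d11 N.d16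

def N.u18 : Tr := .C N.u8 N.u17
theorem N.d18 : Tr.chk (leaf fun A => gN A ⟨10, 57, 226⟩) exNo N.u18 436207616 436207616 268435456 268435456 473956352 473956352 = true := chkC rfl N.d8 N.d17

def N.u19 : Tr := .C N.t21 N.t22
theorem N.d19 : Tr.chk (leaf fun A => gN A ⟨10, 57, 226⟩) exNo N.u19 654311424 218103808 671088640 134217728 236978176 236978176 = true := chkC rfl N.c21 N.c22

def N.u20 : Tr := .B N.u19 N.t23
theorem N.d20 : Tr.chk (leaf fun A => gN A ⟨10, 57, 226⟩) exNo N.u20 654311424 218103808 805306368 268435456 236978176 236978176 = true := chkB rfl N.d19 N.c23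

def N.u21 : Tr := .A N.t20 N.u20
theorem N.d21 : Tr.chk (leaf fun A => gN A ⟨10, 57, 226⟩) exNo N.u21 436207616 436207616 805306368 268435456 236978176 236978176 = true := chkA rfl N.c20 N.d20

def N.u22 : Tr := .C N.t24 N.t25
theorem N.d22 : Tr.chk (leaf fun A => gN A ⟨10, 57, 226⟩) exNo N.u22 218103808 218103808 805306368 268435456 592445440 118489088 = true := chkC rfl N.c24 N.c25

def N.u23 : Tr := .C N.u22 N.t26
theorem N.d23 : Tr.chk (leaf fun A => gN A ⟨10, 57, 226⟩) exNo N.u23 218103808 218103808 805306368 268435456 710934528 236978176 = true := chkC rfl N.d22 N.c26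

def N.u24 : Tr := .C N.t27 N.t28
theorem N.d24 : Tr.chk (leaf fun A => gN A ⟨10, 57, 226⟩) exNo N.u24 654311424 218103808 671088640 134217728 710934528 236978176 = true := chkC rfl N.c27 N.c28

def N.u25 : Tr := .C N.t29 N.t30
theorem N.d25 : Tr.chk (leaf fun A => gN A ⟨10, 57, 226⟩) exNo N.u25 654311424 218103808 939524096 134217728 710934528 236978176 = true := chkC rfl N.c29 N.c30

def N.u26 : Tr := .B N.u24 N.u25
theorem N.d26 : Tr.chk (leaf fun A => gN A ⟨10, 57, 226⟩) exNo N.u26 654311424 218103808 805306368 268435456 710934528 236978176 = true := chkB rfl N.d24 N.d25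

def N.u27 : Tr := .A N.u23 N.u26
theorem N.d27 : Tr.chk (leaf fun A => gN A ⟨10, 57, 226⟩) exNo N.u27 436207616 436207616 805306368 268435456 710934528 236978176 = true := chkA rfl N.d23 N.d26

def N.u28 : Tr := .C N.u21 N.u27
theorem N.d28 : Tr.chk (leaf fun A => gN A ⟨10, 57, 226⟩) exNo N.u28 436207616 436207616 805306368 268435456 473956352 473956352 = true := chkC rfl N.d21 N.d27

def N.u29 : Tr := .B N.u18 N.u28
theorem N.d29 : Tr.chk (leaf fun A => gN A ⟨10, 57, 226⟩) exNo N.u29 436207616 436207616 536870912 536870912 473956352 473956352 = true := chkB rfl N.d18 N.d28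

/-- the region N -/
theorem N.all : ∃ t, Tr.chk (leaf fun A => gN A ⟨10, 57, 226⟩) exNo t 436207616 436207616 536870912 536870912 473956352 473956352 = true := ⟨N.u29, N.d29⟩

def A.u0 : Tr := .B A.t2 A.t3
theorem A.d0 : Tr.chk (leaf fun A => gA A ⟨10, 57, 226⟩) exNo A.u0 218103808 218103808 134217728 134217728 469762048 67108864 = true := chkB rfl A.c2 A.c3

def A.u1 : Tr := .B A.t4 A.t5
theorem A.d1 : Tr.chk (leaf fun A => gA A ⟨10, 57, 226⟩) exNo A.u1 218103808 218103808 402653184 134217728 469762048 67108864 = true := chkB rfl A.c4 A.c5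

def A.u2 : Tr := .B A.u0 A.u1
theorem A.d2 : Tr.chk (leaf fun A => gA A ⟨10, 57, 226⟩) exNo A.u2 218103808 218103808 268435456 268435456 469762048 67108864 = true := chkB rfl A.d0 A.d1

def A.u3 : Tr := .C A.t1 A.u2
theorem A.d3 : Tr.chk (leaf fun A => gA A ⟨10, 57, 226⟩) exNo A.u3 218103808 218103808 268435456 268435456 402653184 134217728 = true := chkC rfl A.c1 A.d2

def A.u4 : Tr := .C A.t0 A.u3
theorem A.d4 : Tr.chk (leaf fun A => gA A ⟨10, 57, 226⟩) exNo A.u4 218103808 218103808 268435456 268435456 268435456 268435456 = true := chkC rfl A.c0 A.d3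

def A.u5 : Tr := .C A.t7 A.t8
theorem A.d5 : Tr.chk (leaf fun A => gA A ⟨10, 57, 226⟩) exNo A.u5 545259520 109051904 134217728 134217728 402653184 134217728 = true := chkC rfl A.c7 A.c8

def A.u6 : Tr := .A A.u5 A.t9
theorem A.d6 : Tr.chk (leaf fun A => gA A ⟨10, 57, 226⟩) exNo A.u6 654311424 218103808 134217728 134217728 402653184 134217728 = true := chkA rfl A.d5 A.c9

def A.u7 : Tr := .C A.t6 A.u6
theorem A.d7 : Tr.chk (leaf fun A => gA A ⟨10, 57, 226⟩) exNo A.u7 654311424 218103808 134217728 134217728 268435456 268435456 = true := chkC rfl A.c6 A.d6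

def A.u8 : Tr := .C A.t10 A.t11
theorem A.d8 : Tr.chk (leaf fun A => gA A ⟨10, 57, 226⟩) exNo A.u8 654311424 218103808 402653184 134217728 268435456 268435456 = true := chkC rfl A.c10 A.c11

def A.u9 : Tr := .B A.u7 A.u8
theorem A.d9 : Tr.chk (leaf fun A => gA A ⟨10, 57, 226⟩) exNo A.u9 654311424 218103808 268435456 268435456 268435456 268435456 = true := chkB rfl A.d7 A.d8

def A.u10 : Tr := .A A.u4 A.u9
theorem A.d10 : Tr.chk (leaf fun A => gA A ⟨10, 57, 226⟩) exNo A.u10 436207616 436207616 268435456 268435456 268435456 268435456 = true := chkA rfl A.d4 A.d9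

def A.u11 : Tr := .B A.t13 A.t14
theorem A.d11 : Tr.chk (leaf fun A => gA A ⟨10, 57, 226⟩) exNo A.u11 109051904 109051904 134217728 134217728 738197504 67108864 = true := chkB rfl A.c13 A.c14

def A.u12 : Tr := .C A.t12 A.u11
theorem A.d12 : Tr.chk (leaf fun A => gA A ⟨10, 57, 226⟩) exNo A.u12 109051904 109051904 134217728 134217728 671088640 134217728 = true := chkC rfl A.c12 A.d11

def A.u13 : Tr := .A A.u12 A.t15
theorem A.d13 : Tr.chk (leaf fun A => gA A ⟨10, 57, 226⟩) exNo A.u13 218103808 218103808 134217728 134217728 671088640 134217728 = true := chkA rfl A.d12 A.c15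

def A.u14 : Tr := .A A.t16 A.t17
theorem A.d14 : Tr.chk (leaf fun A => gA A ⟨10, 57, 226⟩) exNo A.u14 218103808 218103808 134217728 134217728 872415232 67108864 = true := chkA rfl A.c16 A.c17

def A.u15 : Tr := .C A.t19 A.t20
theorem A.d15 : Tr.chk (leaf fun A => gA A ⟨10, 57, 226⟩) exNo A.u15 109051904 109051904 134217728 134217728 1040187392 33554432 = true := chkC rfl A.c19 A.c20

def A.u16 : Tr := .A A.u15 A.t21
theorem A.d16 : Tr.chk (leaf fun A => gA A ⟨10, 57, 226⟩) exNo A.u16 218103808 218103808 134217728 134217728 1040187392 33554432 = true := chkA rfl A.d15 A.c21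

def A.u17 : Tr := .C A.t18 A.u16
theorem A.d17 : Tr.chk (leaf fun A => gA A ⟨10, 57, 226⟩) exNo A.u17 218103808 218103808 134217728 134217728 1006632960 67108864 = true := chkC rfl A.c18 A.d16

def A.u18 : Tr := .C A.u14 A.u17
theorem A.d18 : Tr.chk (leaf fun A => gA A ⟨10, 57, 226⟩) exNo A.u18 218103808 218103808 134217728 134217728 939524096 134217728 = true := chkC rfl A.d14 A.d17

def A.u19 : Tr := .C A.u13 A.u18
theorem A.d19 : Tr.chk (leaf fun A => gA A ⟨10, 57, 226⟩) exNo A.u19 218103808 218103808 134217728 134217728 805306368 268435456 = true := chkC rfl A.d13 A.d18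

def A.u20 : Tr := .A A.t24 A.t25
theorem A.d20 : Tr.chk (leaf fun A => gA A ⟨10, 57, 226⟩) exNo A.u20 218103808 218103808 402653184 134217728 1006632960 67108864 = true := chkA rfl A.c24 A.c25

def A.u21 : Tr := .C A.t23 A.u20
theorem A.d21 : Tr.chk (leaf fun A => gA A ⟨10, 57, 226⟩) exNo A.u21 218103808 218103808 402653184 134217728 939524096 134217728 = true := chkC rfl A.c23 A.d20

def A.u22 : Tr := .C A.t22 A.u21
theorem A.d22 : Tr.chk (leaf fun A => gA A ⟨10, 57, 226⟩) exNo A.u22 218103808 218103808 402653184 134217728 805306368 268435456 = true := chkC rfl A.c22 A.d21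

def A.u23 : Tr := .B A.u19 A.u22
theorem A.d23 : Tr.chk (leaf fun A => gA A ⟨10, 57, 226⟩) exNo A.u23 218103808 218103808 268435456 268435456 805306368 268435456 = true := chkB rfl A.d19 A.d22

def A.u24 : Tr := .B A.t26 A.t27
theorem A.d24 : Tr.chk (leaf fun A => gA A ⟨10, 57, 226⟩) exNo A.u24 545259520 109051904 134217728 134217728 671088640 134217728 = true := chkB rfl A.c26 A.c27

def A.u25 : Tr := .B A.t29 A.t30
theorem A.d25 : Tr.chk (leaf fun A => gA A ⟨10, 57, 226⟩) exNo A.u25 763363328 109051904 134217728 134217728 738197504 67108864 = true := chkB rfl A.c29 A.c30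

def A.u26 : Tr := .C A.t28 A.u25
theorem A.d26 : Tr.chk (leaf fun A => gA A ⟨10, 57, 226⟩) exNo A.u26 763363328 109051904 134217728 134217728 671088640 134217728 = true := chkC rfl A.c28 A.d25

def A.u27 : Tr := .A A.u24 A.u26
theorem A.d27 : Tr.chk (leaf fun A => gA A ⟨10, 57, 226⟩) exNo A.u27 654311424 218103808 134217728 134217728 671088640 134217728 = true := chkA rfl A.d24 A.d26

def A.u28 : Tr := .A A.t31 A.t32
theorem A.d28 : Tr.chk (leaf fun A => gA A ⟨10, 57, 226⟩) exNo A.u28 654311424 218103808 67108864 67108864 872415232 67108864 = true := chkA rfl A.c31 A.c32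

def A.u29 : Tr := .C A.t33 A.t34
theorem A.d29 : Tr.chk (leaf fun A => gA A ⟨10, 57, 226⟩) exNo A.u29 654311424 218103808 67108864 67108864 1006632960 67108864 = true := chkC rfl A.c33 A.c34

def A.u30 : Tr := .C A.u28 A.u29
theorem A.d30 : Tr.chk (leaf fun A => gA A ⟨10, 57, 226⟩) exNo A.u30 654311424 218103808 67108864 67108864 939524096 134217728 = true := chkC rfl A.d28 A.d29

def A.u31 : Tr := .C A.t36 A.t37
theorem A.d31 : Tr.chk (leaf fun A => gA A ⟨10, 57, 226⟩) exNo A.u31 763363328 109051904 201326592 67108864 939524096 134217728 = true := chkC rfl A.c36 A.c37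

def A.u32 : Tr := .A A.t35 A.u31
theorem A.d32 : Tr.chk (leaf fun A => gA A ⟨10, 57, 226⟩) exNo A.u32 654311424 218103808 201326592 67108864 939524096 134217728 = true := chkA rfl A.c35 A.d31

def A.u33 : Tr := .B A.u30 A.u32
theorem A.d33 : Tr.chk (leaf fun A => gA A ⟨10, 57, 226⟩) exNo A.u33 654311424 218103808 134217728 134217728 939524096 134217728 = true := chkB rfl A.d30 A.d32

def A.u34 : Tr := .C A.u27 A.u33
theorem A.d34 : Tr.chk (leaf fun A => gA A ⟨10, 57, 226⟩) exNo A.u34 654311424 218103808 134217728 134217728 805306368 268435456 = true := chkC rfl A.d27 A.d33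

def A.u35 : Tr := .A A.t38 A.t39
theorem A.d35 : Tr.chk (leaf fun A => gA A ⟨10, 57, 226⟩) exNo A.u35 654311424 218103808 402653184 134217728 671088640 134217728 = true := chkA rfl A.c38 A.c39

def A.u36 : Tr := .A A.t42 A.t43
theorem A.d36 : Tr.chk (leaf fun A => gA A ⟨10, 57, 226⟩) exNo A.u36 817889280 54525952 335544320 67108864 939524096 134217728 = true := chkA rfl A.c42 A.c43

def A.u37 : Tr := .A A.t41 A.u36
theorem A.d37 : Tr.chk (leaf fun A => gA A ⟨10, 57, 226⟩) exNo A.u37 763363328 109051904 335544320 67108864 939524096 134217728 = true := chkA rfl A.c41 A.d36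

def A.u38 : Tr := .A A.t45 A.t46
theorem A.d38 : Tr.chk (leaf fun A => gA A ⟨10, 57, 226⟩) exNo A.u38 763363328 109051904 469762048 67108864 1006632960 67108864 = true := chkA rfl A.c45 A.c46

def A.u39 : Tr := .C A.t44 A.u38
theorem A.d39 : Tr.chk (leaf fun A => gA A ⟨10, 57, 226⟩) exNo A.u39 763363328 109051904 469762048 67108864 939524096 134217728 = true := chkC rfl A.c44 A.d38

def A.u40 : Tr := .B A.u37 A.u39
theorem A.d40 : Tr.chk (leaf fun A => gA A ⟨10, 57, 226⟩) exNo A.u40 763363328 109051904 402653184 134217728 939524096 134217728 = true := chkB rfl A.d37 A.d39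

def A.u41 : Tr := .A A.t40 A.u40
theorem A.d41 : Tr.chk (leaf fun A => gA A ⟨10, 57, 226⟩) exNo A.u41 654311424 218103808 402653184 134217728 939524096 134217728 = true := chkA rfl A.c40 A.d40

def A.u42 : Tr := .C A.u35 A.u41
theorem A.d42 : Tr.chk (leaf fun A => gA A ⟨10, 57, 226⟩) exNo A.u42 654311424 218103808 402653184 134217728 805306368 268435456 = true := chkC rfl A.d35 A.d41

def A.u43 : Tr := .B A.u34 A.u42
theorem A.d43 : Tr.chk (leaf fun A => gA A ⟨10, 57, 226⟩) exNo A.u43 654311424 218103808 268435456 268435456 805306368 268435456 = true := chkB rfl A.d34 A.d42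

def A.u44 : Tr := .A A.u23 A.u43
theorem A.d44 : Tr.chk (leaf fun A => gA A ⟨10, 57, 226⟩) exNo A.u44 436207616 436207616 268435456 268435456 805306368 268435456 = true := chkA rfl A.d23 A.d43

def A.u45 : Tr := .C A.u10 A.u44
theorem A.d45 : Tr.chk (leaf fun A => gA A ⟨10, 57, 226⟩) exNo A.u45 436207616 436207616 268435456 268435456 536870912 536870912 = true := chkC rfl A.d10 A.d44

def A.u46 : Tr := .C A.t49 A.t50
theorem A.d46 : Tr.chk (leaf fun A => gA A ⟨10, 57, 226⟩) exNo A.u46 218103808 218103808 671088640 134217728 469762048 67108864 = true := chkC rfl A.c49 A.c50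

def A.u47 : Tr := .B A.u46 A.t51
theorem A.d47 : Tr.chk (leaf fun A => gA A ⟨10, 57, 226⟩) exNo A.u47 218103808 218103808 805306368 268435456 469762048 67108864 = true := chkB rfl A.d46 A.c51

def A.u48 : Tr := .C A.t48 A.u47
theorem A.d48 : Tr.chk (leaf fun A => gA A ⟨10, 57, 226⟩) exNo A.u48 218103808 218103808 805306368 268435456 402653184 134217728 = true := chkC rfl A.c48 A.d47

def A.u49 : Tr := .C A.t47 A.u48
theorem A.d49 : Tr.chk (leaf fun A => gA A ⟨10, 57, 226⟩) exNo A.u49 218103808 218103808 805306368 268435456 268435456 268435456 = true := chkC rfl A.c47 A.d48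

def A.u50 : Tr := .C A.t52 A.t53
theorem A.d50 : Tr.chk (leaf fun A => gA A ⟨10, 57, 226⟩) exNo A.u50 654311424 218103808 671088640 134217728 268435456 268435456 = true := chkC rfl A.c52 A.c53

def A.u51 : Tr := .C A.t54 A.t55
theorem A.d51 : Tr.chk (leaf fun A => gA A ⟨10, 57, 226⟩) exNo A.u51 654311424 218103808 939524096 134217728 268435456 268435456 = true := chkC rfl A.c54 A.c55

def A.u52 : Tr := .B A.u50 A.u51
theorem A.d52 : Tr.chk (leaf fun A => gA A ⟨10, 57, 226⟩) exNo A.u52 654311424 218103808 805306368 268435456 268435456 268435456 = true := chkB rfl A.d50 A.d51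

def A.u53 : Tr := .A A.u49 A.u52
theorem A.d53 : Tr.chk (leaf fun A => gA A ⟨10, 57, 226⟩) exNo A.u53 436207616 436207616 805306368 268435456 268435456 268435456 = true := chkA rfl A.d49 A.d52

def A.u54 : Tr := .A A.t58 A.t59
theorem A.d54 : Tr.chk (leaf fun A => gA A ⟨10, 57, 226⟩) exNo A.u54 218103808 218103808 671088640 134217728 1006632960 67108864 = true := chkA rfl A.c58 A.c59

def A.u55 : Tr := .C A.t57 A.u54
theorem A.d55 : Tr.chk (leaf fun A => gA A ⟨10, 57, 226⟩) exNo A.u55 218103808 218103808 671088640 134217728 939524096 134217728 = true := chkC rfl A.c57 A.d54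

def A.u56 : Tr := .C A.t56 A.u55
theorem A.d56 : Tr.chk (leaf fun A => gA A ⟨10, 57, 226⟩) exNo A.u56 218103808 218103808 671088640 134217728 805306368 268435456 = true := chkC rfl A.c56 A.d55

def A.u57 : Tr := .A A.t61 A.t62
theorem A.d57 : Tr.chk (leaf fun A => gA A ⟨10, 57, 226⟩) exNo A.u57 218103808 218103808 939524096 134217728 939524096 134217728 = true := chkA rfl A.c61 A.c62

def A.u58 : Tr := .C A.t60 A.u57
theorem A.d58 : Tr.chk (leaf fun A => gA A ⟨10, 57, 226⟩) exNo A.u58 218103808 218103808 939524096 134217728 805306368 268435456 = true := chkC rfl A.c60 A.d57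

def A.u59 : Tr := .B A.u56 A.u58
theorem A.d59 : Tr.chk (leaf fun A => gA A ⟨10, 57, 226⟩) exNo A.u59 218103808 218103808 805306368 268435456 805306368 268435456 = true := chkB rfl A.d56 A.d58

def A.u60 : Tr := .A A.t63 A.t64
theorem A.d60 : Tr.chk (leaf fun A => gA A ⟨10, 57, 226⟩) exNo A.u60 654311424 218103808 671088640 134217728 671088640 134217728 = true := chkA rfl A.c63 A.c64

def A.u61 : Tr := .B A.t66 A.t67
theorem A.d61 : Tr.chk (leaf fun A => gA A ⟨10, 57, 226⟩) exNo A.u61 599785472 54525952 671088640 134217728 939524096 134217728 = true := chkB rfl A.c66 A.c67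

def A.u62 : Tr := .A A.t65 A.u61
theorem A.d62 : Tr.chk (leaf fun A => gA A ⟨10, 57, 226⟩) exNo A.u62 545259520 109051904 671088640 134217728 939524096 134217728 = true := chkA rfl A.c65 A.d61

def A.u63 : Tr := .C A.t68 A.t69
theorem A.d63 : Tr.chk (leaf fun A => gA A ⟨10, 57, 226⟩) exNo A.u63 763363328 109051904 603979776 67108864 939524096 134217728 = true := chkC rfl A.c68 A.c69

def A.u64 : Tr := .B A.u63 A.t70
theorem A.d64 : Tr.chk (leaf fun A => gA A ⟨10, 57, 226⟩) exNo A.u64 763363328 109051904 671088640 134217728 939524096 134217728 = true := chkB rfl A.d63 A.c70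

def A.u65 : Tr := .A A.u62 A.u64
theorem A.d65 : Tr.chk (leaf fun A => gA A ⟨10, 57, 226⟩) exNo A.u65 654311424 218103808 671088640 134217728 939524096 134217728 = true := chkA rfl A.d62 A.d64

def A.u66 : Tr := .C A.u60 A.u65
theorem A.d66 : Tr.chk (leaf fun A => gA A ⟨10, 57, 226⟩) exNo A.u66 654311424 218103808 671088640 134217728 805306368 268435456 = true := chkC rfl A.d60 A.d65

def A.u67 : Tr := .A A.t73 A.t74
theorem A.d67 : Tr.chk (leaf fun A => gA A ⟨10, 57, 226⟩) exNo A.u67 545259520 109051904 872415232 67108864 1006632960 67108864 = true := chkA rfl A.c73 A.c74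

def A.u68 : Tr := .C A.t72 A.u67
theorem A.d68 : Tr.chk (leaf fun A => gA A ⟨10, 57, 226⟩) exNo A.u68 545259520 109051904 872415232 67108864 939524096 134217728 = true := chkC rfl A.c72 A.d67

def A.u69 : Tr := .B A.t77 A.t78
theorem A.d69 : Tr.chk (leaf fun A => gA A ⟨10, 57, 226⟩) exNo A.u69 599785472 54525952 1006632960 67108864 1006632960 67108864 = true := chkB rfl A.c77 A.c78

def A.u70 : Tr := .A A.t76 A.u69
theorem A.d70 : Tr.chk (leaf fun A => gA A ⟨10, 57, 226⟩) exNo A.u70 545259520 109051904 1006632960 67108864 1006632960 67108864 = true := chkA rfl A.c76 A.d69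

def A.u71 : Tr := .C A.t75 A.u70
theorem A.d71 : Tr.chk (leaf fun A => gA A ⟨10, 57, 226⟩) exNo A.u71 545259520 109051904 1006632960 67108864 939524096 134217728 = true := chkC rfl A.c75 A.d70

def A.u72 : Tr := .B A.u68 A.u71
theorem A.d72 : Tr.chk (leaf fun A => gA A ⟨10, 57, 226⟩) exNo A.u72 545259520 109051904 939524096 134217728 939524096 134217728 = true := chkB rfl A.d68 A.d71

def A.u73 : Tr := .A A.u72 A.t79
theorem A.d73 : Tr.chk (leaf fun A => gA A ⟨10, 57, 226⟩) exNo A.u73 654311424 218103808 939524096 134217728 939524096 134217728 = true := chkA rfl A.d72 A.c79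

def A.u74 : Tr := .C A.t71 A.u73
theorem A.d74 : Tr.chk (leaf fun A => gA A ⟨10, 57, 226⟩) exNo A.u74 654311424 218103808 939524096 134217728 805306368 268435456 = true := chkC rfl A.c71 A.d73

def A.u75 : Tr := .B A.u66 A.u74
theorem A.d75 : Tr.chk (leaf fun A => gA A ⟨10, 57, 226⟩) exNo A.u75 654311424 218103808 805306368 268435456 805306368 268435456 = true := chkB rfl A.d66 A.d74

def A.u76 : Tr := .A A.u59 A.u75
theorem A.d76 : Tr.chk (leaf fun A => gA A ⟨10, 57, 226⟩) exNo A.u76 436207616 436207616 805306368 268435456 805306368 268435456 = true := chkA rfl A.d59 A.d75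

def A.u77 : Tr := .C A.u53 A.u76
theorem A.d77 : Tr.chk (leaf fun A => gA A ⟨10, 57, 226⟩) exNo A.u77 436207616 436207616 805306368 268435456 536870912 536870912 = true := chkC rfl A.d53 A.d76

def A.u78 : Tr := .B A.u45 A.u77
theorem A.d78 : Tr.chk (leaf fun A => gA A ⟨10, 57, 226⟩) exNo A.u78 436207616 436207616 536870912 536870912 536870912 536870912 = true := chkB rfl A.d45 A.d77

/-- the region A -/
theorem A.all : ∃ t, Tr.chk (leaf fun A => gA A ⟨10, 57, 226⟩) exNo t 436207616 436207616 536870912 536870912 536870912 536870912 = true := ⟨A.u78, A.d78⟩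

def B.u0 : Tr := .B B.t0 B.t1
theorem B.d0 : Tr.chk (leaf fun A => gB A ⟨10, 57, 226⟩) exNo B.u0 218103808 218103808 268435456 268435456 268435456 268435456 = true := chkB rfl B.c0 B.c1

def B.u1 : Tr := .C B.t2 B.t3
theorem B.d1 : Tr.chk (leaf fun A => gB A ⟨10, 57, 226⟩) exNo B.u1 654311424 218103808 134217728 134217728 268435456 268435456 = true := chkC rfl B.c2 B.c3

def B.u2 : Tr := .C B.t5 B.t6
theorem B.d2 : Tr.chk (leaf fun A => gB A ⟨10, 57, 226⟩) exNo B.u2 545259520 109051904 469762048 67108864 134217728 134217728 = true := chkC rfl B.c5 B.c6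

def B.u3 : Tr := .B B.t4 B.u2
theorem B.d3 : Tr.chk (leaf fun A => gB A ⟨10, 57, 226⟩) exNo B.u3 545259520 109051904 402653184 134217728 134217728 134217728 = true := chkB rfl B.c4 B.d2

def B.u4 : Tr := .A B.u3 B.t7
theorem B.d4 : Tr.chk (leaf fun A => gB A ⟨10, 57, 226⟩) exNo B.u4 654311424 218103808 402653184 134217728 134217728 134217728 = true := chkA rfl B.d3 B.c7

def B.u5 : Tr := .C B.u4 B.t8
theorem B.d5 : Tr.chk (leaf fun A => gB A ⟨10, 57, 226⟩) exNo B.u5 654311424 218103808 402653184 134217728 268435456 268435456 = true := chkC rfl B.d4 B.c8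

def B.u6 : Tr := .B B.u1 B.u5
theorem B.d6 : Tr.chk (leaf fun A => gB A ⟨10, 57, 226⟩) exNo B.u6 654311424 218103808 268435456 268435456 268435456 268435456 = true := chkB rfl B.d1 B.d5

def B.u7 : Tr := .A B.u0 B.u6
theorem B.d7 : Tr.chk (leaf fun A => gB A ⟨10, 57, 226⟩) exNo B.u7 436207616 436207616 268435456 268435456 268435456 268435456 = true := chkA rfl B.d0 B.d6

def B.u8 : Tr := .C B.t9 B.t10
theorem B.d8 : Tr.chk (leaf fun A => gB A ⟨10, 57, 226⟩) exNo B.u8 218103808 218103808 134217728 134217728 805306368 268435456 = true := chkC rfl B.c9 B.c10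

def B.u9 : Tr := .C B.t11 B.t12
theorem B.d9 : Tr.chk (leaf fun A => gB A ⟨10, 57, 226⟩) exNo B.u9 218103808 218103808 402653184 134217728 805306368 268435456 = true := chkC rfl B.c11 B.c12

def B.u10 : Tr := .B B.u8 B.u9
theorem B.d10 : Tr.chk (leaf fun A => gB A ⟨10, 57, 226⟩) exNo B.u10 218103808 218103808 268435456 268435456 805306368 268435456 = true := chkB rfl B.d8 B.d9

def B.u11 : Tr := .B B.t14 B.t15
theorem B.d11 : Tr.chk (leaf fun A => gB A ⟨10, 57, 226⟩) exNo B.u11 545259520 109051904 134217728 134217728 939524096 134217728 = true := chkB rfl B.c14 B.c15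

def B.u12 : Tr := .A B.u11 B.t16
theorem B.d12 : Tr.chk (leaf fun A => gB A ⟨10, 57, 226⟩) exNo B.u12 654311424 218103808 134217728 134217728 939524096 134217728 = true := chkA rfl B.d11 B.c16

def B.u13 : Tr := .C B.t13 B.u12
theorem B.d13 : Tr.chk (leaf fun A => gB A ⟨10, 57, 226⟩) exNo B.u13 654311424 218103808 134217728 134217728 805306368 268435456 = true := chkC rfl B.c13 B.d12

def B.u14 : Tr := .B B.t17 B.t18
theorem B.d14 : Tr.chk (leaf fun A => gB A ⟨10, 57, 226⟩) exNo B.u14 545259520 109051904 402653184 134217728 671088640 134217728 = true := chkB rfl B.c17 B.c18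

def B.u15 : Tr := .A B.u14 B.t19
theorem B.d15 : Tr.chk (leaf fun A => gB A ⟨10, 57, 226⟩) exNo B.u15 654311424 218103808 402653184 134217728 671088640 134217728 = true := chkA rfl B.d14 B.c19

def B.u16 : Tr := .B B.t20 B.t21
theorem B.d16 : Tr.chk (leaf fun A => gB A ⟨10, 57, 226⟩) exNo B.u16 545259520 109051904 402653184 134217728 939524096 134217728 = true := chkB rfl B.c20 B.c21

def B.u17 : Tr := .A B.u16 B.t22
theorem B.d17 : Tr.chk (leaf fun A => gB A ⟨10, 57, 226⟩) exNo B.u17 654311424 218103808 402653184 134217728 939524096 134217728 = true := chkA rfl B.d16 B.c22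

def B.u18 : Tr := .C B.u15 B.u17
theorem B.d18 : Tr.chk (leaf fun A => gB A ⟨10, 57, 226⟩) exNo B.u18 654311424 218103808 402653184 134217728 805306368 268435456 = true := chkC rfl B.d15 B.d17

def B.u19 : Tr := .B B.u13 B.u18
theorem B.d19 : Tr.chk (leaf fun A => gB A ⟨10, 57, 226⟩) exNo B.u19 654311424 218103808 268435456 268435456 805306368 268435456 = true := chkB rfl B.d13 B.d18

def B.u20 : Tr := .A B.u10 B.u19
theorem B.d20 : Tr.chk (leaf fun A => gB A ⟨10, 57, 226⟩) exNo B.u20 436207616 436207616 268435456 268435456 805306368 268435456 = true := chkA rfl B.d10 B.d19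

def B.u21 : Tr := .C B.u7 B.u20
theorem B.d21 : Tr.chk (leaf fun A => gB A ⟨10, 57, 226⟩) exNo B.u21 436207616 436207616 268435456 268435456 536870912 536870912 = true := chkC rfl B.d7 B.d20

def B.u22 : Tr := .A B.t23 B.t24
theorem B.d22 : Tr.chk (leaf fun A => gB A ⟨10, 57, 226⟩) exNo B.u22 218103808 218103808 671088640 134217728 134217728 134217728 = true := chkA rfl B.c23 B.c24

def B.u23 : Tr := .C B.u22 B.t25
theorem B.d23 : Tr.chk (leaf fun A => gB A ⟨10, 57, 226⟩) exNo B.u23 218103808 218103808 671088640 134217728 268435456 268435456 = true := chkC rfl B.d22 B.c25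

def B.u24 : Tr := .C B.t28 B.t29
theorem B.d24 : Tr.chk (leaf fun A => gB A ⟨10, 57, 226⟩) exNo B.u24 327155712 109051904 1006632960 67108864 134217728 134217728 = true := chkC rfl B.c28 B.c29

def B.u25 : Tr := .B B.t27 B.u24
theorem B.d25 : Tr.chk (leaf fun A => gB A ⟨10, 57, 226⟩) exNo B.u25 327155712 109051904 939524096 134217728 134217728 134217728 = true := chkB rfl B.c27 B.d24

def B.u26 : Tr := .A B.t26 B.u25
theorem B.d26 : Tr.chk (leaf fun A => gB A ⟨10, 57, 226⟩) exNo B.u26 218103808 218103808 939524096 134217728 134217728 134217728 = true := chkA rfl B.c26 B.d25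

def B.u27 : Tr := .B B.t31 B.t32
theorem B.d27 : Tr.chk (leaf fun A => gB A ⟨10, 57, 226⟩) exNo B.u27 327155712 109051904 939524096 134217728 402653184 134217728 = true := chkB rfl B.c31 B.c32

def B.u28 : Tr := .A B.t30 B.u27
theorem B.d28 : Tr.chk (leaf fun A => gB A ⟨10, 57, 226⟩) exNo B.u28 218103808 218103808 939524096 134217728 402653184 134217728 = true := chkA rfl B.c30 B.d27

def B.u29 : Tr := .C B.u26 B.u28
theorem B.d29 : Tr.chk (leaf fun A => gB A ⟨10, 57, 226⟩) exNo B.u29 218103808 218103808 939524096 134217728 268435456 268435456 = true := chkC rfl B.d26 B.d28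

def B.u30 : Tr := .B B.u23 B.u29
theorem B.d30 : Tr.chk (leaf fun A => gB A ⟨10, 57, 226⟩) exNo B.u30 218103808 218103808 805306368 268435456 268435456 268435456 = true := chkB rfl B.d23 B.d29

def B.u31 : Tr := .B B.t34 B.t35
theorem B.d31 : Tr.chk (leaf fun A => gB A ⟨10, 57, 226⟩) exNo B.u31 545259520 109051904 671088640 134217728 402653184 134217728 = true := chkB rfl B.c34 B.c35

def B.u32 : Tr := .A B.u31 B.t36
theorem B.d32 : Tr.chk (leaf fun A => gB A ⟨10, 57, 226⟩) exNo B.u32 654311424 218103808 671088640 134217728 402653184 134217728 = true := chkA rfl B.d31 B.c36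

def B.u33 : Tr := .C B.t33 B.u32
theorem B.d33 : Tr.chk (leaf fun A => gB A ⟨10, 57, 226⟩) exNo B.u33 654311424 218103808 671088640 134217728 268435456 268435456 = true := chkC rfl B.c33 B.d32

def B.u34 : Tr := .B B.u33 B.t37
theorem B.d34 : Tr.chk (leaf fun A => gB A ⟨10, 57, 226⟩) exNo B.u34 654311424 218103808 805306368 268435456 268435456 268435456 = true := chkB rfl B.d33 B.c37

def B.u35 : Tr := .A B.u30 B.u34
theorem B.d35 : Tr.chk (leaf fun A => gB A ⟨10, 57, 226⟩) exNo B.u35 436207616 436207616 805306368 268435456 268435456 268435456 = true := chkA rfl B.d30 B.d34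

def B.u36 : Tr := .C B.t38 B.t39
theorem B.d36 : Tr.chk (leaf fun A => gB A ⟨10, 57, 226⟩) exNo B.u36 218103808 218103808 671088640 134217728 805306368 268435456 = true := chkC rfl B.c38 B.c39

def B.u37 : Tr := .A B.t40 B.t41
theorem B.d37 : Tr.chk (leaf fun A => gB A ⟨10, 57, 226⟩) exNo B.u37 218103808 218103808 939524096 134217728 671088640 134217728 = true := chkA rfl B.c40 B.c41

def B.u38 : Tr := .A B.t42 B.t43
theorem B.d38 : Tr.chk (leaf fun A => gB A ⟨10, 57, 226⟩) exNo B.u38 218103808 218103808 939524096 134217728 939524096 134217728 = true := chkA rfl B.c42 B.c43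

def B.u39 : Tr := .C B.u37 B.u38
theorem B.d39 : Tr.chk (leaf fun A => gB A ⟨10, 57, 226⟩) exNo B.u39 218103808 218103808 939524096 134217728 805306368 268435456 = true := chkC rfl B.d37 B.d38

def B.u40 : Tr := .B B.u36 B.u39
theorem B.d40 : Tr.chk (leaf fun A => gB A ⟨10, 57, 226⟩) exNo B.u40 218103808 218103808 805306368 268435456 805306368 268435456 = true := chkB rfl B.d36 B.d39

def B.u41 : Tr := .B B.t44 B.t45
theorem B.d41 : Tr.chk (leaf fun A => gB A ⟨10, 57, 226⟩) exNo B.u41 545259520 109051904 671088640 134217728 671088640 134217728 = true := chkB rfl B.c44 B.c45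

def B.u42 : Tr := .A B.u41 B.t46
theorem B.d42 : Tr.chk (leaf fun A => gB A ⟨10, 57, 226⟩) exNo B.u42 654311424 218103808 671088640 134217728 671088640 134217728 = true := chkA rfl B.d41 B.c46

def B.u43 : Tr := .B B.t47 B.t48
theorem B.d43 : Tr.chk (leaf fun A => gB A ⟨10, 57, 226⟩) exNo B.u43 545259520 109051904 671088640 134217728 939524096 134217728 = true := chkB rfl B.c47 B.c48

def B.u44 : Tr := .A B.u43 B.t49
theorem B.d44 : Tr.chk (leaf fun A => gB A ⟨10, 57, 226⟩) exNo B.u44 654311424 218103808 671088640 134217728 939524096 134217728 = true := chkA rfl B.d43 B.c49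

def B.u45 : Tr := .C B.u42 B.u44
theorem B.d45 : Tr.chk (leaf fun A => gB A ⟨10, 57, 226⟩) exNo B.u45 654311424 218103808 671088640 134217728 805306368 268435456 = true := chkC rfl B.d42 B.d44

def B.u46 : Tr := .C B.t51 B.t52
theorem B.d46 : Tr.chk (leaf fun A => gB A ⟨10, 57, 226⟩) exNo B.u46 545259520 109051904 1006632960 67108864 671088640 134217728 = true := chkC rfl B.c51 B.c52

def B.u47 : Tr := .B B.t50 B.u46
theorem B.d47 : Tr.chk (leaf fun A => gB A ⟨10, 57, 226⟩) exNo B.u47 545259520 109051904 939524096 134217728 671088640 134217728 = true := chkB rfl B.c50 B.d46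

def B.u48 : Tr := .A B.u47 B.t53
theorem B.d48 : Tr.chk (leaf fun A => gB A ⟨10, 57, 226⟩) exNo B.u48 654311424 218103808 939524096 134217728 671088640 134217728 = true := chkA rfl B.d47 B.c53

def B.u49 : Tr := .C B.t54 B.t55
theorem B.d49 : Tr.chk (leaf fun A => gB A ⟨10, 57, 226⟩) exNo B.u49 545259520 109051904 872415232 67108864 939524096 134217728 = true := chkC rfl B.c54 B.c55

def B.u50 : Tr := .C B.t56 B.t57
theorem B.d50 : Tr.chk (leaf fun A => gB A ⟨10, 57, 226⟩) exNo B.u50 545259520 109051904 1006632960 67108864 939524096 134217728 = true := chkC rfl B.c56 B.c57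

def B.u51 : Tr := .B B.u49 B.u50
theorem B.d51 : Tr.chk (leaf fun A => gB A ⟨10, 57, 226⟩) exNo B.u51 545259520 109051904 939524096 134217728 939524096 134217728 = true := chkB rfl B.d49 B.d50

def B.u52 : Tr := .A B.u51 B.t58
theorem B.d52 : Tr.chk (leaf fun A => gB A ⟨10, 57, 226⟩) exNo B.u52 654311424 218103808 939524096 134217728 939524096 134217728 = true := chkA rfl B.d51 B.c58

def B.u53 : Tr := .C B.u48 B.u52
theorem B.d53 : Tr.chk (leaf fun A => gB A ⟨10, 57, 226⟩) exNo B.u53 654311424 218103808 939524096 134217728 805306368 268435456 = true := chkC rfl B.d48 B.d52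

def B.u54 : Tr := .B B.u45 B.u53
theorem B.d54 : Tr.chk (leaf fun A => gB A ⟨10, 57, 226⟩) exNo B.u54 654311424 218103808 805306368 268435456 805306368 268435456 = true := chkB rfl B.d45 B.d53

def B.u55 : Tr := .A B.u40 B.u54
theorem B.d55 : Tr.chk (leaf fun A => gB A ⟨10, 57, 226⟩) exNo B.u55 436207616 436207616 805306368 268435456 805306368 268435456 = true := chkA rfl B.d40 B.d54

def B.u56 : Tr := .C B.u35 B.u55
theorem B.d56 : Tr.chk (leaf fun A => gB A ⟨10, 57, 226⟩) exNo B.u56 436207616 436207616 805306368 268435456 536870912 536870912 = true := chkC rfl B.d35 B.d55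

def B.u57 : Tr := .B B.u21 B.u56
theorem B.d57 : Tr.chk (leaf fun A => gB A ⟨10, 57, 226⟩) exNo B.u57 436207616 436207616 536870912 536870912 536870912 536870912 = true := chkB rfl B.d21 B.d56

/-- the region B -/
theorem B.all : ∃ t, Tr.chk (leaf fun A => gB A ⟨10, 57, 226⟩) exNo t 436207616 436207616 536870912 536870912 536870912 536870912 = true := ⟨B.u57, B.d57⟩

def V.u0 : Tr := .A V.t0 V.t1
theorem V.d0 : Tr.chk (leaf fun A => gV A ⟨10, 57, 226⟩) exV V.u0 268435456 268435456 268435456 268435456 268435456 268435456 = true := chkA rfl V.c0 V.c1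

def V.u1 : Tr := .C V.u0 V.t2
theorem V.d1 : Tr.chk (leaf fun A => gV A ⟨10, 57, 226⟩) exV V.u1 268435456 268435456 268435456 268435456 536870912 536870912 = true := chkC rfl V.d0 V.c2

def V.u2 : Tr := .C V.t4 V.t5
theorem V.d2 : Tr.chk (leaf fun A => gV A ⟨10, 57, 226⟩) exV V.u2 134217728 134217728 939524096 134217728 268435456 268435456 = true := chkC rfl V.c4 V.c5

def V.u3 : Tr := .B V.t3 V.u2
theorem V.d3 : Tr.chk (leaf fun A => gV A ⟨10, 57, 226⟩) exV V.u3 134217728 134217728 805306368 268435456 268435456 268435456 = true := chkB rfl V.c3 V.d2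

def V.u4 : Tr := .A V.u3 V.t6
theorem V.d4 : Tr.chk (leaf fun A => gV A ⟨10, 57, 226⟩) exV V.u4 268435456 268435456 805306368 268435456 268435456 268435456 = true := chkA rfl V.d3 V.c6

def V.u5 : Tr := .C V.t10 V.t11
theorem V.d5 : Tr.chk (leaf fun A => gV A ⟨10, 57, 226⟩) exV V.u5 134217728 134217728 1006632960 67108864 939524096 134217728 = true := chkC rfl V.c10 V.c11

def V.u6 : Tr := .B V.t9 V.u5
theorem V.d6 : Tr.chk (leaf fun A => gV A ⟨10, 57, 226⟩) exV V.u6 134217728 134217728 939524096 134217728 939524096 134217728 = true := chkB rfl V.c9 V.d5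

def V.u7 : Tr := .C V.t8 V.u6
theorem V.d7 : Tr.chk (leaf fun A => gV A ⟨10, 57, 226⟩) exV V.u7 134217728 134217728 939524096 134217728 805306368 268435456 = true := chkC rfl V.c8 V.d6

def V.u8 : Tr := .B V.t7 V.u7
theorem V.d8 : Tr.chk (leaf fun A => gV A ⟨10, 57, 226⟩) exV V.u8 134217728 134217728 805306368 268435456 805306368 268435456 = true := chkB rfl V.c7 V.d7

def V.u9 : Tr := .B V.t12 V.t13
theorem V.d9 : Tr.chk (leaf fun A => gV A ⟨10, 57, 226⟩) exV V.u9 402653184 134217728 805306368 268435456 805306368 268435456 = true := chkB rfl V.c12 V.c13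

def V.u10 : Tr := .A V.u8 V.u9
theorem V.d10 : Tr.chk (leaf fun A => gV A ⟨10, 57, 226⟩) exV V.u10 268435456 268435456 805306368 268435456 805306368 268435456 = true := chkA rfl V.d8 V.d9

def V.u11 : Tr := .C V.u4 V.u10
theorem V.d11 : Tr.chk (leaf fun A => gV A ⟨10, 57, 226⟩) exV V.u11 268435456 268435456 805306368 268435456 536870912 536870912 = true := chkC rfl V.d4 V.d10

def V.u12 : Tr := .B V.u1 V.u11
theorem V.d12 : Tr.chk (leaf fun A => gV A ⟨10, 57, 226⟩) exV V.u12 268435456 268435456 536870912 536870912 536870912 536870912 = true := chkB rfl V.d1 V.d11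

def V.u13 : Tr := .C V.t15 V.t16
theorem V.d13 : Tr.chk (leaf fun A => gV A ⟨10, 57, 226⟩) exV V.u13 939524096 134217728 134217728 134217728 134217728 134217728 = true := chkC rfl V.c15 V.c16

def V.u14 : Tr := .C V.u13 V.t17
theorem V.d14 : Tr.chk (leaf fun A => gV A ⟨10, 57, 226⟩) exV V.u14 939524096 134217728 134217728 134217728 268435456 268435456 = true := chkC rfl V.d13 V.c17

def V.u15 : Tr := .B V.u14 V.t18
theorem V.d15 : Tr.chk (leaf fun A => gV A ⟨10, 57, 226⟩) exV V.u15 939524096 134217728 268435456 268435456 268435456 268435456 = true := chkB rfl V.d14 V.c18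

def V.u16 : Tr := .A V.t14 V.u15
theorem V.d16 : Tr.chk (leaf fun A => gV A ⟨10, 57, 226⟩) exV V.u16 805306368 268435456 268435456 268435456 268435456 268435456 = true := chkA rfl V.c14 V.d15

def V.u17 : Tr := .C V.t21 V.t22
theorem V.d17 : Tr.chk (leaf fun A => gV A ⟨10, 57, 226⟩) exV V.u17 939524096 134217728 402653184 134217728 805306368 268435456 = true := chkC rfl V.c21 V.c22

def V.u18 : Tr := .B V.t20 V.u17
theorem V.d18 : Tr.chk (leaf fun A => gV A ⟨10, 57, 226⟩) exV V.u18 939524096 134217728 268435456 268435456 805306368 268435456 = true := chkB rfl V.c20 V.d17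

def V.u19 : Tr := .A V.t19 V.u18
theorem V.d19 : Tr.chk (leaf fun A => gV A ⟨10, 57, 226⟩) exV V.u19 805306368 268435456 268435456 268435456 805306368 268435456 = true := chkA rfl V.c19 V.d18

def V.u20 : Tr := .C V.u16 V.u19
theorem V.d20 : Tr.chk (leaf fun A => gV A ⟨10, 57, 226⟩) exV V.u20 805306368 268435456 268435456 268435456 536870912 536870912 = true := chkC rfl V.d16 V.d19

def V.u21 : Tr := .C V.t24 V.t25
theorem V.d21 : Tr.chk (leaf fun A => gV A ⟨10, 57, 226⟩) exV V.u21 671088640 134217728 671088640 134217728 805306368 268435456 = true := chkC rfl V.c24 V.c25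

def V.u22 : Tr := .B V.u21 V.t26
theorem V.d22 : Tr.chk (leaf fun A => gV A ⟨10, 57, 226⟩) exV V.u22 671088640 134217728 805306368 268435456 805306368 268435456 = true := chkB rfl V.d21 V.c26

def V.u23 : Tr := .B V.t28 V.t29
theorem V.d23 : Tr.chk (leaf fun A => gV A ⟨10, 57, 226⟩) exV V.u23 939524096 134217728 603979776 67108864 939524096 134217728 = true := chkB rfl V.c28 V.c29

def V.u24 : Tr := .B V.u23 V.t30
theorem V.d24 : Tr.chk (leaf fun A => gV A ⟨10, 57, 226⟩) exV V.u24 939524096 134217728 671088640 134217728 939524096 134217728 = true := chkB rfl V.d23 V.c30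

def V.u25 : Tr := .C V.t27 V.u24
theorem V.d25 : Tr.chk (leaf fun A => gV A ⟨10, 57, 226⟩) exV V.u25 939524096 134217728 671088640 134217728 805306368 268435456 = true := chkC rfl V.c27 V.d24

def V.u26 : Tr := .B V.u25 V.t31
theorem V.d26 : Tr.chk (leaf fun A => gV A ⟨10, 57, 226⟩) exV V.u26 939524096 134217728 805306368 268435456 805306368 268435456 = true := chkB rfl V.d25 V.c31

def V.u27 : Tr := .A V.u22 V.u26
theorem V.d27 : Tr.chk (leaf fun A => gV A ⟨10, 57, 226⟩) exV V.u27 805306368 268435456 805306368 268435456 805306368 268435456 = true := chkA rfl V.d22 V.d26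

def V.u28 : Tr := .C V.t23 V.u27
theorem V.d28 : Tr.chk (leaf fun A => gV A ⟨10, 57, 226⟩) exV V.u28 805306368 268435456 805306368 268435456 536870912 536870912 = true := chkC rfl V.c23 V.d27

def V.u29 : Tr := .B V.u20 V.u28
theorem V.d29 : Tr.chk (leaf fun A => gV A ⟨10, 57, 226⟩) exV V.u29 805306368 268435456 536870912 536870912 536870912 536870912 = true := chkB rfl V.d20 V.d28

def V.u30 : Tr := .A V.u12 V.u29
theorem V.d30 : Tr.chk (leaf fun A => gV A ⟨10, 57, 226⟩) exV V.u30 536870912 536870912 536870912 536870912 536870912 536870912 = true := chkA rfl V.d12 V.d29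

/-- the region V -/
theorem V.all : ∃ t, Tr.chk (leaf fun A => gV A ⟨10, 57, 226⟩) exV t 536870912 536870912 536870912 536870912 536870912 536870912 = true := ⟨V.u30, V.d30⟩

def HN.u0 : Tr := .B HN.t0 HN.t1
theorem HN.d0 : Tr.chk (leaf fun A => gHN A ⟨10, 57, 226⟩) exNo HN.u0 25165824 25165824 536870912 536870912 33554432 33554432 = true := chkB rfl HN.c0 HN.c1

def HN.u1 : Tr := .A HN.u0 HN.t2
theorem HN.d1 : Tr.chk (leaf fun A => gHN A ⟨10, 57, 226⟩) exNo HN.u1 50331648 50331648 536870912 536870912 33554432 33554432 = true := chkA rfl HN.d0 HN.c2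

def HN.u2 : Tr := .C HN.u1 HN.t3
theorem HN.d2 : Tr.chk (leaf fun A => gHN A ⟨10, 57, 226⟩) exNo HN.u2 50331648 50331648 536870912 536870912 67108864 67108864 = true := chkC rfl HN.d1 HN.c3

def HN.u3 : Tr := .A HN.u2 HN.t4
theorem HN.d3 : Tr.chk (leaf fun A => gHN A ⟨10, 57, 226⟩) exNo HN.u3 100663296 100663296 536870912 536870912 67108864 67108864 = true := chkA rfl HN.d2 HN.c4

def HN.u4 : Tr := .C HN.u3 HN.t5
theorem HN.d4 : Tr.chk (leaf fun A => gHN A ⟨10, 57, 226⟩) exNo HN.u4 100663296 100663296 536870912 536870912 134217728 134217728 = true := chkC rfl HN.d3 HN.c5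

def HN.u5 : Tr := .C HN.u4 HN.t6
theorem HN.d5 : Tr.chk (leaf fun A => gHN A ⟨10, 57, 226⟩) exNo HN.u5 100663296 100663296 536870912 536870912 268435456 268435456 = true := chkC rfl HN.d4 HN.c6

def HN.u6 : Tr := .C HN.u5 HN.t7
theorem HN.d6 : Tr.chk (leaf fun A => gHN A ⟨10, 57, 226⟩) exNo HN.u6 100663296 100663296 536870912 536870912 536870912 536870912 = true := chkC rfl HN.d5 HN.c7

/-- the region HN -/
theorem HN.all : ∃ t, Tr.chk (leaf fun A => gHN A ⟨10, 57, 226⟩) exNo t 100663296 100663296 536870912 536870912 536870912 536870912 = true := ⟨HN.u6, HN.d6⟩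

/-- the region HP -/
theorem HP.all : ∃ t, Tr.chk (leaf fun A => gHP A ⟨10, 57, 226⟩) exNo t 100663296 100663296 536870912 536870912 536870912 536870912 = true := ⟨HP.t0, HP.c0⟩

def HE.u0 : Tr := .C HE.t0 HE.t1
theorem HE.d0 : Tr.chk (leaf fun A => gHE A ⟨10, 57, 226⟩) exNo HE.u0 100663296 100663296 536870912 536870912 436207616 436207616 = true := chkC rfl HE.c0 HE.c1

def HE.u1 : Tr := .C HE.u0 HE.t2
theorem HE.d1 : Tr.chk (leaf fun A => gHE A ⟨10, 57, 226⟩) exNo HE.u1 100663296 100663296 536870912 536870912 872415232 872415232 = true := chkC rfl HE.d0 HE.c2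

/-- the region HE -/
theorem HE.all : ∃ t, Tr.chk (leaf fun A => gHE A ⟨10, 57, 226⟩) exNo t 100663296 100663296 536870912 536870912 872415232 872415232 = true := ⟨HE.u1, HE.d1⟩

/-- the region SN -/
theorem SN.all : ∃ t, Tr.chk (leafS fun A => fN A ⟨10, 57, 226⟩) exNo t 436207616 436207616 67108864 67108864 536870912 536870912 = true := ⟨SN.t0, SN.c0⟩

/-- the region S1 -/
theorem S1.all : ∃ t, Tr.chk (leafS fun A => fP1 A ⟨10, 57, 226⟩) exNo t 50331648 50331648 67108864 67108864 536870912 536870912 = true := ⟨S1.t0, S1.c0⟩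

/-- the region S2 -/
theorem S2.all : ∃ t, Tr.chk (leafS fun A => fP2 A ⟨10, 57, 226⟩) exNo t 50331648 50331648 50331648 50331648 536870912 536870912 = true := ⟨S2.t0, S2.c0⟩

def F1.u0 : Tr := .C F1.t1 F1.t2
theorem F1.d0 : Tr.chk (leafS fun A => fF1 A ⟨10, 57, 226⟩) exNo F1.u0 679477248 192937984 67108864 67108864 536870912 536870912 = true := chkC rfl F1.c1 F1.c2

def F1.u1 : Tr := .A F1.t0 F1.u0
theorem F1.d1 : Tr.chk (leafS fun A => fF1 A ⟨10, 57, 226⟩) exNo F1.u1 486539264 385875968 67108864 67108864 536870912 536870912 = true := chkA rfl F1.c0 F1.d0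

/-- the region F1 -/
theorem F1.all : ∃ t, Tr.chk (leafS fun A => fF1 A ⟨10, 57, 226⟩) exNo t 486539264 385875968 67108864 67108864 536870912 536870912 = true := ⟨F1.u1, F1.d1⟩

def F2.u0 : Tr := .C F2.t1 F2.t2
theorem F2.d0 : Tr.chk (leafS fun A => fF2 A ⟨10, 57, 226⟩) exNo F2.u0 679477248 192937984 67108864 67108864 536870912 536870912 = true := chkC rfl F2.c1 F2.c2

def F2.u1 : Tr := .A F2.t0 F2.u0
theorem F2.d1 : Tr.chk (leafS fun A => fF2 A ⟨10, 57, 226⟩) exNo F2.u1 486539264 385875968 67108864 67108864 536870912 536870912 = true := chkA rfl F2.c0 F2.d0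

/-- the region F2 -/
theorem F2.all : ∃ t, Tr.chk (leafS fun A => fF2 A ⟨10, 57, 226⟩) exNo t 486539264 385875968 67108864 67108864 536870912 536870912 = true := ⟨F2.u1, F2.d1⟩

/-- the region T1 -/
theorem T1.all : ∃ t, Tr.chk (leafS fun A => fV1 A ⟨10, 57, 226⟩) exNo t 536870912 536870912 16777216 16777216 536870912 536870912 = true := ⟨T1.t0, T1.c0⟩

/-- the region T2 -/
theorem T2.all : ∃ t, Tr.chk (leafS fun A => fV2 A ⟨10, 57, 226⟩) exNo t 536870912 536870912 16777216 16777216 536870912 536870912 = true := ⟨T2.t0, T2.c0⟩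

/-- the region T3 -/
theorem T3.all : ∃ t, Tr.chk (leafS fun A => fV3 A ⟨10, 57, 226⟩) exNo t 536870912 536870912 16777216 16777216 536870912 536870912 = true := ⟨T3.t0, T3.c0⟩

theorem chk : Chk ⟨10, 57, 226⟩ :=
  ⟨N.all, A.all, B.all, V.all, HN.all, HP.all, HE.all, SN.all, S1.all, S2.all, F1.all, F2.all, T1.all, T2.all, T3.all⟩

end Pool.Agent.FTN.K10
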