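import Pool.Agent.FTN.Region

set_option maxRecDepth 100000

namespace Pool.Agent.FTN.K10

open Pool.Agent.FTA (TM Alg Tr leaf leafS exNo exV chkA chkB chkC)

def B.t4 : Tr := .C (.A (.C (.A .L .L) (.C (.A .L .L) (.A .L .L))) .L) (.A (.C (.C (.B .L .L) (.A .L .L)) (.A .L .L)) .L)
theorem B.c4 : Tr.chk (leaf fun A => gB A ⟨10, 57, 226⟩) exNo B.t4 545259520 109051904 335544320 67108864 134217728 134217728 = true := by decide +kernel

def B.t5 : Tr := .A (.C (.A .L .L) (.C (.A .L .L) (.B (.C (.A .L .L) (.A .L .L)) (.C (.C (.A .L .L) (.A .L .L)) (.A .L .L))))) .L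
theorem B.c5 : Tr.chk (leaf fun A => gB A ⟨10, 57, 226⟩) exNo B.t5 545259520 109051904 469762048 67108864 67108864 67108864 = true := by decide +kernel

def B.t6 : Tr := .A (.C (.A .L .L) (.A .L .L)) .L
theorem B.c6 : Tr.chk (leaf fun A => gB A ⟨10, 57, 226⟩) exNo B.t6 545259520 109051904 469762048 67108864 201326592 67108864 = true := by decide +kernel

def B.t7 : Tr := .L
theorem B.c7 : Tr.chk (leaf fun A => gB A ⟨10, 57, 226⟩) exNo B.t7 763363328 109051904 402653184 134217728 134217728 134217728 = true := by decide +kernel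

def B.t8 : Tr := .A (.B (.C (.A (.A .L .L) .L) (.A (.A .L .L) .L)) (.C (.A (.A .L .L) .L) (.A (.A .L .L) .L))) .L
theorem B.c8 : Tr.chk (leaf fun A => gB A ⟨10, 57, 226⟩) exNo B.t8 654311424 218103808 402653184 134217728 402653184 134217728 = true := by decide +kernel

def B.t9 : Tr := .A (.C .L (.A .L .L)) (.C (.A .L .L) (.A .L .L))
theorem B.c9 : Tr.chk (leaf fun A => gB A ⟨10, 57, 226⟩) exNo B.t9 218103808 218103808 134217728 134217728 671088640 134217728 = true := by decide +kernel

def B.t10 : Tr := .A (.C (.A (.C .L .L) .L) (.A (.C (.A .L .L) (.A .L .L)) (.C .L .L))) (.C (.A .L .L) (.A (.C .L .L) (.A .L .L)))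
theorem B.c10 : Tr.chk (leaf fun A => gB A ⟨10, 57, 226⟩) exNo B.t10 218103808 218103808 134217728 134217728 939524096 134217728 = true := by decide +kernel

def B.t11 : Tr := .A (.C (.A .L .L) (.A .L .L)) (.C (.A .L (.A .L .L)) (.A .L (.A .L .L)))
theorem B.c11 : Tr.chk (leaf fun A => gB A ⟨10, 57, 226⟩) exNo B.t11 218103808 218103808 402653184 134217728 671088640 134217728 = true := by decide +kernel

end Pool.Agent.FTN.K10
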