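import Pool.Agent.FTN.Region

set_option maxRecDepth 100000

namespace Pool.Agent.FTN.K3

open Pool.Agent.FTA (TM Alg Tr leaf leafS exNo exV chkA chkB chkC)

def A.t46 : Tr := .C (.A (.C .L .L) .L) (.C (.A (.A .L .L) (.A .L .L)) (.A (.C (.A .L .L) (.A .L (.C .L (.A .L .L)))) (.A .L .L)))
theorem A.c46 : Tr.chk (leaf fun A => gA A ⟨3, 128, 96⟩) exNo A.t46 109051904 109051904 671088640 134217728 939524096 134217728 = true := by decide +kernel

def A.t47 : Tr := .C (.A .L (.B .L .L)) (.A (.C .L (.A .L .L)) (.B .L .L))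
theorem A.c47 : Tr.chk (leaf fun A => gA A ⟨3, 128, 96⟩) exNo A.t47 327155712 109051904 671088640 134217728 939524096 134217728 = true := by decide +kernel

def A.t48 : Tr := .A (.C .L (.A .L .L)) (.A (.C .L .L) (.B (.C .L .L) (.C .L .L)))
theorem A.c48 : Tr.chk (leaf fun A => gA A ⟨3, 128, 96⟩) exNo A.t48 218103808 218103808 939524096 134217728 671088640 134217728 = true := by decide +kernel

def A.t49 : Tr := .C (.A (.C .L .L) .L) (.A (.C (.A .L .L) (.C (.A .L .L) (.A .L .L))) (.C (.A .L .L) (.A .L .L)))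
theorem A.c49 : Tr.chk (leaf fun A => gA A ⟨3, 128, 96⟩) exNo A.t49 109051904 109051904 939524096 134217728 939524096 134217728 = true := by decide +kernel

def A.t50 : Tr := .A (.C (.A .L .L) (.A .L .L)) (.C (.B .L .L) (.A .L (.C .L .L)))
theorem A.c50 : Tr.chk (leaf fun A => gA A ⟨3, 128, 96⟩) exNo A.t50 327155712 109051904 939524096 134217728 939524096 134217728 = true := by decide +kernel

def A.t51 : Tr := .A (.A (.C .L (.B .L .L)) (.C (.B .L .L) (.B .L (.A .L .L)))) (.B (.C .L (.A (.A .L .L) .L)) .L)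
theorem A.c51 : Tr.chk (leaf fun A => gA A ⟨3, 128, 96⟩) exNo A.t51 654311424 218103808 671088640 134217728 671088640 134217728 = true := by decide +kernel

def A.t52 : Tr := .C (.B .L .L) (.B .L (.C .L .L))
theorem A.c52 : Tr.chk (leaf fun A => gA A ⟨3, 128, 96⟩) exNo A.t52 490733568 54525952 671088640 134217728 939524096 134217728 = true := by decide +kernel

end Pool.Agent.FTN.K3
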