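import Pool.Agent.FTN.Region

set_option maxRecDepth 100000

namespace Pool.Agent.FTN.K3

open Pool.Agent.FTA (TM Alg Tr leaf leafS exNo exV chkA chkB chkC)

def A.t53 : Tr := .B (.C (.C .L .L) (.A .L .L)) (.A (.C .L .L) (.C (.A .L .L) (.A .L (.B .L (.C .L .L)))))
theorem A.c53 : Tr.chk (leaf fun A => gA A ⟨3, 128, 96⟩) exNo A.t53 599785472 54525952 671088640 134217728 939524096 134217728 = true := by decide +kernel

def A.t54 : Tr := .C (.A (.A (.A .L (.C .L .L)) .L) .L) (.A (.A (.A .L (.B .L (.A .L .L))) (.B (.A (.A .L .L) .L) .L)) .L)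
theorem A.c54 : Tr.chk (leaf fun A => gA A ⟨3, 128, 96⟩) exNo A.t54 763363328 109051904 603979776 67108864 939524096 134217728 = true := by decide +kernel

def A.t55 : Tr := .C .L (.A (.B (.A (.A (.A .L .L) .L) .L) .L) .L)
theorem A.c55 : Tr.chk (leaf fun A => gA A ⟨3, 128, 96⟩) exNo A.t55 763363328 109051904 738197504 67108864 939524096 134217728 = true := by decide +kernel

def A.t56 : Tr := .A (.B (.A (.C .L .L) (.C (.C .L .L) (.A .L .L))) (.C (.A .L (.A .L .L)) (.A .L (.A (.C .L .L) .L)))) .L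
theorem A.c56 : Tr.chk (leaf fun A => gA A ⟨3, 128, 96⟩) exNo A.t56 654311424 218103808 939524096 134217728 671088640 134217728 = true := by decide +kernel

def A.t57 : Tr := .C (.A .L (.A (.C .L .L) (.A (.C .L .L) .L))) (.A (.A .L .L) (.B (.A .L (.A (.C .L .L) .L)) (.A (.A .L (.C .L .L)) .L)))
theorem A.c57 : Tr.chk (leaf fun A => gA A ⟨3, 128, 96⟩) exNo A.t57 545259520 109051904 872415232 67108864 939524096 134217728 = true := by decide +kernel

def A.t58 : Tr := .A (.A .L .L) (.B (.A (.A .L .L) .L) (.A (.A .L .L) .L))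
theorem A.c58 : Tr.chk (leaf fun A => gA A ⟨3, 128, 96⟩) exNo A.t58 545259520 109051904 1006632960 67108864 872415232 67108864 = true := by decide +kernel

def A.t59 : Tr := .A .L (.A .L (.C .L .L))
theorem A.c59 : Tr.chk (leaf fun A => gA A ⟨3, 128, 96⟩) exNo A.t59 490733568 54525952 1006632960 67108864 1006632960 67108864 = true := by decide +kernel

end Pool.Agent.FTN.K3
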