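import Pool.Agent.FTN.Region

set_option maxRecDepth 100000

namespace Pool.Agent.FTN.K3

open Pool.Agent.FTA (TM Alg Tr leaf leafS exNo exV chkA chkB chkC)

def A.t60 : Tr := .B (.C (.A (.A .L .L) .L) (.A (.A .L (.A .L .L)) .L)) (.C (.A (.A .L .L) .L) (.A (.A (.A .L .L) .L) .L))
theorem A.c60 : Tr.chk (leaf fun A => gA A ⟨3, 128, 96⟩) exNo A.t60 599785472 54525952 1006632960 67108864 1006632960 67108864 = true := by decide +kernel

def A.t61 : Tr := .L
theorem A.c61 : Tr.chk (leaf fun A => gA A ⟨3, 128, 96⟩) exNo A.t61 763363328 109051904 939524096 134217728 939524096 134217728 = true := by decide +kernel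

def B.t0 : Tr := .C (.A .L (.A .L (.C .L .L))) (.A .L (.A .L (.C .L .L)))
theorem B.c0 : Tr.chk (leaf fun A => gB A ⟨3, 128, 96⟩) exNo B.t0 218103808 218103808 134217728 134217728 268435456 268435456 = true := by decide +kernel

def B.t1 : Tr := .C (.A (.A .L .L) (.C (.A .L (.C .L .L)) (.A .L (.B .L .L)))) (.A (.C .L .L) (.A (.C .L .L) (.A .L (.B .L .L))))
theorem B.c1 : Tr.chk (leaf fun A => gB A ⟨3, 128, 96⟩) exNo B.t1 218103808 218103808 402653184 134217728 268435456 268435456 = true := by decide +kernel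

def B.t2 : Tr := .B (.C (.C (.A .L .L) (.A .L .L)) (.C (.A .L .L) (.A .L .L))) (.C (.C (.A .L .L) (.C (.A .L .L) (.A .L .L))) (.A .L .L))
theorem B.c2 : Tr.chk (leaf fun A => gB A ⟨3, 128, 96⟩) exNo B.t2 545259520 109051904 134217728 134217728 134217728 134217728 = true := by decide +kernel

def B.t3 : Tr := .L
theorem B.c3 : Tr.chk (leaf fun A => gB A ⟨3, 128, 96⟩) exNo B.t3 763363328 109051904 134217728 134217728 134217728 134217728 = true := by decide +kernel

def B.t4 : Tr := .A (.B (.A (.A .L .L) (.C .L .L)) (.C (.A .L .L) (.A .L .L))) .L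
theorem B.c4 : Tr.chk (leaf fun A => gB A ⟨3, 128, 96⟩) exNo B.t4 654311424 218103808 134217728 134217728 402653184 134217728 = true := by decide +kernel

def B.t5 : Tr := .C (.A (.C (.A .L .L) (.C (.C (.A .L .L) (.B .L .L)) (.B .L .L))) .L) (.A (.C (.C (.B .L .L) (.A .L .L)) (.A .L .L)) .L)
theorem B.c5 : Tr.chk (leaf fun A => gB A ⟨3, 128, 96⟩) exNo B.t5 545259520 109051904 335544320 67108864 134217728 134217728 = true := by decide +kernel

end Pool.Agent.FTN.K3
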