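import Pool.Agent.FTN.Region

set_option maxRecDepth 100000

namespace Pool.Agent.FTN.K3

open Pool.Agent.FTA (TM Alg Tr leaf leafS exNo exV chkA chkB chkC)

def V.t20 : Tr := .A (.B (.C (.B (.B .L .L) .L) (.B (.B .L (.C .L .L)) .L)) .L) (.B (.C .L (.A .L .L)) .L)
theorem V.c20 : Tr.chk (leaf fun A => gV A ⟨3, 128, 96⟩) exV V.t20 805306368 268435456 805306368 268435456 268435456 268435456 = true := by decide +kernel

def V.t21 : Tr := .B (.B (.C .L .L) (.A .L (.B .L .L))) (.B (.A (.C .L .L) .L) .L)
theorem V.c21 : Tr.chk (leaf fun A => gV A ⟨3, 128, 96⟩) exV V.t21 671088640 134217728 671088640 134217728 671088640 134217728 = true := by decide +kernel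

def V.t22 : Tr := .B (.B (.A .L .L) (.A .L (.C .L .L))) (.B (.A (.B (.C .L .L) (.C .L .L)) (.B (.C .L .L) .L)) (.A .L .L))
theorem V.c22 : Tr.chk (leaf fun A => gV A ⟨3, 128, 96⟩) exV V.t22 671088640 134217728 671088640 134217728 939524096 134217728 = true := by decide +kernel

def V.t23 : Tr := .C .L .L
theorem V.c23 : Tr.chk (leaf fun A => gV A ⟨3, 128, 96⟩) exV V.t23 671088640 134217728 939524096 134217728 805306368 268435456 = true := by decide +kernel

def V.t24 : Tr := .B (.C (.B .L .L) (.B .L .L)) .L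
theorem V.c24 : Tr.chk (leaf fun A => gV A ⟨3, 128, 96⟩) exV V.t24 939524096 134217728 671088640 134217728 671088640 134217728 = true := by decide +kernel

def V.t25 : Tr := .B (.A (.B (.A .L .L) (.C .L .L)) (.B (.A (.C .L .L) (.C .L .L)) (.A (.C .L .L) .L))) (.A (.B (.A (.C .L .L) .L) .L) .L)
theorem V.c25 : Tr.chk (leaf fun A => gV A ⟨3, 128, 96⟩) exV V.t25 939524096 134217728 603979776 67108864 939524096 134217728 = true := by decide +kernel

def V.t26 : Tr := .L
theorem V.c26 : Tr.chk (leaf fun A => gV A ⟨3, 128, 96⟩) exV V.t26 939524096 134217728 738197504 67108864 939524096 134217728 = true := by decide +kernel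

def V.t27 : Tr := .L
theorem V.c27 : Tr.chk (leaf fun A => gV A ⟨3, 128, 96⟩) exV V.t27 939524096 134217728 939524096 134217728 805306368 268435456 = true := by decide +kernel

def HN.t0 : Tr := .C (.C (.C (.A (.C (.A (.C .L .L) .L) .L) .L) (.B .L .L)) (.B .L (.A .L .L))) (.B (.C .L .L) (.A .L (.C .L .L)))
theorem HN.c0 : Tr.chk (leaf fun A => gHN A ⟨3, 128, 96⟩) exNo HN.t0 100663296 100663296 536870912 536870912 536870912 536870912 = true := by decide +kernel

def HP.t0 : Tr := .B .L (.C .L (.B .L (.A .L .L)))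
theorem HP.c0 : Tr.chk (leaf fun A => gHP A ⟨3, 128, 96⟩) exNo HP.t0 100663296 100663296 536870912 536870912 536870912 536870912 = true := by decide +kernel

end Pool.Agent.FTN.K3
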