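import Pool.Agent.FTN.Region

set_option maxRecDepth 100000

namespace Pool.Agent.FTN.K3

open Pool.Agent.FTA (TM Alg Tr leaf leafS exNo exV chkA chkB chkC)

def A.t18 : Tr := .B (.C .L (.B .L (.C .L (.A .L .L)))) (.C (.A .L .L) (.A (.C .L (.B .L .L)) (.C .L .L)))
theorem A.c18 : Tr.chk (leaf fun A => gA A ⟨3, 128, 96⟩) exNo A.t18 327155712 109051904 134217728 134217728 1040187392 33554432 = true := by decide +kernel

def A.t19 : Tr := .A (.C .L (.B .L .L)) (.B (.C .L .L) (.C .L .L))
theorem A.c19 : Tr.chk (leaf fun A => gA A ⟨3, 128, 96⟩) exNo A.t19 218103808 218103808 402653184 134217728 671088640 134217728 = true := by decide +kernel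

def A.t20 : Tr := .A (.A (.C .L .L) .L) (.A .L (.B .L .L))
theorem A.c20 : Tr.chk (leaf fun A => gA A ⟨3, 128, 96⟩) exNo A.t20 218103808 218103808 402653184 134217728 872415232 67108864 = true := by decide +kernel

def A.t21 : Tr := .A (.A .L .L) (.A .L .L)
theorem A.c21 : Tr.chk (leaf fun A => gA A ⟨3, 128, 96⟩) exNo A.t21 109051904 109051904 402653184 134217728 973078528 33554432 = true := by decide +kernel

def A.t22 : Tr := .A (.C (.A .L .L) (.C (.A .L .L) (.A .L (.C (.A .L .L) (.A .L .L))))) (.C (.A .L .L) (.A (.C .L (.C .L (.B .L .L))) .L))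
theorem A.c22 : Tr.chk (leaf fun A => gA A ⟨3, 128, 96⟩) exNo A.t22 109051904 109051904 402653184 134217728 1040187392 33554432 = true := by decide +kernel

def A.t23 : Tr := .A (.C .L (.B .L .L)) (.B (.C .L .L) .L)
theorem A.c23 : Tr.chk (leaf fun A => gA A ⟨3, 128, 96⟩) exNo A.t23 327155712 109051904 402653184 134217728 1006632960 67108864 = true := by decide +kernel

def A.t24 : Tr := .B (.A (.B (.C .L .L) (.C .L .L)) (.C (.B .L .L) .L)) (.A (.B (.C .L .L) (.C .L .L)) (.C .L .L))
theorem A.c24 : Tr.chk (leaf fun A => gA A ⟨3, 128, 96⟩) exNo A.t24 545259520 109051904 67108864 67108864 671088640 134217728 = true := by decide +kernel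

def A.t25 : Tr := .B (.A (.C .L .L) (.C .L .L)) (.A (.C .L .L) (.C .L .L))
theorem A.c25 : Tr.chk (leaf fun A => gA A ⟨3, 128, 96⟩) exNo A.t25 545259520 109051904 201326592 67108864 671088640 134217728 = true := by decide +kernel

end Pool.Agent.FTN.K3
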