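import Pool.Agent.FTN.K.P3F0
import Pool.Agent.FTN.K.P3F1
import Pool.Agent.FTN.K.P3F2
import Pool.Agent.FTN.K.P3F3
import Pool.Agent.FTN.K.P3F4
import Pool.Agent.FTN.K.P3F5
import Pool.Agent.FTN.K.P3F6
import Pool.Agent.FTN.K.P3F7
import Pool.Agent.FTN.K.P3F8
import Pool.Agent.FTN.K.P3F9
import Pool.Agent.FTN.K.P3F10
import Pool.Agent.FTN.K.P3F11
import Pool.Agent.FTN.K.P3F12
import Pool.Agent.FTN.K.P3F13
import Pool.Agent.FTN.K.P3F14
import Pool.Agent.FTN.K.P3F15
import Pool.Agent.FTN.K.P3F16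
import Pool.Agent.FTN.K.P3F17
import Pool.Agent.FTN.K.P3F18
import Pool.Agent.FTN.K.P3F19
import Pool.Agent.FTN.K.P3F20
import Pool.Agent.FTN.K.P3F21
import Pool.Agent.FTN.K.P3F22
import Pool.Agent.FTN.REG

set_option maxRecDepth 100000

namespace Pool.Agent.FTN.K3

open Pool.Agent.FTA (TM Alg Tr leaf leafS exNo exV chkA chkB chkC)

def N.u0 : Tr := .C N.t0 N.t1
theorem N.d0 : Tr.chk (leaf fun A => gN A ⟨3, 128, 96⟩) exNo N.u0 218103808 218103808 268435456 268435456 236978176 236978176 = true := chkC rfl N.c0 N.c1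

def N.u1 : Tr := .C N.t2 N.t3
theorem N.d1 : Tr.chk (leaf fun A => gN A ⟨3, 128, 96⟩) exNo N.u1 654311424 218103808 134217728 134217728 236978176 236978176 = true := chkC rfl N.c2 N.c3

def N.u2 : Tr := .C N.t4 N.t5
theorem N.d2 : Tr.chk (leaf fun A => gN A ⟨3, 128, 96⟩) exNo N.u2 654311424 218103808 402653184 134217728 236978176 236978176 = true := chkC rfl N.c4 N.c5

def N.u3 : Tr := .B N.u1 N.u2
theorem N.d3 : Tr.chk (leaf fun A => gN A ⟨3, 128, 96⟩) exNo N.u3 654311424 218103808 268435456 268435456 236978176 236978176 = true := chkB rfl N.d1 N.d2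

def N.u4 : Tr := .A N.u0 N.u3
theorem N.d4 : Tr.chk (leaf fun A => gN A ⟨3, 128, 96⟩) exNo N.u4 436207616 436207616 268435456 268435456 236978176 236978176 = true := chkA rfl N.d0 N.d3

def N.u5 : Tr := .C N.t6 N.t7
theorem N.d5 : Tr.chk (leaf fun A => gN A ⟨3, 128, 96⟩) exNo N.u5 218103808 218103808 268435456 268435456 710934528 236978176 = true := chkC rfl N.c6 N.c7

def N.u6 : Tr := .C N.t8 N.t9
theorem N.d6 : Tr.chk (leaf fun A => gN A ⟨3, 128, 96⟩) exNo N.u6 654311424 218103808 134217728 134217728 710934528 236978176 = true := chkC rfl N.c8 N.c9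

def N.u7 : Tr := .C N.t11 N.t12
theorem N.d7 : Tr.chk (leaf fun A => gN A ⟨3, 128, 96⟩) exNo N.u7 654311424 218103808 402653184 134217728 829423616 118489088 = true := chkC rfl N.c11 N.c12

def N.u8 : Tr := .C N.t10 N.u7
theorem N.d8 : Tr.chk (leaf fun A => gN A ⟨3, 128, 96⟩) exNo N.u8 654311424 218103808 402653184 134217728 710934528 236978176 = true := chkC rfl N.c10 N.d7

def N.u9 : Tr := .B N.u6 N.u8
theorem N.d9 : Tr.chk (leaf fun A => gN A ⟨3, 128, 96⟩) exNo N.u9 654311424 218103808 268435456 268435456 710934528 236978176 = true := chkB rfl N.d6 N.d8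

def N.u10 : Tr := .A N.u5 N.u9
theorem N.d10 : Tr.chk (leaf fun A => gN A ⟨3, 128, 96⟩) exNo N.u10 436207616 436207616 268435456 268435456 710934528 236978176 = true := chkA rfl N.d5 N.d9

def N.u11 : Tr := .C N.u4 N.u10
theorem N.d11 : Tr.chk (leaf fun A => gN A ⟨3, 128, 96⟩) exNo N.u11 436207616 436207616 268435456 268435456 473956352 473956352 = true := chkC rfl N.d4 N.d10

def N.u12 : Tr := .C N.t13 N.t14
theorem N.d12 : Tr.chk (leaf fun A => gN A ⟨3, 128, 96⟩) exNo N.u12 218103808 218103808 805306368 268435456 236978176 236978176 = true := chkC rfl N.c13 N.c14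

def N.u13 : Tr := .C N.t15 N.t16
theorem N.d13 : Tr.chk (leaf fun A => gN A ⟨3, 128, 96⟩) exNo N.u13 654311424 218103808 671088640 134217728 236978176 236978176 = true := chkC rfl N.c15 N.c16

def N.u14 : Tr := .C N.t17 N.t18
theorem N.d14 : Tr.chk (leaf fun A => gN A ⟨3, 128, 96⟩) exNo N.u14 654311424 218103808 939524096 134217728 236978176 236978176 = true := chkC rfl N.c17 N.c18

def N.u15 : Tr := .B N.u13 N.u14
theorem N.d15 : Tr.chk (leaf fun A => gN A ⟨3, 128, 96⟩) exNo N.u15 654311424 218103808 805306368 268435456 236978176 236978176 = true := chkB rfl N.d13 N.d14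

def N.u16 : Tr := .A N.u12 N.u15
theorem N.d16 : Tr.chk (leaf fun A => gN A ⟨3, 128, 96⟩) exNo N.u16 436207616 436207616 805306368 268435456 236978176 236978176 = true := chkA rfl N.d12 N.d15

def N.u17 : Tr := .C N.t20 N.t21
theorem N.d17 : Tr.chk (leaf fun A => gN A ⟨3, 128, 96⟩) exNo N.u17 654311424 218103808 671088640 134217728 710934528 236978176 = true := chkC rfl N.c20 N.c21

def N.u18 : Tr := .C N.t22 N.t23
theorem N.d18 : Tr.chk (leaf fun A => gN A ⟨3, 128, 96⟩) exNo N.u18 654311424 218103808 939524096 134217728 710934528 236978176 = true := chkC rfl N.c22 N.c23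

def N.u19 : Tr := .B N.u17 N.u18
theorem N.d19 : Tr.chk (leaf fun A => gN A ⟨3, 128, 96⟩) exNo N.u19 654311424 218103808 805306368 268435456 710934528 236978176 = true := chkB rfl N.d17 N.d18

def N.u20 : Tr := .A N.t19 N.u19
theorem N.d20 : Tr.chk (leaf fun A => gN A ⟨3, 128, 96⟩) exNo N.u20 436207616 436207616 805306368 268435456 710934528 236978176 = true := chkA rfl N.c19 N.d19

def N.u21 : Tr := .C N.u16 N.u20
theorem N.d21 : Tr.chk (leaf fun A => gN A ⟨3, 128, 96⟩) exNo N.u21 436207616 436207616 805306368 268435456 473956352 473956352 = true := chkC rfl N.d16 N.d20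

def N.u22 : Tr := .B N.u11 N.u21
theorem N.d22 : Tr.chk (leaf fun A => gN A ⟨3, 128, 96⟩) exNo N.u22 436207616 436207616 536870912 536870912 473956352 473956352 = true := chkB rfl N.d11 N.d21

/-- the region N -/
theorem N.all : ∃ t, Tr.chk (leaf fun A => gN A ⟨3, 128, 96⟩) exNo t 436207616 436207616 536870912 536870912 473956352 473956352 = true := ⟨N.u22, N.d22⟩

def A.u0 : Tr := .B A.t2 A.t3
theorem A.d0 : Tr.chk (leaf fun A => gA A ⟨3, 128, 96⟩) exNo A.u0 218103808 218103808 268435456 268435456 469762048 67108864 = true := chkB rfl A.c2 A.c3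

def A.u1 : Tr := .C A.t1 A.u0
theorem A.d1 : Tr.chk (leaf fun A => gA A ⟨3, 128, 96⟩) exNo A.u1 218103808 218103808 268435456 268435456 402653184 134217728 = true := chkC rfl A.c1 A.d0

def A.u2 : Tr := .C A.t0 A.u1
theorem A.d2 : Tr.chk (leaf fun A => gA A ⟨3, 128, 96⟩) exNo A.u2 218103808 218103808 268435456 268435456 268435456 268435456 = true := chkC rfl A.c0 A.d1

def A.u3 : Tr := .B A.t5 A.t6
theorem A.d3 : Tr.chk (leaf fun A => gA A ⟨3, 128, 96⟩) exNo A.u3 545259520 109051904 134217728 134217728 402653184 134217728 = true := chkB rfl A.c5 A.c6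

def A.u4 : Tr := .A A.u3 A.t7
theorem A.d4 : Tr.chk (leaf fun A => gA A ⟨3, 128, 96⟩) exNo A.u4 654311424 218103808 134217728 134217728 402653184 134217728 = true := chkA rfl A.d3 A.c7

def A.u5 : Tr := .C A.t4 A.u4
theorem A.d5 : Tr.chk (leaf fun A => gA A ⟨3, 128, 96⟩) exNo A.u5 654311424 218103808 134217728 134217728 268435456 268435456 = true := chkC rfl A.c4 A.d4

def A.u6 : Tr := .C A.t8 A.t9
theorem A.d6 : Tr.chk (leaf fun A => gA A ⟨3, 128, 96⟩) exNo A.u6 654311424 218103808 402653184 134217728 268435456 268435456 = true := chkC rfl A.c8 A.c9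

def A.u7 : Tr := .B A.u5 A.u6
theorem A.d7 : Tr.chk (leaf fun A => gA A ⟨3, 128, 96⟩) exNo A.u7 654311424 218103808 268435456 268435456 268435456 268435456 = true := chkB rfl A.d5 A.d6

def A.u8 : Tr := .A A.u2 A.u7
theorem A.d8 : Tr.chk (leaf fun A => gA A ⟨3, 128, 96⟩) exNo A.u8 436207616 436207616 268435456 268435456 268435456 268435456 = true := chkA rfl A.d2 A.d7

def A.u9 : Tr := .B A.t10 A.t11
theorem A.d9 : Tr.chk (leaf fun A => gA A ⟨3, 128, 96⟩) exNo A.u9 218103808 218103808 134217728 134217728 671088640 134217728 = true := chkB rfl A.c10 A.c11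

def A.u10 : Tr := .A A.t16 A.t17
theorem A.d10 : Tr.chk (leaf fun A => gA A ⟨3, 128, 96⟩) exNo A.u10 109051904 109051904 134217728 134217728 1065353216 8388608 = true := chkA rfl A.c16 A.c17

def A.u11 : Tr := .C A.t15 A.u10
theorem A.d11 : Tr.chk (leaf fun A => gA A ⟨3, 128, 96⟩) exNo A.u11 109051904 109051904 134217728 134217728 1056964608 16777216 = true := chkC rfl A.c15 A.d10

def A.u12 : Tr := .C A.t14 A.u11
theorem A.d12 : Tr.chk (leaf fun A => gA A ⟨3, 128, 96⟩) exNo A.u12 109051904 109051904 134217728 134217728 1040187392 33554432 = true := chkC rfl A.c14 A.d11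

def A.u13 : Tr := .A A.u12 A.t18
theorem A.d13 : Tr.chk (leaf fun A => gA A ⟨3, 128, 96⟩) exNo A.u13 218103808 218103808 134217728 134217728 1040187392 33554432 = true := chkA rfl A.d12 A.c18

def A.u14 : Tr := .C A.t13 A.u13
theorem A.d14 : Tr.chk (leaf fun A => gA A ⟨3, 128, 96⟩) exNo A.u14 218103808 218103808 134217728 134217728 1006632960 67108864 = true := chkC rfl A.c13 A.d13

def A.u15 : Tr := .C A.t12 A.u14
theorem A.d15 : Tr.chk (leaf fun A => gA A ⟨3, 128, 96⟩) exNo A.u15 218103808 218103808 134217728 134217728 939524096 134217728 = true := chkC rfl A.c12 A.d14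

def A.u16 : Tr := .C A.u9 A.u15
theorem A.d16 : Tr.chk (leaf fun A => gA A ⟨3, 128, 96⟩) exNo A.u16 218103808 218103808 134217728 134217728 805306368 268435456 = true := chkC rfl A.d9 A.d15

def A.u17 : Tr := .C A.t21 A.t22
theorem A.d17 : Tr.chk (leaf fun A => gA A ⟨3, 128, 96⟩) exNo A.u17 109051904 109051904 402653184 134217728 1006632960 67108864 = true := chkC rfl A.c21 A.c22

def A.u18 : Tr := .A A.u17 A.t23
theorem A.d18 : Tr.chk (leaf fun A => gA A ⟨3, 128, 96⟩) exNo A.u18 218103808 218103808 402653184 134217728 1006632960 67108864 = true := chkA rfl A.d17 A.c23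

def A.u19 : Tr := .C A.t20 A.u18
theorem A.d19 : Tr.chk (leaf fun A => gA A ⟨3, 128, 96⟩) exNo A.u19 218103808 218103808 402653184 134217728 939524096 134217728 = true := chkC rfl A.c20 A.d18

def A.u20 : Tr := .C A.t19 A.u19
theorem A.d20 : Tr.chk (leaf fun A => gA A ⟨3, 128, 96⟩) exNo A.u20 218103808 218103808 402653184 134217728 805306368 268435456 = true := chkC rfl A.c19 A.d19

def A.u21 : Tr := .B A.u16 A.u20
theorem A.d21 : Tr.chk (leaf fun A => gA A ⟨3, 128, 96⟩) exNo A.u21 218103808 218103808 268435456 268435456 805306368 268435456 = true := chkB rfl A.d16 A.d20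

def A.u22 : Tr := .B A.t24 A.t25
theorem A.d22 : Tr.chk (leaf fun A => gA A ⟨3, 128, 96⟩) exNo A.u22 545259520 109051904 134217728 134217728 671088640 134217728 = true := chkB rfl A.c24 A.c25

def A.u23 : Tr := .B A.t26 A.t27
theorem A.d23 : Tr.chk (leaf fun A => gA A ⟨3, 128, 96⟩) exNo A.u23 763363328 109051904 134217728 134217728 671088640 134217728 = true := chkB rfl A.c26 A.c27

def A.u24 : Tr := .A A.u22 A.u23
theorem A.d24 : Tr.chk (leaf fun A => gA A ⟨3, 128, 96⟩) exNo A.u24 654311424 218103808 134217728 134217728 671088640 134217728 = true := chkA rfl A.d22 A.d23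

def A.u25 : Tr := .B A.t29 A.t30
theorem A.d25 : Tr.chk (leaf fun A => gA A ⟨3, 128, 96⟩) exNo A.u25 654311424 218103808 67108864 67108864 1006632960 67108864 = true := chkB rfl A.c29 A.c30

def A.u26 : Tr := .C A.t28 A.u25
theorem A.d26 : Tr.chk (leaf fun A => gA A ⟨3, 128, 96⟩) exNo A.u26 654311424 218103808 67108864 67108864 939524096 134217728 = true := chkC rfl A.c28 A.d25

def A.u27 : Tr := .A A.t31 A.t32
theorem A.d27 : Tr.chk (leaf fun A => gA A ⟨3, 128, 96⟩) exNo A.u27 654311424 218103808 201326592 67108864 939524096 134217728 = true := chkA rfl A.c31 A.c32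

def A.u28 : Tr := .B A.u26 A.u27
theorem A.d28 : Tr.chk (leaf fun A => gA A ⟨3, 128, 96⟩) exNo A.u28 654311424 218103808 134217728 134217728 939524096 134217728 = true := chkB rfl A.d26 A.d27

def A.u29 : Tr := .C A.u24 A.u28
theorem A.d29 : Tr.chk (leaf fun A => gA A ⟨3, 128, 96⟩) exNo A.u29 654311424 218103808 134217728 134217728 805306368 268435456 = true := chkC rfl A.d24 A.d28

def A.u30 : Tr := .A A.t33 A.t34
theorem A.d30 : Tr.chk (leaf fun A => gA A ⟨3, 128, 96⟩) exNo A.u30 654311424 218103808 402653184 134217728 671088640 134217728 = true := chkA rfl A.c33 A.c34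

def A.u31 : Tr := .A A.t37 A.t38
theorem A.d31 : Tr.chk (leaf fun A => gA A ⟨3, 128, 96⟩) exNo A.u31 817889280 54525952 335544320 67108864 939524096 134217728 = true := chkA rfl A.c37 A.c38

def A.u32 : Tr := .A A.t36 A.u31
theorem A.d32 : Tr.chk (leaf fun A => gA A ⟨3, 128, 96⟩) exNo A.u32 763363328 109051904 335544320 67108864 939524096 134217728 = true := chkA rfl A.c36 A.d31

def A.u33 : Tr := .B A.u32 A.t39
theorem A.d33 : Tr.chk (leaf fun A => gA A ⟨3, 128, 96⟩) exNo A.u33 763363328 109051904 402653184 134217728 939524096 134217728 = true := chkB rfl A.d32 A.c39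

def A.u34 : Tr := .A A.t35 A.u33
theorem A.d34 : Tr.chk (leaf fun A => gA A ⟨3, 128, 96⟩) exNo A.u34 654311424 218103808 402653184 134217728 939524096 134217728 = true := chkA rfl A.c35 A.d33

def A.u35 : Tr := .C A.u30 A.u34
theorem A.d35 : Tr.chk (leaf fun A => gA A ⟨3, 128, 96⟩) exNo A.u35 654311424 218103808 402653184 134217728 805306368 268435456 = true := chkC rfl A.d30 A.d34

def A.u36 : Tr := .B A.u29 A.u35
theorem A.d36 : Tr.chk (leaf fun A => gA A ⟨3, 128, 96⟩) exNo A.u36 654311424 218103808 268435456 268435456 805306368 268435456 = true := chkB rfl A.d29 A.d35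

def A.u37 : Tr := .A A.u21 A.u36
theorem A.d37 : Tr.chk (leaf fun A => gA A ⟨3, 128, 96⟩) exNo A.u37 436207616 436207616 268435456 268435456 805306368 268435456 = true := chkA rfl A.d21 A.d36

def A.u38 : Tr := .C A.u8 A.u37
theorem A.d38 : Tr.chk (leaf fun A => gA A ⟨3, 128, 96⟩) exNo A.u38 436207616 436207616 268435456 268435456 536870912 536870912 = true := chkC rfl A.d8 A.d37

def A.u39 : Tr := .C A.t40 A.t41
theorem A.d39 : Tr.chk (leaf fun A => gA A ⟨3, 128, 96⟩) exNo A.u39 218103808 218103808 805306368 268435456 268435456 268435456 = true := chkC rfl A.c40 A.c41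

def A.u40 : Tr := .C A.t42 A.t43
theorem A.d40 : Tr.chk (leaf fun A => gA A ⟨3, 128, 96⟩) exNo A.u40 654311424 218103808 671088640 134217728 268435456 268435456 = true := chkC rfl A.c42 A.c43

def A.u41 : Tr := .B A.u40 A.t44
theorem A.d41 : Tr.chk (leaf fun A => gA A ⟨3, 128, 96⟩) exNo A.u41 654311424 218103808 805306368 268435456 268435456 268435456 = true := chkB rfl A.d40 A.c44

def A.u42 : Tr := .A A.u39 A.u41
theorem A.d42 : Tr.chk (leaf fun A => gA A ⟨3, 128, 96⟩) exNo A.u42 436207616 436207616 805306368 268435456 268435456 268435456 = true := chkA rfl A.d39 A.d41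

def A.u43 : Tr := .A A.t46 A.t47
theorem A.d43 : Tr.chk (leaf fun A => gA A ⟨3, 128, 96⟩) exNo A.u43 218103808 218103808 671088640 134217728 939524096 134217728 = true := chkA rfl A.c46 A.c47

def A.u44 : Tr := .C A.t45 A.u43
theorem A.d44 : Tr.chk (leaf fun A => gA A ⟨3, 128, 96⟩) exNo A.u44 218103808 218103808 671088640 134217728 805306368 268435456 = true := chkC rfl A.c45 A.d43

def A.u45 : Tr := .A A.t49 A.t50
theorem A.d45 : Tr.chk (leaf fun A => gA A ⟨3, 128, 96⟩) exNo A.u45 218103808 218103808 939524096 134217728 939524096 134217728 = true := chkA rfl A.c49 A.c50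

def A.u46 : Tr := .C A.t48 A.u45
theorem A.d46 : Tr.chk (leaf fun A => gA A ⟨3, 128, 96⟩) exNo A.u46 218103808 218103808 939524096 134217728 805306368 268435456 = true := chkC rfl A.c48 A.d45

def A.u47 : Tr := .B A.u44 A.u46
theorem A.d47 : Tr.chk (leaf fun A => gA A ⟨3, 128, 96⟩) exNo A.u47 218103808 218103808 805306368 268435456 805306368 268435456 = true := chkB rfl A.d44 A.d46

def A.u48 : Tr := .A A.t52 A.t53
theorem A.d48 : Tr.chk (leaf fun A => gA A ⟨3, 128, 96⟩) exNo A.u48 545259520 109051904 671088640 134217728 939524096 134217728 = true := chkA rfl A.c52 A.c53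

def A.u49 : Tr := .B A.t54 A.t55
theorem A.d49 : Tr.chk (leaf fun A => gA A ⟨3, 128, 96⟩) exNo A.u49 763363328 109051904 671088640 134217728 939524096 134217728 = true := chkB rfl A.c54 A.c55

def A.u50 : Tr := .A A.u48 A.u49
theorem A.d50 : Tr.chk (leaf fun A => gA A ⟨3, 128, 96⟩) exNo A.u50 654311424 218103808 671088640 134217728 939524096 134217728 = true := chkA rfl A.d48 A.d49

def A.u51 : Tr := .C A.t51 A.u50
theorem A.d51 : Tr.chk (leaf fun A => gA A ⟨3, 128, 96⟩) exNo A.u51 654311424 218103808 671088640 134217728 805306368 268435456 = true := chkC rfl A.c51 A.d50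

def A.u52 : Tr := .A A.t59 A.t60
theorem A.d52 : Tr.chk (leaf fun A => gA A ⟨3, 128, 96⟩) exNo A.u52 545259520 109051904 1006632960 67108864 1006632960 67108864 = true := chkA rfl A.c59 A.c60

def A.u53 : Tr := .C A.t58 A.u52
theorem A.d53 : Tr.chk (leaf fun A => gA A ⟨3, 128, 96⟩) exNo A.u53 545259520 109051904 1006632960 67108864 939524096 134217728 = true := chkC rfl A.c58 A.d52

def A.u54 : Tr := .B A.t57 A.u53
theorem A.d54 : Tr.chk (leaf fun A => gA A ⟨3, 128, 96⟩) exNo A.u54 545259520 109051904 939524096 134217728 939524096 134217728 = true := chkB rfl A.c57 A.d53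

def A.u55 : Tr := .A A.u54 A.t61
theorem A.d55 : Tr.chk (leaf fun A => gA A ⟨3, 128, 96⟩) exNo A.u55 654311424 218103808 939524096 134217728 939524096 134217728 = true := chkA rfl A.d54 A.c61

def A.u56 : Tr := .C A.t56 A.u55
theorem A.d56 : Tr.chk (leaf fun A => gA A ⟨3, 128, 96⟩) exNo A.u56 654311424 218103808 939524096 134217728 805306368 268435456 = true := chkC rfl A.c56 A.d55

def A.u57 : Tr := .B A.u51 A.u56
theorem A.d57 : Tr.chk (leaf fun A => gA A ⟨3, 128, 96⟩) exNo A.u57 654311424 218103808 805306368 268435456 805306368 268435456 = true := chkB rfl A.d51 A.d56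

def A.u58 : Tr := .A A.u47 A.u57
theorem A.d58 : Tr.chk (leaf fun A => gA A ⟨3, 128, 96⟩) exNo A.u58 436207616 436207616 805306368 268435456 805306368 268435456 = true := chkA rfl A.d47 A.d57

def A.u59 : Tr := .C A.u42 A.u58
theorem A.d59 : Tr.chk (leaf fun A => gA A ⟨3, 128, 96⟩) exNo A.u59 436207616 436207616 805306368 268435456 536870912 536870912 = true := chkC rfl A.d42 A.d58

def A.u60 : Tr := .B A.u38 A.u59
theorem A.d60 : Tr.chk (leaf fun A => gA A ⟨3, 128, 96⟩) exNo A.u60 436207616 436207616 536870912 536870912 536870912 536870912 = true := chkB rfl A.d38 A.d59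

/-- the region A -/
theorem A.all : ∃ t, Tr.chk (leaf fun A => gA A ⟨3, 128, 96⟩) exNo t 436207616 436207616 536870912 536870912 536870912 536870912 = true := ⟨A.u60, A.d60⟩

def B.u0 : Tr := .B B.t0 B.t1
theorem B.d0 : Tr.chk (leaf fun A => gB A ⟨3, 128, 96⟩) exNo B.u0 218103808 218103808 268435456 268435456 268435456 268435456 = true := chkB rfl B.c0 B.c1

def B.u1 : Tr := .A B.t2 B.t3
theorem B.d1 : Tr.chk (leaf fun A => gB A ⟨3, 128, 96⟩) exNo B.u1 654311424 218103808 134217728 134217728 134217728 134217728 = true := chkA rfl B.c2 B.c3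

def B.u2 : Tr := .C B.u1 B.t4
theorem B.d2 : Tr.chk (leaf fun A => gB A ⟨3, 128, 96⟩) exNo B.u2 654311424 218103808 134217728 134217728 268435456 268435456 = true := chkC rfl B.d1 B.c4

def B.u3 : Tr := .C B.t6 B.t7
theorem B.d3 : Tr.chk (leaf fun A => gB A ⟨3, 128, 96⟩) exNo B.u3 490733568 54525952 469762048 67108864 67108864 67108864 = true := chkC rfl B.c6 B.c7

def B.u4 : Tr := .A B.u3 B.t8
theorem B.d4 : Tr.chk (leaf fun A => gB A ⟨3, 128, 96⟩) exNo B.u4 545259520 109051904 469762048 67108864 67108864 67108864 = true := chkA rfl B.d3 B.c8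

def B.u5 : Tr := .C B.u4 B.t9
theorem B.d5 : Tr.chk (leaf fun A => gB A ⟨3, 128, 96⟩) exNo B.u5 545259520 109051904 469762048 67108864 134217728 134217728 = true := chkC rfl B.d4 B.c9

def B.u6 : Tr := .B B.t5 B.u5
theorem B.d6 : Tr.chk (leaf fun A => gB A ⟨3, 128, 96⟩) exNo B.u6 545259520 109051904 402653184 134217728 134217728 134217728 = true := chkB rfl B.c5 B.d5

def B.u7 : Tr := .A B.u6 B.t10
theorem B.d7 : Tr.chk (leaf fun A => gB A ⟨3, 128, 96⟩) exNo B.u7 654311424 218103808 402653184 134217728 134217728 134217728 = true := chkA rfl B.d6 B.c10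

def B.u8 : Tr := .C B.u7 B.t11
theorem B.d8 : Tr.chk (leaf fun A => gB A ⟨3, 128, 96⟩) exNo B.u8 654311424 218103808 402653184 134217728 268435456 268435456 = true := chkC rfl B.d7 B.c11

def B.u9 : Tr := .B B.u2 B.u8
theorem B.d9 : Tr.chk (leaf fun A => gB A ⟨3, 128, 96⟩) exNo B.u9 654311424 218103808 268435456 268435456 268435456 268435456 = true := chkB rfl B.d2 B.d8

def B.u10 : Tr := .A B.u0 B.u9
theorem B.d10 : Tr.chk (leaf fun A => gB A ⟨3, 128, 96⟩) exNo B.u10 436207616 436207616 268435456 268435456 268435456 268435456 = true := chkA rfl B.d0 B.d9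

def B.u11 : Tr := .C B.t12 B.t13
theorem B.d11 : Tr.chk (leaf fun A => gB A ⟨3, 128, 96⟩) exNo B.u11 218103808 218103808 134217728 134217728 805306368 268435456 = true := chkC rfl B.c12 B.c13

def B.u12 : Tr := .C B.t14 B.t15
theorem B.d12 : Tr.chk (leaf fun A => gB A ⟨3, 128, 96⟩) exNo B.u12 218103808 218103808 402653184 134217728 805306368 268435456 = true := chkC rfl B.c14 B.c15

def B.u13 : Tr := .B B.u11 B.u12
theorem B.d13 : Tr.chk (leaf fun A => gB A ⟨3, 128, 96⟩) exNo B.u13 218103808 218103808 268435456 268435456 805306368 268435456 = true := chkB rfl B.d11 B.d12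

def B.u14 : Tr := .C B.t16 B.t17
theorem B.d14 : Tr.chk (leaf fun A => gB A ⟨3, 128, 96⟩) exNo B.u14 654311424 218103808 134217728 134217728 805306368 268435456 = true := chkC rfl B.c16 B.c17

def B.u15 : Tr := .C B.t18 B.t19
theorem B.d15 : Tr.chk (leaf fun A => gB A ⟨3, 128, 96⟩) exNo B.u15 654311424 218103808 402653184 134217728 805306368 268435456 = true := chkC rfl B.c18 B.c19

def B.u16 : Tr := .B B.u14 B.u15
theorem B.d16 : Tr.chk (leaf fun A => gB A ⟨3, 128, 96⟩) exNo B.u16 654311424 218103808 268435456 268435456 805306368 268435456 = true := chkB rfl B.d14 B.d15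

def B.u17 : Tr := .A B.u13 B.u16
theorem B.d17 : Tr.chk (leaf fun A => gB A ⟨3, 128, 96⟩) exNo B.u17 436207616 436207616 268435456 268435456 805306368 268435456 = true := chkA rfl B.d13 B.d16

def B.u18 : Tr := .C B.u10 B.u17
theorem B.d18 : Tr.chk (leaf fun A => gB A ⟨3, 128, 96⟩) exNo B.u18 436207616 436207616 268435456 268435456 536870912 536870912 = true := chkC rfl B.d10 B.d17

def B.u19 : Tr := .C B.t20 B.t21
theorem B.d19 : Tr.chk (leaf fun A => gB A ⟨3, 128, 96⟩) exNo B.u19 218103808 218103808 671088640 134217728 268435456 268435456 = true := chkC rfl B.c20 B.c21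

def B.u20 : Tr := .C B.t23 B.t24
theorem B.d20 : Tr.chk (leaf fun A => gB A ⟨3, 128, 96⟩) exNo B.u20 327155712 109051904 872415232 67108864 134217728 134217728 = true := chkC rfl B.c23 B.c24

def B.u21 : Tr := .B B.t26 B.t27
theorem B.d21 : Tr.chk (leaf fun A => gB A ⟨3, 128, 96⟩) exNo B.u21 381681664 54525952 1006632960 67108864 16777216 16777216 = true := chkB rfl B.c26 B.c27

def B.u22 : Tr := .C B.u21 B.t28
theorem B.d22 : Tr.chk (leaf fun A => gB A ⟨3, 128, 96⟩) exNo B.u22 381681664 54525952 1006632960 67108864 33554432 33554432 = true := chkC rfl B.d21 B.c28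

def B.u23 : Tr := .C B.u22 B.t29
theorem B.d23 : Tr.chk (leaf fun A => gB A ⟨3, 128, 96⟩) exNo B.u23 381681664 54525952 1006632960 67108864 67108864 67108864 = true := chkC rfl B.d22 B.c29

def B.u24 : Tr := .A B.t25 B.u23
theorem B.d24 : Tr.chk (leaf fun A => gB A ⟨3, 128, 96⟩) exNo B.u24 327155712 109051904 1006632960 67108864 67108864 67108864 = true := chkA rfl B.c25 B.d23

def B.u25 : Tr := .C B.u24 B.t30
theorem B.d25 : Tr.chk (leaf fun A => gB A ⟨3, 128, 96⟩) exNo B.u25 327155712 109051904 1006632960 67108864 134217728 134217728 = true := chkC rfl B.d24 B.c30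

def B.u26 : Tr := .B B.u20 B.u25
theorem B.d26 : Tr.chk (leaf fun A => gB A ⟨3, 128, 96⟩) exNo B.u26 327155712 109051904 939524096 134217728 134217728 134217728 = true := chkB rfl B.d20 B.d25

def B.u27 : Tr := .A B.t22 B.u26
theorem B.d27 : Tr.chk (leaf fun A => gB A ⟨3, 128, 96⟩) exNo B.u27 218103808 218103808 939524096 134217728 134217728 134217728 = true := chkA rfl B.c22 B.d26

def B.u28 : Tr := .A B.t31 B.t32
theorem B.d28 : Tr.chk (leaf fun A => gB A ⟨3, 128, 96⟩) exNo B.u28 218103808 218103808 939524096 134217728 402653184 134217728 = true := chkA rfl B.c31 B.c32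

def B.u29 : Tr := .C B.u27 B.u28
theorem B.d29 : Tr.chk (leaf fun A => gB A ⟨3, 128, 96⟩) exNo B.u29 218103808 218103808 939524096 134217728 268435456 268435456 = true := chkC rfl B.d27 B.d28

def B.u30 : Tr := .B B.u19 B.u29
theorem B.d30 : Tr.chk (leaf fun A => gB A ⟨3, 128, 96⟩) exNo B.u30 218103808 218103808 805306368 268435456 268435456 268435456 = true := chkB rfl B.d19 B.d29

def B.u31 : Tr := .C B.t33 B.t34
theorem B.d31 : Tr.chk (leaf fun A => gB A ⟨3, 128, 96⟩) exNo B.u31 654311424 218103808 671088640 134217728 268435456 268435456 = true := chkC rfl B.c33 B.c34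

def B.u32 : Tr := .B B.u31 B.t35
theorem B.d32 : Tr.chk (leaf fun A => gB A ⟨3, 128, 96⟩) exNo B.u32 654311424 218103808 805306368 268435456 268435456 268435456 = true := chkB rfl B.d31 B.c35

def B.u33 : Tr := .A B.u30 B.u32
theorem B.d33 : Tr.chk (leaf fun A => gB A ⟨3, 128, 96⟩) exNo B.u33 436207616 436207616 805306368 268435456 268435456 268435456 = true := chkA rfl B.d30 B.d32

def B.u34 : Tr := .C B.t36 B.t37
theorem B.d34 : Tr.chk (leaf fun A => gB A ⟨3, 128, 96⟩) exNo B.u34 218103808 218103808 671088640 134217728 805306368 268435456 = true := chkC rfl B.c36 B.c37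

def B.u35 : Tr := .C B.t38 B.t39
theorem B.d35 : Tr.chk (leaf fun A => gB A ⟨3, 128, 96⟩) exNo B.u35 218103808 218103808 939524096 134217728 805306368 268435456 = true := chkC rfl B.c38 B.c39

def B.u36 : Tr := .B B.u34 B.u35
theorem B.d36 : Tr.chk (leaf fun A => gB A ⟨3, 128, 96⟩) exNo B.u36 218103808 218103808 805306368 268435456 805306368 268435456 = true := chkB rfl B.d34 B.d35

def B.u37 : Tr := .B B.t41 B.t42
theorem B.d37 : Tr.chk (leaf fun A => gB A ⟨3, 128, 96⟩) exNo B.u37 545259520 109051904 671088640 134217728 939524096 134217728 = true := chkB rfl B.c41 B.c42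

def B.u38 : Tr := .A B.u37 B.t43
theorem B.d38 : Tr.chk (leaf fun A => gB A ⟨3, 128, 96⟩) exNo B.u38 654311424 218103808 671088640 134217728 939524096 134217728 = true := chkA rfl B.d37 B.c43

def B.u39 : Tr := .C B.t40 B.u38
theorem B.d39 : Tr.chk (leaf fun A => gB A ⟨3, 128, 96⟩) exNo B.u39 654311424 218103808 671088640 134217728 805306368 268435456 = true := chkC rfl B.c40 B.d38

def B.u40 : Tr := .B B.t44 B.t45
theorem B.d40 : Tr.chk (leaf fun A => gB A ⟨3, 128, 96⟩) exNo B.u40 545259520 109051904 939524096 134217728 671088640 134217728 = true := chkB rfl B.c44 B.c45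

def B.u41 : Tr := .A B.u40 B.t46
theorem B.d41 : Tr.chk (leaf fun A => gB A ⟨3, 128, 96⟩) exNo B.u41 654311424 218103808 939524096 134217728 671088640 134217728 = true := chkA rfl B.d40 B.c46

def B.u42 : Tr := .B B.t47 B.t48
theorem B.d42 : Tr.chk (leaf fun A => gB A ⟨3, 128, 96⟩) exNo B.u42 545259520 109051904 939524096 134217728 939524096 134217728 = true := chkB rfl B.c47 B.c48

def B.u43 : Tr := .A B.u42 B.t49
theorem B.d43 : Tr.chk (leaf fun A => gB A ⟨3, 128, 96⟩) exNo B.u43 654311424 218103808 939524096 134217728 939524096 134217728 = true := chkA rfl B.d42 B.c49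

def B.u44 : Tr := .C B.u41 B.u43
theorem B.d44 : Tr.chk (leaf fun A => gB A ⟨3, 128, 96⟩) exNo B.u44 654311424 218103808 939524096 134217728 805306368 268435456 = true := chkC rfl B.d41 B.d43

def B.u45 : Tr := .B B.u39 B.u44
theorem B.d45 : Tr.chk (leaf fun A => gB A ⟨3, 128, 96⟩) exNo B.u45 654311424 218103808 805306368 268435456 805306368 268435456 = true := chkB rfl B.d39 B.d44

def B.u46 : Tr := .A B.u36 B.u45
theorem B.d46 : Tr.chk (leaf fun A => gB A ⟨3, 128, 96⟩) exNo B.u46 436207616 436207616 805306368 268435456 805306368 268435456 = true := chkA rfl B.d36 B.d45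

def B.u47 : Tr := .C B.u33 B.u46
theorem B.d47 : Tr.chk (leaf fun A => gB A ⟨3, 128, 96⟩) exNo B.u47 436207616 436207616 805306368 268435456 536870912 536870912 = true := chkC rfl B.d33 B.d46

def B.u48 : Tr := .B B.u18 B.u47
theorem B.d48 : Tr.chk (leaf fun A => gB A ⟨3, 128, 96⟩) exNo B.u48 436207616 436207616 536870912 536870912 536870912 536870912 = true := chkB rfl B.d18 B.d47

/-- the region B -/
theorem B.all : ∃ t, Tr.chk (leaf fun A => gB A ⟨3, 128, 96⟩) exNo t 436207616 436207616 536870912 536870912 536870912 536870912 = true := ⟨B.u48, B.d48⟩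

def V.u0 : Tr := .A V.t0 V.t1
theorem V.d0 : Tr.chk (leaf fun A => gV A ⟨3, 128, 96⟩) exV V.u0 268435456 268435456 268435456 268435456 268435456 268435456 = true := chkA rfl V.c0 V.c1

def V.u1 : Tr := .C V.u0 V.t2
theorem V.d1 : Tr.chk (leaf fun A => gV A ⟨3, 128, 96⟩) exV V.u1 268435456 268435456 268435456 268435456 536870912 536870912 = true := chkC rfl V.d0 V.c2

def V.u2 : Tr := .B V.t3 V.t4
theorem V.d2 : Tr.chk (leaf fun A => gV A ⟨3, 128, 96⟩) exV V.u2 134217728 134217728 805306368 268435456 268435456 268435456 = true := chkB rfl V.c3 V.c4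

def V.u3 : Tr := .A V.u2 V.t5
theorem V.d3 : Tr.chk (leaf fun A => gV A ⟨3, 128, 96⟩) exV V.u3 268435456 268435456 805306368 268435456 268435456 268435456 = true := chkA rfl V.d2 V.c5

def V.u4 : Tr := .C V.t9 V.t10
theorem V.d4 : Tr.chk (leaf fun A => gV A ⟨3, 128, 96⟩) exV V.u4 134217728 134217728 1006632960 67108864 939524096 134217728 = true := chkC rfl V.c9 V.c10

def V.u5 : Tr := .B V.t8 V.u4
theorem V.d5 : Tr.chk (leaf fun A => gV A ⟨3, 128, 96⟩) exV V.u5 134217728 134217728 939524096 134217728 939524096 134217728 = true := chkB rfl V.c8 V.d4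

def V.u6 : Tr := .C V.t7 V.u5
theorem V.d6 : Tr.chk (leaf fun A => gV A ⟨3, 128, 96⟩) exV V.u6 134217728 134217728 939524096 134217728 805306368 268435456 = true := chkC rfl V.c7 V.d5

def V.u7 : Tr := .B V.t6 V.u6
theorem V.d7 : Tr.chk (leaf fun A => gV A ⟨3, 128, 96⟩) exV V.u7 134217728 134217728 805306368 268435456 805306368 268435456 = true := chkB rfl V.c6 V.d6

def V.u8 : Tr := .B V.t11 V.t12
theorem V.d8 : Tr.chk (leaf fun A => gV A ⟨3, 128, 96⟩) exV V.u8 402653184 134217728 805306368 268435456 805306368 268435456 = true := chkB rfl V.c11 V.c12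

def V.u9 : Tr := .A V.u7 V.u8
theorem V.d9 : Tr.chk (leaf fun A => gV A ⟨3, 128, 96⟩) exV V.u9 268435456 268435456 805306368 268435456 805306368 268435456 = true := chkA rfl V.d7 V.d8

def V.u10 : Tr := .C V.u3 V.u9
theorem V.d10 : Tr.chk (leaf fun A => gV A ⟨3, 128, 96⟩) exV V.u10 268435456 268435456 805306368 268435456 536870912 536870912 = true := chkC rfl V.d3 V.d9

def V.u11 : Tr := .B V.u1 V.u10
theorem V.d11 : Tr.chk (leaf fun A => gV A ⟨3, 128, 96⟩) exV V.u11 268435456 268435456 536870912 536870912 536870912 536870912 = true := chkB rfl V.d1 V.d10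

def V.u12 : Tr := .C V.t14 V.t15
theorem V.d12 : Tr.chk (leaf fun A => gV A ⟨3, 128, 96⟩) exV V.u12 939524096 134217728 134217728 134217728 268435456 268435456 = true := chkC rfl V.c14 V.c15

def V.u13 : Tr := .B V.u12 V.t16
theorem V.d13 : Tr.chk (leaf fun A => gV A ⟨3, 128, 96⟩) exV V.u13 939524096 134217728 268435456 268435456 268435456 268435456 = true := chkB rfl V.d12 V.c16

def V.u14 : Tr := .A V.t13 V.u13
theorem V.d14 : Tr.chk (leaf fun A => gV A ⟨3, 128, 96⟩) exV V.u14 805306368 268435456 268435456 268435456 268435456 268435456 = true := chkA rfl V.c13 V.d13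

def V.u15 : Tr := .B V.t18 V.t19
theorem V.d15 : Tr.chk (leaf fun A => gV A ⟨3, 128, 96⟩) exV V.u15 939524096 134217728 268435456 268435456 805306368 268435456 = true := chkB rfl V.c18 V.c19

def V.u16 : Tr := .A V.t17 V.u15
theorem V.d16 : Tr.chk (leaf fun A => gV A ⟨3, 128, 96⟩) exV V.u16 805306368 268435456 268435456 268435456 805306368 268435456 = true := chkA rfl V.c17 V.d15

def V.u17 : Tr := .C V.u14 V.u16
theorem V.d17 : Tr.chk (leaf fun A => gV A ⟨3, 128, 96⟩) exV V.u17 805306368 268435456 268435456 268435456 536870912 536870912 = true := chkC rfl V.d14 V.d16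

def V.u18 : Tr := .C V.t21 V.t22
theorem V.d18 : Tr.chk (leaf fun A => gV A ⟨3, 128, 96⟩) exV V.u18 671088640 134217728 671088640 134217728 805306368 268435456 = true := chkC rfl V.c21 V.c22

def V.u19 : Tr := .B V.u18 V.t23
theorem V.d19 : Tr.chk (leaf fun A => gV A ⟨3, 128, 96⟩) exV V.u19 671088640 134217728 805306368 268435456 805306368 268435456 = true := chkB rfl V.d18 V.c23

def V.u20 : Tr := .B V.t25 V.t26
theorem V.d20 : Tr.chk (leaf fun A => gV A ⟨3, 128, 96⟩) exV V.u20 939524096 134217728 671088640 134217728 939524096 134217728 = true := chkB rfl V.c25 V.c26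

def V.u21 : Tr := .C V.t24 V.u20
theorem V.d21 : Tr.chk (leaf fun A => gV A ⟨3, 128, 96⟩) exV V.u21 939524096 134217728 671088640 134217728 805306368 268435456 = true := chkC rfl V.c24 V.d20

def V.u22 : Tr := .B V.u21 V.t27
theorem V.d22 : Tr.chk (leaf fun A => gV A ⟨3, 128, 96⟩) exV V.u22 939524096 134217728 805306368 268435456 805306368 268435456 = true := chkB rfl V.d21 V.c27

def V.u23 : Tr := .A V.u19 V.u22
theorem V.d23 : Tr.chk (leaf fun A => gV A ⟨3, 128, 96⟩) exV V.u23 805306368 268435456 805306368 268435456 805306368 268435456 = true := chkA rfl V.d19 V.d22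

def V.u24 : Tr := .C V.t20 V.u23
theorem V.d24 : Tr.chk (leaf fun A => gV A ⟨3, 128, 96⟩) exV V.u24 805306368 268435456 805306368 268435456 536870912 536870912 = true := chkC rfl V.c20 V.d23

def V.u25 : Tr := .B V.u17 V.u24
theorem V.d25 : Tr.chk (leaf fun A => gV A ⟨3, 128, 96⟩) exV V.u25 805306368 268435456 536870912 536870912 536870912 536870912 = true := chkB rfl V.d17 V.d24

def V.u26 : Tr := .A V.u11 V.u25
theorem V.d26 : Tr.chk (leaf fun A => gV A ⟨3, 128, 96⟩) exV V.u26 536870912 536870912 536870912 536870912 536870912 536870912 = true := chkA rfl V.d11 V.d25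

/-- the region V -/
theorem V.all : ∃ t, Tr.chk (leaf fun A => gV A ⟨3, 128, 96⟩) exV t 536870912 536870912 536870912 536870912 536870912 536870912 = true := ⟨V.u26, V.d26⟩

/-- the region HN -/
theorem HN.all : ∃ t, Tr.chk (leaf fun A => gHN A ⟨3, 128, 96⟩) exNo t 100663296 100663296 536870912 536870912 536870912 536870912 = true := ⟨HN.t0, HN.c0⟩

/-- the region HP -/
theorem HP.all : ∃ t, Tr.chk (leaf fun A => gHP A ⟨3, 128, 96⟩) exNo t 100663296 100663296 536870912 536870912 536870912 536870912 = true := ⟨HP.t0, HP.c0⟩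

/-- the region HE -/
theorem HE.all : ∃ t, Tr.chk (leaf fun A => gHE A ⟨3, 128, 96⟩) exNo t 100663296 100663296 536870912 536870912 872415232 872415232 = true := ⟨HE.t0, HE.c0⟩

/-- the region SN -/
theorem SN.all : ∃ t, Tr.chk (leafS fun A => fN A ⟨3, 128, 96⟩) exNo t 436207616 436207616 67108864 67108864 536870912 536870912 = true := ⟨SN.t0, SN.c0⟩

/-- the region S1 -/
theorem S1.all : ∃ t, Tr.chk (leafS fun A => fP1 A ⟨3, 128, 96⟩) exNo t 50331648 50331648 67108864 67108864 536870912 536870912 = true := ⟨S1.t0, S1.c0⟩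

/-- the region S2 -/
theorem S2.all : ∃ t, Tr.chk (leafS fun A => fP2 A ⟨3, 128, 96⟩) exNo t 50331648 50331648 50331648 50331648 536870912 536870912 = true := ⟨S2.t0, S2.c0⟩

def F1.u0 : Tr := .C F1.t0 F1.t1
theorem F1.d0 : Tr.chk (leafS fun A => fF1 A ⟨3, 128, 96⟩) exNo F1.u0 486539264 385875968 67108864 67108864 536870912 536870912 = true := chkC rfl F1.c0 F1.c1

/-- the region F1 -/
theorem F1.all : ∃ t, Tr.chk (leafS fun A => fF1 A ⟨3, 128, 96⟩) exNo t 486539264 385875968 67108864 67108864 536870912 536870912 = true := ⟨F1.u0, F1.d0⟩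

def F2.u0 : Tr := .A F2.t0 F2.t1
theorem F2.d0 : Tr.chk (leafS fun A => fF2 A ⟨3, 128, 96⟩) exNo F2.u0 486539264 385875968 67108864 67108864 536870912 536870912 = true := chkA rfl F2.c0 F2.c1

/-- the region F2 -/
theorem F2.all : ∃ t, Tr.chk (leafS fun A => fF2 A ⟨3, 128, 96⟩) exNo t 486539264 385875968 67108864 67108864 536870912 536870912 = true := ⟨F2.u0, F2.d0⟩

/-- the region T1 -/
theorem T1.all : ∃ t, Tr.chk (leafS fun A => fV1 A ⟨3, 128, 96⟩) exNo t 536870912 536870912 16777216 16777216 536870912 536870912 = true := ⟨T1.t0, T1.c0⟩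

/-- the region T2 -/
theorem T2.all : ∃ t, Tr.chk (leafS fun A => fV2 A ⟨3, 128, 96⟩) exNo t 536870912 536870912 16777216 16777216 536870912 536870912 = true := ⟨T2.t0, T2.c0⟩

/-- the region T3 -/
theorem T3.all : ∃ t, Tr.chk (leafS fun A => fV3 A ⟨3, 128, 96⟩) exNo t 536870912 536870912 16777216 16777216 536870912 536870912 = true := ⟨T3.t0, T3.c0⟩

theorem chk : Chk ⟨3, 128, 96⟩ :=
  ⟨N.all, A.all, B.all, V.all, HN.all, HP.all, HE.all, SN.all, S1.all, S2.all, F1.all, F2.all, T1.all, T2.all, T3.all⟩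

end Pool.Agent.FTN.K3
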