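import Pool.Agent.FTN.Region

set_option maxRecDepth 100000

namespace Pool.Agent.FTN.K4

open Pool.Agent.FTA (TM Alg Tr leaf leafS exNo exV chkA chkB chkC)

def B.t1 : Tr := .C (.A (.A .L .L) (.A .L (.C (.C .L .L) (.B .L .L)))) (.A (.C .L .L) (.A (.C .L .L) (.C (.A .L .L) (.A .L .L))))
theorem B.c1 : Tr.chk (leaf fun A => gB A ⟨4, 108, 132⟩) exNo B.t1 218103808 218103808 402653184 134217728 268435456 268435456 = true := by decide +kernel

def B.t2 : Tr := .A (.B (.C (.A .L .L) (.C (.A .L .L) (.A .L .L))) (.C (.C (.A .L .L) (.C (.A .L .L) (.A .L .L))) (.A .L .L))) .L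
theorem B.c2 : Tr.chk (leaf fun A => gB A ⟨4, 108, 132⟩) exNo B.t2 654311424 218103808 134217728 134217728 134217728 134217728 = true := by decide +kernel

def B.t3 : Tr := .A (.B (.A (.C .L .L) (.C .L .L)) (.C (.A .L .L) (.A .L .L))) .L
theorem B.c3 : Tr.chk (leaf fun A => gB A ⟨4, 108, 132⟩) exNo B.t3 654311424 218103808 134217728 134217728 402653184 134217728 = true := by decide +kernel

def B.t4 : Tr := .C (.A (.C (.A .L .L) (.C (.A .L .L) (.C (.B .L .L) (.B .L .L)))) .L) (.A (.C (.C (.B .L .L) (.A .L .L)) (.A .L .L)) .L)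
theorem B.c4 : Tr.chk (leaf fun A => gB A ⟨4, 108, 132⟩) exNo B.t4 545259520 109051904 335544320 67108864 134217728 134217728 = true := by decide +kernel

def B.t5 : Tr := .A (.C (.A .L .L) (.C (.C (.A .L .L) (.B .L (.C (.A .L .L) (.B .L (.A .L .L))))) (.B (.C .L .L) (.A .L .L)))) .L
theorem B.c5 : Tr.chk (leaf fun A => gB A ⟨4, 108, 132⟩) exNo B.t5 545259520 109051904 469762048 67108864 67108864 67108864 = true := by decide +kernel

def B.t6 : Tr := .A (.C (.A .L .L) (.A .L .L)) .L
theorem B.c6 : Tr.chk (leaf fun A => gB A ⟨4, 108, 132⟩) exNo B.t6 545259520 109051904 469762048 67108864 201326592 67108864 = true := by decide +kernel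

def B.t7 : Tr := .L
theorem B.c7 : Tr.chk (leaf fun A => gB A ⟨4, 108, 132⟩) exNo B.t7 763363328 109051904 402653184 134217728 134217728 134217728 = true := by decide +kernel

end Pool.Agent.FTN.K4
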