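import Pool.Agent.FTN.Region

set_option maxRecDepth 100000

namespace Pool.Agent.FTN.K4

open Pool.Agent.FTA (TM Alg Tr leaf leafS exNo exV chkA chkB chkC)

def B.t15 : Tr := .A (.B (.C (.A (.A .L .L) .L) (.A (.A .L .L) .L)) (.C (.A (.C (.A .L .L) (.A .L .L)) .L) (.A (.A .L .L) .L))) .L
theorem B.c15 : Tr.chk (leaf fun A => gB A ⟨4, 108, 132⟩) exNo B.t15 654311424 218103808 402653184 134217728 671088640 134217728 = true := by decide +kernel

def B.t16 : Tr := .A (.B (.C (.A (.A .L .L) .L) (.A (.A .L (.A .L .L)) .L)) (.C (.A (.A .L (.A .L .L)) .L) (.A (.A .L (.A .L .L)) .L))) .L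
theorem B.c16 : Tr.chk (leaf fun A => gB A ⟨4, 108, 132⟩) exNo B.t16 654311424 218103808 402653184 134217728 939524096 134217728 = true := by decide +kernel

def B.t17 : Tr := .A (.A .L .L) (.A (.C .L .L) (.C (.C (.A .L (.B .L .L)) (.B .L (.C (.B .L (.A .L .L)) (.A .L .L)))) (.A .L (.B .L .L))))
theorem B.c17 : Tr.chk (leaf fun A => gB A ⟨4, 108, 132⟩) exNo B.t17 218103808 218103808 671088640 134217728 134217728 134217728 = true := by decide +kernel

def B.t18 : Tr := .A (.C .L (.A .L .L)) (.A (.C .L .L) (.A (.C .L .L) (.C (.B .L .L) (.B .L .L))))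
theorem B.c18 : Tr.chk (leaf fun A => gB A ⟨4, 108, 132⟩) exNo B.t18 218103808 218103808 671088640 134217728 402653184 134217728 = true := by decide +kernel

def B.t19 : Tr := .C (.A .L .L) (.A .L .L)
theorem B.c19 : Tr.chk (leaf fun A => gB A ⟨4, 108, 132⟩) exNo B.t19 109051904 109051904 939524096 134217728 134217728 134217728 = true := by decide +kernel

def B.t20 : Tr := .L
theorem B.c20 : Tr.chk (leaf fun A => gB A ⟨4, 108, 132⟩) exNo B.t20 272629760 54525952 872415232 67108864 67108864 67108864 = true := by decide +kernel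

def B.t21 : Tr := .C (.A .L .L) (.B (.C (.A .L .L) (.B .L (.A .L .L))) (.C (.B (.A .L .L) (.C (.A .L .L) (.A .L .L))) (.A .L .L)))
theorem B.c21 : Tr.chk (leaf fun A => gB A ⟨4, 108, 132⟩) exNo B.t21 381681664 54525952 872415232 67108864 33554432 33554432 = true := by decide +kernel

end Pool.Agent.FTN.K4
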