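import Pool.Agent.FTN.Region

set_option maxRecDepth 100000

namespace Pool.Agent.FTN.K4

open Pool.Agent.FTA (TM Alg Tr leaf leafS exNo exV chkA chkB chkC)

def B.t37 : Tr := .A (.B (.C (.A (.A .L .L) .L) (.A (.A .L (.A .L .L)) .L)) (.C (.A (.A .L .L) .L) (.A (.A .L (.A .L .L)) .L))) .L
theorem B.c37 : Tr.chk (leaf fun A => gB A ⟨4, 108, 132⟩) exNo B.t37 654311424 218103808 671088640 134217728 671088640 134217728 = true := by decide +kernel

def B.t38 : Tr := .C (.A (.A .L (.A .L .L)) .L) (.A (.A .L (.A .L (.A .L .L))) .L)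
theorem B.c38 : Tr.chk (leaf fun A => gB A ⟨4, 108, 132⟩) exNo B.t38 545259520 109051904 603979776 67108864 939524096 134217728 = true := by decide +kernel

def B.t39 : Tr := .C (.A (.A .L (.A .L (.A .L .L))) .L) (.A (.A .L (.A .L (.A .L (.C .L .L)))) .L)
theorem B.c39 : Tr.chk (leaf fun A => gB A ⟨4, 108, 132⟩) exNo B.t39 545259520 109051904 738197504 67108864 939524096 134217728 = true := by decide +kernel

def B.t40 : Tr := .L
theorem B.c40 : Tr.chk (leaf fun A => gB A ⟨4, 108, 132⟩) exNo B.t40 763363328 109051904 671088640 134217728 939524096 134217728 = true := by decide +kernel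

def B.t41 : Tr := .C (.A (.B (.A .L .L) (.C (.A .L .L) (.A .L .L))) .L) (.A (.A (.C .L .L) (.A .L .L)) .L)
theorem B.c41 : Tr.chk (leaf fun A => gB A ⟨4, 108, 132⟩) exNo B.t41 545259520 109051904 872415232 67108864 671088640 134217728 = true := by decide +kernel

def B.t42 : Tr := .C (.A (.B (.C (.A .L .L) (.A .L .L)) (.C .L (.A (.A .L .L) .L))) .L) (.A (.B (.A .L .L) (.A (.C .L .L) .L)) .L)
theorem B.c42 : Tr.chk (leaf fun A => gB A ⟨4, 108, 132⟩) exNo B.t42 545259520 109051904 1006632960 67108864 671088640 134217728 = true := by decide +kernel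

def B.t43 : Tr := .L
theorem B.c43 : Tr.chk (leaf fun A => gB A ⟨4, 108, 132⟩) exNo B.t43 763363328 109051904 939524096 134217728 671088640 134217728 = true := by decide +kernel

def B.t44 : Tr := .C (.A (.A .L (.A .L .L)) .L) (.A (.A .L (.A .L (.A .L (.A .L (.C .L .L))))) .L)
theorem B.c44 : Tr.chk (leaf fun A => gB A ⟨4, 108, 132⟩) exNo B.t44 545259520 109051904 872415232 67108864 939524096 134217728 = true := by decide +kernel

end Pool.Agent.FTN.K4
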