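import Pool.Agent.FTN.Region

set_option maxRecDepth 100000

namespace Pool.Agent.FTN.K4

open Pool.Agent.FTA (TM Alg Tr leaf leafS exNo exV chkA chkB chkC)

def A.t4 : Tr := .A (.C (.A .L (.C .L .L)) (.C (.A .L .L) (.B (.C (.A .L .L) (.B (.A .L .L) .L)) (.B (.C .L .L) (.A .L .L))))) .L
theorem A.c4 : Tr.chk (leaf fun A => gA A ⟨4, 108, 132⟩) exNo A.t4 654311424 218103808 134217728 134217728 134217728 134217728 = true := by decide +kernel

def A.t5 : Tr := .C (.C (.B (.A .L .L) (.A .L .L)) (.A .L .L)) (.A (.B .L .L) (.B (.C .L .L) .L))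
theorem A.c5 : Tr.chk (leaf fun A => gA A ⟨4, 108, 132⟩) exNo A.t5 545259520 109051904 67108864 67108864 402653184 134217728 = true := by decide +kernel

def A.t6 : Tr := .C (.A .L (.B .L .L)) (.A .L (.B .L .L))
theorem A.c6 : Tr.chk (leaf fun A => gA A ⟨4, 108, 132⟩) exNo A.t6 545259520 109051904 201326592 67108864 402653184 134217728 = true := by decide +kernel

def A.t7 : Tr := .B (.A (.C .L (.B (.A .L .L) (.A .L .L))) .L) (.A (.C .L (.B (.A .L .L) .L)) .L)
theorem A.c7 : Tr.chk (leaf fun A => gA A ⟨4, 108, 132⟩) exNo A.t7 763363328 109051904 134217728 134217728 402653184 134217728 = true := by decide +kernel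

def A.t8 : Tr := .A (.C (.A .L .L) (.B (.C (.A .L .L) (.B (.A .L .L) .L)) (.A .L .L))) .L
theorem A.c8 : Tr.chk (leaf fun A => gA A ⟨4, 108, 132⟩) exNo A.t8 654311424 218103808 402653184 134217728 134217728 134217728 = true := by decide +kernel

def A.t9 : Tr := .A (.B (.A (.C .L .L) (.C .L .L)) (.A (.C .L .L) (.C .L .L))) .L
theorem A.c9 : Tr.chk (leaf fun A => gA A ⟨4, 108, 132⟩) exNo A.t9 654311424 218103808 402653184 134217728 402653184 134217728 = true := by decide +kernel

def A.t10 : Tr := .A (.C (.B (.C .L .L) .L) (.A (.B .L .L) .L)) (.B (.C (.B (.C .L .L) (.C .L .L)) (.B .L .L)) (.C (.B .L .L) .L))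
theorem A.c10 : Tr.chk (leaf fun A => gA A ⟨4, 108, 132⟩) exNo A.t10 218103808 218103808 67108864 67108864 671088640 134217728 = true := by decide +kernel

end Pool.Agent.FTN.K4
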