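import Pool.Agent.FTN.Region

set_option maxRecDepth 100000

namespace Pool.Agent.FTN.K4

open Pool.Agent.FTA (TM Alg Tr leaf leafS exNo exV chkA chkB chkC)

def A.t11 : Tr := .C (.A .L (.B .L .L)) (.A (.A .L .L) (.B .L .L))
theorem A.c11 : Tr.chk (leaf fun A => gA A ⟨4, 108, 132⟩) exNo A.t11 218103808 218103808 201326592 67108864 671088640 134217728 = true := by decide +kernel

def A.t12 : Tr := .A (.B (.A (.C .L .L) .L) (.A .L .L)) (.B (.B (.C .L .L) (.C .L .L)) (.A .L .L))
theorem A.c12 : Tr.chk (leaf fun A => gA A ⟨4, 108, 132⟩) exNo A.t12 218103808 218103808 134217728 134217728 872415232 67108864 = true := by decide +kernel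

def A.t13 : Tr := .A (.A (.A .L .L) (.B .L .L)) (.B (.B (.B .L .L) .L) (.A .L .L))
theorem A.c13 : Tr.chk (leaf fun A => gA A ⟨4, 108, 132⟩) exNo A.t13 218103808 218103808 134217728 134217728 973078528 33554432 = true := by decide +kernel

def A.t14 : Tr := .A (.A .L .L) (.B .L .L)
theorem A.c14 : Tr.chk (leaf fun A => gA A ⟨4, 108, 132⟩) exNo A.t14 109051904 109051904 134217728 134217728 1023410176 16777216 = true := by decide +kernel

def A.t15 : Tr := .A (.A .L (.B .L .L)) (.B .L .L)
theorem A.c15 : Tr.chk (leaf fun A => gA A ⟨4, 108, 132⟩) exNo A.t15 109051904 109051904 134217728 134217728 1048576000 8388608 = true := by decide +kernel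

def A.t16 : Tr := .A (.C (.A .L (.B .L .L)) (.A .L (.B (.C .L (.B .L .L)) .L))) (.B (.C .L (.B .L (.A .L .L))) (.A .L .L))
theorem A.c16 : Tr.chk (leaf fun A => gA A ⟨4, 108, 132⟩) exNo A.t16 109051904 109051904 134217728 134217728 1065353216 8388608 = true := by decide +kernel

def A.t17 : Tr := .B (.C .L (.B .L (.C .L (.A .L .L)))) (.C (.A .L .L) (.A (.C .L (.B .L .L)) .L))
theorem A.c17 : Tr.chk (leaf fun A => gA A ⟨4, 108, 132⟩) exNo A.t17 327155712 109051904 134217728 134217728 1040187392 33554432 = true := by decide +kernel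

def A.t18 : Tr := .A (.C (.B .L .L) (.B (.A .L .L) .L)) (.B (.C .L (.A .L .L)) (.C .L (.A .L .L)))
theorem A.c18 : Tr.chk (leaf fun A => gA A ⟨4, 108, 132⟩) exNo A.t18 218103808 218103808 402653184 134217728 671088640 134217728 = true := by decide +kernel

def A.t19 : Tr := .A (.A (.C .L .L) (.B .L .L)) (.A (.B .L .L) (.B .L .L))
theorem A.c19 : Tr.chk (leaf fun A => gA A ⟨4, 108, 132⟩) exNo A.t19 218103808 218103808 402653184 134217728 872415232 67108864 = true := by decide +kernel

end Pool.Agent.FTN.K4
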