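import Pool.Agent.FTN.Region

set_option maxRecDepth 100000

namespace Pool.Agent.FTN.K4

open Pool.Agent.FTA (TM Alg Tr leaf leafS exNo exV chkA chkB chkC)

def A.t43 : Tr := .C (.A (.C (.A .L .L) (.B (.A .L .L) (.A .L .L))) .L) (.A (.B (.A (.C .L .L) (.C .L .L)) (.A (.C .L .L) (.C .L .L))) .L)
theorem A.c43 : Tr.chk (leaf fun A => gA A ⟨4, 108, 132⟩) exNo A.t43 654311424 218103808 671088640 134217728 268435456 268435456 = true := by decide +kernel

def A.t44 : Tr := .C (.A (.C (.A .L .L) (.B (.C .L .L) (.C .L .L))) .L) (.A (.A (.B (.C .L .L) (.C .L .L)) (.C .L (.B .L (.C .L .L)))) .L)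
theorem A.c44 : Tr.chk (leaf fun A => gA A ⟨4, 108, 132⟩) exNo A.t44 654311424 218103808 939524096 134217728 268435456 268435456 = true := by decide +kernel

def A.t45 : Tr := .A (.C .L (.C .L (.A .L .L))) (.C (.B .L .L) (.A .L .L))
theorem A.c45 : Tr.chk (leaf fun A => gA A ⟨4, 108, 132⟩) exNo A.t45 218103808 218103808 671088640 134217728 671088640 134217728 = true := by decide +kernel

def A.t46 : Tr := .C (.A (.C .L .L) .L) (.C (.A (.A .L .L) .L) (.A (.C (.A .L .L) (.A .L .L)) (.A .L .L)))
theorem A.c46 : Tr.chk (leaf fun A => gA A ⟨4, 108, 132⟩) exNo A.t46 109051904 109051904 671088640 134217728 939524096 134217728 = true := by decide +kernel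

def A.t47 : Tr := .C (.A .L (.B .L .L)) (.A (.C .L (.A .L .L)) (.B .L .L))
theorem A.c47 : Tr.chk (leaf fun A => gA A ⟨4, 108, 132⟩) exNo A.t47 327155712 109051904 671088640 134217728 939524096 134217728 = true := by decide +kernel

def A.t48 : Tr := .A (.C .L (.A .L .L)) (.C (.A .L .L) (.A .L .L))
theorem A.c48 : Tr.chk (leaf fun A => gA A ⟨4, 108, 132⟩) exNo A.t48 218103808 218103808 939524096 134217728 671088640 134217728 = true := by decide +kernel

end Pool.Agent.FTN.K4
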