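import Pool.Agent.FTN.K.P4F0
import Pool.Agent.FTN.K.P4F1
import Pool.Agent.FTN.K.P4F2
import Pool.Agent.FTN.K.P4F3
import Pool.Agent.FTN.K.P4F4
import Pool.Agent.FTN.K.P4F5
import Pool.Agent.FTN.K.P4F6
import Pool.Agent.FTN.K.P4F7
import Pool.Agent.FTN.K.P4F8
import Pool.Agent.FTN.K.P4F9
import Pool.Agent.FTN.K.P4F10
import Pool.Agent.FTN.K.P4F11
import Pool.Agent.FTN.K.P4F12
import Pool.Agent.FTN.K.P4F13
import Pool.Agent.FTN.K.P4F14
import Pool.Agent.FTN.K.P4F15
import Pool.Agent.FTN.K.P4F16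
import Pool.Agent.FTN.K.P4F17
import Pool.Agent.FTN.K.P4F18
import Pool.Agent.FTN.K.P4F19
import Pool.Agent.FTN.K.P4F20
import Pool.Agent.FTN.K.P4F21
import Pool.Agent.FTN.K.P4F22
import Pool.Agent.FTN.K.P4F23
import Pool.Agent.FTN.REG

set_option maxRecDepth 100000

namespace Pool.Agent.FTN.K4

open Pool.Agent.FTA (TM Alg Tr leaf leafS exNo exV chkA chkB chkC)

def N.u0 : Tr := .C N.t1 N.t2
theorem N.d0 : Tr.chk (leaf fun A => gN A ⟨4, 108, 132⟩) exNo N.u0 218103808 218103808 268435456 268435456 355467264 118489088 = true := chkC rfl N.c1 N.c2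

def N.u1 : Tr := .C N.t0 N.u0
theorem N.d1 : Tr.chk (leaf fun A => gN A ⟨4, 108, 132⟩) exNo N.u1 218103808 218103808 268435456 268435456 236978176 236978176 = true := chkC rfl N.c0 N.d0

def N.u2 : Tr := .C N.t3 N.t4
theorem N.d2 : Tr.chk (leaf fun A => gN A ⟨4, 108, 132⟩) exNo N.u2 654311424 218103808 134217728 134217728 236978176 236978176 = true := chkC rfl N.c3 N.c4

def N.u3 : Tr := .C N.t5 N.t6
theorem N.d3 : Tr.chk (leaf fun A => gN A ⟨4, 108, 132⟩) exNo N.u3 654311424 218103808 402653184 134217728 236978176 236978176 = true := chkC rfl N.c5 N.c6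

def N.u4 : Tr := .B N.u2 N.u3
theorem N.d4 : Tr.chk (leaf fun A => gN A ⟨4, 108, 132⟩) exNo N.u4 654311424 218103808 268435456 268435456 236978176 236978176 = true := chkB rfl N.d2 N.d3

def N.u5 : Tr := .A N.u1 N.u4
theorem N.d5 : Tr.chk (leaf fun A => gN A ⟨4, 108, 132⟩) exNo N.u5 436207616 436207616 268435456 268435456 236978176 236978176 = true := chkA rfl N.d1 N.d4

def N.u6 : Tr := .C N.t7 N.t8
theorem N.d6 : Tr.chk (leaf fun A => gN A ⟨4, 108, 132⟩) exNo N.u6 218103808 218103808 268435456 268435456 710934528 236978176 = true := chkC rfl N.c7 N.c8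

def N.u7 : Tr := .C N.t9 N.t10
theorem N.d7 : Tr.chk (leaf fun A => gN A ⟨4, 108, 132⟩) exNo N.u7 654311424 218103808 134217728 134217728 710934528 236978176 = true := chkC rfl N.c9 N.c10

def N.u8 : Tr := .C N.t11 N.t12
theorem N.d8 : Tr.chk (leaf fun A => gN A ⟨4, 108, 132⟩) exNo N.u8 654311424 218103808 402653184 134217728 710934528 236978176 = true := chkC rfl N.c11 N.c12

def N.u9 : Tr := .B N.u7 N.u8
theorem N.d9 : Tr.chk (leaf fun A => gN A ⟨4, 108, 132⟩) exNo N.u9 654311424 218103808 268435456 268435456 710934528 236978176 = true := chkB rfl N.d7 N.d8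

def N.u10 : Tr := .A N.u6 N.u9
theorem N.d10 : Tr.chk (leaf fun A => gN A ⟨4, 108, 132⟩) exNo N.u10 436207616 436207616 268435456 268435456 710934528 236978176 = true := chkA rfl N.d6 N.d9

def N.u11 : Tr := .C N.u5 N.u10
theorem N.d11 : Tr.chk (leaf fun A => gN A ⟨4, 108, 132⟩) exNo N.u11 436207616 436207616 268435456 268435456 473956352 473956352 = true := chkC rfl N.d5 N.d10

def N.u12 : Tr := .C N.t14 N.t15
theorem N.d12 : Tr.chk (leaf fun A => gN A ⟨4, 108, 132⟩) exNo N.u12 654311424 218103808 671088640 134217728 236978176 236978176 = true := chkC rfl N.c14 N.c15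

def N.u13 : Tr := .B N.u12 N.t16
theorem N.d13 : Tr.chk (leaf fun A => gN A ⟨4, 108, 132⟩) exNo N.u13 654311424 218103808 805306368 268435456 236978176 236978176 = true := chkB rfl N.d12 N.c16

def N.u14 : Tr := .A N.t13 N.u13
theorem N.d14 : Tr.chk (leaf fun A => gN A ⟨4, 108, 132⟩) exNo N.u14 436207616 436207616 805306368 268435456 236978176 236978176 = true := chkA rfl N.c13 N.d13

def N.u15 : Tr := .C N.t17 N.t18
theorem N.d15 : Tr.chk (leaf fun A => gN A ⟨4, 108, 132⟩) exNo N.u15 218103808 218103808 805306368 268435456 710934528 236978176 = true := chkC rfl N.c17 N.c18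

def N.u16 : Tr := .C N.t19 N.t20
theorem N.d16 : Tr.chk (leaf fun A => gN A ⟨4, 108, 132⟩) exNo N.u16 654311424 218103808 671088640 134217728 710934528 236978176 = true := chkC rfl N.c19 N.c20

def N.u17 : Tr := .C N.t21 N.t22
theorem N.d17 : Tr.chk (leaf fun A => gN A ⟨4, 108, 132⟩) exNo N.u17 654311424 218103808 939524096 134217728 710934528 236978176 = true := chkC rfl N.c21 N.c22

def N.u18 : Tr := .B N.u16 N.u17
theorem N.d18 : Tr.chk (leaf fun A => gN A ⟨4, 108, 132⟩) exNo N.u18 654311424 218103808 805306368 268435456 710934528 236978176 = true := chkB rfl N.d16 N.d17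

def N.u19 : Tr := .A N.u15 N.u18
theorem N.d19 : Tr.chk (leaf fun A => gN A ⟨4, 108, 132⟩) exNo N.u19 436207616 436207616 805306368 268435456 710934528 236978176 = true := chkA rfl N.d15 N.d18

def N.u20 : Tr := .C N.u14 N.u19
theorem N.d20 : Tr.chk (leaf fun A => gN A ⟨4, 108, 132⟩) exNo N.u20 436207616 436207616 805306368 268435456 473956352 473956352 = true := chkC rfl N.d14 N.d19

def N.u21 : Tr := .B N.u11 N.u20
theorem N.d21 : Tr.chk (leaf fun A => gN A ⟨4, 108, 132⟩) exNo N.u21 436207616 436207616 536870912 536870912 473956352 473956352 = true := chkB rfl N.d11 N.d20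

/-- the region N -/
theorem N.all : ∃ t, Tr.chk (leaf fun A => gN A ⟨4, 108, 132⟩) exNo t 436207616 436207616 536870912 536870912 473956352 473956352 = true := ⟨N.u21, N.d21⟩

def A.u0 : Tr := .B A.t2 A.t3
theorem A.d0 : Tr.chk (leaf fun A => gA A ⟨4, 108, 132⟩) exNo A.u0 218103808 218103808 268435456 268435456 469762048 67108864 = true := chkB rfl A.c2 A.c3

def A.u1 : Tr := .C A.t1 A.u0
theorem A.d1 : Tr.chk (leaf fun A => gA A ⟨4, 108, 132⟩) exNo A.u1 218103808 218103808 268435456 268435456 402653184 134217728 = true := chkC rfl A.c1 A.d0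

def A.u2 : Tr := .C A.t0 A.u1
theorem A.d2 : Tr.chk (leaf fun A => gA A ⟨4, 108, 132⟩) exNo A.u2 218103808 218103808 268435456 268435456 268435456 268435456 = true := chkC rfl A.c0 A.d1

def A.u3 : Tr := .B A.t5 A.t6
theorem A.d3 : Tr.chk (leaf fun A => gA A ⟨4, 108, 132⟩) exNo A.u3 545259520 109051904 134217728 134217728 402653184 134217728 = true := chkB rfl A.c5 A.c6

def A.u4 : Tr := .A A.u3 A.t7
theorem A.d4 : Tr.chk (leaf fun A => gA A ⟨4, 108, 132⟩) exNo A.u4 654311424 218103808 134217728 134217728 402653184 134217728 = true := chkA rfl A.d3 A.c7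

def A.u5 : Tr := .C A.t4 A.u4
theorem A.d5 : Tr.chk (leaf fun A => gA A ⟨4, 108, 132⟩) exNo A.u5 654311424 218103808 134217728 134217728 268435456 268435456 = true := chkC rfl A.c4 A.d4

def A.u6 : Tr := .C A.t8 A.t9
theorem A.d6 : Tr.chk (leaf fun A => gA A ⟨4, 108, 132⟩) exNo A.u6 654311424 218103808 402653184 134217728 268435456 268435456 = true := chkC rfl A.c8 A.c9

def A.u7 : Tr := .B A.u5 A.u6
theorem A.d7 : Tr.chk (leaf fun A => gA A ⟨4, 108, 132⟩) exNo A.u7 654311424 218103808 268435456 268435456 268435456 268435456 = true := chkB rfl A.d5 A.d6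

def A.u8 : Tr := .A A.u2 A.u7
theorem A.d8 : Tr.chk (leaf fun A => gA A ⟨4, 108, 132⟩) exNo A.u8 436207616 436207616 268435456 268435456 268435456 268435456 = true := chkA rfl A.d2 A.d7

def A.u9 : Tr := .B A.t10 A.t11
theorem A.d9 : Tr.chk (leaf fun A => gA A ⟨4, 108, 132⟩) exNo A.u9 218103808 218103808 134217728 134217728 671088640 134217728 = true := chkB rfl A.c10 A.c11

def A.u10 : Tr := .C A.t15 A.t16
theorem A.d10 : Tr.chk (leaf fun A => gA A ⟨4, 108, 132⟩) exNo A.u10 109051904 109051904 134217728 134217728 1056964608 16777216 = true := chkC rfl A.c15 A.c16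

def A.u11 : Tr := .C A.t14 A.u10
theorem A.d11 : Tr.chk (leaf fun A => gA A ⟨4, 108, 132⟩) exNo A.u11 109051904 109051904 134217728 134217728 1040187392 33554432 = true := chkC rfl A.c14 A.d10

def A.u12 : Tr := .A A.u11 A.t17
theorem A.d12 : Tr.chk (leaf fun A => gA A ⟨4, 108, 132⟩) exNo A.u12 218103808 218103808 134217728 134217728 1040187392 33554432 = true := chkA rfl A.d11 A.c17

def A.u13 : Tr := .C A.t13 A.u12
theorem A.d13 : Tr.chk (leaf fun A => gA A ⟨4, 108, 132⟩) exNo A.u13 218103808 218103808 134217728 134217728 1006632960 67108864 = true := chkC rfl A.c13 A.d12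

def A.u14 : Tr := .C A.t12 A.u13
theorem A.d14 : Tr.chk (leaf fun A => gA A ⟨4, 108, 132⟩) exNo A.u14 218103808 218103808 134217728 134217728 939524096 134217728 = true := chkC rfl A.c12 A.d13

def A.u15 : Tr := .C A.u9 A.u14
theorem A.d15 : Tr.chk (leaf fun A => gA A ⟨4, 108, 132⟩) exNo A.u15 218103808 218103808 134217728 134217728 805306368 268435456 = true := chkC rfl A.d9 A.d14

def A.u16 : Tr := .A A.t20 A.t21
theorem A.d16 : Tr.chk (leaf fun A => gA A ⟨4, 108, 132⟩) exNo A.u16 218103808 218103808 402653184 134217728 1006632960 67108864 = true := chkA rfl A.c20 A.c21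

def A.u17 : Tr := .C A.t19 A.u16
theorem A.d17 : Tr.chk (leaf fun A => gA A ⟨4, 108, 132⟩) exNo A.u17 218103808 218103808 402653184 134217728 939524096 134217728 = true := chkC rfl A.c19 A.d16

def A.u18 : Tr := .C A.t18 A.u17
theorem A.d18 : Tr.chk (leaf fun A => gA A ⟨4, 108, 132⟩) exNo A.u18 218103808 218103808 402653184 134217728 805306368 268435456 = true := chkC rfl A.c18 A.d17

def A.u19 : Tr := .B A.u15 A.u18
theorem A.d19 : Tr.chk (leaf fun A => gA A ⟨4, 108, 132⟩) exNo A.u19 218103808 218103808 268435456 268435456 805306368 268435456 = true := chkB rfl A.d15 A.d18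

def A.u20 : Tr := .B A.t22 A.t23
theorem A.d20 : Tr.chk (leaf fun A => gA A ⟨4, 108, 132⟩) exNo A.u20 545259520 109051904 134217728 134217728 671088640 134217728 = true := chkB rfl A.c22 A.c23

def A.u21 : Tr := .B A.t24 A.t25
theorem A.d21 : Tr.chk (leaf fun A => gA A ⟨4, 108, 132⟩) exNo A.u21 763363328 109051904 134217728 134217728 671088640 134217728 = true := chkB rfl A.c24 A.c25

def A.u22 : Tr := .A A.u20 A.u21
theorem A.d22 : Tr.chk (leaf fun A => gA A ⟨4, 108, 132⟩) exNo A.u22 654311424 218103808 134217728 134217728 671088640 134217728 = true := chkA rfl A.d20 A.d21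

def A.u23 : Tr := .A A.t26 A.t27
theorem A.d23 : Tr.chk (leaf fun A => gA A ⟨4, 108, 132⟩) exNo A.u23 654311424 218103808 67108864 67108864 872415232 67108864 = true := chkA rfl A.c26 A.c27

def A.u24 : Tr := .B A.t28 A.t29
theorem A.d24 : Tr.chk (leaf fun A => gA A ⟨4, 108, 132⟩) exNo A.u24 654311424 218103808 67108864 67108864 1006632960 67108864 = true := chkB rfl A.c28 A.c29

def A.u25 : Tr := .C A.u23 A.u24
theorem A.d25 : Tr.chk (leaf fun A => gA A ⟨4, 108, 132⟩) exNo A.u25 654311424 218103808 67108864 67108864 939524096 134217728 = true := chkC rfl A.d23 A.d24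

def A.u26 : Tr := .C A.t31 A.t32
theorem A.d26 : Tr.chk (leaf fun A => gA A ⟨4, 108, 132⟩) exNo A.u26 763363328 109051904 201326592 67108864 939524096 134217728 = true := chkC rfl A.c31 A.c32

def A.u27 : Tr := .A A.t30 A.u26
theorem A.d27 : Tr.chk (leaf fun A => gA A ⟨4, 108, 132⟩) exNo A.u27 654311424 218103808 201326592 67108864 939524096 134217728 = true := chkA rfl A.c30 A.d26

def A.u28 : Tr := .B A.u25 A.u27
theorem A.d28 : Tr.chk (leaf fun A => gA A ⟨4, 108, 132⟩) exNo A.u28 654311424 218103808 134217728 134217728 939524096 134217728 = true := chkB rfl A.d25 A.d27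

def A.u29 : Tr := .C A.u22 A.u28
theorem A.d29 : Tr.chk (leaf fun A => gA A ⟨4, 108, 132⟩) exNo A.u29 654311424 218103808 134217728 134217728 805306368 268435456 = true := chkC rfl A.d22 A.d28

def A.u30 : Tr := .A A.t33 A.t34
theorem A.d30 : Tr.chk (leaf fun A => gA A ⟨4, 108, 132⟩) exNo A.u30 654311424 218103808 402653184 134217728 671088640 134217728 = true := chkA rfl A.c33 A.c34

def A.u31 : Tr := .A A.t37 A.t38
theorem A.d31 : Tr.chk (leaf fun A => gA A ⟨4, 108, 132⟩) exNo A.u31 817889280 54525952 335544320 67108864 939524096 134217728 = true := chkA rfl A.c37 A.c38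

def A.u32 : Tr := .A A.t36 A.u31
theorem A.d32 : Tr.chk (leaf fun A => gA A ⟨4, 108, 132⟩) exNo A.u32 763363328 109051904 335544320 67108864 939524096 134217728 = true := chkA rfl A.c36 A.d31

def A.u33 : Tr := .C A.t39 A.t40
theorem A.d33 : Tr.chk (leaf fun A => gA A ⟨4, 108, 132⟩) exNo A.u33 763363328 109051904 469762048 67108864 939524096 134217728 = true := chkC rfl A.c39 A.c40

def A.u34 : Tr := .B A.u32 A.u33
theorem A.d34 : Tr.chk (leaf fun A => gA A ⟨4, 108, 132⟩) exNo A.u34 763363328 109051904 402653184 134217728 939524096 134217728 = true := chkB rfl A.d32 A.d33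

def A.u35 : Tr := .A A.t35 A.u34
theorem A.d35 : Tr.chk (leaf fun A => gA A ⟨4, 108, 132⟩) exNo A.u35 654311424 218103808 402653184 134217728 939524096 134217728 = true := chkA rfl A.c35 A.d34

def A.u36 : Tr := .C A.u30 A.u35
theorem A.d36 : Tr.chk (leaf fun A => gA A ⟨4, 108, 132⟩) exNo A.u36 654311424 218103808 402653184 134217728 805306368 268435456 = true := chkC rfl A.d30 A.d35

def A.u37 : Tr := .B A.u29 A.u36
theorem A.d37 : Tr.chk (leaf fun A => gA A ⟨4, 108, 132⟩) exNo A.u37 654311424 218103808 268435456 268435456 805306368 268435456 = true := chkB rfl A.d29 A.d36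

def A.u38 : Tr := .A A.u19 A.u37
theorem A.d38 : Tr.chk (leaf fun A => gA A ⟨4, 108, 132⟩) exNo A.u38 436207616 436207616 268435456 268435456 805306368 268435456 = true := chkA rfl A.d19 A.d37

def A.u39 : Tr := .C A.u8 A.u38
theorem A.d39 : Tr.chk (leaf fun A => gA A ⟨4, 108, 132⟩) exNo A.u39 436207616 436207616 268435456 268435456 536870912 536870912 = true := chkC rfl A.d8 A.d38

def A.u40 : Tr := .C A.t41 A.t42
theorem A.d40 : Tr.chk (leaf fun A => gA A ⟨4, 108, 132⟩) exNo A.u40 218103808 218103808 805306368 268435456 268435456 268435456 = true := chkC rfl A.c41 A.c42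

def A.u41 : Tr := .B A.t43 A.t44
theorem A.d41 : Tr.chk (leaf fun A => gA A ⟨4, 108, 132⟩) exNo A.u41 654311424 218103808 805306368 268435456 268435456 268435456 = true := chkB rfl A.c43 A.c44

def A.u42 : Tr := .A A.u40 A.u41
theorem A.d42 : Tr.chk (leaf fun A => gA A ⟨4, 108, 132⟩) exNo A.u42 436207616 436207616 805306368 268435456 268435456 268435456 = true := chkA rfl A.d40 A.d41

def A.u43 : Tr := .A A.t46 A.t47
theorem A.d43 : Tr.chk (leaf fun A => gA A ⟨4, 108, 132⟩) exNo A.u43 218103808 218103808 671088640 134217728 939524096 134217728 = true := chkA rfl A.c46 A.c47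

def A.u44 : Tr := .C A.t45 A.u43
theorem A.d44 : Tr.chk (leaf fun A => gA A ⟨4, 108, 132⟩) exNo A.u44 218103808 218103808 671088640 134217728 805306368 268435456 = true := chkC rfl A.c45 A.d43

def A.u45 : Tr := .A A.t49 A.t50
theorem A.d45 : Tr.chk (leaf fun A => gA A ⟨4, 108, 132⟩) exNo A.u45 218103808 218103808 939524096 134217728 939524096 134217728 = true := chkA rfl A.c49 A.c50

def A.u46 : Tr := .C A.t48 A.u45
theorem A.d46 : Tr.chk (leaf fun A => gA A ⟨4, 108, 132⟩) exNo A.u46 218103808 218103808 939524096 134217728 805306368 268435456 = true := chkC rfl A.c48 A.d45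

def A.u47 : Tr := .B A.u44 A.u46
theorem A.d47 : Tr.chk (leaf fun A => gA A ⟨4, 108, 132⟩) exNo A.u47 218103808 218103808 805306368 268435456 805306368 268435456 = true := chkB rfl A.d44 A.d46

def A.u48 : Tr := .A A.t52 A.t53
theorem A.d48 : Tr.chk (leaf fun A => gA A ⟨4, 108, 132⟩) exNo A.u48 545259520 109051904 671088640 134217728 939524096 134217728 = true := chkA rfl A.c52 A.c53

def A.u49 : Tr := .B A.t54 A.t55
theorem A.d49 : Tr.chk (leaf fun A => gA A ⟨4, 108, 132⟩) exNo A.u49 763363328 109051904 671088640 134217728 939524096 134217728 = true := chkB rfl A.c54 A.c55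

def A.u50 : Tr := .A A.u48 A.u49
theorem A.d50 : Tr.chk (leaf fun A => gA A ⟨4, 108, 132⟩) exNo A.u50 654311424 218103808 671088640 134217728 939524096 134217728 = true := chkA rfl A.d48 A.d49

def A.u51 : Tr := .C A.t51 A.u50
theorem A.d51 : Tr.chk (leaf fun A => gA A ⟨4, 108, 132⟩) exNo A.u51 654311424 218103808 671088640 134217728 805306368 268435456 = true := chkC rfl A.c51 A.d50

def A.u52 : Tr := .C A.t57 A.t58
theorem A.d52 : Tr.chk (leaf fun A => gA A ⟨4, 108, 132⟩) exNo A.u52 545259520 109051904 872415232 67108864 939524096 134217728 = true := chkC rfl A.c57 A.c58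

def A.u53 : Tr := .A A.t60 A.t61
theorem A.d53 : Tr.chk (leaf fun A => gA A ⟨4, 108, 132⟩) exNo A.u53 545259520 109051904 1006632960 67108864 1006632960 67108864 = true := chkA rfl A.c60 A.c61

def A.u54 : Tr := .C A.t59 A.u53
theorem A.d54 : Tr.chk (leaf fun A => gA A ⟨4, 108, 132⟩) exNo A.u54 545259520 109051904 1006632960 67108864 939524096 134217728 = true := chkC rfl A.c59 A.d53

def A.u55 : Tr := .B A.u52 A.u54
theorem A.d55 : Tr.chk (leaf fun A => gA A ⟨4, 108, 132⟩) exNo A.u55 545259520 109051904 939524096 134217728 939524096 134217728 = true := chkB rfl A.d52 A.d54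

def A.u56 : Tr := .A A.u55 A.t62
theorem A.d56 : Tr.chk (leaf fun A => gA A ⟨4, 108, 132⟩) exNo A.u56 654311424 218103808 939524096 134217728 939524096 134217728 = true := chkA rfl A.d55 A.c62

def A.u57 : Tr := .C A.t56 A.u56
theorem A.d57 : Tr.chk (leaf fun A => gA A ⟨4, 108, 132⟩) exNo A.u57 654311424 218103808 939524096 134217728 805306368 268435456 = true := chkC rfl A.c56 A.d56

def A.u58 : Tr := .B A.u51 A.u57
theorem A.d58 : Tr.chk (leaf fun A => gA A ⟨4, 108, 132⟩) exNo A.u58 654311424 218103808 805306368 268435456 805306368 268435456 = true := chkB rfl A.d51 A.d57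

def A.u59 : Tr := .A A.u47 A.u58
theorem A.d59 : Tr.chk (leaf fun A => gA A ⟨4, 108, 132⟩) exNo A.u59 436207616 436207616 805306368 268435456 805306368 268435456 = true := chkA rfl A.d47 A.d58

def A.u60 : Tr := .C A.u42 A.u59
theorem A.d60 : Tr.chk (leaf fun A => gA A ⟨4, 108, 132⟩) exNo A.u60 436207616 436207616 805306368 268435456 536870912 536870912 = true := chkC rfl A.d42 A.d59

def A.u61 : Tr := .B A.u39 A.u60
theorem A.d61 : Tr.chk (leaf fun A => gA A ⟨4, 108, 132⟩) exNo A.u61 436207616 436207616 536870912 536870912 536870912 536870912 = true := chkB rfl A.d39 A.d60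

/-- the region A -/
theorem A.all : ∃ t, Tr.chk (leaf fun A => gA A ⟨4, 108, 132⟩) exNo t 436207616 436207616 536870912 536870912 536870912 536870912 = true := ⟨A.u61, A.d61⟩

def B.u0 : Tr := .B B.t0 B.t1
theorem B.d0 : Tr.chk (leaf fun A => gB A ⟨4, 108, 132⟩) exNo B.u0 218103808 218103808 268435456 268435456 268435456 268435456 = true := chkB rfl B.c0 B.c1

def B.u1 : Tr := .C B.t2 B.t3
theorem B.d1 : Tr.chk (leaf fun A => gB A ⟨4, 108, 132⟩) exNo B.u1 654311424 218103808 134217728 134217728 268435456 268435456 = true := chkC rfl B.c2 B.c3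

def B.u2 : Tr := .C B.t5 B.t6
theorem B.d2 : Tr.chk (leaf fun A => gB A ⟨4, 108, 132⟩) exNo B.u2 545259520 109051904 469762048 67108864 134217728 134217728 = true := chkC rfl B.c5 B.c6

def B.u3 : Tr := .B B.t4 B.u2
theorem B.d3 : Tr.chk (leaf fun A => gB A ⟨4, 108, 132⟩) exNo B.u3 545259520 109051904 402653184 134217728 134217728 134217728 = true := chkB rfl B.c4 B.d2

def B.u4 : Tr := .A B.u3 B.t7
theorem B.d4 : Tr.chk (leaf fun A => gB A ⟨4, 108, 132⟩) exNo B.u4 654311424 218103808 402653184 134217728 134217728 134217728 = true := chkA rfl B.d3 B.c7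

def B.u5 : Tr := .C B.u4 B.t8
theorem B.d5 : Tr.chk (leaf fun A => gB A ⟨4, 108, 132⟩) exNo B.u5 654311424 218103808 402653184 134217728 268435456 268435456 = true := chkC rfl B.d4 B.c8

def B.u6 : Tr := .B B.u1 B.u5
theorem B.d6 : Tr.chk (leaf fun A => gB A ⟨4, 108, 132⟩) exNo B.u6 654311424 218103808 268435456 268435456 268435456 268435456 = true := chkB rfl B.d1 B.d5

def B.u7 : Tr := .A B.u0 B.u6
theorem B.d7 : Tr.chk (leaf fun A => gB A ⟨4, 108, 132⟩) exNo B.u7 436207616 436207616 268435456 268435456 268435456 268435456 = true := chkA rfl B.d0 B.d6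

def B.u8 : Tr := .C B.t9 B.t10
theorem B.d8 : Tr.chk (leaf fun A => gB A ⟨4, 108, 132⟩) exNo B.u8 218103808 218103808 134217728 134217728 805306368 268435456 = true := chkC rfl B.c9 B.c10

def B.u9 : Tr := .C B.t11 B.t12
theorem B.d9 : Tr.chk (leaf fun A => gB A ⟨4, 108, 132⟩) exNo B.u9 218103808 218103808 402653184 134217728 805306368 268435456 = true := chkC rfl B.c11 B.c12

def B.u10 : Tr := .B B.u8 B.u9
theorem B.d10 : Tr.chk (leaf fun A => gB A ⟨4, 108, 132⟩) exNo B.u10 218103808 218103808 268435456 268435456 805306368 268435456 = true := chkB rfl B.d8 B.d9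

def B.u11 : Tr := .C B.t13 B.t14
theorem B.d11 : Tr.chk (leaf fun A => gB A ⟨4, 108, 132⟩) exNo B.u11 654311424 218103808 134217728 134217728 805306368 268435456 = true := chkC rfl B.c13 B.c14

def B.u12 : Tr := .C B.t15 B.t16
theorem B.d12 : Tr.chk (leaf fun A => gB A ⟨4, 108, 132⟩) exNo B.u12 654311424 218103808 402653184 134217728 805306368 268435456 = true := chkC rfl B.c15 B.c16

def B.u13 : Tr := .B B.u11 B.u12
theorem B.d13 : Tr.chk (leaf fun A => gB A ⟨4, 108, 132⟩) exNo B.u13 654311424 218103808 268435456 268435456 805306368 268435456 = true := chkB rfl B.d11 B.d12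

def B.u14 : Tr := .A B.u10 B.u13
theorem B.d14 : Tr.chk (leaf fun A => gB A ⟨4, 108, 132⟩) exNo B.u14 436207616 436207616 268435456 268435456 805306368 268435456 = true := chkA rfl B.d10 B.d13

def B.u15 : Tr := .C B.u7 B.u14
theorem B.d15 : Tr.chk (leaf fun A => gB A ⟨4, 108, 132⟩) exNo B.u15 436207616 436207616 268435456 268435456 536870912 536870912 = true := chkC rfl B.d7 B.d14

def B.u16 : Tr := .C B.t17 B.t18
theorem B.d16 : Tr.chk (leaf fun A => gB A ⟨4, 108, 132⟩) exNo B.u16 218103808 218103808 671088640 134217728 268435456 268435456 = true := chkC rfl B.c17 B.c18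

def B.u17 : Tr := .C B.t21 B.t22
theorem B.d17 : Tr.chk (leaf fun A => gB A ⟨4, 108, 132⟩) exNo B.u17 381681664 54525952 872415232 67108864 67108864 67108864 = true := chkC rfl B.c21 B.c22

def B.u18 : Tr := .A B.t20 B.u17
theorem B.d18 : Tr.chk (leaf fun A => gB A ⟨4, 108, 132⟩) exNo B.u18 327155712 109051904 872415232 67108864 67108864 67108864 = true := chkA rfl B.c20 B.d17

def B.u19 : Tr := .C B.u18 B.t23
theorem B.d19 : Tr.chk (leaf fun A => gB A ⟨4, 108, 132⟩) exNo B.u19 327155712 109051904 872415232 67108864 134217728 134217728 = true := chkC rfl B.d18 B.c23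

def B.u20 : Tr := .C B.t24 B.t25
theorem B.d20 : Tr.chk (leaf fun A => gB A ⟨4, 108, 132⟩) exNo B.u20 327155712 109051904 1006632960 67108864 134217728 134217728 = true := chkC rfl B.c24 B.c25

def B.u21 : Tr := .B B.u19 B.u20
theorem B.d21 : Tr.chk (leaf fun A => gB A ⟨4, 108, 132⟩) exNo B.u21 327155712 109051904 939524096 134217728 134217728 134217728 = true := chkB rfl B.d19 B.d20

def B.u22 : Tr := .A B.t19 B.u21
theorem B.d22 : Tr.chk (leaf fun A => gB A ⟨4, 108, 132⟩) exNo B.u22 218103808 218103808 939524096 134217728 134217728 134217728 = true := chkA rfl B.c19 B.d21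

def B.u23 : Tr := .B B.t27 B.t28
theorem B.d23 : Tr.chk (leaf fun A => gB A ⟨4, 108, 132⟩) exNo B.u23 327155712 109051904 939524096 134217728 402653184 134217728 = true := chkB rfl B.c27 B.c28

def B.u24 : Tr := .A B.t26 B.u23
theorem B.d24 : Tr.chk (leaf fun A => gB A ⟨4, 108, 132⟩) exNo B.u24 218103808 218103808 939524096 134217728 402653184 134217728 = true := chkA rfl B.c26 B.d23

def B.u25 : Tr := .C B.u22 B.u24
theorem B.d25 : Tr.chk (leaf fun A => gB A ⟨4, 108, 132⟩) exNo B.u25 218103808 218103808 939524096 134217728 268435456 268435456 = true := chkC rfl B.d22 B.d24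

def B.u26 : Tr := .B B.u16 B.u25
theorem B.d26 : Tr.chk (leaf fun A => gB A ⟨4, 108, 132⟩) exNo B.u26 218103808 218103808 805306368 268435456 268435456 268435456 = true := chkB rfl B.d16 B.d25

def B.u27 : Tr := .C B.t29 B.t30
theorem B.d27 : Tr.chk (leaf fun A => gB A ⟨4, 108, 132⟩) exNo B.u27 654311424 218103808 671088640 134217728 268435456 268435456 = true := chkC rfl B.c29 B.c30

def B.u28 : Tr := .B B.u27 B.t31
theorem B.d28 : Tr.chk (leaf fun A => gB A ⟨4, 108, 132⟩) exNo B.u28 654311424 218103808 805306368 268435456 268435456 268435456 = true := chkB rfl B.d27 B.c31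

def B.u29 : Tr := .A B.u26 B.u28
theorem B.d29 : Tr.chk (leaf fun A => gB A ⟨4, 108, 132⟩) exNo B.u29 436207616 436207616 805306368 268435456 268435456 268435456 = true := chkA rfl B.d26 B.d28

def B.u30 : Tr := .C B.t32 B.t33
theorem B.d30 : Tr.chk (leaf fun A => gB A ⟨4, 108, 132⟩) exNo B.u30 218103808 218103808 671088640 134217728 805306368 268435456 = true := chkC rfl B.c32 B.c33

def B.u31 : Tr := .A B.t34 B.t35
theorem B.d31 : Tr.chk (leaf fun A => gB A ⟨4, 108, 132⟩) exNo B.u31 218103808 218103808 939524096 134217728 671088640 134217728 = true := chkA rfl B.c34 B.c35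

def B.u32 : Tr := .C B.u31 B.t36
theorem B.d32 : Tr.chk (leaf fun A => gB A ⟨4, 108, 132⟩) exNo B.u32 218103808 218103808 939524096 134217728 805306368 268435456 = true := chkC rfl B.d31 B.c36

def B.u33 : Tr := .B B.u30 B.u32
theorem B.d33 : Tr.chk (leaf fun A => gB A ⟨4, 108, 132⟩) exNo B.u33 218103808 218103808 805306368 268435456 805306368 268435456 = true := chkB rfl B.d30 B.d32

def B.u34 : Tr := .B B.t38 B.t39
theorem B.d34 : Tr.chk (leaf fun A => gB A ⟨4, 108, 132⟩) exNo B.u34 545259520 109051904 671088640 134217728 939524096 134217728 = true := chkB rfl B.c38 B.c39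

def B.u35 : Tr := .A B.u34 B.t40
theorem B.d35 : Tr.chk (leaf fun A => gB A ⟨4, 108, 132⟩) exNo B.u35 654311424 218103808 671088640 134217728 939524096 134217728 = true := chkA rfl B.d34 B.c40

def B.u36 : Tr := .C B.t37 B.u35
theorem B.d36 : Tr.chk (leaf fun A => gB A ⟨4, 108, 132⟩) exNo B.u36 654311424 218103808 671088640 134217728 805306368 268435456 = true := chkC rfl B.c37 B.d35

def B.u37 : Tr := .B B.t41 B.t42
theorem B.d37 : Tr.chk (leaf fun A => gB A ⟨4, 108, 132⟩) exNo B.u37 545259520 109051904 939524096 134217728 671088640 134217728 = true := chkB rfl B.c41 B.c42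

def B.u38 : Tr := .A B.u37 B.t43
theorem B.d38 : Tr.chk (leaf fun A => gB A ⟨4, 108, 132⟩) exNo B.u38 654311424 218103808 939524096 134217728 671088640 134217728 = true := chkA rfl B.d37 B.c43

def B.u39 : Tr := .B B.t44 B.t45
theorem B.d39 : Tr.chk (leaf fun A => gB A ⟨4, 108, 132⟩) exNo B.u39 545259520 109051904 939524096 134217728 939524096 134217728 = true := chkB rfl B.c44 B.c45

def B.u40 : Tr := .A B.u39 B.t46
theorem B.d40 : Tr.chk (leaf fun A => gB A ⟨4, 108, 132⟩) exNo B.u40 654311424 218103808 939524096 134217728 939524096 134217728 = true := chkA rfl B.d39 B.c46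

def B.u41 : Tr := .C B.u38 B.u40
theorem B.d41 : Tr.chk (leaf fun A => gB A ⟨4, 108, 132⟩) exNo B.u41 654311424 218103808 939524096 134217728 805306368 268435456 = true := chkC rfl B.d38 B.d40

def B.u42 : Tr := .B B.u36 B.u41
theorem B.d42 : Tr.chk (leaf fun A => gB A ⟨4, 108, 132⟩) exNo B.u42 654311424 218103808 805306368 268435456 805306368 268435456 = true := chkB rfl B.d36 B.d41

def B.u43 : Tr := .A B.u33 B.u42
theorem B.d43 : Tr.chk (leaf fun A => gB A ⟨4, 108, 132⟩) exNo B.u43 436207616 436207616 805306368 268435456 805306368 268435456 = true := chkA rfl B.d33 B.d42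

def B.u44 : Tr := .C B.u29 B.u43
theorem B.d44 : Tr.chk (leaf fun A => gB A ⟨4, 108, 132⟩) exNo B.u44 436207616 436207616 805306368 268435456 536870912 536870912 = true := chkC rfl B.d29 B.d43

def B.u45 : Tr := .B B.u15 B.u44
theorem B.d45 : Tr.chk (leaf fun A => gB A ⟨4, 108, 132⟩) exNo B.u45 436207616 436207616 536870912 536870912 536870912 536870912 = true := chkB rfl B.d15 B.d44

/-- the region B -/
theorem B.all : ∃ t, Tr.chk (leaf fun A => gB A ⟨4, 108, 132⟩) exNo t 436207616 436207616 536870912 536870912 536870912 536870912 = true := ⟨B.u45, B.d45⟩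

def V.u0 : Tr := .A V.t0 V.t1
theorem V.d0 : Tr.chk (leaf fun A => gV A ⟨4, 108, 132⟩) exV V.u0 268435456 268435456 268435456 268435456 268435456 268435456 = true := chkA rfl V.c0 V.c1

def V.u1 : Tr := .C V.u0 V.t2
theorem V.d1 : Tr.chk (leaf fun A => gV A ⟨4, 108, 132⟩) exV V.u1 268435456 268435456 268435456 268435456 536870912 536870912 = true := chkC rfl V.d0 V.c2

def V.u2 : Tr := .C V.t4 V.t5
theorem V.d2 : Tr.chk (leaf fun A => gV A ⟨4, 108, 132⟩) exV V.u2 134217728 134217728 939524096 134217728 268435456 268435456 = true := chkC rfl V.c4 V.c5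

def V.u3 : Tr := .B V.t3 V.u2
theorem V.d3 : Tr.chk (leaf fun A => gV A ⟨4, 108, 132⟩) exV V.u3 134217728 134217728 805306368 268435456 268435456 268435456 = true := chkB rfl V.c3 V.d2

def V.u4 : Tr := .A V.u3 V.t6
theorem V.d4 : Tr.chk (leaf fun A => gV A ⟨4, 108, 132⟩) exV V.u4 268435456 268435456 805306368 268435456 268435456 268435456 = true := chkA rfl V.d3 V.c6

def V.u5 : Tr := .C V.t10 V.t11
theorem V.d5 : Tr.chk (leaf fun A => gV A ⟨4, 108, 132⟩) exV V.u5 134217728 134217728 1006632960 67108864 939524096 134217728 = true := chkC rfl V.c10 V.c11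

def V.u6 : Tr := .B V.t9 V.u5
theorem V.d6 : Tr.chk (leaf fun A => gV A ⟨4, 108, 132⟩) exV V.u6 134217728 134217728 939524096 134217728 939524096 134217728 = true := chkB rfl V.c9 V.d5

def V.u7 : Tr := .C V.t8 V.u6
theorem V.d7 : Tr.chk (leaf fun A => gV A ⟨4, 108, 132⟩) exV V.u7 134217728 134217728 939524096 134217728 805306368 268435456 = true := chkC rfl V.c8 V.d6

def V.u8 : Tr := .B V.t7 V.u7
theorem V.d8 : Tr.chk (leaf fun A => gV A ⟨4, 108, 132⟩) exV V.u8 134217728 134217728 805306368 268435456 805306368 268435456 = true := chkB rfl V.c7 V.d7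

def V.u9 : Tr := .B V.t12 V.t13
theorem V.d9 : Tr.chk (leaf fun A => gV A ⟨4, 108, 132⟩) exV V.u9 402653184 134217728 805306368 268435456 805306368 268435456 = true := chkB rfl V.c12 V.c13

def V.u10 : Tr := .A V.u8 V.u9
theorem V.d10 : Tr.chk (leaf fun A => gV A ⟨4, 108, 132⟩) exV V.u10 268435456 268435456 805306368 268435456 805306368 268435456 = true := chkA rfl V.d8 V.d9

def V.u11 : Tr := .C V.u4 V.u10
theorem V.d11 : Tr.chk (leaf fun A => gV A ⟨4, 108, 132⟩) exV V.u11 268435456 268435456 805306368 268435456 536870912 536870912 = true := chkC rfl V.d4 V.d10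

def V.u12 : Tr := .B V.u1 V.u11
theorem V.d12 : Tr.chk (leaf fun A => gV A ⟨4, 108, 132⟩) exV V.u12 268435456 268435456 536870912 536870912 536870912 536870912 = true := chkB rfl V.d1 V.d11

def V.u13 : Tr := .C V.t15 V.t16
theorem V.d13 : Tr.chk (leaf fun A => gV A ⟨4, 108, 132⟩) exV V.u13 939524096 134217728 134217728 134217728 268435456 268435456 = true := chkC rfl V.c15 V.c16

def V.u14 : Tr := .B V.u13 V.t17
theorem V.d14 : Tr.chk (leaf fun A => gV A ⟨4, 108, 132⟩) exV V.u14 939524096 134217728 268435456 268435456 268435456 268435456 = true := chkB rfl V.d13 V.c17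

def V.u15 : Tr := .A V.t14 V.u14
theorem V.d15 : Tr.chk (leaf fun A => gV A ⟨4, 108, 132⟩) exV V.u15 805306368 268435456 268435456 268435456 268435456 268435456 = true := chkA rfl V.c14 V.d14

def V.u16 : Tr := .B V.t19 V.t20
theorem V.d16 : Tr.chk (leaf fun A => gV A ⟨4, 108, 132⟩) exV V.u16 939524096 134217728 268435456 268435456 805306368 268435456 = true := chkB rfl V.c19 V.c20

def V.u17 : Tr := .A V.t18 V.u16
theorem V.d17 : Tr.chk (leaf fun A => gV A ⟨4, 108, 132⟩) exV V.u17 805306368 268435456 268435456 268435456 805306368 268435456 = true := chkA rfl V.c18 V.d16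

def V.u18 : Tr := .C V.u15 V.u17
theorem V.d18 : Tr.chk (leaf fun A => gV A ⟨4, 108, 132⟩) exV V.u18 805306368 268435456 268435456 268435456 536870912 536870912 = true := chkC rfl V.d15 V.d17

def V.u19 : Tr := .C V.t22 V.t23
theorem V.d19 : Tr.chk (leaf fun A => gV A ⟨4, 108, 132⟩) exV V.u19 671088640 134217728 671088640 134217728 805306368 268435456 = true := chkC rfl V.c22 V.c23

def V.u20 : Tr := .B V.u19 V.t24
theorem V.d20 : Tr.chk (leaf fun A => gV A ⟨4, 108, 132⟩) exV V.u20 671088640 134217728 805306368 268435456 805306368 268435456 = true := chkB rfl V.d19 V.c24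

def V.u21 : Tr := .C V.t25 V.t26
theorem V.d21 : Tr.chk (leaf fun A => gV A ⟨4, 108, 132⟩) exV V.u21 939524096 134217728 671088640 134217728 805306368 268435456 = true := chkC rfl V.c25 V.c26

def V.u22 : Tr := .B V.u21 V.t27
theorem V.d22 : Tr.chk (leaf fun A => gV A ⟨4, 108, 132⟩) exV V.u22 939524096 134217728 805306368 268435456 805306368 268435456 = true := chkB rfl V.d21 V.c27

def V.u23 : Tr := .A V.u20 V.u22
theorem V.d23 : Tr.chk (leaf fun A => gV A ⟨4, 108, 132⟩) exV V.u23 805306368 268435456 805306368 268435456 805306368 268435456 = true := chkA rfl V.d20 V.d22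

def V.u24 : Tr := .C V.t21 V.u23
theorem V.d24 : Tr.chk (leaf fun A => gV A ⟨4, 108, 132⟩) exV V.u24 805306368 268435456 805306368 268435456 536870912 536870912 = true := chkC rfl V.c21 V.d23

def V.u25 : Tr := .B V.u18 V.u24
theorem V.d25 : Tr.chk (leaf fun A => gV A ⟨4, 108, 132⟩) exV V.u25 805306368 268435456 536870912 536870912 536870912 536870912 = true := chkB rfl V.d18 V.d24

def V.u26 : Tr := .A V.u12 V.u25
theorem V.d26 : Tr.chk (leaf fun A => gV A ⟨4, 108, 132⟩) exV V.u26 536870912 536870912 536870912 536870912 536870912 536870912 = true := chkA rfl V.d12 V.d25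

/-- the region V -/
theorem V.all : ∃ t, Tr.chk (leaf fun A => gV A ⟨4, 108, 132⟩) exV t 536870912 536870912 536870912 536870912 536870912 536870912 = true := ⟨V.u26, V.d26⟩

/-- the region HN -/
theorem HN.all : ∃ t, Tr.chk (leaf fun A => gHN A ⟨4, 108, 132⟩) exNo t 100663296 100663296 536870912 536870912 536870912 536870912 = true := ⟨HN.t0, HN.c0⟩

/-- the region HP -/
theorem HP.all : ∃ t, Tr.chk (leaf fun A => gHP A ⟨4, 108, 132⟩) exNo t 100663296 100663296 536870912 536870912 536870912 536870912 = true := ⟨HP.t0, HP.c0⟩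

/-- the region HE -/
theorem HE.all : ∃ t, Tr.chk (leaf fun A => gHE A ⟨4, 108, 132⟩) exNo t 100663296 100663296 536870912 536870912 872415232 872415232 = true := ⟨HE.t0, HE.c0⟩

/-- the region SN -/
theorem SN.all : ∃ t, Tr.chk (leafS fun A => fN A ⟨4, 108, 132⟩) exNo t 436207616 436207616 67108864 67108864 536870912 536870912 = true := ⟨SN.t0, SN.c0⟩

/-- the region S1 -/
theorem S1.all : ∃ t, Tr.chk (leafS fun A => fP1 A ⟨4, 108, 132⟩) exNo t 50331648 50331648 67108864 67108864 536870912 536870912 = true := ⟨S1.t0, S1.c0⟩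

/-- the region S2 -/
theorem S2.all : ∃ t, Tr.chk (leafS fun A => fP2 A ⟨4, 108, 132⟩) exNo t 50331648 50331648 50331648 50331648 536870912 536870912 = true := ⟨S2.t0, S2.c0⟩

def F1.u0 : Tr := .A F1.t0 F1.t1
theorem F1.d0 : Tr.chk (leafS fun A => fF1 A ⟨4, 108, 132⟩) exNo F1.u0 486539264 385875968 67108864 67108864 536870912 536870912 = true := chkA rfl F1.c0 F1.c1

/-- the region F1 -/
theorem F1.all : ∃ t, Tr.chk (leafS fun A => fF1 A ⟨4, 108, 132⟩) exNo t 486539264 385875968 67108864 67108864 536870912 536870912 = true := ⟨F1.u0, F1.d0⟩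

def F2.u0 : Tr := .C F2.t1 F2.t2
theorem F2.d0 : Tr.chk (leafS fun A => fF2 A ⟨4, 108, 132⟩) exNo F2.u0 679477248 192937984 67108864 67108864 536870912 536870912 = true := chkC rfl F2.c1 F2.c2

def F2.u1 : Tr := .A F2.t0 F2.u0
theorem F2.d1 : Tr.chk (leafS fun A => fF2 A ⟨4, 108, 132⟩) exNo F2.u1 486539264 385875968 67108864 67108864 536870912 536870912 = true := chkA rfl F2.c0 F2.d0

/-- the region F2 -/
theorem F2.all : ∃ t, Tr.chk (leafS fun A => fF2 A ⟨4, 108, 132⟩) exNo t 486539264 385875968 67108864 67108864 536870912 536870912 = true := ⟨F2.u1, F2.d1⟩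

/-- the region T1 -/
theorem T1.all : ∃ t, Tr.chk (leafS fun A => fV1 A ⟨4, 108, 132⟩) exNo t 536870912 536870912 16777216 16777216 536870912 536870912 = true := ⟨T1.t0, T1.c0⟩

/-- the region T2 -/
theorem T2.all : ∃ t, Tr.chk (leafS fun A => fV2 A ⟨4, 108, 132⟩) exNo t 536870912 536870912 16777216 16777216 536870912 536870912 = true := ⟨T2.t0, T2.c0⟩

/-- the region T3 -/
theorem T3.all : ∃ t, Tr.chk (leafS fun A => fV3 A ⟨4, 108, 132⟩) exNo t 536870912 536870912 16777216 16777216 536870912 536870912 = true := ⟨T3.t0, T3.c0⟩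

theorem chk : Chk ⟨4, 108, 132⟩ :=
  ⟨N.all, A.all, B.all, V.all, HN.all, HP.all, HE.all, SN.all, S1.all, S2.all, F1.all, F2.all, T1.all, T2.all, T3.all⟩

end Pool.Agent.FTN.K4
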