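import Pool.Agent.FTN.Region

set_option maxRecDepth 100000

namespace Pool.Agent.FTN.K5

open Pool.Agent.FTA (TM Alg Tr leaf leafS exNo exV chkA chkB chkC)

def B.t11 : Tr := .A (.C (.A .L .L) (.A (.C (.A .L .L) (.A .L .L)) (.C .L .L))) (.A (.C .L .L) (.C .L (.C .L .L)))
theorem B.c11 : Tr.chk (leaf fun A => gB A ⟨5, 93, 157⟩) exNo B.t11 218103808 218103808 134217728 134217728 939524096 134217728 = true := by decide +kernel

def B.t12 : Tr := .A (.C (.A .L .L) (.A .L .L)) (.C (.A .L (.A .L .L)) (.A .L .L))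
theorem B.c12 : Tr.chk (leaf fun A => gB A ⟨5, 93, 157⟩) exNo B.t12 218103808 218103808 402653184 134217728 671088640 134217728 = true := by decide +kernel

def B.t13 : Tr := .A (.C (.A .L .L) (.A (.C (.A .L .L) (.A .L .L)) (.C .L .L))) (.A (.C .L .L) (.C .L (.C .L .L)))
theorem B.c13 : Tr.chk (leaf fun A => gB A ⟨5, 93, 157⟩) exNo B.t13 218103808 218103808 402653184 134217728 939524096 134217728 = true := by decide +kernel

def B.t14 : Tr := .A (.B (.C (.A .L .L) (.A (.C .L .L) .L)) (.C (.A (.A .L .L) .L) (.A (.C .L .L) .L))) .L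
theorem B.c14 : Tr.chk (leaf fun A => gB A ⟨5, 93, 157⟩) exNo B.t14 654311424 218103808 134217728 134217728 671088640 134217728 = true := by decide +kernel

def B.t15 : Tr := .B (.C (.A (.A .L .L) .L) (.A (.A .L (.A .L (.C .L .L))) .L)) (.C (.A (.A .L .L) .L) (.A (.A .L (.A .L (.C .L .L))) .L))
theorem B.c15 : Tr.chk (leaf fun A => gB A ⟨5, 93, 157⟩) exNo B.t15 545259520 109051904 134217728 134217728 939524096 134217728 = true := by decide +kernel

def B.t16 : Tr := .L
theorem B.c16 : Tr.chk (leaf fun A => gB A ⟨5, 93, 157⟩) exNo B.t16 763363328 109051904 134217728 134217728 939524096 134217728 = true := by decide +kernel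

def B.t17 : Tr := .A (.B (.C (.A (.A .L .L) .L) (.A (.A .L .L) .L)) (.C (.A (.C (.A .L .L) (.A .L .L)) .L) (.A (.A .L (.C .L .L)) .L))) .L
theorem B.c17 : Tr.chk (leaf fun A => gB A ⟨5, 93, 157⟩) exNo B.t17 654311424 218103808 402653184 134217728 671088640 134217728 = true := by decide +kernel

end Pool.Agent.FTN.K5
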