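import Pool.Agent.FTN.Region

set_option maxRecDepth 100000

namespace Pool.Agent.FTN.K5

open Pool.Agent.FTA (TM Alg Tr leaf leafS exNo exV chkA chkB chkC)

def B.t18 : Tr := .C (.A (.A .L .L) .L) (.A (.A .L (.A .L (.C .L .L))) .L)
theorem B.c18 : Tr.chk (leaf fun A => gB A ⟨5, 93, 157⟩) exNo B.t18 545259520 109051904 335544320 67108864 939524096 134217728 = true := by decide +kernel

def B.t19 : Tr := .C (.A (.A .L (.A .L .L)) .L) (.A (.A .L (.A .L (.C .L .L))) .L)
theorem B.c19 : Tr.chk (leaf fun A => gB A ⟨5, 93, 157⟩) exNo B.t19 545259520 109051904 469762048 67108864 939524096 134217728 = true := by decide +kernel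

def B.t20 : Tr := .L
theorem B.c20 : Tr.chk (leaf fun A => gB A ⟨5, 93, 157⟩) exNo B.t20 763363328 109051904 402653184 134217728 939524096 134217728 = true := by decide +kernel

def B.t21 : Tr := .C .L .L
theorem B.c21 : Tr.chk (leaf fun A => gB A ⟨5, 93, 157⟩) exNo B.t21 109051904 109051904 671088640 134217728 134217728 134217728 = true := by decide +kernel

def B.t22 : Tr := .A (.C .L .L) (.C (.C (.A .L (.B .L .L)) (.B .L (.C (.B .L (.C .L (.A .L .L))) (.A .L .L)))) (.A .L (.B .L (.C .L .L))))
theorem B.c22 : Tr.chk (leaf fun A => gB A ⟨5, 93, 157⟩) exNo B.t22 327155712 109051904 671088640 134217728 134217728 134217728 = true := by decide +kernel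

def B.t23 : Tr := .A (.C (.C .L .L) (.A .L .L)) (.A (.C .L .L) (.A (.C .L .L) (.C (.B .L .L) (.B .L .L))))
theorem B.c23 : Tr.chk (leaf fun A => gB A ⟨5, 93, 157⟩) exNo B.t23 218103808 218103808 671088640 134217728 402653184 134217728 = true := by decide +kernel

def B.t24 : Tr := .C (.A .L .L) (.A .L .L)
theorem B.c24 : Tr.chk (leaf fun A => gB A ⟨5, 93, 157⟩) exNo B.t24 109051904 109051904 939524096 134217728 134217728 134217728 = true := by decide +kernel

def B.t25 : Tr := .A .L (.C (.C (.A .L .L) (.B (.A .L .L) (.C (.A .L .L) (.A .L .L)))) (.A .L (.C (.B .L .L) (.B .L .L))))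
theorem B.c25 : Tr.chk (leaf fun A => gB A ⟨5, 93, 157⟩) exNo B.t25 327155712 109051904 872415232 67108864 67108864 67108864 = true := by decide +kernel

def B.t26 : Tr := .A .L (.A .L (.A .L .L))
theorem B.c26 : Tr.chk (leaf fun A => gB A ⟨5, 93, 157⟩) exNo B.t26 327155712 109051904 872415232 67108864 201326592 67108864 = true := by decide +kernel

end Pool.Agent.FTN.K5
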