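import Pool.Agent.FTN.Region

set_option maxRecDepth 100000

namespace Pool.Agent.FTN.K5

open Pool.Agent.FTA (TM Alg Tr leaf leafS exNo exV chkA chkB chkC)

def B.t50 : Tr := .C (.A (.A (.C .L .L) (.A (.A .L (.C .L .L)) .L)) .L) (.A (.A .L (.A .L (.A (.C .L .L) (.A (.C .L .L) (.C .L .L))))) .L)
theorem B.c50 : Tr.chk (leaf fun A => gB A ⟨5, 93, 157⟩) exNo B.t50 545259520 109051904 1006632960 67108864 939524096 134217728 = true := by decide +kernel

def B.t51 : Tr := .L
theorem B.c51 : Tr.chk (leaf fun A => gB A ⟨5, 93, 157⟩) exNo B.t51 763363328 109051904 939524096 134217728 939524096 134217728 = true := by decide +kernel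

def V.t0 : Tr := .C (.C (.B .L (.B .L .L)) (.C (.B .L (.B .L .L)) (.B .L (.B .L .L)))) (.B .L (.B .L .L))
theorem V.c0 : Tr.chk (leaf fun A => gV A ⟨5, 93, 157⟩) exV V.t0 134217728 134217728 268435456 268435456 268435456 268435456 = true := by decide +kernel

def V.t1 : Tr := .B (.C (.C (.C .L .L) .L) .L) (.C (.B .L .L) (.B .L .L))
theorem V.c1 : Tr.chk (leaf fun A => gV A ⟨5, 93, 157⟩) exV V.t1 402653184 134217728 268435456 268435456 268435456 268435456 = true := by decide +kernel

def V.t2 : Tr := .A (.B (.C .L .L) (.B (.C .L .L) (.C .L .L))) (.B (.B (.C .L .L) (.C .L .L)) (.B (.C .L .L) (.C .L .L)))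
theorem V.c2 : Tr.chk (leaf fun A => gV A ⟨5, 93, 157⟩) exV V.t2 268435456 268435456 268435456 268435456 805306368 268435456 = true := by decide +kernel

def V.t3 : Tr := .C (.B .L (.C .L .L)) (.B .L (.C .L .L))
theorem V.c3 : Tr.chk (leaf fun A => gV A ⟨5, 93, 157⟩) exV V.t3 134217728 134217728 671088640 134217728 268435456 268435456 = true := by decide +kernel

def V.t4 : Tr := .B (.C .L .L) (.C (.B .L .L) (.B .L .L))
theorem V.c4 : Tr.chk (leaf fun A => gV A ⟨5, 93, 157⟩) exV V.t4 134217728 134217728 939524096 134217728 134217728 134217728 = true := by decide +kernel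

def V.t5 : Tr := .C (.B .L (.C (.B .L .L) (.B .L .L))) (.C (.B .L (.B .L .L)) (.B .L (.C .L (.A .L .L))))
theorem V.c5 : Tr.chk (leaf fun A => gV A ⟨5, 93, 157⟩) exV V.t5 134217728 134217728 939524096 134217728 402653184 134217728 = true := by decide +kernel

end Pool.Agent.FTN.K5
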