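import Pool.Agent.FTN.Region

set_option maxRecDepth 100000

namespace Pool.Agent.FTN.K5

open Pool.Agent.FTA (TM Alg Tr leaf leafS exNo exV chkA chkB chkC)

def N.t13 : Tr := .C (.C (.A .L (.C .L .L)) (.C (.A .L .L) (.A .L .L))) (.C (.A .L (.C .L .L)) (.A .L (.C .L .L)))
theorem N.c13 : Tr.chk (leaf fun A => gN A ⟨5, 93, 157⟩) exNo N.t13 654311424 218103808 402653184 134217728 829423616 118489088 = true := by decide +kernel

def N.t14 : Tr := .C (.C (.A .L .L) (.A .L (.C .L .L))) (.C (.A .L (.C .L .L)) (.C (.A .L (.C .L .L)) (.A .L (.C .L .L))))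
theorem N.c14 : Tr.chk (leaf fun A => gN A ⟨5, 93, 157⟩) exNo N.t14 218103808 218103808 805306368 268435456 236978176 236978176 = true := by decide +kernel

def N.t15 : Tr := .A (.C (.C .L .L) (.C .L .L)) (.A (.C (.A .L .L) (.C .L .L)) .L)
theorem N.c15 : Tr.chk (leaf fun A => gN A ⟨5, 93, 157⟩) exNo N.t15 654311424 218103808 671088640 134217728 118489088 118489088 = true := by decide +kernel

def N.t16 : Tr := .A (.C (.C .L .L) (.C (.A .L .L) (.A .L .L))) (.A (.C (.C .L .L) (.C .L .L)) (.C .L (.A .L .L)))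
theorem N.c16 : Tr.chk (leaf fun A => gN A ⟨5, 93, 157⟩) exNo N.t16 654311424 218103808 671088640 134217728 355467264 118489088 = true := by decide +kernel

def N.t17 : Tr := .C (.A (.C .L (.C .L .L)) (.A (.C .L .L) .L)) (.A (.C (.C .L .L) (.C .L .L)) (.A (.C .L .L) (.C (.A .L .L) (.A .L .L))))
theorem N.c17 : Tr.chk (leaf fun A => gN A ⟨5, 93, 157⟩) exNo N.t17 654311424 218103808 939524096 134217728 236978176 236978176 = true := by decide +kernel

def N.t18 : Tr := .C (.A (.C .L (.C .L .L)) (.C (.A .L .L) (.A .L .L))) (.A (.A (.C .L .L) .L) (.A .L .L))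
theorem N.c18 : Tr.chk (leaf fun A => gN A ⟨5, 93, 157⟩) exNo N.t18 218103808 218103808 805306368 268435456 592445440 118489088 = true := by decide +kernel

end Pool.Agent.FTN.K5
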