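import Pool.Agent.FTN.Region

set_option maxRecDepth 100000

namespace Pool.Agent.FTN.K5

open Pool.Agent.FTA (TM Alg Tr leaf leafS exNo exV chkA chkB chkC)

def N.t19 : Tr := .A (.A (.A (.A (.C .L .L) .L) (.C .L .L)) (.C .L .L)) (.C (.A .L .L) (.C .L .L))
theorem N.c19 : Tr.chk (leaf fun A => gN A ⟨5, 93, 157⟩) exNo N.t19 218103808 218103808 805306368 268435456 829423616 118489088 = true := by decide +kernel

def N.t20 : Tr := .A (.C (.A .L .L) (.A .L .L)) (.C (.A (.C .L .L) (.C .L .L)) (.A .L (.C .L .L)))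
theorem N.c20 : Tr.chk (leaf fun A => gN A ⟨5, 93, 157⟩) exNo N.t20 654311424 218103808 671088640 134217728 592445440 118489088 = true := by decide +kernel

def N.t21 : Tr := .C (.A (.C .L .L) (.C .L .L)) (.C (.C (.A .L .L) (.A .L .L)) (.A .L (.C .L .L)))
theorem N.c21 : Tr.chk (leaf fun A => gN A ⟨5, 93, 157⟩) exNo N.t21 654311424 218103808 671088640 134217728 829423616 118489088 = true := by decide +kernel

def N.t22 : Tr := .A (.C (.A .L .L) (.A .L .L)) (.C (.A .L (.C .L .L)) (.A .L .L))
theorem N.c22 : Tr.chk (leaf fun A => gN A ⟨5, 93, 157⟩) exNo N.t22 654311424 218103808 939524096 134217728 592445440 118489088 = true := by decide +kernel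

def N.t23 : Tr := .C (.A (.C .L .L) (.C .L .L)) (.C (.A .L .L) (.C (.A .L .L) (.A .L .L)))
theorem N.c23 : Tr.chk (leaf fun A => gN A ⟨5, 93, 157⟩) exNo N.t23 654311424 218103808 939524096 134217728 829423616 118489088 = true := by decide +kernel

def A.t0 : Tr := .C (.A .L .L) (.A .L (.B (.C .L .L) .L))
theorem A.c0 : Tr.chk (leaf fun A => gA A ⟨5, 93, 157⟩) exNo A.t0 218103808 218103808 268435456 268435456 134217728 134217728 = true := by decide +kernel

def A.t1 : Tr := .B (.C (.A .L .L) (.B (.A .L .L) (.A .L .L))) (.A .L .L)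
theorem A.c1 : Tr.chk (leaf fun A => gA A ⟨5, 93, 157⟩) exNo A.t1 218103808 218103808 268435456 268435456 335544320 67108864 = true := by decide +kernel

def A.t2 : Tr := .C (.A .L .L) (.B (.C (.A .L .L) (.B (.A .L .L) (.A .L .L))) (.C (.B (.A .L .L) (.A .L .L)) (.A .L .L)))
theorem A.c2 : Tr.chk (leaf fun A => gA A ⟨5, 93, 157⟩) exNo A.t2 218103808 218103808 67108864 67108864 469762048 67108864 = true := by decide +kernel

end Pool.Agent.FTN.K5
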