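import Pool.Agent.FTN.Region

set_option maxRecDepth 100000

namespace Pool.Agent.FTN.K5

open Pool.Agent.FTA (TM Alg Tr leaf leafS exNo exV chkA chkB chkC)

def A.t40 : Tr := .B (.C .L (.A (.C .L .L) (.B (.A (.C .L .L) (.C .L .L)) .L))) (.A (.C .L (.B (.A (.C .L .L) .L) .L)) .L)
theorem A.c40 : Tr.chk (leaf fun A => gA A ⟨5, 93, 157⟩) exNo A.t40 845152256 27262976 335544320 67108864 939524096 134217728 = true := by decide +kernel

def A.t41 : Tr := .A (.A .L (.A .L (.C .L .L))) .L
theorem A.c41 : Tr.chk (leaf fun A => gA A ⟨5, 93, 157⟩) exNo A.t41 763363328 109051904 469762048 67108864 872415232 67108864 = true := by decide +kernel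

def A.t42 : Tr := .A (.A (.C .L .L) (.A (.C .L .L) (.B .L (.A (.C .L .L) .L)))) (.A (.B (.A (.A .L (.B .L .L)) .L) .L) .L)
theorem A.c42 : Tr.chk (leaf fun A => gA A ⟨5, 93, 157⟩) exNo A.t42 763363328 109051904 469762048 67108864 1006632960 67108864 = true := by decide +kernel

def A.t43 : Tr := .A .L (.C .L .L)
theorem A.c43 : Tr.chk (leaf fun A => gA A ⟨5, 93, 157⟩) exNo A.t43 218103808 218103808 805306368 268435456 134217728 134217728 = true := by decide +kernel

def A.t44 : Tr := .B (.A .L .L) (.A .L .L)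
theorem A.c44 : Tr.chk (leaf fun A => gA A ⟨5, 93, 157⟩) exNo A.t44 218103808 218103808 805306368 268435456 335544320 67108864 = true := by decide +kernel

def A.t45 : Tr := .B (.C (.B (.C (.A .L .L) (.A .L .L)) (.C (.A .L .L) (.A .L .L))) (.A .L .L)) (.C (.A .L .L) (.A .L .L))
theorem A.c45 : Tr.chk (leaf fun A => gA A ⟨5, 93, 157⟩) exNo A.t45 218103808 218103808 671088640 134217728 469762048 67108864 = true := by decide +kernel

def A.t46 : Tr := .A .L (.B .L .L)
theorem A.c46 : Tr.chk (leaf fun A => gA A ⟨5, 93, 157⟩) exNo A.t46 218103808 218103808 939524096 134217728 469762048 67108864 = true := by decide +kernel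

def A.t47 : Tr := .C (.A (.A (.C .L .L) (.C .L .L)) .L) (.A (.B (.A (.C .L .L) (.C .L .L)) (.A (.C .L .L) (.C .L .L))) .L)
theorem A.c47 : Tr.chk (leaf fun A => gA A ⟨5, 93, 157⟩) exNo A.t47 654311424 218103808 671088640 134217728 268435456 268435456 = true := by decide +kernel

end Pool.Agent.FTN.K5
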