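import Pool.Agent.FTN.K.P5F0
import Pool.Agent.FTN.K.P5F1
import Pool.Agent.FTN.K.P5F2
import Pool.Agent.FTN.K.P5F3
import Pool.Agent.FTN.K.P5F4
import Pool.Agent.FTN.K.P5F5
import Pool.Agent.FTN.K.P5F6
import Pool.Agent.FTN.K.P5F7
import Pool.Agent.FTN.K.P5F8
import Pool.Agent.FTN.K.P5F9
import Pool.Agent.FTN.K.P5F10
import Pool.Agent.FTN.K.P5F11
import Pool.Agent.FTN.K.P5F12
import Pool.Agent.FTN.K.P5F13
import Pool.Agent.FTN.K.P5F14
import Pool.Agent.FTN.K.P5F15
import Pool.Agent.FTN.K.P5F16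
import Pool.Agent.FTN.K.P5F17
import Pool.Agent.FTN.K.P5F18
import Pool.Agent.FTN.K.P5F19
import Pool.Agent.FTN.K.P5F20
import Pool.Agent.FTN.K.P5F21
import Pool.Agent.FTN.K.P5F22
import Pool.Agent.FTN.K.P5F23
import Pool.Agent.FTN.K.P5F24
import Pool.Agent.FTN.REG

set_option maxRecDepth 100000

namespace Pool.Agent.FTN.K5

open Pool.Agent.FTA (TM Alg Tr leaf leafS exNo exV chkA chkB chkC)

def N.u0 : Tr := .C N.t1 N.t2
theorem N.d0 : Tr.chk (leaf fun A => gN A ⟨5, 93, 157⟩) exNo N.u0 218103808 218103808 268435456 268435456 355467264 118489088 = true := chkC rfl N.c1 N.c2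

def N.u1 : Tr := .C N.t0 N.u0
theorem N.d1 : Tr.chk (leaf fun A => gN A ⟨5, 93, 157⟩) exNo N.u1 218103808 218103808 268435456 268435456 236978176 236978176 = true := chkC rfl N.c0 N.d0

def N.u2 : Tr := .C N.t3 N.t4
theorem N.d2 : Tr.chk (leaf fun A => gN A ⟨5, 93, 157⟩) exNo N.u2 654311424 218103808 134217728 134217728 236978176 236978176 = true := chkC rfl N.c3 N.c4

def N.u3 : Tr := .A N.t6 N.t7
theorem N.d3 : Tr.chk (leaf fun A => gN A ⟨5, 93, 157⟩) exNo N.u3 654311424 218103808 402653184 134217728 355467264 118489088 = true := chkA rfl N.c6 N.c7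

def N.u4 : Tr := .C N.t5 N.u3
theorem N.d4 : Tr.chk (leaf fun A => gN A ⟨5, 93, 157⟩) exNo N.u4 654311424 218103808 402653184 134217728 236978176 236978176 = true := chkC rfl N.c5 N.d3

def N.u5 : Tr := .B N.u2 N.u4
theorem N.d5 : Tr.chk (leaf fun A => gN A ⟨5, 93, 157⟩) exNo N.u5 654311424 218103808 268435456 268435456 236978176 236978176 = true := chkB rfl N.d2 N.d4

def N.u6 : Tr := .A N.u1 N.u5
theorem N.d6 : Tr.chk (leaf fun A => gN A ⟨5, 93, 157⟩) exNo N.u6 436207616 436207616 268435456 268435456 236978176 236978176 = true := chkA rfl N.d1 N.d5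

def N.u7 : Tr := .C N.t8 N.t9
theorem N.d7 : Tr.chk (leaf fun A => gN A ⟨5, 93, 157⟩) exNo N.u7 218103808 218103808 268435456 268435456 710934528 236978176 = true := chkC rfl N.c8 N.c9

def N.u8 : Tr := .C N.t10 N.t11
theorem N.d8 : Tr.chk (leaf fun A => gN A ⟨5, 93, 157⟩) exNo N.u8 654311424 218103808 134217728 134217728 710934528 236978176 = true := chkC rfl N.c10 N.c11

def N.u9 : Tr := .C N.t12 N.t13
theorem N.d9 : Tr.chk (leaf fun A => gN A ⟨5, 93, 157⟩) exNo N.u9 654311424 218103808 402653184 134217728 710934528 236978176 = true := chkC rfl N.c12 N.c13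

def N.u10 : Tr := .B N.u8 N.u9
theorem N.d10 : Tr.chk (leaf fun A => gN A ⟨5, 93, 157⟩) exNo N.u10 654311424 218103808 268435456 268435456 710934528 236978176 = true := chkB rfl N.d8 N.d9

def N.u11 : Tr := .A N.u7 N.u10
theorem N.d11 : Tr.chk (leaf fun A => gN A ⟨5, 93, 157⟩) exNo N.u11 436207616 436207616 268435456 268435456 710934528 236978176 = true := chkA rfl N.d7 N.d10

def N.u12 : Tr := .C N.u6 N.u11
theorem N.d12 : Tr.chk (leaf fun A => gN A ⟨5, 93, 157⟩) exNo N.u12 436207616 436207616 268435456 268435456 473956352 473956352 = true := chkC rfl N.d6 N.d11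

def N.u13 : Tr := .C N.t15 N.t16
theorem N.d13 : Tr.chk (leaf fun A => gN A ⟨5, 93, 157⟩) exNo N.u13 654311424 218103808 671088640 134217728 236978176 236978176 = true := chkC rfl N.c15 N.c16

def N.u14 : Tr := .B N.u13 N.t17
theorem N.d14 : Tr.chk (leaf fun A => gN A ⟨5, 93, 157⟩) exNo N.u14 654311424 218103808 805306368 268435456 236978176 236978176 = true := chkB rfl N.d13 N.c17

def N.u15 : Tr := .A N.t14 N.u14
theorem N.d15 : Tr.chk (leaf fun A => gN A ⟨5, 93, 157⟩) exNo N.u15 436207616 436207616 805306368 268435456 236978176 236978176 = true := chkA rfl N.c14 N.d14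

def N.u16 : Tr := .C N.t18 N.t19
theorem N.d16 : Tr.chk (leaf fun A => gN A ⟨5, 93, 157⟩) exNo N.u16 218103808 218103808 805306368 268435456 710934528 236978176 = true := chkC rfl N.c18 N.c19

def N.u17 : Tr := .C N.t20 N.t21
theorem N.d17 : Tr.chk (leaf fun A => gN A ⟨5, 93, 157⟩) exNo N.u17 654311424 218103808 671088640 134217728 710934528 236978176 = true := chkC rfl N.c20 N.c21

def N.u18 : Tr := .C N.t22 N.t23
theorem N.d18 : Tr.chk (leaf fun A => gN A ⟨5, 93, 157⟩) exNo N.u18 654311424 218103808 939524096 134217728 710934528 236978176 = true := chkC rfl N.c22 N.c23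

def N.u19 : Tr := .B N.u17 N.u18
theorem N.d19 : Tr.chk (leaf fun A => gN A ⟨5, 93, 157⟩) exNo N.u19 654311424 218103808 805306368 268435456 710934528 236978176 = true := chkB rfl N.d17 N.d18

def N.u20 : Tr := .A N.u16 N.u19
theorem N.d20 : Tr.chk (leaf fun A => gN A ⟨5, 93, 157⟩) exNo N.u20 436207616 436207616 805306368 268435456 710934528 236978176 = true := chkA rfl N.d16 N.d19

def N.u21 : Tr := .C N.u15 N.u20
theorem N.d21 : Tr.chk (leaf fun A => gN A ⟨5, 93, 157⟩) exNo N.u21 436207616 436207616 805306368 268435456 473956352 473956352 = true := chkC rfl N.d15 N.d20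

def N.u22 : Tr := .B N.u12 N.u21
theorem N.d22 : Tr.chk (leaf fun A => gN A ⟨5, 93, 157⟩) exNo N.u22 436207616 436207616 536870912 536870912 473956352 473956352 = true := chkB rfl N.d12 N.d21

/-- the region N -/
theorem N.all : ∃ t, Tr.chk (leaf fun A => gN A ⟨5, 93, 157⟩) exNo t 436207616 436207616 536870912 536870912 473956352 473956352 = true := ⟨N.u22, N.d22⟩

def A.u0 : Tr := .B A.t2 A.t3
theorem A.d0 : Tr.chk (leaf fun A => gA A ⟨5, 93, 157⟩) exNo A.u0 218103808 218103808 134217728 134217728 469762048 67108864 = true := chkB rfl A.c2 A.c3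

def A.u1 : Tr := .B A.u0 A.t4
theorem A.d1 : Tr.chk (leaf fun A => gA A ⟨5, 93, 157⟩) exNo A.u1 218103808 218103808 268435456 268435456 469762048 67108864 = true := chkB rfl A.d0 A.c4

def A.u2 : Tr := .C A.t1 A.u1
theorem A.d2 : Tr.chk (leaf fun A => gA A ⟨5, 93, 157⟩) exNo A.u2 218103808 218103808 268435456 268435456 402653184 134217728 = true := chkC rfl A.c1 A.d1

def A.u3 : Tr := .C A.t0 A.u2
theorem A.d3 : Tr.chk (leaf fun A => gA A ⟨5, 93, 157⟩) exNo A.u3 218103808 218103808 268435456 268435456 268435456 268435456 = true := chkC rfl A.c0 A.d2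

def A.u4 : Tr := .C A.t6 A.t7
theorem A.d4 : Tr.chk (leaf fun A => gA A ⟨5, 93, 157⟩) exNo A.u4 545259520 109051904 134217728 134217728 402653184 134217728 = true := chkC rfl A.c6 A.c7

def A.u5 : Tr := .A A.u4 A.t8
theorem A.d5 : Tr.chk (leaf fun A => gA A ⟨5, 93, 157⟩) exNo A.u5 654311424 218103808 134217728 134217728 402653184 134217728 = true := chkA rfl A.d4 A.c8

def A.u6 : Tr := .C A.t5 A.u5
theorem A.d6 : Tr.chk (leaf fun A => gA A ⟨5, 93, 157⟩) exNo A.u6 654311424 218103808 134217728 134217728 268435456 268435456 = true := chkC rfl A.c5 A.d5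

def A.u7 : Tr := .C A.t9 A.t10
theorem A.d7 : Tr.chk (leaf fun A => gA A ⟨5, 93, 157⟩) exNo A.u7 654311424 218103808 402653184 134217728 268435456 268435456 = true := chkC rfl A.c9 A.c10

def A.u8 : Tr := .B A.u6 A.u7
theorem A.d8 : Tr.chk (leaf fun A => gA A ⟨5, 93, 157⟩) exNo A.u8 654311424 218103808 268435456 268435456 268435456 268435456 = true := chkB rfl A.d6 A.d7

def A.u9 : Tr := .A A.u3 A.u8
theorem A.d9 : Tr.chk (leaf fun A => gA A ⟨5, 93, 157⟩) exNo A.u9 436207616 436207616 268435456 268435456 268435456 268435456 = true := chkA rfl A.d3 A.d8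

def A.u10 : Tr := .A A.t11 A.t12
theorem A.d10 : Tr.chk (leaf fun A => gA A ⟨5, 93, 157⟩) exNo A.u10 218103808 218103808 67108864 67108864 671088640 134217728 = true := chkA rfl A.c11 A.c12

def A.u11 : Tr := .B A.u10 A.t13
theorem A.d11 : Tr.chk (leaf fun A => gA A ⟨5, 93, 157⟩) exNo A.u11 218103808 218103808 134217728 134217728 671088640 134217728 = true := chkB rfl A.d10 A.c13

def A.u12 : Tr := .C A.t17 A.t18
theorem A.d12 : Tr.chk (leaf fun A => gA A ⟨5, 93, 157⟩) exNo A.u12 109051904 109051904 134217728 134217728 1056964608 16777216 = true := chkC rfl A.c17 A.c18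

def A.u13 : Tr := .C A.t16 A.u12
theorem A.d13 : Tr.chk (leaf fun A => gA A ⟨5, 93, 157⟩) exNo A.u13 109051904 109051904 134217728 134217728 1040187392 33554432 = true := chkC rfl A.c16 A.d12

def A.u14 : Tr := .A A.u13 A.t19
theorem A.d14 : Tr.chk (leaf fun A => gA A ⟨5, 93, 157⟩) exNo A.u14 218103808 218103808 134217728 134217728 1040187392 33554432 = true := chkA rfl A.d13 A.c19

def A.u15 : Tr := .C A.t15 A.u14
theorem A.d15 : Tr.chk (leaf fun A => gA A ⟨5, 93, 157⟩) exNo A.u15 218103808 218103808 134217728 134217728 1006632960 67108864 = true := chkC rfl A.c15 A.d14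

def A.u16 : Tr := .C A.t14 A.u15
theorem A.d16 : Tr.chk (leaf fun A => gA A ⟨5, 93, 157⟩) exNo A.u16 218103808 218103808 134217728 134217728 939524096 134217728 = true := chkC rfl A.c14 A.d15

def A.u17 : Tr := .C A.u11 A.u16
theorem A.d17 : Tr.chk (leaf fun A => gA A ⟨5, 93, 157⟩) exNo A.u17 218103808 218103808 134217728 134217728 805306368 268435456 = true := chkC rfl A.d11 A.d16

def A.u18 : Tr := .A A.t22 A.t23
theorem A.d18 : Tr.chk (leaf fun A => gA A ⟨5, 93, 157⟩) exNo A.u18 218103808 218103808 402653184 134217728 1006632960 67108864 = true := chkA rfl A.c22 A.c23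

def A.u19 : Tr := .C A.t21 A.u18
theorem A.d19 : Tr.chk (leaf fun A => gA A ⟨5, 93, 157⟩) exNo A.u19 218103808 218103808 402653184 134217728 939524096 134217728 = true := chkC rfl A.c21 A.d18

def A.u20 : Tr := .C A.t20 A.u19
theorem A.d20 : Tr.chk (leaf fun A => gA A ⟨5, 93, 157⟩) exNo A.u20 218103808 218103808 402653184 134217728 805306368 268435456 = true := chkC rfl A.c20 A.d19

def A.u21 : Tr := .B A.u17 A.u20
theorem A.d21 : Tr.chk (leaf fun A => gA A ⟨5, 93, 157⟩) exNo A.u21 218103808 218103808 268435456 268435456 805306368 268435456 = true := chkB rfl A.d17 A.d20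

def A.u22 : Tr := .B A.t24 A.t25
theorem A.d22 : Tr.chk (leaf fun A => gA A ⟨5, 93, 157⟩) exNo A.u22 545259520 109051904 134217728 134217728 671088640 134217728 = true := chkB rfl A.c24 A.c25

def A.u23 : Tr := .B A.t26 A.t27
theorem A.d23 : Tr.chk (leaf fun A => gA A ⟨5, 93, 157⟩) exNo A.u23 763363328 109051904 134217728 134217728 671088640 134217728 = true := chkB rfl A.c26 A.c27

def A.u24 : Tr := .A A.u22 A.u23
theorem A.d24 : Tr.chk (leaf fun A => gA A ⟨5, 93, 157⟩) exNo A.u24 654311424 218103808 134217728 134217728 671088640 134217728 = true := chkA rfl A.d22 A.d23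

def A.u25 : Tr := .A A.t28 A.t29
theorem A.d25 : Tr.chk (leaf fun A => gA A ⟨5, 93, 157⟩) exNo A.u25 654311424 218103808 67108864 67108864 872415232 67108864 = true := chkA rfl A.c28 A.c29

def A.u26 : Tr := .B A.t30 A.t31
theorem A.d26 : Tr.chk (leaf fun A => gA A ⟨5, 93, 157⟩) exNo A.u26 654311424 218103808 67108864 67108864 1006632960 67108864 = true := chkB rfl A.c30 A.c31

def A.u27 : Tr := .C A.u25 A.u26
theorem A.d27 : Tr.chk (leaf fun A => gA A ⟨5, 93, 157⟩) exNo A.u27 654311424 218103808 67108864 67108864 939524096 134217728 = true := chkC rfl A.d25 A.d26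

def A.u28 : Tr := .C A.t33 A.t34
theorem A.d28 : Tr.chk (leaf fun A => gA A ⟨5, 93, 157⟩) exNo A.u28 763363328 109051904 201326592 67108864 939524096 134217728 = true := chkC rfl A.c33 A.c34

def A.u29 : Tr := .A A.t32 A.u28
theorem A.d29 : Tr.chk (leaf fun A => gA A ⟨5, 93, 157⟩) exNo A.u29 654311424 218103808 201326592 67108864 939524096 134217728 = true := chkA rfl A.c32 A.d28

def A.u30 : Tr := .B A.u27 A.u29
theorem A.d30 : Tr.chk (leaf fun A => gA A ⟨5, 93, 157⟩) exNo A.u30 654311424 218103808 134217728 134217728 939524096 134217728 = true := chkB rfl A.d27 A.d29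

def A.u31 : Tr := .C A.u24 A.u30
theorem A.d31 : Tr.chk (leaf fun A => gA A ⟨5, 93, 157⟩) exNo A.u31 654311424 218103808 134217728 134217728 805306368 268435456 = true := chkC rfl A.d24 A.d30

def A.u32 : Tr := .A A.t35 A.t36
theorem A.d32 : Tr.chk (leaf fun A => gA A ⟨5, 93, 157⟩) exNo A.u32 654311424 218103808 402653184 134217728 671088640 134217728 = true := chkA rfl A.c35 A.c36

def A.u33 : Tr := .A A.t39 A.t40
theorem A.d33 : Tr.chk (leaf fun A => gA A ⟨5, 93, 157⟩) exNo A.u33 817889280 54525952 335544320 67108864 939524096 134217728 = true := chkA rfl A.c39 A.c40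

def A.u34 : Tr := .A A.t38 A.u33
theorem A.d34 : Tr.chk (leaf fun A => gA A ⟨5, 93, 157⟩) exNo A.u34 763363328 109051904 335544320 67108864 939524096 134217728 = true := chkA rfl A.c38 A.d33

def A.u35 : Tr := .C A.t41 A.t42
theorem A.d35 : Tr.chk (leaf fun A => gA A ⟨5, 93, 157⟩) exNo A.u35 763363328 109051904 469762048 67108864 939524096 134217728 = true := chkC rfl A.c41 A.c42

def A.u36 : Tr := .B A.u34 A.u35
theorem A.d36 : Tr.chk (leaf fun A => gA A ⟨5, 93, 157⟩) exNo A.u36 763363328 109051904 402653184 134217728 939524096 134217728 = true := chkB rfl A.d34 A.d35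

def A.u37 : Tr := .A A.t37 A.u36
theorem A.d37 : Tr.chk (leaf fun A => gA A ⟨5, 93, 157⟩) exNo A.u37 654311424 218103808 402653184 134217728 939524096 134217728 = true := chkA rfl A.c37 A.d36

def A.u38 : Tr := .C A.u32 A.u37
theorem A.d38 : Tr.chk (leaf fun A => gA A ⟨5, 93, 157⟩) exNo A.u38 654311424 218103808 402653184 134217728 805306368 268435456 = true := chkC rfl A.d32 A.d37

def A.u39 : Tr := .B A.u31 A.u38
theorem A.d39 : Tr.chk (leaf fun A => gA A ⟨5, 93, 157⟩) exNo A.u39 654311424 218103808 268435456 268435456 805306368 268435456 = true := chkB rfl A.d31 A.d38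

def A.u40 : Tr := .A A.u21 A.u39
theorem A.d40 : Tr.chk (leaf fun A => gA A ⟨5, 93, 157⟩) exNo A.u40 436207616 436207616 268435456 268435456 805306368 268435456 = true := chkA rfl A.d21 A.d39

def A.u41 : Tr := .C A.u9 A.u40
theorem A.d41 : Tr.chk (leaf fun A => gA A ⟨5, 93, 157⟩) exNo A.u41 436207616 436207616 268435456 268435456 536870912 536870912 = true := chkC rfl A.d9 A.d40

def A.u42 : Tr := .B A.t45 A.t46
theorem A.d42 : Tr.chk (leaf fun A => gA A ⟨5, 93, 157⟩) exNo A.u42 218103808 218103808 805306368 268435456 469762048 67108864 = true := chkB rfl A.c45 A.c46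

def A.u43 : Tr := .C A.t44 A.u42
theorem A.d43 : Tr.chk (leaf fun A => gA A ⟨5, 93, 157⟩) exNo A.u43 218103808 218103808 805306368 268435456 402653184 134217728 = true := chkC rfl A.c44 A.d42

def A.u44 : Tr := .C A.t43 A.u43
theorem A.d44 : Tr.chk (leaf fun A => gA A ⟨5, 93, 157⟩) exNo A.u44 218103808 218103808 805306368 268435456 268435456 268435456 = true := chkC rfl A.c43 A.d43

def A.u45 : Tr := .B A.t47 A.t48
theorem A.d45 : Tr.chk (leaf fun A => gA A ⟨5, 93, 157⟩) exNo A.u45 654311424 218103808 805306368 268435456 268435456 268435456 = true := chkB rfl A.c47 A.c48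

def A.u46 : Tr := .A A.u44 A.u45
theorem A.d46 : Tr.chk (leaf fun A => gA A ⟨5, 93, 157⟩) exNo A.u46 436207616 436207616 805306368 268435456 268435456 268435456 = true := chkA rfl A.d44 A.d45

def A.u47 : Tr := .A A.t50 A.t51
theorem A.d47 : Tr.chk (leaf fun A => gA A ⟨5, 93, 157⟩) exNo A.u47 218103808 218103808 671088640 134217728 939524096 134217728 = true := chkA rfl A.c50 A.c51

def A.u48 : Tr := .C A.t49 A.u47
theorem A.d48 : Tr.chk (leaf fun A => gA A ⟨5, 93, 157⟩) exNo A.u48 218103808 218103808 671088640 134217728 805306368 268435456 = true := chkC rfl A.c49 A.d47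

def A.u49 : Tr := .A A.t53 A.t54
theorem A.d49 : Tr.chk (leaf fun A => gA A ⟨5, 93, 157⟩) exNo A.u49 218103808 218103808 939524096 134217728 939524096 134217728 = true := chkA rfl A.c53 A.c54

def A.u50 : Tr := .C A.t52 A.u49
theorem A.d50 : Tr.chk (leaf fun A => gA A ⟨5, 93, 157⟩) exNo A.u50 218103808 218103808 939524096 134217728 805306368 268435456 = true := chkC rfl A.c52 A.d49

def A.u51 : Tr := .B A.u48 A.u50
theorem A.d51 : Tr.chk (leaf fun A => gA A ⟨5, 93, 157⟩) exNo A.u51 218103808 218103808 805306368 268435456 805306368 268435456 = true := chkB rfl A.d48 A.d50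

def A.u52 : Tr := .B A.t57 A.t58
theorem A.d52 : Tr.chk (leaf fun A => gA A ⟨5, 93, 157⟩) exNo A.u52 599785472 54525952 671088640 134217728 939524096 134217728 = true := chkB rfl A.c57 A.c58

def A.u53 : Tr := .A A.t56 A.u52
theorem A.d53 : Tr.chk (leaf fun A => gA A ⟨5, 93, 157⟩) exNo A.u53 545259520 109051904 671088640 134217728 939524096 134217728 = true := chkA rfl A.c56 A.d52

def A.u54 : Tr := .C A.t59 A.t60
theorem A.d54 : Tr.chk (leaf fun A => gA A ⟨5, 93, 157⟩) exNo A.u54 763363328 109051904 603979776 67108864 939524096 134217728 = true := chkC rfl A.c59 A.c60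

def A.u55 : Tr := .B A.u54 A.t61
theorem A.d55 : Tr.chk (leaf fun A => gA A ⟨5, 93, 157⟩) exNo A.u55 763363328 109051904 671088640 134217728 939524096 134217728 = true := chkB rfl A.d54 A.c61

def A.u56 : Tr := .A A.u53 A.u55
theorem A.d56 : Tr.chk (leaf fun A => gA A ⟨5, 93, 157⟩) exNo A.u56 654311424 218103808 671088640 134217728 939524096 134217728 = true := chkA rfl A.d53 A.d55

def A.u57 : Tr := .C A.t55 A.u56
theorem A.d57 : Tr.chk (leaf fun A => gA A ⟨5, 93, 157⟩) exNo A.u57 654311424 218103808 671088640 134217728 805306368 268435456 = true := chkC rfl A.c55 A.d56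

def A.u58 : Tr := .C A.t63 A.t64
theorem A.d58 : Tr.chk (leaf fun A => gA A ⟨5, 93, 157⟩) exNo A.u58 545259520 109051904 872415232 67108864 939524096 134217728 = true := chkC rfl A.c63 A.c64

def A.u59 : Tr := .A A.t66 A.t67
theorem A.d59 : Tr.chk (leaf fun A => gA A ⟨5, 93, 157⟩) exNo A.u59 545259520 109051904 1006632960 67108864 1006632960 67108864 = true := chkA rfl A.c66 A.c67

def A.u60 : Tr := .C A.t65 A.u59
theorem A.d60 : Tr.chk (leaf fun A => gA A ⟨5, 93, 157⟩) exNo A.u60 545259520 109051904 1006632960 67108864 939524096 134217728 = true := chkC rfl A.c65 A.d59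

def A.u61 : Tr := .B A.u58 A.u60
theorem A.d61 : Tr.chk (leaf fun A => gA A ⟨5, 93, 157⟩) exNo A.u61 545259520 109051904 939524096 134217728 939524096 134217728 = true := chkB rfl A.d58 A.d60

def A.u62 : Tr := .A A.u61 A.t68
theorem A.d62 : Tr.chk (leaf fun A => gA A ⟨5, 93, 157⟩) exNo A.u62 654311424 218103808 939524096 134217728 939524096 134217728 = true := chkA rfl A.d61 A.c68

def A.u63 : Tr := .C A.t62 A.u62
theorem A.d63 : Tr.chk (leaf fun A => gA A ⟨5, 93, 157⟩) exNo A.u63 654311424 218103808 939524096 134217728 805306368 268435456 = true := chkC rfl A.c62 A.d62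

def A.u64 : Tr := .B A.u57 A.u63
theorem A.d64 : Tr.chk (leaf fun A => gA A ⟨5, 93, 157⟩) exNo A.u64 654311424 218103808 805306368 268435456 805306368 268435456 = true := chkB rfl A.d57 A.d63

def A.u65 : Tr := .A A.u51 A.u64
theorem A.d65 : Tr.chk (leaf fun A => gA A ⟨5, 93, 157⟩) exNo A.u65 436207616 436207616 805306368 268435456 805306368 268435456 = true := chkA rfl A.d51 A.d64

def A.u66 : Tr := .C A.u46 A.u65
theorem A.d66 : Tr.chk (leaf fun A => gA A ⟨5, 93, 157⟩) exNo A.u66 436207616 436207616 805306368 268435456 536870912 536870912 = true := chkC rfl A.d46 A.d65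

def A.u67 : Tr := .B A.u41 A.u66
theorem A.d67 : Tr.chk (leaf fun A => gA A ⟨5, 93, 157⟩) exNo A.u67 436207616 436207616 536870912 536870912 536870912 536870912 = true := chkB rfl A.d41 A.d66

/-- the region A -/
theorem A.all : ∃ t, Tr.chk (leaf fun A => gA A ⟨5, 93, 157⟩) exNo t 436207616 436207616 536870912 536870912 536870912 536870912 = true := ⟨A.u67, A.d67⟩

def B.u0 : Tr := .B B.t0 B.t1
theorem B.d0 : Tr.chk (leaf fun A => gB A ⟨5, 93, 157⟩) exNo B.u0 218103808 218103808 268435456 268435456 268435456 268435456 = true := chkB rfl B.c0 B.c1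

def B.u1 : Tr := .C B.t2 B.t3
theorem B.d1 : Tr.chk (leaf fun A => gB A ⟨5, 93, 157⟩) exNo B.u1 654311424 218103808 134217728 134217728 268435456 268435456 = true := chkC rfl B.c2 B.c3

def B.u2 : Tr := .A B.t5 B.t6
theorem B.d2 : Tr.chk (leaf fun A => gB A ⟨5, 93, 157⟩) exNo B.u2 545259520 109051904 469762048 67108864 67108864 67108864 = true := chkA rfl B.c5 B.c6

def B.u3 : Tr := .C B.u2 B.t7
theorem B.d3 : Tr.chk (leaf fun A => gB A ⟨5, 93, 157⟩) exNo B.u3 545259520 109051904 469762048 67108864 134217728 134217728 = true := chkC rfl B.d2 B.c7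

def B.u4 : Tr := .B B.t4 B.u3
theorem B.d4 : Tr.chk (leaf fun A => gB A ⟨5, 93, 157⟩) exNo B.u4 545259520 109051904 402653184 134217728 134217728 134217728 = true := chkB rfl B.c4 B.d3

def B.u5 : Tr := .A B.u4 B.t8
theorem B.d5 : Tr.chk (leaf fun A => gB A ⟨5, 93, 157⟩) exNo B.u5 654311424 218103808 402653184 134217728 134217728 134217728 = true := chkA rfl B.d4 B.c8

def B.u6 : Tr := .C B.u5 B.t9
theorem B.d6 : Tr.chk (leaf fun A => gB A ⟨5, 93, 157⟩) exNo B.u6 654311424 218103808 402653184 134217728 268435456 268435456 = true := chkC rfl B.d5 B.c9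

def B.u7 : Tr := .B B.u1 B.u6
theorem B.d7 : Tr.chk (leaf fun A => gB A ⟨5, 93, 157⟩) exNo B.u7 654311424 218103808 268435456 268435456 268435456 268435456 = true := chkB rfl B.d1 B.d6

def B.u8 : Tr := .A B.u0 B.u7
theorem B.d8 : Tr.chk (leaf fun A => gB A ⟨5, 93, 157⟩) exNo B.u8 436207616 436207616 268435456 268435456 268435456 268435456 = true := chkA rfl B.d0 B.d7

def B.u9 : Tr := .C B.t10 B.t11
theorem B.d9 : Tr.chk (leaf fun A => gB A ⟨5, 93, 157⟩) exNo B.u9 218103808 218103808 134217728 134217728 805306368 268435456 = true := chkC rfl B.c10 B.c11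

def B.u10 : Tr := .C B.t12 B.t13
theorem B.d10 : Tr.chk (leaf fun A => gB A ⟨5, 93, 157⟩) exNo B.u10 218103808 218103808 402653184 134217728 805306368 268435456 = true := chkC rfl B.c12 B.c13

def B.u11 : Tr := .B B.u9 B.u10
theorem B.d11 : Tr.chk (leaf fun A => gB A ⟨5, 93, 157⟩) exNo B.u11 218103808 218103808 268435456 268435456 805306368 268435456 = true := chkB rfl B.d9 B.d10

def B.u12 : Tr := .A B.t15 B.t16
theorem B.d12 : Tr.chk (leaf fun A => gB A ⟨5, 93, 157⟩) exNo B.u12 654311424 218103808 134217728 134217728 939524096 134217728 = true := chkA rfl B.c15 B.c16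

def B.u13 : Tr := .C B.t14 B.u12
theorem B.d13 : Tr.chk (leaf fun A => gB A ⟨5, 93, 157⟩) exNo B.u13 654311424 218103808 134217728 134217728 805306368 268435456 = true := chkC rfl B.c14 B.d12

def B.u14 : Tr := .B B.t18 B.t19
theorem B.d14 : Tr.chk (leaf fun A => gB A ⟨5, 93, 157⟩) exNo B.u14 545259520 109051904 402653184 134217728 939524096 134217728 = true := chkB rfl B.c18 B.c19

def B.u15 : Tr := .A B.u14 B.t20
theorem B.d15 : Tr.chk (leaf fun A => gB A ⟨5, 93, 157⟩) exNo B.u15 654311424 218103808 402653184 134217728 939524096 134217728 = true := chkA rfl B.d14 B.c20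

def B.u16 : Tr := .C B.t17 B.u15
theorem B.d16 : Tr.chk (leaf fun A => gB A ⟨5, 93, 157⟩) exNo B.u16 654311424 218103808 402653184 134217728 805306368 268435456 = true := chkC rfl B.c17 B.d15

def B.u17 : Tr := .B B.u13 B.u16
theorem B.d17 : Tr.chk (leaf fun A => gB A ⟨5, 93, 157⟩) exNo B.u17 654311424 218103808 268435456 268435456 805306368 268435456 = true := chkB rfl B.d13 B.d16

def B.u18 : Tr := .A B.u11 B.u17
theorem B.d18 : Tr.chk (leaf fun A => gB A ⟨5, 93, 157⟩) exNo B.u18 436207616 436207616 268435456 268435456 805306368 268435456 = true := chkA rfl B.d11 B.d17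

def B.u19 : Tr := .C B.u8 B.u18
theorem B.d19 : Tr.chk (leaf fun A => gB A ⟨5, 93, 157⟩) exNo B.u19 436207616 436207616 268435456 268435456 536870912 536870912 = true := chkC rfl B.d8 B.d18

def B.u20 : Tr := .A B.t21 B.t22
theorem B.d20 : Tr.chk (leaf fun A => gB A ⟨5, 93, 157⟩) exNo B.u20 218103808 218103808 671088640 134217728 134217728 134217728 = true := chkA rfl B.c21 B.c22

def B.u21 : Tr := .C B.u20 B.t23
theorem B.d21 : Tr.chk (leaf fun A => gB A ⟨5, 93, 157⟩) exNo B.u21 218103808 218103808 671088640 134217728 268435456 268435456 = true := chkC rfl B.d20 B.c23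

def B.u22 : Tr := .C B.t25 B.t26
theorem B.d22 : Tr.chk (leaf fun A => gB A ⟨5, 93, 157⟩) exNo B.u22 327155712 109051904 872415232 67108864 134217728 134217728 = true := chkC rfl B.c25 B.c26

def B.u23 : Tr := .C B.t27 B.t28
theorem B.d23 : Tr.chk (leaf fun A => gB A ⟨5, 93, 157⟩) exNo B.u23 327155712 109051904 1006632960 67108864 134217728 134217728 = true := chkC rfl B.c27 B.c28

def B.u24 : Tr := .B B.u22 B.u23
theorem B.d24 : Tr.chk (leaf fun A => gB A ⟨5, 93, 157⟩) exNo B.u24 327155712 109051904 939524096 134217728 134217728 134217728 = true := chkB rfl B.d22 B.d23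

def B.u25 : Tr := .A B.t24 B.u24
theorem B.d25 : Tr.chk (leaf fun A => gB A ⟨5, 93, 157⟩) exNo B.u25 218103808 218103808 939524096 134217728 134217728 134217728 = true := chkA rfl B.c24 B.d24

def B.u26 : Tr := .B B.t30 B.t31
theorem B.d26 : Tr.chk (leaf fun A => gB A ⟨5, 93, 157⟩) exNo B.u26 327155712 109051904 939524096 134217728 402653184 134217728 = true := chkB rfl B.c30 B.c31

def B.u27 : Tr := .A B.t29 B.u26
theorem B.d27 : Tr.chk (leaf fun A => gB A ⟨5, 93, 157⟩) exNo B.u27 218103808 218103808 939524096 134217728 402653184 134217728 = true := chkA rfl B.c29 B.d26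

def B.u28 : Tr := .C B.u25 B.u27
theorem B.d28 : Tr.chk (leaf fun A => gB A ⟨5, 93, 157⟩) exNo B.u28 218103808 218103808 939524096 134217728 268435456 268435456 = true := chkC rfl B.d25 B.d27

def B.u29 : Tr := .B B.u21 B.u28
theorem B.d29 : Tr.chk (leaf fun A => gB A ⟨5, 93, 157⟩) exNo B.u29 218103808 218103808 805306368 268435456 268435456 268435456 = true := chkB rfl B.d21 B.d28

def B.u30 : Tr := .A B.t33 B.t34
theorem B.d30 : Tr.chk (leaf fun A => gB A ⟨5, 93, 157⟩) exNo B.u30 654311424 218103808 671088640 134217728 402653184 134217728 = true := chkA rfl B.c33 B.c34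

def B.u31 : Tr := .C B.t32 B.u30
theorem B.d31 : Tr.chk (leaf fun A => gB A ⟨5, 93, 157⟩) exNo B.u31 654311424 218103808 671088640 134217728 268435456 268435456 = true := chkC rfl B.c32 B.d30

def B.u32 : Tr := .B B.u31 B.t35
theorem B.d32 : Tr.chk (leaf fun A => gB A ⟨5, 93, 157⟩) exNo B.u32 654311424 218103808 805306368 268435456 268435456 268435456 = true := chkB rfl B.d31 B.c35

def B.u33 : Tr := .A B.u29 B.u32
theorem B.d33 : Tr.chk (leaf fun A => gB A ⟨5, 93, 157⟩) exNo B.u33 436207616 436207616 805306368 268435456 268435456 268435456 = true := chkA rfl B.d29 B.d32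

def B.u34 : Tr := .C B.t36 B.t37
theorem B.d34 : Tr.chk (leaf fun A => gB A ⟨5, 93, 157⟩) exNo B.u34 218103808 218103808 671088640 134217728 805306368 268435456 = true := chkC rfl B.c36 B.c37

def B.u35 : Tr := .A B.t38 B.t39
theorem B.d35 : Tr.chk (leaf fun A => gB A ⟨5, 93, 157⟩) exNo B.u35 218103808 218103808 939524096 134217728 671088640 134217728 = true := chkA rfl B.c38 B.c39

def B.u36 : Tr := .C B.u35 B.t40
theorem B.d36 : Tr.chk (leaf fun A => gB A ⟨5, 93, 157⟩) exNo B.u36 218103808 218103808 939524096 134217728 805306368 268435456 = true := chkC rfl B.d35 B.c40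

def B.u37 : Tr := .B B.u34 B.u36
theorem B.d37 : Tr.chk (leaf fun A => gB A ⟨5, 93, 157⟩) exNo B.u37 218103808 218103808 805306368 268435456 805306368 268435456 = true := chkB rfl B.d34 B.d36

def B.u38 : Tr := .B B.t42 B.t43
theorem B.d38 : Tr.chk (leaf fun A => gB A ⟨5, 93, 157⟩) exNo B.u38 545259520 109051904 671088640 134217728 939524096 134217728 = true := chkB rfl B.c42 B.c43

def B.u39 : Tr := .A B.u38 B.t44
theorem B.d39 : Tr.chk (leaf fun A => gB A ⟨5, 93, 157⟩) exNo B.u39 654311424 218103808 671088640 134217728 939524096 134217728 = true := chkA rfl B.d38 B.c44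

def B.u40 : Tr := .C B.t41 B.u39
theorem B.d40 : Tr.chk (leaf fun A => gB A ⟨5, 93, 157⟩) exNo B.u40 654311424 218103808 671088640 134217728 805306368 268435456 = true := chkC rfl B.c41 B.d39

def B.u41 : Tr := .C B.t46 B.t47
theorem B.d41 : Tr.chk (leaf fun A => gB A ⟨5, 93, 157⟩) exNo B.u41 545259520 109051904 1006632960 67108864 671088640 134217728 = true := chkC rfl B.c46 B.c47

def B.u42 : Tr := .B B.t45 B.u41
theorem B.d42 : Tr.chk (leaf fun A => gB A ⟨5, 93, 157⟩) exNo B.u42 545259520 109051904 939524096 134217728 671088640 134217728 = true := chkB rfl B.c45 B.d41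

def B.u43 : Tr := .A B.u42 B.t48
theorem B.d43 : Tr.chk (leaf fun A => gB A ⟨5, 93, 157⟩) exNo B.u43 654311424 218103808 939524096 134217728 671088640 134217728 = true := chkA rfl B.d42 B.c48

def B.u44 : Tr := .B B.t49 B.t50
theorem B.d44 : Tr.chk (leaf fun A => gB A ⟨5, 93, 157⟩) exNo B.u44 545259520 109051904 939524096 134217728 939524096 134217728 = true := chkB rfl B.c49 B.c50

def B.u45 : Tr := .A B.u44 B.t51
theorem B.d45 : Tr.chk (leaf fun A => gB A ⟨5, 93, 157⟩) exNo B.u45 654311424 218103808 939524096 134217728 939524096 134217728 = true := chkA rfl B.d44 B.c51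

def B.u46 : Tr := .C B.u43 B.u45
theorem B.d46 : Tr.chk (leaf fun A => gB A ⟨5, 93, 157⟩) exNo B.u46 654311424 218103808 939524096 134217728 805306368 268435456 = true := chkC rfl B.d43 B.d45

def B.u47 : Tr := .B B.u40 B.u46
theorem B.d47 : Tr.chk (leaf fun A => gB A ⟨5, 93, 157⟩) exNo B.u47 654311424 218103808 805306368 268435456 805306368 268435456 = true := chkB rfl B.d40 B.d46

def B.u48 : Tr := .A B.u37 B.u47
theorem B.d48 : Tr.chk (leaf fun A => gB A ⟨5, 93, 157⟩) exNo B.u48 436207616 436207616 805306368 268435456 805306368 268435456 = true := chkA rfl B.d37 B.d47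

def B.u49 : Tr := .C B.u33 B.u48
theorem B.d49 : Tr.chk (leaf fun A => gB A ⟨5, 93, 157⟩) exNo B.u49 436207616 436207616 805306368 268435456 536870912 536870912 = true := chkC rfl B.d33 B.d48

def B.u50 : Tr := .B B.u19 B.u49
theorem B.d50 : Tr.chk (leaf fun A => gB A ⟨5, 93, 157⟩) exNo B.u50 436207616 436207616 536870912 536870912 536870912 536870912 = true := chkB rfl B.d19 B.d49

/-- the region B -/
theorem B.all : ∃ t, Tr.chk (leaf fun A => gB A ⟨5, 93, 157⟩) exNo t 436207616 436207616 536870912 536870912 536870912 536870912 = true := ⟨B.u50, B.d50⟩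

def V.u0 : Tr := .A V.t0 V.t1
theorem V.d0 : Tr.chk (leaf fun A => gV A ⟨5, 93, 157⟩) exV V.u0 268435456 268435456 268435456 268435456 268435456 268435456 = true := chkA rfl V.c0 V.c1

def V.u1 : Tr := .C V.u0 V.t2
theorem V.d1 : Tr.chk (leaf fun A => gV A ⟨5, 93, 157⟩) exV V.u1 268435456 268435456 268435456 268435456 536870912 536870912 = true := chkC rfl V.d0 V.c2

def V.u2 : Tr := .C V.t4 V.t5
theorem V.d2 : Tr.chk (leaf fun A => gV A ⟨5, 93, 157⟩) exV V.u2 134217728 134217728 939524096 134217728 268435456 268435456 = true := chkC rfl V.c4 V.c5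

def V.u3 : Tr := .B V.t3 V.u2
theorem V.d3 : Tr.chk (leaf fun A => gV A ⟨5, 93, 157⟩) exV V.u3 134217728 134217728 805306368 268435456 268435456 268435456 = true := chkB rfl V.c3 V.d2

def V.u4 : Tr := .A V.u3 V.t6
theorem V.d4 : Tr.chk (leaf fun A => gV A ⟨5, 93, 157⟩) exV V.u4 268435456 268435456 805306368 268435456 268435456 268435456 = true := chkA rfl V.d3 V.c6

def V.u5 : Tr := .C V.t10 V.t11
theorem V.d5 : Tr.chk (leaf fun A => gV A ⟨5, 93, 157⟩) exV V.u5 134217728 134217728 1006632960 67108864 939524096 134217728 = true := chkC rfl V.c10 V.c11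

def V.u6 : Tr := .B V.t9 V.u5
theorem V.d6 : Tr.chk (leaf fun A => gV A ⟨5, 93, 157⟩) exV V.u6 134217728 134217728 939524096 134217728 939524096 134217728 = true := chkB rfl V.c9 V.d5

def V.u7 : Tr := .C V.t8 V.u6
theorem V.d7 : Tr.chk (leaf fun A => gV A ⟨5, 93, 157⟩) exV V.u7 134217728 134217728 939524096 134217728 805306368 268435456 = true := chkC rfl V.c8 V.d6

def V.u8 : Tr := .B V.t7 V.u7
theorem V.d8 : Tr.chk (leaf fun A => gV A ⟨5, 93, 157⟩) exV V.u8 134217728 134217728 805306368 268435456 805306368 268435456 = true := chkB rfl V.c7 V.d7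

def V.u9 : Tr := .B V.t12 V.t13
theorem V.d9 : Tr.chk (leaf fun A => gV A ⟨5, 93, 157⟩) exV V.u9 402653184 134217728 805306368 268435456 805306368 268435456 = true := chkB rfl V.c12 V.c13

def V.u10 : Tr := .A V.u8 V.u9
theorem V.d10 : Tr.chk (leaf fun A => gV A ⟨5, 93, 157⟩) exV V.u10 268435456 268435456 805306368 268435456 805306368 268435456 = true := chkA rfl V.d8 V.d9

def V.u11 : Tr := .C V.u4 V.u10
theorem V.d11 : Tr.chk (leaf fun A => gV A ⟨5, 93, 157⟩) exV V.u11 268435456 268435456 805306368 268435456 536870912 536870912 = true := chkC rfl V.d4 V.d10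

def V.u12 : Tr := .B V.u1 V.u11
theorem V.d12 : Tr.chk (leaf fun A => gV A ⟨5, 93, 157⟩) exV V.u12 268435456 268435456 536870912 536870912 536870912 536870912 = true := chkB rfl V.d1 V.d11

def V.u13 : Tr := .C V.t15 V.t16
theorem V.d13 : Tr.chk (leaf fun A => gV A ⟨5, 93, 157⟩) exV V.u13 939524096 134217728 134217728 134217728 268435456 268435456 = true := chkC rfl V.c15 V.c16

def V.u14 : Tr := .B V.u13 V.t17
theorem V.d14 : Tr.chk (leaf fun A => gV A ⟨5, 93, 157⟩) exV V.u14 939524096 134217728 268435456 268435456 268435456 268435456 = true := chkB rfl V.d13 V.c17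

def V.u15 : Tr := .A V.t14 V.u14
theorem V.d15 : Tr.chk (leaf fun A => gV A ⟨5, 93, 157⟩) exV V.u15 805306368 268435456 268435456 268435456 268435456 268435456 = true := chkA rfl V.c14 V.d14

def V.u16 : Tr := .C V.t20 V.t21
theorem V.d16 : Tr.chk (leaf fun A => gV A ⟨5, 93, 157⟩) exV V.u16 939524096 134217728 402653184 134217728 805306368 268435456 = true := chkC rfl V.c20 V.c21

def V.u17 : Tr := .B V.t19 V.u16
theorem V.d17 : Tr.chk (leaf fun A => gV A ⟨5, 93, 157⟩) exV V.u17 939524096 134217728 268435456 268435456 805306368 268435456 = true := chkB rfl V.c19 V.d16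

def V.u18 : Tr := .A V.t18 V.u17
theorem V.d18 : Tr.chk (leaf fun A => gV A ⟨5, 93, 157⟩) exV V.u18 805306368 268435456 268435456 268435456 805306368 268435456 = true := chkA rfl V.c18 V.d17

def V.u19 : Tr := .C V.u15 V.u18
theorem V.d19 : Tr.chk (leaf fun A => gV A ⟨5, 93, 157⟩) exV V.u19 805306368 268435456 268435456 268435456 536870912 536870912 = true := chkC rfl V.d15 V.d18

def V.u20 : Tr := .C V.t23 V.t24
theorem V.d20 : Tr.chk (leaf fun A => gV A ⟨5, 93, 157⟩) exV V.u20 671088640 134217728 671088640 134217728 805306368 268435456 = true := chkC rfl V.c23 V.c24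

def V.u21 : Tr := .B V.u20 V.t25
theorem V.d21 : Tr.chk (leaf fun A => gV A ⟨5, 93, 157⟩) exV V.u21 671088640 134217728 805306368 268435456 805306368 268435456 = true := chkB rfl V.d20 V.c25

def V.u22 : Tr := .B V.t27 V.t28
theorem V.d22 : Tr.chk (leaf fun A => gV A ⟨5, 93, 157⟩) exV V.u22 939524096 134217728 671088640 134217728 939524096 134217728 = true := chkB rfl V.c27 V.c28

def V.u23 : Tr := .C V.t26 V.u22
theorem V.d23 : Tr.chk (leaf fun A => gV A ⟨5, 93, 157⟩) exV V.u23 939524096 134217728 671088640 134217728 805306368 268435456 = true := chkC rfl V.c26 V.d22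

def V.u24 : Tr := .B V.u23 V.t29
theorem V.d24 : Tr.chk (leaf fun A => gV A ⟨5, 93, 157⟩) exV V.u24 939524096 134217728 805306368 268435456 805306368 268435456 = true := chkB rfl V.d23 V.c29

def V.u25 : Tr := .A V.u21 V.u24
theorem V.d25 : Tr.chk (leaf fun A => gV A ⟨5, 93, 157⟩) exV V.u25 805306368 268435456 805306368 268435456 805306368 268435456 = true := chkA rfl V.d21 V.d24

def V.u26 : Tr := .C V.t22 V.u25
theorem V.d26 : Tr.chk (leaf fun A => gV A ⟨5, 93, 157⟩) exV V.u26 805306368 268435456 805306368 268435456 536870912 536870912 = true := chkC rfl V.c22 V.d25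

def V.u27 : Tr := .B V.u19 V.u26
theorem V.d27 : Tr.chk (leaf fun A => gV A ⟨5, 93, 157⟩) exV V.u27 805306368 268435456 536870912 536870912 536870912 536870912 = true := chkB rfl V.d19 V.d26

def V.u28 : Tr := .A V.u12 V.u27
theorem V.d28 : Tr.chk (leaf fun A => gV A ⟨5, 93, 157⟩) exV V.u28 536870912 536870912 536870912 536870912 536870912 536870912 = true := chkA rfl V.d12 V.d27

/-- the region V -/
theorem V.all : ∃ t, Tr.chk (leaf fun A => gV A ⟨5, 93, 157⟩) exV t 536870912 536870912 536870912 536870912 536870912 536870912 = true := ⟨V.u28, V.d28⟩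

def HN.u0 : Tr := .C HN.t0 HN.t1
theorem HN.d0 : Tr.chk (leaf fun A => gHN A ⟨5, 93, 157⟩) exNo HN.u0 100663296 100663296 536870912 536870912 536870912 536870912 = true := chkC rfl HN.c0 HN.c1

/-- the region HN -/
theorem HN.all : ∃ t, Tr.chk (leaf fun A => gHN A ⟨5, 93, 157⟩) exNo t 100663296 100663296 536870912 536870912 536870912 536870912 = true := ⟨HN.u0, HN.d0⟩

/-- the region HP -/
theorem HP.all : ∃ t, Tr.chk (leaf fun A => gHP A ⟨5, 93, 157⟩) exNo t 100663296 100663296 536870912 536870912 536870912 536870912 = true := ⟨HP.t0, HP.c0⟩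

/-- the region HE -/
theorem HE.all : ∃ t, Tr.chk (leaf fun A => gHE A ⟨5, 93, 157⟩) exNo t 100663296 100663296 536870912 536870912 872415232 872415232 = true := ⟨HE.t0, HE.c0⟩

/-- the region SN -/
theorem SN.all : ∃ t, Tr.chk (leafS fun A => fN A ⟨5, 93, 157⟩) exNo t 436207616 436207616 67108864 67108864 536870912 536870912 = true := ⟨SN.t0, SN.c0⟩

/-- the region S1 -/
theorem S1.all : ∃ t, Tr.chk (leafS fun A => fP1 A ⟨5, 93, 157⟩) exNo t 50331648 50331648 67108864 67108864 536870912 536870912 = true := ⟨S1.t0, S1.c0⟩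

/-- the region S2 -/
theorem S2.all : ∃ t, Tr.chk (leafS fun A => fP2 A ⟨5, 93, 157⟩) exNo t 50331648 50331648 50331648 50331648 536870912 536870912 = true := ⟨S2.t0, S2.c0⟩

def F1.u0 : Tr := .C F1.t1 F1.t2
theorem F1.d0 : Tr.chk (leafS fun A => fF1 A ⟨5, 93, 157⟩) exNo F1.u0 679477248 192937984 67108864 67108864 536870912 536870912 = true := chkC rfl F1.c1 F1.c2

def F1.u1 : Tr := .A F1.t0 F1.u0
theorem F1.d1 : Tr.chk (leafS fun A => fF1 A ⟨5, 93, 157⟩) exNo F1.u1 486539264 385875968 67108864 67108864 536870912 536870912 = true := chkA rfl F1.c0 F1.d0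

/-- the region F1 -/
theorem F1.all : ∃ t, Tr.chk (leafS fun A => fF1 A ⟨5, 93, 157⟩) exNo t 486539264 385875968 67108864 67108864 536870912 536870912 = true := ⟨F1.u1, F1.d1⟩

def F2.u0 : Tr := .C F2.t1 F2.t2
theorem F2.d0 : Tr.chk (leafS fun A => fF2 A ⟨5, 93, 157⟩) exNo F2.u0 679477248 192937984 67108864 67108864 536870912 536870912 = true := chkC rfl F2.c1 F2.c2

def F2.u1 : Tr := .A F2.t0 F2.u0
theorem F2.d1 : Tr.chk (leafS fun A => fF2 A ⟨5, 93, 157⟩) exNo F2.u1 486539264 385875968 67108864 67108864 536870912 536870912 = true := chkA rfl F2.c0 F2.d0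

/-- the region F2 -/
theorem F2.all : ∃ t, Tr.chk (leafS fun A => fF2 A ⟨5, 93, 157⟩) exNo t 486539264 385875968 67108864 67108864 536870912 536870912 = true := ⟨F2.u1, F2.d1⟩

/-- the region T1 -/
theorem T1.all : ∃ t, Tr.chk (leafS fun A => fV1 A ⟨5, 93, 157⟩) exNo t 536870912 536870912 16777216 16777216 536870912 536870912 = true := ⟨T1.t0, T1.c0⟩

/-- the region T2 -/
theorem T2.all : ∃ t, Tr.chk (leafS fun A => fV2 A ⟨5, 93, 157⟩) exNo t 536870912 536870912 16777216 16777216 536870912 536870912 = true := ⟨T2.t0, T2.c0⟩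

/-- the region T3 -/
theorem T3.all : ∃ t, Tr.chk (leafS fun A => fV3 A ⟨5, 93, 157⟩) exNo t 536870912 536870912 16777216 16777216 536870912 536870912 = true := ⟨T3.t0, T3.c0⟩

theorem chk : Chk ⟨5, 93, 157⟩ :=
  ⟨N.all, A.all, B.all, V.all, HN.all, HP.all, HE.all, SN.all, S1.all, S2.all, F1.all, F2.all, T1.all, T2.all, T3.all⟩

end Pool.Agent.FTN.K5
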