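import Pool.Agent.FTN.Region

set_option maxRecDepth 100000

namespace Pool.Agent.FTN.K6

open Pool.Agent.FTA (TM Alg Tr leaf leafS exNo exV chkA chkB chkC)

def A.t60 : Tr := .A (.C .L (.C .L .L)) (.C (.A .L (.C .L .L)) (.A (.C .L .L) (.B .L (.C .L (.A .L .L)))))
theorem A.c60 : Tr.chk (leaf fun A => gA A ⟨6, 83, 177⟩) exNo A.t60 599785472 54525952 738197504 67108864 939524096 134217728 = true := by decide +kernel

def A.t61 : Tr := .A (.A (.A .L (.C .L .L)) .L) .L
theorem A.c61 : Tr.chk (leaf fun A => gA A ⟨6, 83, 177⟩) exNo A.t61 763363328 109051904 603979776 67108864 872415232 67108864 = true := by decide +kernel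

def A.t62 : Tr := .A (.A (.A (.C .L .L) (.B .L (.A (.C .L .L) .L))) (.B (.A (.A (.C .L .L) .L) .L) .L)) .L
theorem A.c62 : Tr.chk (leaf fun A => gA A ⟨6, 83, 177⟩) exNo A.t62 763363328 109051904 603979776 67108864 1006632960 67108864 = true := by decide +kernel

def A.t63 : Tr := .C .L (.A (.B (.A (.A (.A (.C .L .L) .L) .L) .L) .L) .L)
theorem A.c63 : Tr.chk (leaf fun A => gA A ⟨6, 83, 177⟩) exNo A.t63 763363328 109051904 738197504 67108864 939524096 134217728 = true := by decide +kernel

def A.t64 : Tr := .A (.B (.A (.C .L .L) (.C (.C .L .L) (.A .L .L))) (.C (.A .L (.A .L .L)) (.A (.C .L .L) (.A (.C .L .L) .L)))) .L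
theorem A.c64 : Tr.chk (leaf fun A => gA A ⟨6, 83, 177⟩) exNo A.t64 654311424 218103808 939524096 134217728 671088640 134217728 = true := by decide +kernel

def A.t65 : Tr := .A (.C .L .L) (.A (.C .L .L) (.A (.C .L (.B .L .L)) .L))
theorem A.c65 : Tr.chk (leaf fun A => gA A ⟨6, 83, 177⟩) exNo A.t65 545259520 109051904 872415232 67108864 872415232 67108864 = true := by decide +kernel

def A.t66 : Tr := .A (.A .L (.C .L .L)) (.B (.A (.A .L .L) (.A (.C .L (.A .L (.B .L .L))) .L)) (.A (.A .L (.C .L (.A .L .L))) .L))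
theorem A.c66 : Tr.chk (leaf fun A => gA A ⟨6, 83, 177⟩) exNo A.t66 545259520 109051904 872415232 67108864 1006632960 67108864 = true := by decide +kernel

end Pool.Agent.FTN.K6
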