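import Pool.Agent.FTN.Region

set_option maxRecDepth 100000

namespace Pool.Agent.FTN.K6

open Pool.Agent.FTA (TM Alg Tr leaf leafS exNo exV chkA chkB chkC)

def F2.t2 : Tr := .A (.C .L .L) (.A (.C .L .L) (.A (.C .L .L) (.C .L (.A .L .L))))
theorem F2.c2 : Tr.chk (leafS fun A => fF2 A ⟨6, 83, 177⟩) exNo F2.t2 679477248 192937984 67108864 67108864 805306368 268435456 = true := by decide +kernel

def T1.t0 : Tr := .A (.A .L .L) .L
theorem T1.c0 : Tr.chk (leafS fun A => fV1 A ⟨6, 83, 177⟩) exNo T1.t0 536870912 536870912 16777216 16777216 536870912 536870912 = true := by decide +kernel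

def T2.t0 : Tr := .L
theorem T2.c0 : Tr.chk (leafS fun A => fV2 A ⟨6, 83, 177⟩) exNo T2.t0 536870912 536870912 16777216 16777216 536870912 536870912 = true := by decide +kernel

def T3.t0 : Tr := .L
theorem T3.c0 : Tr.chk (leafS fun A => fV3 A ⟨6, 83, 177⟩) exNo T3.t0 536870912 536870912 16777216 16777216 536870912 536870912 = true := by decide +kernel

end Pool.Agent.FTN.K6
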