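import Pool.Agent.FTN.K.P6F0
import Pool.Agent.FTN.K.P6F1
import Pool.Agent.FTN.K.P6F2
import Pool.Agent.FTN.K.P6F3
import Pool.Agent.FTN.K.P6F4
import Pool.Agent.FTN.K.P6F5
import Pool.Agent.FTN.K.P6F6
import Pool.Agent.FTN.K.P6F7
import Pool.Agent.FTN.K.P6F8
import Pool.Agent.FTN.K.P6F9
import Pool.Agent.FTN.K.P6F10
import Pool.Agent.FTN.K.P6F11
import Pool.Agent.FTN.K.P6F12
import Pool.Agent.FTN.K.P6F13
import Pool.Agent.FTN.K.P6F14
import Pool.Agent.FTN.K.P6F15
import Pool.Agent.FTN.K.P6F16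
import Pool.Agent.FTN.K.P6F17
import Pool.Agent.FTN.K.P6F18
import Pool.Agent.FTN.K.P6F19
import Pool.Agent.FTN.K.P6F20
import Pool.Agent.FTN.K.P6F21
import Pool.Agent.FTN.K.P6F22
import Pool.Agent.FTN.K.P6F23
import Pool.Agent.FTN.K.P6F24
import Pool.Agent.FTN.K.P6F25
import Pool.Agent.FTN.REG

set_option maxRecDepth 100000

namespace Pool.Agent.FTN.K6

open Pool.Agent.FTA (TM Alg Tr leaf leafS exNo exV chkA chkB chkC)

def N.u0 : Tr := .C N.t1 N.t2
theorem N.d0 : Tr.chk (leaf fun A => gN A ⟨6, 83, 177⟩) exNo N.u0 218103808 218103808 268435456 268435456 355467264 118489088 = true := chkC rfl N.c1 N.c2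

def N.u1 : Tr := .C N.t0 N.u0
theorem N.d1 : Tr.chk (leaf fun A => gN A ⟨6, 83, 177⟩) exNo N.u1 218103808 218103808 268435456 268435456 236978176 236978176 = true := chkC rfl N.c0 N.d0

def N.u2 : Tr := .C N.t3 N.t4
theorem N.d2 : Tr.chk (leaf fun A => gN A ⟨6, 83, 177⟩) exNo N.u2 654311424 218103808 134217728 134217728 236978176 236978176 = true := chkC rfl N.c3 N.c4

def N.u3 : Tr := .A N.t6 N.t7
theorem N.d3 : Tr.chk (leaf fun A => gN A ⟨6, 83, 177⟩) exNo N.u3 654311424 218103808 402653184 134217728 355467264 118489088 = true := chkA rfl N.c6 N.c7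

def N.u4 : Tr := .C N.t5 N.u3
theorem N.d4 : Tr.chk (leaf fun A => gN A ⟨6, 83, 177⟩) exNo N.u4 654311424 218103808 402653184 134217728 236978176 236978176 = true := chkC rfl N.c5 N.d3

def N.u5 : Tr := .B N.u2 N.u4
theorem N.d5 : Tr.chk (leaf fun A => gN A ⟨6, 83, 177⟩) exNo N.u5 654311424 218103808 268435456 268435456 236978176 236978176 = true := chkB rfl N.d2 N.d4

def N.u6 : Tr := .A N.u1 N.u5
theorem N.d6 : Tr.chk (leaf fun A => gN A ⟨6, 83, 177⟩) exNo N.u6 436207616 436207616 268435456 268435456 236978176 236978176 = true := chkA rfl N.d1 N.d5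

def N.u7 : Tr := .C N.t8 N.t9
theorem N.d7 : Tr.chk (leaf fun A => gN A ⟨6, 83, 177⟩) exNo N.u7 218103808 218103808 268435456 268435456 710934528 236978176 = true := chkC rfl N.c8 N.c9

def N.u8 : Tr := .C N.t10 N.t11
theorem N.d8 : Tr.chk (leaf fun A => gN A ⟨6, 83, 177⟩) exNo N.u8 654311424 218103808 134217728 134217728 710934528 236978176 = true := chkC rfl N.c10 N.c11

def N.u9 : Tr := .C N.t12 N.t13
theorem N.d9 : Tr.chk (leaf fun A => gN A ⟨6, 83, 177⟩) exNo N.u9 654311424 218103808 402653184 134217728 710934528 236978176 = true := chkC rfl N.c12 N.c13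

def N.u10 : Tr := .B N.u8 N.u9
theorem N.d10 : Tr.chk (leaf fun A => gN A ⟨6, 83, 177⟩) exNo N.u10 654311424 218103808 268435456 268435456 710934528 236978176 = true := chkB rfl N.d8 N.d9

def N.u11 : Tr := .A N.u7 N.u10
theorem N.d11 : Tr.chk (leaf fun A => gN A ⟨6, 83, 177⟩) exNo N.u11 436207616 436207616 268435456 268435456 710934528 236978176 = true := chkA rfl N.d7 N.d10

def N.u12 : Tr := .C N.u6 N.u11
theorem N.d12 : Tr.chk (leaf fun A => gN A ⟨6, 83, 177⟩) exNo N.u12 436207616 436207616 268435456 268435456 473956352 473956352 = true := chkC rfl N.d6 N.d11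

def N.u13 : Tr := .C N.t15 N.t16
theorem N.d13 : Tr.chk (leaf fun A => gN A ⟨6, 83, 177⟩) exNo N.u13 654311424 218103808 671088640 134217728 236978176 236978176 = true := chkC rfl N.c15 N.c16

def N.u14 : Tr := .B N.u13 N.t17
theorem N.d14 : Tr.chk (leaf fun A => gN A ⟨6, 83, 177⟩) exNo N.u14 654311424 218103808 805306368 268435456 236978176 236978176 = true := chkB rfl N.d13 N.c17

def N.u15 : Tr := .A N.t14 N.u14
theorem N.d15 : Tr.chk (leaf fun A => gN A ⟨6, 83, 177⟩) exNo N.u15 436207616 436207616 805306368 268435456 236978176 236978176 = true := chkA rfl N.c14 N.d14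

def N.u16 : Tr := .C N.t18 N.t19
theorem N.d16 : Tr.chk (leaf fun A => gN A ⟨6, 83, 177⟩) exNo N.u16 218103808 218103808 805306368 268435456 710934528 236978176 = true := chkC rfl N.c18 N.c19

def N.u17 : Tr := .C N.t20 N.t21
theorem N.d17 : Tr.chk (leaf fun A => gN A ⟨6, 83, 177⟩) exNo N.u17 654311424 218103808 671088640 134217728 710934528 236978176 = true := chkC rfl N.c20 N.c21

def N.u18 : Tr := .C N.t22 N.t23
theorem N.d18 : Tr.chk (leaf fun A => gN A ⟨6, 83, 177⟩) exNo N.u18 654311424 218103808 939524096 134217728 710934528 236978176 = true := chkC rfl N.c22 N.c23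

def N.u19 : Tr := .B N.u17 N.u18
theorem N.d19 : Tr.chk (leaf fun A => gN A ⟨6, 83, 177⟩) exNo N.u19 654311424 218103808 805306368 268435456 710934528 236978176 = true := chkB rfl N.d17 N.d18

def N.u20 : Tr := .A N.u16 N.u19
theorem N.d20 : Tr.chk (leaf fun A => gN A ⟨6, 83, 177⟩) exNo N.u20 436207616 436207616 805306368 268435456 710934528 236978176 = true := chkA rfl N.d16 N.d19

def N.u21 : Tr := .C N.u15 N.u20
theorem N.d21 : Tr.chk (leaf fun A => gN A ⟨6, 83, 177⟩) exNo N.u21 436207616 436207616 805306368 268435456 473956352 473956352 = true := chkC rfl N.d15 N.d20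

def N.u22 : Tr := .B N.u12 N.u21
theorem N.d22 : Tr.chk (leaf fun A => gN A ⟨6, 83, 177⟩) exNo N.u22 436207616 436207616 536870912 536870912 473956352 473956352 = true := chkB rfl N.d12 N.d21

/-- the region N -/
theorem N.all : ∃ t, Tr.chk (leaf fun A => gN A ⟨6, 83, 177⟩) exNo t 436207616 436207616 536870912 536870912 473956352 473956352 = true := ⟨N.u22, N.d22⟩

def A.u0 : Tr := .B A.t2 A.t3
theorem A.d0 : Tr.chk (leaf fun A => gA A ⟨6, 83, 177⟩) exNo A.u0 218103808 218103808 134217728 134217728 469762048 67108864 = true := chkB rfl A.c2 A.c3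

def A.u1 : Tr := .B A.t4 A.t5
theorem A.d1 : Tr.chk (leaf fun A => gA A ⟨6, 83, 177⟩) exNo A.u1 218103808 218103808 402653184 134217728 469762048 67108864 = true := chkB rfl A.c4 A.c5

def A.u2 : Tr := .B A.u0 A.u1
theorem A.d2 : Tr.chk (leaf fun A => gA A ⟨6, 83, 177⟩) exNo A.u2 218103808 218103808 268435456 268435456 469762048 67108864 = true := chkB rfl A.d0 A.d1

def A.u3 : Tr := .C A.t1 A.u2
theorem A.d3 : Tr.chk (leaf fun A => gA A ⟨6, 83, 177⟩) exNo A.u3 218103808 218103808 268435456 268435456 402653184 134217728 = true := chkC rfl A.c1 A.d2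

def A.u4 : Tr := .C A.t0 A.u3
theorem A.d4 : Tr.chk (leaf fun A => gA A ⟨6, 83, 177⟩) exNo A.u4 218103808 218103808 268435456 268435456 268435456 268435456 = true := chkC rfl A.c0 A.d3

def A.u5 : Tr := .C A.t7 A.t8
theorem A.d5 : Tr.chk (leaf fun A => gA A ⟨6, 83, 177⟩) exNo A.u5 545259520 109051904 134217728 134217728 402653184 134217728 = true := chkC rfl A.c7 A.c8

def A.u6 : Tr := .A A.u5 A.t9
theorem A.d6 : Tr.chk (leaf fun A => gA A ⟨6, 83, 177⟩) exNo A.u6 654311424 218103808 134217728 134217728 402653184 134217728 = true := chkA rfl A.d5 A.c9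

def A.u7 : Tr := .C A.t6 A.u6
theorem A.d7 : Tr.chk (leaf fun A => gA A ⟨6, 83, 177⟩) exNo A.u7 654311424 218103808 134217728 134217728 268435456 268435456 = true := chkC rfl A.c6 A.d6

def A.u8 : Tr := .C A.t10 A.t11
theorem A.d8 : Tr.chk (leaf fun A => gA A ⟨6, 83, 177⟩) exNo A.u8 654311424 218103808 402653184 134217728 268435456 268435456 = true := chkC rfl A.c10 A.c11

def A.u9 : Tr := .B A.u7 A.u8
theorem A.d9 : Tr.chk (leaf fun A => gA A ⟨6, 83, 177⟩) exNo A.u9 654311424 218103808 268435456 268435456 268435456 268435456 = true := chkB rfl A.d7 A.d8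

def A.u10 : Tr := .A A.u4 A.u9
theorem A.d10 : Tr.chk (leaf fun A => gA A ⟨6, 83, 177⟩) exNo A.u10 436207616 436207616 268435456 268435456 268435456 268435456 = true := chkA rfl A.d4 A.d9

def A.u11 : Tr := .A A.t12 A.t13
theorem A.d11 : Tr.chk (leaf fun A => gA A ⟨6, 83, 177⟩) exNo A.u11 218103808 218103808 134217728 134217728 671088640 134217728 = true := chkA rfl A.c12 A.c13

def A.u12 : Tr := .C A.t16 A.t17
theorem A.d12 : Tr.chk (leaf fun A => gA A ⟨6, 83, 177⟩) exNo A.u12 109051904 109051904 134217728 134217728 1040187392 33554432 = true := chkC rfl A.c16 A.c17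

def A.u13 : Tr := .A A.u12 A.t18
theorem A.d13 : Tr.chk (leaf fun A => gA A ⟨6, 83, 177⟩) exNo A.u13 218103808 218103808 134217728 134217728 1040187392 33554432 = true := chkA rfl A.d12 A.c18

def A.u14 : Tr := .C A.t15 A.u13
theorem A.d14 : Tr.chk (leaf fun A => gA A ⟨6, 83, 177⟩) exNo A.u14 218103808 218103808 134217728 134217728 1006632960 67108864 = true := chkC rfl A.c15 A.d13

def A.u15 : Tr := .C A.t14 A.u14
theorem A.d15 : Tr.chk (leaf fun A => gA A ⟨6, 83, 177⟩) exNo A.u15 218103808 218103808 134217728 134217728 939524096 134217728 = true := chkC rfl A.c14 A.d14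

def A.u16 : Tr := .C A.u11 A.u15
theorem A.d16 : Tr.chk (leaf fun A => gA A ⟨6, 83, 177⟩) exNo A.u16 218103808 218103808 134217728 134217728 805306368 268435456 = true := chkC rfl A.d11 A.d15

def A.u17 : Tr := .A A.t21 A.t22
theorem A.d17 : Tr.chk (leaf fun A => gA A ⟨6, 83, 177⟩) exNo A.u17 218103808 218103808 402653184 134217728 1006632960 67108864 = true := chkA rfl A.c21 A.c22

def A.u18 : Tr := .C A.t20 A.u17
theorem A.d18 : Tr.chk (leaf fun A => gA A ⟨6, 83, 177⟩) exNo A.u18 218103808 218103808 402653184 134217728 939524096 134217728 = true := chkC rfl A.c20 A.d17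

def A.u19 : Tr := .C A.t19 A.u18
theorem A.d19 : Tr.chk (leaf fun A => gA A ⟨6, 83, 177⟩) exNo A.u19 218103808 218103808 402653184 134217728 805306368 268435456 = true := chkC rfl A.c19 A.d18

def A.u20 : Tr := .B A.u16 A.u19
theorem A.d20 : Tr.chk (leaf fun A => gA A ⟨6, 83, 177⟩) exNo A.u20 218103808 218103808 268435456 268435456 805306368 268435456 = true := chkB rfl A.d16 A.d19

def A.u21 : Tr := .B A.t23 A.t24
theorem A.d21 : Tr.chk (leaf fun A => gA A ⟨6, 83, 177⟩) exNo A.u21 545259520 109051904 134217728 134217728 671088640 134217728 = true := chkB rfl A.c23 A.c24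

def A.u22 : Tr := .C A.t25 A.t26
theorem A.d22 : Tr.chk (leaf fun A => gA A ⟨6, 83, 177⟩) exNo A.u22 763363328 109051904 67108864 67108864 671088640 134217728 = true := chkC rfl A.c25 A.c26

def A.u23 : Tr := .B A.u22 A.t27
theorem A.d23 : Tr.chk (leaf fun A => gA A ⟨6, 83, 177⟩) exNo A.u23 763363328 109051904 134217728 134217728 671088640 134217728 = true := chkB rfl A.d22 A.c27

def A.u24 : Tr := .A A.u21 A.u23
theorem A.d24 : Tr.chk (leaf fun A => gA A ⟨6, 83, 177⟩) exNo A.u24 654311424 218103808 134217728 134217728 671088640 134217728 = true := chkA rfl A.d21 A.d23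

def A.u25 : Tr := .A A.t28 A.t29
theorem A.d25 : Tr.chk (leaf fun A => gA A ⟨6, 83, 177⟩) exNo A.u25 654311424 218103808 67108864 67108864 872415232 67108864 = true := chkA rfl A.c28 A.c29

def A.u26 : Tr := .C A.t30 A.t31
theorem A.d26 : Tr.chk (leaf fun A => gA A ⟨6, 83, 177⟩) exNo A.u26 654311424 218103808 67108864 67108864 1006632960 67108864 = true := chkC rfl A.c30 A.c31

def A.u27 : Tr := .C A.u25 A.u26
theorem A.d27 : Tr.chk (leaf fun A => gA A ⟨6, 83, 177⟩) exNo A.u27 654311424 218103808 67108864 67108864 939524096 134217728 = true := chkC rfl A.d25 A.d26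

def A.u28 : Tr := .C A.t33 A.t34
theorem A.d28 : Tr.chk (leaf fun A => gA A ⟨6, 83, 177⟩) exNo A.u28 763363328 109051904 201326592 67108864 939524096 134217728 = true := chkC rfl A.c33 A.c34

def A.u29 : Tr := .A A.t32 A.u28
theorem A.d29 : Tr.chk (leaf fun A => gA A ⟨6, 83, 177⟩) exNo A.u29 654311424 218103808 201326592 67108864 939524096 134217728 = true := chkA rfl A.c32 A.d28

def A.u30 : Tr := .B A.u27 A.u29
theorem A.d30 : Tr.chk (leaf fun A => gA A ⟨6, 83, 177⟩) exNo A.u30 654311424 218103808 134217728 134217728 939524096 134217728 = true := chkB rfl A.d27 A.d29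

def A.u31 : Tr := .C A.u24 A.u30
theorem A.d31 : Tr.chk (leaf fun A => gA A ⟨6, 83, 177⟩) exNo A.u31 654311424 218103808 134217728 134217728 805306368 268435456 = true := chkC rfl A.d24 A.d30

def A.u32 : Tr := .A A.t35 A.t36
theorem A.d32 : Tr.chk (leaf fun A => gA A ⟨6, 83, 177⟩) exNo A.u32 654311424 218103808 402653184 134217728 671088640 134217728 = true := chkA rfl A.c35 A.c36

def A.u33 : Tr := .A A.t39 A.t40
theorem A.d33 : Tr.chk (leaf fun A => gA A ⟨6, 83, 177⟩) exNo A.u33 817889280 54525952 335544320 67108864 939524096 134217728 = true := chkA rfl A.c39 A.c40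

def A.u34 : Tr := .A A.t38 A.u33
theorem A.d34 : Tr.chk (leaf fun A => gA A ⟨6, 83, 177⟩) exNo A.u34 763363328 109051904 335544320 67108864 939524096 134217728 = true := chkA rfl A.c38 A.d33

def A.u35 : Tr := .C A.t41 A.t42
theorem A.d35 : Tr.chk (leaf fun A => gA A ⟨6, 83, 177⟩) exNo A.u35 763363328 109051904 469762048 67108864 939524096 134217728 = true := chkC rfl A.c41 A.c42

def A.u36 : Tr := .B A.u34 A.u35
theorem A.d36 : Tr.chk (leaf fun A => gA A ⟨6, 83, 177⟩) exNo A.u36 763363328 109051904 402653184 134217728 939524096 134217728 = true := chkB rfl A.d34 A.d35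

def A.u37 : Tr := .A A.t37 A.u36
theorem A.d37 : Tr.chk (leaf fun A => gA A ⟨6, 83, 177⟩) exNo A.u37 654311424 218103808 402653184 134217728 939524096 134217728 = true := chkA rfl A.c37 A.d36

def A.u38 : Tr := .C A.u32 A.u37
theorem A.d38 : Tr.chk (leaf fun A => gA A ⟨6, 83, 177⟩) exNo A.u38 654311424 218103808 402653184 134217728 805306368 268435456 = true := chkC rfl A.d32 A.d37

def A.u39 : Tr := .B A.u31 A.u38
theorem A.d39 : Tr.chk (leaf fun A => gA A ⟨6, 83, 177⟩) exNo A.u39 654311424 218103808 268435456 268435456 805306368 268435456 = true := chkB rfl A.d31 A.d38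

def A.u40 : Tr := .A A.u20 A.u39
theorem A.d40 : Tr.chk (leaf fun A => gA A ⟨6, 83, 177⟩) exNo A.u40 436207616 436207616 268435456 268435456 805306368 268435456 = true := chkA rfl A.d20 A.d39

def A.u41 : Tr := .C A.u10 A.u40
theorem A.d41 : Tr.chk (leaf fun A => gA A ⟨6, 83, 177⟩) exNo A.u41 436207616 436207616 268435456 268435456 536870912 536870912 = true := chkC rfl A.d10 A.d40

def A.u42 : Tr := .B A.t45 A.t46
theorem A.d42 : Tr.chk (leaf fun A => gA A ⟨6, 83, 177⟩) exNo A.u42 218103808 218103808 671088640 134217728 469762048 67108864 = true := chkB rfl A.c45 A.c46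

def A.u43 : Tr := .B A.u42 A.t47
theorem A.d43 : Tr.chk (leaf fun A => gA A ⟨6, 83, 177⟩) exNo A.u43 218103808 218103808 805306368 268435456 469762048 67108864 = true := chkB rfl A.d42 A.c47

def A.u44 : Tr := .C A.t44 A.u43
theorem A.d44 : Tr.chk (leaf fun A => gA A ⟨6, 83, 177⟩) exNo A.u44 218103808 218103808 805306368 268435456 402653184 134217728 = true := chkC rfl A.c44 A.d43

def A.u45 : Tr := .C A.t43 A.u44
theorem A.d45 : Tr.chk (leaf fun A => gA A ⟨6, 83, 177⟩) exNo A.u45 218103808 218103808 805306368 268435456 268435456 268435456 = true := chkC rfl A.c43 A.d44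

def A.u46 : Tr := .C A.t49 A.t50
theorem A.d46 : Tr.chk (leaf fun A => gA A ⟨6, 83, 177⟩) exNo A.u46 654311424 218103808 939524096 134217728 268435456 268435456 = true := chkC rfl A.c49 A.c50

def A.u47 : Tr := .B A.t48 A.u46
theorem A.d47 : Tr.chk (leaf fun A => gA A ⟨6, 83, 177⟩) exNo A.u47 654311424 218103808 805306368 268435456 268435456 268435456 = true := chkB rfl A.c48 A.d46

def A.u48 : Tr := .A A.u45 A.u47
theorem A.d48 : Tr.chk (leaf fun A => gA A ⟨6, 83, 177⟩) exNo A.u48 436207616 436207616 805306368 268435456 268435456 268435456 = true := chkA rfl A.d45 A.d47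

def A.u49 : Tr := .A A.t52 A.t53
theorem A.d49 : Tr.chk (leaf fun A => gA A ⟨6, 83, 177⟩) exNo A.u49 218103808 218103808 671088640 134217728 939524096 134217728 = true := chkA rfl A.c52 A.c53

def A.u50 : Tr := .C A.t51 A.u49
theorem A.d50 : Tr.chk (leaf fun A => gA A ⟨6, 83, 177⟩) exNo A.u50 218103808 218103808 671088640 134217728 805306368 268435456 = true := chkC rfl A.c51 A.d49

def A.u51 : Tr := .A A.t55 A.t56
theorem A.d51 : Tr.chk (leaf fun A => gA A ⟨6, 83, 177⟩) exNo A.u51 218103808 218103808 939524096 134217728 939524096 134217728 = true := chkA rfl A.c55 A.c56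

def A.u52 : Tr := .C A.t54 A.u51
theorem A.d52 : Tr.chk (leaf fun A => gA A ⟨6, 83, 177⟩) exNo A.u52 218103808 218103808 939524096 134217728 805306368 268435456 = true := chkC rfl A.c54 A.d51

def A.u53 : Tr := .B A.u50 A.u52
theorem A.d53 : Tr.chk (leaf fun A => gA A ⟨6, 83, 177⟩) exNo A.u53 218103808 218103808 805306368 268435456 805306368 268435456 = true := chkB rfl A.d50 A.d52

def A.u54 : Tr := .B A.t59 A.t60
theorem A.d54 : Tr.chk (leaf fun A => gA A ⟨6, 83, 177⟩) exNo A.u54 599785472 54525952 671088640 134217728 939524096 134217728 = true := chkB rfl A.c59 A.c60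

def A.u55 : Tr := .A A.t58 A.u54
theorem A.d55 : Tr.chk (leaf fun A => gA A ⟨6, 83, 177⟩) exNo A.u55 545259520 109051904 671088640 134217728 939524096 134217728 = true := chkA rfl A.c58 A.d54

def A.u56 : Tr := .C A.t61 A.t62
theorem A.d56 : Tr.chk (leaf fun A => gA A ⟨6, 83, 177⟩) exNo A.u56 763363328 109051904 603979776 67108864 939524096 134217728 = true := chkC rfl A.c61 A.c62

def A.u57 : Tr := .B A.u56 A.t63
theorem A.d57 : Tr.chk (leaf fun A => gA A ⟨6, 83, 177⟩) exNo A.u57 763363328 109051904 671088640 134217728 939524096 134217728 = true := chkB rfl A.d56 A.c63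

def A.u58 : Tr := .A A.u55 A.u57
theorem A.d58 : Tr.chk (leaf fun A => gA A ⟨6, 83, 177⟩) exNo A.u58 654311424 218103808 671088640 134217728 939524096 134217728 = true := chkA rfl A.d55 A.d57

def A.u59 : Tr := .C A.t57 A.u58
theorem A.d59 : Tr.chk (leaf fun A => gA A ⟨6, 83, 177⟩) exNo A.u59 654311424 218103808 671088640 134217728 805306368 268435456 = true := chkC rfl A.c57 A.d58

def A.u60 : Tr := .C A.t65 A.t66
theorem A.d60 : Tr.chk (leaf fun A => gA A ⟨6, 83, 177⟩) exNo A.u60 545259520 109051904 872415232 67108864 939524096 134217728 = true := chkC rfl A.c65 A.c66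

def A.u61 : Tr := .B A.t69 A.t70
theorem A.d61 : Tr.chk (leaf fun A => gA A ⟨6, 83, 177⟩) exNo A.u61 599785472 54525952 1006632960 67108864 1006632960 67108864 = true := chkB rfl A.c69 A.c70

def A.u62 : Tr := .A A.t68 A.u61
theorem A.d62 : Tr.chk (leaf fun A => gA A ⟨6, 83, 177⟩) exNo A.u62 545259520 109051904 1006632960 67108864 1006632960 67108864 = true := chkA rfl A.c68 A.d61

def A.u63 : Tr := .C A.t67 A.u62
theorem A.d63 : Tr.chk (leaf fun A => gA A ⟨6, 83, 177⟩) exNo A.u63 545259520 109051904 1006632960 67108864 939524096 134217728 = true := chkC rfl A.c67 A.d62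

def A.u64 : Tr := .B A.u60 A.u63
theorem A.d64 : Tr.chk (leaf fun A => gA A ⟨6, 83, 177⟩) exNo A.u64 545259520 109051904 939524096 134217728 939524096 134217728 = true := chkB rfl A.d60 A.d63

def A.u65 : Tr := .A A.u64 A.t71
theorem A.d65 : Tr.chk (leaf fun A => gA A ⟨6, 83, 177⟩) exNo A.u65 654311424 218103808 939524096 134217728 939524096 134217728 = true := chkA rfl A.d64 A.c71

def A.u66 : Tr := .C A.t64 A.u65
theorem A.d66 : Tr.chk (leaf fun A => gA A ⟨6, 83, 177⟩) exNo A.u66 654311424 218103808 939524096 134217728 805306368 268435456 = true := chkC rfl A.c64 A.d65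

def A.u67 : Tr := .B A.u59 A.u66
theorem A.d67 : Tr.chk (leaf fun A => gA A ⟨6, 83, 177⟩) exNo A.u67 654311424 218103808 805306368 268435456 805306368 268435456 = true := chkB rfl A.d59 A.d66

def A.u68 : Tr := .A A.u53 A.u67
theorem A.d68 : Tr.chk (leaf fun A => gA A ⟨6, 83, 177⟩) exNo A.u68 436207616 436207616 805306368 268435456 805306368 268435456 = true := chkA rfl A.d53 A.d67

def A.u69 : Tr := .C A.u48 A.u68
theorem A.d69 : Tr.chk (leaf fun A => gA A ⟨6, 83, 177⟩) exNo A.u69 436207616 436207616 805306368 268435456 536870912 536870912 = true := chkC rfl A.d48 A.d68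

def A.u70 : Tr := .B A.u41 A.u69
theorem A.d70 : Tr.chk (leaf fun A => gA A ⟨6, 83, 177⟩) exNo A.u70 436207616 436207616 536870912 536870912 536870912 536870912 = true := chkB rfl A.d41 A.d69

/-- the region A -/
theorem A.all : ∃ t, Tr.chk (leaf fun A => gA A ⟨6, 83, 177⟩) exNo t 436207616 436207616 536870912 536870912 536870912 536870912 = true := ⟨A.u70, A.d70⟩

def B.u0 : Tr := .B B.t0 B.t1
theorem B.d0 : Tr.chk (leaf fun A => gB A ⟨6, 83, 177⟩) exNo B.u0 218103808 218103808 268435456 268435456 268435456 268435456 = true := chkB rfl B.c0 B.c1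

def B.u1 : Tr := .C B.t2 B.t3
theorem B.d1 : Tr.chk (leaf fun A => gB A ⟨6, 83, 177⟩) exNo B.u1 654311424 218103808 134217728 134217728 268435456 268435456 = true := chkC rfl B.c2 B.c3

def B.u2 : Tr := .A B.t5 B.t6
theorem B.d2 : Tr.chk (leaf fun A => gB A ⟨6, 83, 177⟩) exNo B.u2 545259520 109051904 469762048 67108864 67108864 67108864 = true := chkA rfl B.c5 B.c6

def B.u3 : Tr := .C B.u2 B.t7
theorem B.d3 : Tr.chk (leaf fun A => gB A ⟨6, 83, 177⟩) exNo B.u3 545259520 109051904 469762048 67108864 134217728 134217728 = true := chkC rfl B.d2 B.c7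

def B.u4 : Tr := .B B.t4 B.u3
theorem B.d4 : Tr.chk (leaf fun A => gB A ⟨6, 83, 177⟩) exNo B.u4 545259520 109051904 402653184 134217728 134217728 134217728 = true := chkB rfl B.c4 B.d3

def B.u5 : Tr := .A B.u4 B.t8
theorem B.d5 : Tr.chk (leaf fun A => gB A ⟨6, 83, 177⟩) exNo B.u5 654311424 218103808 402653184 134217728 134217728 134217728 = true := chkA rfl B.d4 B.c8

def B.u6 : Tr := .C B.u5 B.t9
theorem B.d6 : Tr.chk (leaf fun A => gB A ⟨6, 83, 177⟩) exNo B.u6 654311424 218103808 402653184 134217728 268435456 268435456 = true := chkC rfl B.d5 B.c9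

def B.u7 : Tr := .B B.u1 B.u6
theorem B.d7 : Tr.chk (leaf fun A => gB A ⟨6, 83, 177⟩) exNo B.u7 654311424 218103808 268435456 268435456 268435456 268435456 = true := chkB rfl B.d1 B.d6

def B.u8 : Tr := .A B.u0 B.u7
theorem B.d8 : Tr.chk (leaf fun A => gB A ⟨6, 83, 177⟩) exNo B.u8 436207616 436207616 268435456 268435456 268435456 268435456 = true := chkA rfl B.d0 B.d7

def B.u9 : Tr := .C B.t10 B.t11
theorem B.d9 : Tr.chk (leaf fun A => gB A ⟨6, 83, 177⟩) exNo B.u9 218103808 218103808 134217728 134217728 805306368 268435456 = true := chkC rfl B.c10 B.c11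

def B.u10 : Tr := .C B.t12 B.t13
theorem B.d10 : Tr.chk (leaf fun A => gB A ⟨6, 83, 177⟩) exNo B.u10 218103808 218103808 402653184 134217728 805306368 268435456 = true := chkC rfl B.c12 B.c13

def B.u11 : Tr := .B B.u9 B.u10
theorem B.d11 : Tr.chk (leaf fun A => gB A ⟨6, 83, 177⟩) exNo B.u11 218103808 218103808 268435456 268435456 805306368 268435456 = true := chkB rfl B.d9 B.d10

def B.u12 : Tr := .A B.t15 B.t16
theorem B.d12 : Tr.chk (leaf fun A => gB A ⟨6, 83, 177⟩) exNo B.u12 654311424 218103808 134217728 134217728 939524096 134217728 = true := chkA rfl B.c15 B.c16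

def B.u13 : Tr := .C B.t14 B.u12
theorem B.d13 : Tr.chk (leaf fun A => gB A ⟨6, 83, 177⟩) exNo B.u13 654311424 218103808 134217728 134217728 805306368 268435456 = true := chkC rfl B.c14 B.d12

def B.u14 : Tr := .B B.t17 B.t18
theorem B.d14 : Tr.chk (leaf fun A => gB A ⟨6, 83, 177⟩) exNo B.u14 545259520 109051904 402653184 134217728 671088640 134217728 = true := chkB rfl B.c17 B.c18

def B.u15 : Tr := .A B.u14 B.t19
theorem B.d15 : Tr.chk (leaf fun A => gB A ⟨6, 83, 177⟩) exNo B.u15 654311424 218103808 402653184 134217728 671088640 134217728 = true := chkA rfl B.d14 B.c19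

def B.u16 : Tr := .B B.t20 B.t21
theorem B.d16 : Tr.chk (leaf fun A => gB A ⟨6, 83, 177⟩) exNo B.u16 545259520 109051904 402653184 134217728 939524096 134217728 = true := chkB rfl B.c20 B.c21

def B.u17 : Tr := .A B.u16 B.t22
theorem B.d17 : Tr.chk (leaf fun A => gB A ⟨6, 83, 177⟩) exNo B.u17 654311424 218103808 402653184 134217728 939524096 134217728 = true := chkA rfl B.d16 B.c22

def B.u18 : Tr := .C B.u15 B.u17
theorem B.d18 : Tr.chk (leaf fun A => gB A ⟨6, 83, 177⟩) exNo B.u18 654311424 218103808 402653184 134217728 805306368 268435456 = true := chkC rfl B.d15 B.d17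

def B.u19 : Tr := .B B.u13 B.u18
theorem B.d19 : Tr.chk (leaf fun A => gB A ⟨6, 83, 177⟩) exNo B.u19 654311424 218103808 268435456 268435456 805306368 268435456 = true := chkB rfl B.d13 B.d18

def B.u20 : Tr := .A B.u11 B.u19
theorem B.d20 : Tr.chk (leaf fun A => gB A ⟨6, 83, 177⟩) exNo B.u20 436207616 436207616 268435456 268435456 805306368 268435456 = true := chkA rfl B.d11 B.d19

def B.u21 : Tr := .C B.u8 B.u20
theorem B.d21 : Tr.chk (leaf fun A => gB A ⟨6, 83, 177⟩) exNo B.u21 436207616 436207616 268435456 268435456 536870912 536870912 = true := chkC rfl B.d8 B.d20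

def B.u22 : Tr := .A B.t24 B.t25
theorem B.d22 : Tr.chk (leaf fun A => gB A ⟨6, 83, 177⟩) exNo B.u22 327155712 109051904 671088640 134217728 134217728 134217728 = true := chkA rfl B.c24 B.c25

def B.u23 : Tr := .A B.t23 B.u22
theorem B.d23 : Tr.chk (leaf fun A => gB A ⟨6, 83, 177⟩) exNo B.u23 218103808 218103808 671088640 134217728 134217728 134217728 = true := chkA rfl B.c23 B.d22

def B.u24 : Tr := .C B.u23 B.t26
theorem B.d24 : Tr.chk (leaf fun A => gB A ⟨6, 83, 177⟩) exNo B.u24 218103808 218103808 671088640 134217728 268435456 268435456 = true := chkC rfl B.d23 B.c26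

def B.u25 : Tr := .C B.t28 B.t29
theorem B.d25 : Tr.chk (leaf fun A => gB A ⟨6, 83, 177⟩) exNo B.u25 327155712 109051904 872415232 67108864 134217728 134217728 = true := chkC rfl B.c28 B.c29

def B.u26 : Tr := .C B.t30 B.t31
theorem B.d26 : Tr.chk (leaf fun A => gB A ⟨6, 83, 177⟩) exNo B.u26 327155712 109051904 1006632960 67108864 134217728 134217728 = true := chkC rfl B.c30 B.c31

def B.u27 : Tr := .B B.u25 B.u26
theorem B.d27 : Tr.chk (leaf fun A => gB A ⟨6, 83, 177⟩) exNo B.u27 327155712 109051904 939524096 134217728 134217728 134217728 = true := chkB rfl B.d25 B.d26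

def B.u28 : Tr := .A B.t27 B.u27
theorem B.d28 : Tr.chk (leaf fun A => gB A ⟨6, 83, 177⟩) exNo B.u28 218103808 218103808 939524096 134217728 134217728 134217728 = true := chkA rfl B.c27 B.d27

def B.u29 : Tr := .B B.t33 B.t34
theorem B.d29 : Tr.chk (leaf fun A => gB A ⟨6, 83, 177⟩) exNo B.u29 327155712 109051904 939524096 134217728 402653184 134217728 = true := chkB rfl B.c33 B.c34

def B.u30 : Tr := .A B.t32 B.u29
theorem B.d30 : Tr.chk (leaf fun A => gB A ⟨6, 83, 177⟩) exNo B.u30 218103808 218103808 939524096 134217728 402653184 134217728 = true := chkA rfl B.c32 B.d29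

def B.u31 : Tr := .C B.u28 B.u30
theorem B.d31 : Tr.chk (leaf fun A => gB A ⟨6, 83, 177⟩) exNo B.u31 218103808 218103808 939524096 134217728 268435456 268435456 = true := chkC rfl B.d28 B.d30

def B.u32 : Tr := .B B.u24 B.u31
theorem B.d32 : Tr.chk (leaf fun A => gB A ⟨6, 83, 177⟩) exNo B.u32 218103808 218103808 805306368 268435456 268435456 268435456 = true := chkB rfl B.d24 B.d31

def B.u33 : Tr := .A B.t36 B.t37
theorem B.d33 : Tr.chk (leaf fun A => gB A ⟨6, 83, 177⟩) exNo B.u33 654311424 218103808 671088640 134217728 402653184 134217728 = true := chkA rfl B.c36 B.c37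

def B.u34 : Tr := .C B.t35 B.u33
theorem B.d34 : Tr.chk (leaf fun A => gB A ⟨6, 83, 177⟩) exNo B.u34 654311424 218103808 671088640 134217728 268435456 268435456 = true := chkC rfl B.c35 B.d33

def B.u35 : Tr := .B B.u34 B.t38
theorem B.d35 : Tr.chk (leaf fun A => gB A ⟨6, 83, 177⟩) exNo B.u35 654311424 218103808 805306368 268435456 268435456 268435456 = true := chkB rfl B.d34 B.c38

def B.u36 : Tr := .A B.u32 B.u35
theorem B.d36 : Tr.chk (leaf fun A => gB A ⟨6, 83, 177⟩) exNo B.u36 436207616 436207616 805306368 268435456 268435456 268435456 = true := chkA rfl B.d32 B.d35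

def B.u37 : Tr := .C B.t39 B.t40
theorem B.d37 : Tr.chk (leaf fun A => gB A ⟨6, 83, 177⟩) exNo B.u37 218103808 218103808 671088640 134217728 805306368 268435456 = true := chkC rfl B.c39 B.c40

def B.u38 : Tr := .A B.t41 B.t42
theorem B.d38 : Tr.chk (leaf fun A => gB A ⟨6, 83, 177⟩) exNo B.u38 218103808 218103808 939524096 134217728 671088640 134217728 = true := chkA rfl B.c41 B.c42

def B.u39 : Tr := .C B.u38 B.t43
theorem B.d39 : Tr.chk (leaf fun A => gB A ⟨6, 83, 177⟩) exNo B.u39 218103808 218103808 939524096 134217728 805306368 268435456 = true := chkC rfl B.d38 B.c43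

def B.u40 : Tr := .B B.u37 B.u39
theorem B.d40 : Tr.chk (leaf fun A => gB A ⟨6, 83, 177⟩) exNo B.u40 218103808 218103808 805306368 268435456 805306368 268435456 = true := chkB rfl B.d37 B.d39

def B.u41 : Tr := .B B.t45 B.t46
theorem B.d41 : Tr.chk (leaf fun A => gB A ⟨6, 83, 177⟩) exNo B.u41 545259520 109051904 671088640 134217728 939524096 134217728 = true := chkB rfl B.c45 B.c46

def B.u42 : Tr := .A B.u41 B.t47
theorem B.d42 : Tr.chk (leaf fun A => gB A ⟨6, 83, 177⟩) exNo B.u42 654311424 218103808 671088640 134217728 939524096 134217728 = true := chkA rfl B.d41 B.c47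

def B.u43 : Tr := .C B.t44 B.u42
theorem B.d43 : Tr.chk (leaf fun A => gB A ⟨6, 83, 177⟩) exNo B.u43 654311424 218103808 671088640 134217728 805306368 268435456 = true := chkC rfl B.c44 B.d42

def B.u44 : Tr := .C B.t49 B.t50
theorem B.d44 : Tr.chk (leaf fun A => gB A ⟨6, 83, 177⟩) exNo B.u44 545259520 109051904 1006632960 67108864 671088640 134217728 = true := chkC rfl B.c49 B.c50

def B.u45 : Tr := .B B.t48 B.u44
theorem B.d45 : Tr.chk (leaf fun A => gB A ⟨6, 83, 177⟩) exNo B.u45 545259520 109051904 939524096 134217728 671088640 134217728 = true := chkB rfl B.c48 B.d44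

def B.u46 : Tr := .A B.u45 B.t51
theorem B.d46 : Tr.chk (leaf fun A => gB A ⟨6, 83, 177⟩) exNo B.u46 654311424 218103808 939524096 134217728 671088640 134217728 = true := chkA rfl B.d45 B.c51

def B.u47 : Tr := .C B.t53 B.t54
theorem B.d47 : Tr.chk (leaf fun A => gB A ⟨6, 83, 177⟩) exNo B.u47 545259520 109051904 1006632960 67108864 939524096 134217728 = true := chkC rfl B.c53 B.c54

def B.u48 : Tr := .B B.t52 B.u47
theorem B.d48 : Tr.chk (leaf fun A => gB A ⟨6, 83, 177⟩) exNo B.u48 545259520 109051904 939524096 134217728 939524096 134217728 = true := chkB rfl B.c52 B.d47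

def B.u49 : Tr := .A B.u48 B.t55
theorem B.d49 : Tr.chk (leaf fun A => gB A ⟨6, 83, 177⟩) exNo B.u49 654311424 218103808 939524096 134217728 939524096 134217728 = true := chkA rfl B.d48 B.c55

def B.u50 : Tr := .C B.u46 B.u49
theorem B.d50 : Tr.chk (leaf fun A => gB A ⟨6, 83, 177⟩) exNo B.u50 654311424 218103808 939524096 134217728 805306368 268435456 = true := chkC rfl B.d46 B.d49

def B.u51 : Tr := .B B.u43 B.u50
theorem B.d51 : Tr.chk (leaf fun A => gB A ⟨6, 83, 177⟩) exNo B.u51 654311424 218103808 805306368 268435456 805306368 268435456 = true := chkB rfl B.d43 B.d50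

def B.u52 : Tr := .A B.u40 B.u51
theorem B.d52 : Tr.chk (leaf fun A => gB A ⟨6, 83, 177⟩) exNo B.u52 436207616 436207616 805306368 268435456 805306368 268435456 = true := chkA rfl B.d40 B.d51

def B.u53 : Tr := .C B.u36 B.u52
theorem B.d53 : Tr.chk (leaf fun A => gB A ⟨6, 83, 177⟩) exNo B.u53 436207616 436207616 805306368 268435456 536870912 536870912 = true := chkC rfl B.d36 B.d52

def B.u54 : Tr := .B B.u21 B.u53
theorem B.d54 : Tr.chk (leaf fun A => gB A ⟨6, 83, 177⟩) exNo B.u54 436207616 436207616 536870912 536870912 536870912 536870912 = true := chkB rfl B.d21 B.d53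

/-- the region B -/
theorem B.all : ∃ t, Tr.chk (leaf fun A => gB A ⟨6, 83, 177⟩) exNo t 436207616 436207616 536870912 536870912 536870912 536870912 = true := ⟨B.u54, B.d54⟩

def V.u0 : Tr := .A V.t0 V.t1
theorem V.d0 : Tr.chk (leaf fun A => gV A ⟨6, 83, 177⟩) exV V.u0 268435456 268435456 268435456 268435456 268435456 268435456 = true := chkA rfl V.c0 V.c1

def V.u1 : Tr := .C V.u0 V.t2
theorem V.d1 : Tr.chk (leaf fun A => gV A ⟨6, 83, 177⟩) exV V.u1 268435456 268435456 268435456 268435456 536870912 536870912 = true := chkC rfl V.d0 V.c2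

def V.u2 : Tr := .C V.t4 V.t5
theorem V.d2 : Tr.chk (leaf fun A => gV A ⟨6, 83, 177⟩) exV V.u2 134217728 134217728 939524096 134217728 268435456 268435456 = true := chkC rfl V.c4 V.c5

def V.u3 : Tr := .B V.t3 V.u2
theorem V.d3 : Tr.chk (leaf fun A => gV A ⟨6, 83, 177⟩) exV V.u3 134217728 134217728 805306368 268435456 268435456 268435456 = true := chkB rfl V.c3 V.d2

def V.u4 : Tr := .A V.u3 V.t6
theorem V.d4 : Tr.chk (leaf fun A => gV A ⟨6, 83, 177⟩) exV V.u4 268435456 268435456 805306368 268435456 268435456 268435456 = true := chkA rfl V.d3 V.c6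

def V.u5 : Tr := .C V.t10 V.t11
theorem V.d5 : Tr.chk (leaf fun A => gV A ⟨6, 83, 177⟩) exV V.u5 134217728 134217728 1006632960 67108864 939524096 134217728 = true := chkC rfl V.c10 V.c11

def V.u6 : Tr := .B V.t9 V.u5
theorem V.d6 : Tr.chk (leaf fun A => gV A ⟨6, 83, 177⟩) exV V.u6 134217728 134217728 939524096 134217728 939524096 134217728 = true := chkB rfl V.c9 V.d5

def V.u7 : Tr := .C V.t8 V.u6
theorem V.d7 : Tr.chk (leaf fun A => gV A ⟨6, 83, 177⟩) exV V.u7 134217728 134217728 939524096 134217728 805306368 268435456 = true := chkC rfl V.c8 V.d6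

def V.u8 : Tr := .B V.t7 V.u7
theorem V.d8 : Tr.chk (leaf fun A => gV A ⟨6, 83, 177⟩) exV V.u8 134217728 134217728 805306368 268435456 805306368 268435456 = true := chkB rfl V.c7 V.d7

def V.u9 : Tr := .B V.t12 V.t13
theorem V.d9 : Tr.chk (leaf fun A => gV A ⟨6, 83, 177⟩) exV V.u9 402653184 134217728 805306368 268435456 805306368 268435456 = true := chkB rfl V.c12 V.c13

def V.u10 : Tr := .A V.u8 V.u9
theorem V.d10 : Tr.chk (leaf fun A => gV A ⟨6, 83, 177⟩) exV V.u10 268435456 268435456 805306368 268435456 805306368 268435456 = true := chkA rfl V.d8 V.d9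

def V.u11 : Tr := .C V.u4 V.u10
theorem V.d11 : Tr.chk (leaf fun A => gV A ⟨6, 83, 177⟩) exV V.u11 268435456 268435456 805306368 268435456 536870912 536870912 = true := chkC rfl V.d4 V.d10

def V.u12 : Tr := .B V.u1 V.u11
theorem V.d12 : Tr.chk (leaf fun A => gV A ⟨6, 83, 177⟩) exV V.u12 268435456 268435456 536870912 536870912 536870912 536870912 = true := chkB rfl V.d1 V.d11

def V.u13 : Tr := .C V.t15 V.t16
theorem V.d13 : Tr.chk (leaf fun A => gV A ⟨6, 83, 177⟩) exV V.u13 939524096 134217728 134217728 134217728 134217728 134217728 = true := chkC rfl V.c15 V.c16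

def V.u14 : Tr := .C V.u13 V.t17
theorem V.d14 : Tr.chk (leaf fun A => gV A ⟨6, 83, 177⟩) exV V.u14 939524096 134217728 134217728 134217728 268435456 268435456 = true := chkC rfl V.d13 V.c17

def V.u15 : Tr := .B V.u14 V.t18
theorem V.d15 : Tr.chk (leaf fun A => gV A ⟨6, 83, 177⟩) exV V.u15 939524096 134217728 268435456 268435456 268435456 268435456 = true := chkB rfl V.d14 V.c18

def V.u16 : Tr := .A V.t14 V.u15
theorem V.d16 : Tr.chk (leaf fun A => gV A ⟨6, 83, 177⟩) exV V.u16 805306368 268435456 268435456 268435456 268435456 268435456 = true := chkA rfl V.c14 V.d15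

def V.u17 : Tr := .C V.t21 V.t22
theorem V.d17 : Tr.chk (leaf fun A => gV A ⟨6, 83, 177⟩) exV V.u17 939524096 134217728 402653184 134217728 805306368 268435456 = true := chkC rfl V.c21 V.c22

def V.u18 : Tr := .B V.t20 V.u17
theorem V.d18 : Tr.chk (leaf fun A => gV A ⟨6, 83, 177⟩) exV V.u18 939524096 134217728 268435456 268435456 805306368 268435456 = true := chkB rfl V.c20 V.d17

def V.u19 : Tr := .A V.t19 V.u18
theorem V.d19 : Tr.chk (leaf fun A => gV A ⟨6, 83, 177⟩) exV V.u19 805306368 268435456 268435456 268435456 805306368 268435456 = true := chkA rfl V.c19 V.d18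

def V.u20 : Tr := .C V.u16 V.u19
theorem V.d20 : Tr.chk (leaf fun A => gV A ⟨6, 83, 177⟩) exV V.u20 805306368 268435456 268435456 268435456 536870912 536870912 = true := chkC rfl V.d16 V.d19

def V.u21 : Tr := .C V.t24 V.t25
theorem V.d21 : Tr.chk (leaf fun A => gV A ⟨6, 83, 177⟩) exV V.u21 671088640 134217728 671088640 134217728 805306368 268435456 = true := chkC rfl V.c24 V.c25

def V.u22 : Tr := .B V.u21 V.t26
theorem V.d22 : Tr.chk (leaf fun A => gV A ⟨6, 83, 177⟩) exV V.u22 671088640 134217728 805306368 268435456 805306368 268435456 = true := chkB rfl V.d21 V.c26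

def V.u23 : Tr := .B V.t28 V.t29
theorem V.d23 : Tr.chk (leaf fun A => gV A ⟨6, 83, 177⟩) exV V.u23 939524096 134217728 603979776 67108864 939524096 134217728 = true := chkB rfl V.c28 V.c29

def V.u24 : Tr := .B V.u23 V.t30
theorem V.d24 : Tr.chk (leaf fun A => gV A ⟨6, 83, 177⟩) exV V.u24 939524096 134217728 671088640 134217728 939524096 134217728 = true := chkB rfl V.d23 V.c30

def V.u25 : Tr := .C V.t27 V.u24
theorem V.d25 : Tr.chk (leaf fun A => gV A ⟨6, 83, 177⟩) exV V.u25 939524096 134217728 671088640 134217728 805306368 268435456 = true := chkC rfl V.c27 V.d24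

def V.u26 : Tr := .B V.u25 V.t31
theorem V.d26 : Tr.chk (leaf fun A => gV A ⟨6, 83, 177⟩) exV V.u26 939524096 134217728 805306368 268435456 805306368 268435456 = true := chkB rfl V.d25 V.c31

def V.u27 : Tr := .A V.u22 V.u26
theorem V.d27 : Tr.chk (leaf fun A => gV A ⟨6, 83, 177⟩) exV V.u27 805306368 268435456 805306368 268435456 805306368 268435456 = true := chkA rfl V.d22 V.d26

def V.u28 : Tr := .C V.t23 V.u27
theorem V.d28 : Tr.chk (leaf fun A => gV A ⟨6, 83, 177⟩) exV V.u28 805306368 268435456 805306368 268435456 536870912 536870912 = true := chkC rfl V.c23 V.d27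

def V.u29 : Tr := .B V.u20 V.u28
theorem V.d29 : Tr.chk (leaf fun A => gV A ⟨6, 83, 177⟩) exV V.u29 805306368 268435456 536870912 536870912 536870912 536870912 = true := chkB rfl V.d20 V.d28

def V.u30 : Tr := .A V.u12 V.u29
theorem V.d30 : Tr.chk (leaf fun A => gV A ⟨6, 83, 177⟩) exV V.u30 536870912 536870912 536870912 536870912 536870912 536870912 = true := chkA rfl V.d12 V.d29

/-- the region V -/
theorem V.all : ∃ t, Tr.chk (leaf fun A => gV A ⟨6, 83, 177⟩) exV t 536870912 536870912 536870912 536870912 536870912 536870912 = true := ⟨V.u30, V.d30⟩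

def HN.u0 : Tr := .C HN.t0 HN.t1
theorem HN.d0 : Tr.chk (leaf fun A => gHN A ⟨6, 83, 177⟩) exNo HN.u0 100663296 100663296 536870912 536870912 268435456 268435456 = true := chkC rfl HN.c0 HN.c1

def HN.u1 : Tr := .C HN.u0 HN.t2
theorem HN.d1 : Tr.chk (leaf fun A => gHN A ⟨6, 83, 177⟩) exNo HN.u1 100663296 100663296 536870912 536870912 536870912 536870912 = true := chkC rfl HN.d0 HN.c2

/-- the region HN -/
theorem HN.all : ∃ t, Tr.chk (leaf fun A => gHN A ⟨6, 83, 177⟩) exNo t 100663296 100663296 536870912 536870912 536870912 536870912 = true := ⟨HN.u1, HN.d1⟩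

/-- the region HP -/
theorem HP.all : ∃ t, Tr.chk (leaf fun A => gHP A ⟨6, 83, 177⟩) exNo t 100663296 100663296 536870912 536870912 536870912 536870912 = true := ⟨HP.t0, HP.c0⟩

/-- the region HE -/
theorem HE.all : ∃ t, Tr.chk (leaf fun A => gHE A ⟨6, 83, 177⟩) exNo t 100663296 100663296 536870912 536870912 872415232 872415232 = true := ⟨HE.t0, HE.c0⟩

/-- the region SN -/
theorem SN.all : ∃ t, Tr.chk (leafS fun A => fN A ⟨6, 83, 177⟩) exNo t 436207616 436207616 67108864 67108864 536870912 536870912 = true := ⟨SN.t0, SN.c0⟩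

/-- the region S1 -/
theorem S1.all : ∃ t, Tr.chk (leafS fun A => fP1 A ⟨6, 83, 177⟩) exNo t 50331648 50331648 67108864 67108864 536870912 536870912 = true := ⟨S1.t0, S1.c0⟩

/-- the region S2 -/
theorem S2.all : ∃ t, Tr.chk (leafS fun A => fP2 A ⟨6, 83, 177⟩) exNo t 50331648 50331648 50331648 50331648 536870912 536870912 = true := ⟨S2.t0, S2.c0⟩

def F1.u0 : Tr := .C F1.t1 F1.t2
theorem F1.d0 : Tr.chk (leafS fun A => fF1 A ⟨6, 83, 177⟩) exNo F1.u0 679477248 192937984 67108864 67108864 536870912 536870912 = true := chkC rfl F1.c1 F1.c2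

def F1.u1 : Tr := .A F1.t0 F1.u0
theorem F1.d1 : Tr.chk (leafS fun A => fF1 A ⟨6, 83, 177⟩) exNo F1.u1 486539264 385875968 67108864 67108864 536870912 536870912 = true := chkA rfl F1.c0 F1.d0

/-- the region F1 -/
theorem F1.all : ∃ t, Tr.chk (leafS fun A => fF1 A ⟨6, 83, 177⟩) exNo t 486539264 385875968 67108864 67108864 536870912 536870912 = true := ⟨F1.u1, F1.d1⟩

def F2.u0 : Tr := .C F2.t1 F2.t2
theorem F2.d0 : Tr.chk (leafS fun A => fF2 A ⟨6, 83, 177⟩) exNo F2.u0 679477248 192937984 67108864 67108864 536870912 536870912 = true := chkC rfl F2.c1 F2.c2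

def F2.u1 : Tr := .A F2.t0 F2.u0
theorem F2.d1 : Tr.chk (leafS fun A => fF2 A ⟨6, 83, 177⟩) exNo F2.u1 486539264 385875968 67108864 67108864 536870912 536870912 = true := chkA rfl F2.c0 F2.d0

/-- the region F2 -/
theorem F2.all : ∃ t, Tr.chk (leafS fun A => fF2 A ⟨6, 83, 177⟩) exNo t 486539264 385875968 67108864 67108864 536870912 536870912 = true := ⟨F2.u1, F2.d1⟩

/-- the region T1 -/
theorem T1.all : ∃ t, Tr.chk (leafS fun A => fV1 A ⟨6, 83, 177⟩) exNo t 536870912 536870912 16777216 16777216 536870912 536870912 = true := ⟨T1.t0, T1.c0⟩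

/-- the region T2 -/
theorem T2.all : ∃ t, Tr.chk (leafS fun A => fV2 A ⟨6, 83, 177⟩) exNo t 536870912 536870912 16777216 16777216 536870912 536870912 = true := ⟨T2.t0, T2.c0⟩

/-- the region T3 -/
theorem T3.all : ∃ t, Tr.chk (leafS fun A => fV3 A ⟨6, 83, 177⟩) exNo t 536870912 536870912 16777216 16777216 536870912 536870912 = true := ⟨T3.t0, T3.c0⟩

theorem chk : Chk ⟨6, 83, 177⟩ :=
  ⟨N.all, A.all, B.all, V.all, HN.all, HP.all, HE.all, SN.all, S1.all, S2.all, F1.all, F2.all, T1.all, T2.all, T3.all⟩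

end Pool.Agent.FTN.K6
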