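import Pool.Agent.FTN.Region

set_option maxRecDepth 100000

namespace Pool.Agent.FTN.K6

open Pool.Agent.FTA (TM Alg Tr leaf leafS exNo exV chkA chkB chkC)

def B.t21 : Tr := .C (.A (.A .L (.A .L .L)) .L) (.A (.A .L (.A .L (.C .L .L))) .L)
theorem B.c21 : Tr.chk (leaf fun A => gB A ⟨6, 83, 177⟩) exNo B.t21 545259520 109051904 469762048 67108864 939524096 134217728 = true := by decide +kernel

def B.t22 : Tr := .L
theorem B.c22 : Tr.chk (leaf fun A => gB A ⟨6, 83, 177⟩) exNo B.t22 763363328 109051904 402653184 134217728 939524096 134217728 = true := by decide +kernel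

def B.t23 : Tr := .A .L .L
theorem B.c23 : Tr.chk (leaf fun A => gB A ⟨6, 83, 177⟩) exNo B.t23 109051904 109051904 671088640 134217728 134217728 134217728 = true := by decide +kernel

def B.t24 : Tr := .C .L .L
theorem B.c24 : Tr.chk (leaf fun A => gB A ⟨6, 83, 177⟩) exNo B.t24 272629760 54525952 671088640 134217728 134217728 134217728 = true := by decide +kernel

def B.t25 : Tr := .C (.C (.A .L (.B .L .L)) (.B .L (.C (.B .L (.C (.A .L .L) (.A .L .L))) (.A .L .L)))) (.A .L (.B .L (.C .L .L)))
theorem B.c25 : Tr.chk (leaf fun A => gB A ⟨6, 83, 177⟩) exNo B.t25 381681664 54525952 671088640 134217728 134217728 134217728 = true := by decide +kernel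

def B.t26 : Tr := .A (.C (.C .L .L) (.A .L .L)) (.A (.C .L .L) (.C (.A .L (.B .L .L)) (.A .L (.B .L .L))))
theorem B.c26 : Tr.chk (leaf fun A => gB A ⟨6, 83, 177⟩) exNo B.t26 218103808 218103808 671088640 134217728 402653184 134217728 = true := by decide +kernel

def B.t27 : Tr := .C (.A .L .L) (.A .L .L)
theorem B.c27 : Tr.chk (leaf fun A => gB A ⟨6, 83, 177⟩) exNo B.t27 109051904 109051904 939524096 134217728 134217728 134217728 = true := by decide +kernel

def B.t28 : Tr := .A .L (.C (.C (.A .L .L) (.B (.A .L .L) (.C (.A .L .L) (.A .L .L)))) (.A .L (.C (.B .L .L) (.B .L .L))))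
theorem B.c28 : Tr.chk (leaf fun A => gB A ⟨6, 83, 177⟩) exNo B.t28 327155712 109051904 872415232 67108864 67108864 67108864 = true := by decide +kernel

def B.t29 : Tr := .A .L (.A .L (.A .L .L))
theorem B.c29 : Tr.chk (leaf fun A => gB A ⟨6, 83, 177⟩) exNo B.t29 327155712 109051904 872415232 67108864 201326592 67108864 = true := by decide +kernel

def B.t30 : Tr := .A .L (.C (.C (.B (.A .L .L) (.C (.A .L .L) (.A .L .L))) (.A .L .L)) (.A .L .L))
theorem B.c30 : Tr.chk (leaf fun A => gB A ⟨6, 83, 177⟩) exNo B.t30 327155712 109051904 1006632960 67108864 67108864 67108864 = true := by decide +kernel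

end Pool.Agent.FTN.K6
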