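import Pool.Agent.FTN.Region

set_option maxRecDepth 100000

namespace Pool.Agent.FTN.K7

open Pool.Agent.FTA (TM Alg Tr leaf leafS exNo exV chkA chkB chkC)

def N.t7 : Tr := .C (.C (.C (.A .L .L) (.C (.A .L .L) (.A .L .L))) (.C (.A .L .L) (.A .L .L))) (.C (.A .L .L) (.A .L .L))
theorem N.c7 : Tr.chk (leaf fun A => gN A ⟨7, 76, 196⟩) exNo N.t7 545259520 109051904 402653184 134217728 355467264 118489088 = true := by decide +kernel

def N.t8 : Tr := .A (.C (.C (.A .L .L) (.A .L .L)) (.C (.A .L .L) .L)) .L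
theorem N.c8 : Tr.chk (leaf fun A => gN A ⟨7, 76, 196⟩) exNo N.t8 763363328 109051904 402653184 134217728 355467264 118489088 = true := by decide +kernel

def N.t9 : Tr := .A (.C (.C .L .L) (.A .L .L)) (.C (.C (.A .L .L) (.A .L .L)) (.A .L .L))
theorem N.c9 : Tr.chk (leaf fun A => gN A ⟨7, 76, 196⟩) exNo N.t9 218103808 218103808 268435456 268435456 533200896 59244544 = true := by decide +kernel

def N.t10 : Tr := .A (.A (.A (.C .L .L) .L) .L) (.A .L (.C .L .L))
theorem N.c10 : Tr.chk (leaf fun A => gN A ⟨7, 76, 196⟩) exNo N.t10 218103808 218103808 268435456 268435456 651689984 59244544 = true := by decide +kernel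

def N.t11 : Tr := .A (.A (.A (.A (.C .L .L) (.C .L .L)) (.C .L .L)) (.C .L .L)) (.C (.A .L .L) (.C .L .L))
theorem N.c11 : Tr.chk (leaf fun A => gN A ⟨7, 76, 196⟩) exNo N.t11 218103808 218103808 268435456 268435456 829423616 118489088 = true := by decide +kernel

def N.t12 : Tr := .A (.C (.A (.C .L .L) (.C .L .L)) (.A .L (.C .L .L))) (.C (.A (.C (.A .L .L) .L) .L) (.C (.A .L (.C .L .L)) (.A .L .L)))
theorem N.c12 : Tr.chk (leaf fun A => gN A ⟨7, 76, 196⟩) exNo N.t12 654311424 218103808 134217728 134217728 592445440 118489088 = true := by decide +kernel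

end Pool.Agent.FTN.K7
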