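import Pool.Agent.FTN.Region

set_option maxRecDepth 100000

namespace Pool.Agent.FTN.K7

open Pool.Agent.FTA (TM Alg Tr leaf leafS exNo exV chkA chkB chkC)

def A.t56 : Tr := .C (.A (.C .L (.A .L .L)) (.C .L .L)) (.A (.C (.A (.A .L .L) .L) (.A .L .L)) (.C (.A .L .L) (.A .L .L)))
theorem A.c56 : Tr.chk (leaf fun A => gA A ⟨7, 76, 196⟩) exNo A.t56 109051904 109051904 939524096 134217728 939524096 134217728 = true := by decide +kernel

def A.t57 : Tr := .C (.A (.A .L .L) (.C .L (.B .L .L))) (.A (.C (.A .L .L) (.A .L .L)) (.A (.C .L .L) (.B .L .L)))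
theorem A.c57 : Tr.chk (leaf fun A => gA A ⟨7, 76, 196⟩) exNo A.t57 327155712 109051904 939524096 134217728 939524096 134217728 = true := by decide +kernel

def A.t58 : Tr := .A (.A (.C (.B .L .L) (.B .L .L)) (.C (.B .L .L) (.B (.C .L .L) (.A .L .L)))) (.B (.C .L (.A (.A (.C .L .L) .L) .L)) .L)
theorem A.c58 : Tr.chk (leaf fun A => gA A ⟨7, 76, 196⟩) exNo A.t58 654311424 218103808 671088640 134217728 671088640 134217728 = true := by decide +kernel

def A.t59 : Tr := .C (.B .L .L) (.B (.C .L .L) (.A .L .L))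
theorem A.c59 : Tr.chk (leaf fun A => gA A ⟨7, 76, 196⟩) exNo A.t59 490733568 54525952 671088640 134217728 939524096 134217728 = true := by decide +kernel

def A.t60 : Tr := .C (.A .L .L) (.A .L (.C .L .L))
theorem A.c60 : Tr.chk (leaf fun A => gA A ⟨7, 76, 196⟩) exNo A.t60 599785472 54525952 603979776 67108864 939524096 134217728 = true := by decide +kernel

def A.t61 : Tr := .A (.C .L (.C .L .L)) (.C (.A .L (.C .L .L)) (.A (.C .L .L) (.B (.C .L .L) (.C .L (.A .L .L)))))
theorem A.c61 : Tr.chk (leaf fun A => gA A ⟨7, 76, 196⟩) exNo A.t61 599785472 54525952 738197504 67108864 939524096 134217728 = true := by decide +kernel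

def A.t62 : Tr := .A (.A (.A .L (.C .L .L)) .L) .L
theorem A.c62 : Tr.chk (leaf fun A => gA A ⟨7, 76, 196⟩) exNo A.t62 763363328 109051904 603979776 67108864 872415232 67108864 = true := by decide +kernel

end Pool.Agent.FTN.K7
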