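import Pool.Agent.FTN.Region

set_option maxRecDepth 100000

namespace Pool.Agent.FTN.K7

open Pool.Agent.FTA (TM Alg Tr leaf leafS exNo exV chkA chkB chkC)

def N.t25 : Tr := .C (.A (.C .L .L) (.C .L .L)) (.C (.C (.A .L .L) (.A .L .L)) (.C (.A .L .L) (.A .L .L)))
theorem N.c25 : Tr.chk (leaf fun A => gN A ⟨7, 76, 196⟩) exNo N.t25 654311424 218103808 939524096 134217728 829423616 118489088 = true := by decide +kernel

def A.t0 : Tr := .C (.A .L .L) (.A .L (.B (.C .L .L) .L))
theorem A.c0 : Tr.chk (leaf fun A => gA A ⟨7, 76, 196⟩) exNo A.t0 218103808 218103808 268435456 268435456 134217728 134217728 = true := by decide +kernel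

def A.t1 : Tr := .B (.C (.A .L .L) (.B (.A .L .L) (.A .L .L))) (.C (.A .L .L) (.B (.A .L .L) (.A .L .L)))
theorem A.c1 : Tr.chk (leaf fun A => gA A ⟨7, 76, 196⟩) exNo A.t1 218103808 218103808 268435456 268435456 335544320 67108864 = true := by decide +kernel

def A.t2 : Tr := .C (.B (.C (.A .L .L) (.A .L .L)) (.C (.A .L .L) (.A .L .L))) (.B (.A .L .L) (.A .L .L))
theorem A.c2 : Tr.chk (leaf fun A => gA A ⟨7, 76, 196⟩) exNo A.t2 218103808 218103808 67108864 67108864 469762048 67108864 = true := by decide +kernel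

def A.t3 : Tr := .C (.B (.C (.A .L .L) (.A .L .L)) (.C (.A .L .L) (.A .L .L))) (.B (.A .L .L) (.A .L .L))
theorem A.c3 : Tr.chk (leaf fun A => gA A ⟨7, 76, 196⟩) exNo A.t3 218103808 218103808 201326592 67108864 469762048 67108864 = true := by decide +kernel

def A.t4 : Tr := .C (.B (.C (.A .L .L) (.B (.A .L .L) (.A .L .L))) (.C (.A .L .L) (.B (.A .L .L) (.A .L .L)))) (.A .L .L)
theorem A.c4 : Tr.chk (leaf fun A => gA A ⟨7, 76, 196⟩) exNo A.t4 218103808 218103808 335544320 67108864 469762048 67108864 = true := by decide +kernel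

def A.t5 : Tr := .C (.B (.C (.A .L .L) (.A .L .L)) (.C (.A .L .L) (.A .L .L))) (.A .L .L)
theorem A.c5 : Tr.chk (leaf fun A => gA A ⟨7, 76, 196⟩) exNo A.t5 218103808 218103808 469762048 67108864 469762048 67108864 = true := by decide +kernel

end Pool.Agent.FTN.K7
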