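import Pool.Agent.FTN.Region

set_option maxRecDepth 100000

namespace Pool.Agent.FTN.K7

open Pool.Agent.FTA (TM Alg Tr leaf leafS exNo exV chkA chkB chkC)

def A.t33 : Tr := .A (.B .L .L) (.A (.B .L .L) (.B (.C .L .L) (.A .L .L)))
theorem A.c33 : Tr.chk (leaf fun A => gA A ⟨7, 76, 196⟩) exNo A.t33 763363328 109051904 201326592 67108864 872415232 67108864 = true := by decide +kernel

def A.t34 : Tr := .A (.B (.C .L .L) (.C .L .L)) (.B (.C .L (.A .L .L)) (.A (.C .L .L) (.A (.C .L .L) (.C .L .L))))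
theorem A.c34 : Tr.chk (leaf fun A => gA A ⟨7, 76, 196⟩) exNo A.t34 763363328 109051904 201326592 67108864 1006632960 67108864 = true := by decide +kernel

def A.t35 : Tr := .C (.B (.B (.A .L .L) (.A .L .L)) (.A .L .L)) (.B (.B (.A .L .L) (.A .L .L)) (.C (.A .L .L) (.A .L .L)))
theorem A.c35 : Tr.chk (leaf fun A => gA A ⟨7, 76, 196⟩) exNo A.t35 545259520 109051904 402653184 134217728 671088640 134217728 = true := by decide +kernel

def A.t36 : Tr := .B (.A (.C (.C .L .L) (.C .L .L)) .L) (.C (.A (.C .L .L) .L) (.A (.A .L .L) .L))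
theorem A.c36 : Tr.chk (leaf fun A => gA A ⟨7, 76, 196⟩) exNo A.t36 763363328 109051904 402653184 134217728 671088640 134217728 = true := by decide +kernel

def A.t37 : Tr := .C (.B (.C (.A .L .L) (.B .L .L)) (.A .L .L)) (.B (.C (.A .L .L) (.A .L .L)) (.A (.C .L .L) (.C .L .L)))
theorem A.c37 : Tr.chk (leaf fun A => gA A ⟨7, 76, 196⟩) exNo A.t37 545259520 109051904 402653184 134217728 939524096 134217728 = true := by decide +kernel

def A.t38 : Tr := .C (.A .L (.C .L .L)) (.B (.C .L .L) (.A .L .L))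
theorem A.c38 : Tr.chk (leaf fun A => gA A ⟨7, 76, 196⟩) exNo A.t38 708837376 54525952 335544320 67108864 939524096 134217728 = true := by decide +kernel

def A.t39 : Tr := .C (.A (.C .L .L) (.C .L .L)) (.A (.C .L .L) (.B (.C .L .L) (.A (.C .L .L) (.B (.C .L .L) .L))))
theorem A.c39 : Tr.chk (leaf fun A => gA A ⟨7, 76, 196⟩) exNo A.t39 790626304 27262976 335544320 67108864 939524096 134217728 = true := by decide +kernel

end Pool.Agent.FTN.K7
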