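import Pool.Agent.FTN.K.P7F0
import Pool.Agent.FTN.K.P7F1
import Pool.Agent.FTN.K.P7F2
import Pool.Agent.FTN.K.P7F3
import Pool.Agent.FTN.K.P7F4
import Pool.Agent.FTN.K.P7F5
import Pool.Agent.FTN.K.P7F6
import Pool.Agent.FTN.K.P7F7
import Pool.Agent.FTN.K.P7F8
import Pool.Agent.FTN.K.P7F9
import Pool.Agent.FTN.K.P7F10
import Pool.Agent.FTN.K.P7F11
import Pool.Agent.FTN.K.P7F12
import Pool.Agent.FTN.K.P7F13
import Pool.Agent.FTN.K.P7F14
import Pool.Agent.FTN.K.P7F15
import Pool.Agent.FTN.K.P7F16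
import Pool.Agent.FTN.K.P7F17
import Pool.Agent.FTN.K.P7F18
import Pool.Agent.FTN.K.P7F19
import Pool.Agent.FTN.K.P7F20
import Pool.Agent.FTN.K.P7F21
import Pool.Agent.FTN.K.P7F22
import Pool.Agent.FTN.K.P7F23
import Pool.Agent.FTN.K.P7F24
import Pool.Agent.FTN.K.P7F25
import Pool.Agent.FTN.K.P7F26
import Pool.Agent.FTN.REG

set_option maxRecDepth 100000

namespace Pool.Agent.FTN.K7

open Pool.Agent.FTA (TM Alg Tr leaf leafS exNo exV chkA chkB chkC)

def N.u0 : Tr := .C N.t1 N.t2
theorem N.d0 : Tr.chk (leaf fun A => gN A ⟨7, 76, 196⟩) exNo N.u0 218103808 218103808 268435456 268435456 355467264 118489088 = true := chkC rfl N.c1 N.c2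

def N.u1 : Tr := .C N.t0 N.u0
theorem N.d1 : Tr.chk (leaf fun A => gN A ⟨7, 76, 196⟩) exNo N.u1 218103808 218103808 268435456 268435456 236978176 236978176 = true := chkC rfl N.c0 N.d0

def N.u2 : Tr := .A N.t4 N.t5
theorem N.d2 : Tr.chk (leaf fun A => gN A ⟨7, 76, 196⟩) exNo N.u2 654311424 218103808 134217728 134217728 355467264 118489088 = true := chkA rfl N.c4 N.c5

def N.u3 : Tr := .C N.t3 N.u2
theorem N.d3 : Tr.chk (leaf fun A => gN A ⟨7, 76, 196⟩) exNo N.u3 654311424 218103808 134217728 134217728 236978176 236978176 = true := chkC rfl N.c3 N.d2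

def N.u4 : Tr := .A N.t7 N.t8
theorem N.d4 : Tr.chk (leaf fun A => gN A ⟨7, 76, 196⟩) exNo N.u4 654311424 218103808 402653184 134217728 355467264 118489088 = true := chkA rfl N.c7 N.c8

def N.u5 : Tr := .C N.t6 N.u4
theorem N.d5 : Tr.chk (leaf fun A => gN A ⟨7, 76, 196⟩) exNo N.u5 654311424 218103808 402653184 134217728 236978176 236978176 = true := chkC rfl N.c6 N.d4

def N.u6 : Tr := .B N.u3 N.u5
theorem N.d6 : Tr.chk (leaf fun A => gN A ⟨7, 76, 196⟩) exNo N.u6 654311424 218103808 268435456 268435456 236978176 236978176 = true := chkB rfl N.d3 N.d5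

def N.u7 : Tr := .A N.u1 N.u6
theorem N.d7 : Tr.chk (leaf fun A => gN A ⟨7, 76, 196⟩) exNo N.u7 436207616 436207616 268435456 268435456 236978176 236978176 = true := chkA rfl N.d1 N.d6

def N.u8 : Tr := .C N.t9 N.t10
theorem N.d8 : Tr.chk (leaf fun A => gN A ⟨7, 76, 196⟩) exNo N.u8 218103808 218103808 268435456 268435456 592445440 118489088 = true := chkC rfl N.c9 N.c10

def N.u9 : Tr := .C N.u8 N.t11
theorem N.d9 : Tr.chk (leaf fun A => gN A ⟨7, 76, 196⟩) exNo N.u9 218103808 218103808 268435456 268435456 710934528 236978176 = true := chkC rfl N.d8 N.c11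

def N.u10 : Tr := .C N.t12 N.t13
theorem N.d10 : Tr.chk (leaf fun A => gN A ⟨7, 76, 196⟩) exNo N.u10 654311424 218103808 134217728 134217728 710934528 236978176 = true := chkC rfl N.c12 N.c13

def N.u11 : Tr := .C N.t14 N.t15
theorem N.d11 : Tr.chk (leaf fun A => gN A ⟨7, 76, 196⟩) exNo N.u11 654311424 218103808 402653184 134217728 710934528 236978176 = true := chkC rfl N.c14 N.c15

def N.u12 : Tr := .B N.u10 N.u11
theorem N.d12 : Tr.chk (leaf fun A => gN A ⟨7, 76, 196⟩) exNo N.u12 654311424 218103808 268435456 268435456 710934528 236978176 = true := chkB rfl N.d10 N.d11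

def N.u13 : Tr := .A N.u9 N.u12
theorem N.d13 : Tr.chk (leaf fun A => gN A ⟨7, 76, 196⟩) exNo N.u13 436207616 436207616 268435456 268435456 710934528 236978176 = true := chkA rfl N.d9 N.d12

def N.u14 : Tr := .C N.u7 N.u13
theorem N.d14 : Tr.chk (leaf fun A => gN A ⟨7, 76, 196⟩) exNo N.u14 436207616 436207616 268435456 268435456 473956352 473956352 = true := chkC rfl N.d7 N.d13

def N.u15 : Tr := .C N.t17 N.t18
theorem N.d15 : Tr.chk (leaf fun A => gN A ⟨7, 76, 196⟩) exNo N.u15 654311424 218103808 671088640 134217728 236978176 236978176 = true := chkC rfl N.c17 N.c18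

def N.u16 : Tr := .B N.u15 N.t19
theorem N.d16 : Tr.chk (leaf fun A => gN A ⟨7, 76, 196⟩) exNo N.u16 654311424 218103808 805306368 268435456 236978176 236978176 = true := chkB rfl N.d15 N.c19

def N.u17 : Tr := .A N.t16 N.u16
theorem N.d17 : Tr.chk (leaf fun A => gN A ⟨7, 76, 196⟩) exNo N.u17 436207616 436207616 805306368 268435456 236978176 236978176 = true := chkA rfl N.c16 N.d16

def N.u18 : Tr := .C N.t20 N.t21
theorem N.d18 : Tr.chk (leaf fun A => gN A ⟨7, 76, 196⟩) exNo N.u18 218103808 218103808 805306368 268435456 710934528 236978176 = true := chkC rfl N.c20 N.c21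

def N.u19 : Tr := .C N.t22 N.t23
theorem N.d19 : Tr.chk (leaf fun A => gN A ⟨7, 76, 196⟩) exNo N.u19 654311424 218103808 671088640 134217728 710934528 236978176 = true := chkC rfl N.c22 N.c23

def N.u20 : Tr := .C N.t24 N.t25
theorem N.d20 : Tr.chk (leaf fun A => gN A ⟨7, 76, 196⟩) exNo N.u20 654311424 218103808 939524096 134217728 710934528 236978176 = true := chkC rfl N.c24 N.c25

def N.u21 : Tr := .B N.u19 N.u20
theorem N.d21 : Tr.chk (leaf fun A => gN A ⟨7, 76, 196⟩) exNo N.u21 654311424 218103808 805306368 268435456 710934528 236978176 = true := chkB rfl N.d19 N.d20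

def N.u22 : Tr := .A N.u18 N.u21
theorem N.d22 : Tr.chk (leaf fun A => gN A ⟨7, 76, 196⟩) exNo N.u22 436207616 436207616 805306368 268435456 710934528 236978176 = true := chkA rfl N.d18 N.d21

def N.u23 : Tr := .C N.u17 N.u22
theorem N.d23 : Tr.chk (leaf fun A => gN A ⟨7, 76, 196⟩) exNo N.u23 436207616 436207616 805306368 268435456 473956352 473956352 = true := chkC rfl N.d17 N.d22

def N.u24 : Tr := .B N.u14 N.u23
theorem N.d24 : Tr.chk (leaf fun A => gN A ⟨7, 76, 196⟩) exNo N.u24 436207616 436207616 536870912 536870912 473956352 473956352 = true := chkB rfl N.d14 N.d23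

/-- the region N -/
theorem N.all : ∃ t, Tr.chk (leaf fun A => gN A ⟨7, 76, 196⟩) exNo t 436207616 436207616 536870912 536870912 473956352 473956352 = true := ⟨N.u24, N.d24⟩

def A.u0 : Tr := .B A.t2 A.t3
theorem A.d0 : Tr.chk (leaf fun A => gA A ⟨7, 76, 196⟩) exNo A.u0 218103808 218103808 134217728 134217728 469762048 67108864 = true := chkB rfl A.c2 A.c3

def A.u1 : Tr := .B A.t4 A.t5
theorem A.d1 : Tr.chk (leaf fun A => gA A ⟨7, 76, 196⟩) exNo A.u1 218103808 218103808 402653184 134217728 469762048 67108864 = true := chkB rfl A.c4 A.c5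

def A.u2 : Tr := .B A.u0 A.u1
theorem A.d2 : Tr.chk (leaf fun A => gA A ⟨7, 76, 196⟩) exNo A.u2 218103808 218103808 268435456 268435456 469762048 67108864 = true := chkB rfl A.d0 A.d1

def A.u3 : Tr := .C A.t1 A.u2
theorem A.d3 : Tr.chk (leaf fun A => gA A ⟨7, 76, 196⟩) exNo A.u3 218103808 218103808 268435456 268435456 402653184 134217728 = true := chkC rfl A.c1 A.d2

def A.u4 : Tr := .C A.t0 A.u3
theorem A.d4 : Tr.chk (leaf fun A => gA A ⟨7, 76, 196⟩) exNo A.u4 218103808 218103808 268435456 268435456 268435456 268435456 = true := chkC rfl A.c0 A.d3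

def A.u5 : Tr := .C A.t7 A.t8
theorem A.d5 : Tr.chk (leaf fun A => gA A ⟨7, 76, 196⟩) exNo A.u5 545259520 109051904 134217728 134217728 402653184 134217728 = true := chkC rfl A.c7 A.c8

def A.u6 : Tr := .A A.u5 A.t9
theorem A.d6 : Tr.chk (leaf fun A => gA A ⟨7, 76, 196⟩) exNo A.u6 654311424 218103808 134217728 134217728 402653184 134217728 = true := chkA rfl A.d5 A.c9

def A.u7 : Tr := .C A.t6 A.u6
theorem A.d7 : Tr.chk (leaf fun A => gA A ⟨7, 76, 196⟩) exNo A.u7 654311424 218103808 134217728 134217728 268435456 268435456 = true := chkC rfl A.c6 A.d6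

def A.u8 : Tr := .C A.t10 A.t11
theorem A.d8 : Tr.chk (leaf fun A => gA A ⟨7, 76, 196⟩) exNo A.u8 654311424 218103808 402653184 134217728 268435456 268435456 = true := chkC rfl A.c10 A.c11

def A.u9 : Tr := .B A.u7 A.u8
theorem A.d9 : Tr.chk (leaf fun A => gA A ⟨7, 76, 196⟩) exNo A.u9 654311424 218103808 268435456 268435456 268435456 268435456 = true := chkB rfl A.d7 A.d8

def A.u10 : Tr := .A A.u4 A.u9
theorem A.d10 : Tr.chk (leaf fun A => gA A ⟨7, 76, 196⟩) exNo A.u10 436207616 436207616 268435456 268435456 268435456 268435456 = true := chkA rfl A.d4 A.d9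

def A.u11 : Tr := .A A.t12 A.t13
theorem A.d11 : Tr.chk (leaf fun A => gA A ⟨7, 76, 196⟩) exNo A.u11 218103808 218103808 134217728 134217728 671088640 134217728 = true := chkA rfl A.c12 A.c13

def A.u12 : Tr := .C A.t16 A.t17
theorem A.d12 : Tr.chk (leaf fun A => gA A ⟨7, 76, 196⟩) exNo A.u12 109051904 109051904 134217728 134217728 1040187392 33554432 = true := chkC rfl A.c16 A.c17

def A.u13 : Tr := .A A.u12 A.t18
theorem A.d13 : Tr.chk (leaf fun A => gA A ⟨7, 76, 196⟩) exNo A.u13 218103808 218103808 134217728 134217728 1040187392 33554432 = true := chkA rfl A.d12 A.c18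

def A.u14 : Tr := .C A.t15 A.u13
theorem A.d14 : Tr.chk (leaf fun A => gA A ⟨7, 76, 196⟩) exNo A.u14 218103808 218103808 134217728 134217728 1006632960 67108864 = true := chkC rfl A.c15 A.d13

def A.u15 : Tr := .C A.t14 A.u14
theorem A.d15 : Tr.chk (leaf fun A => gA A ⟨7, 76, 196⟩) exNo A.u15 218103808 218103808 134217728 134217728 939524096 134217728 = true := chkC rfl A.c14 A.d14

def A.u16 : Tr := .C A.u11 A.u15
theorem A.d16 : Tr.chk (leaf fun A => gA A ⟨7, 76, 196⟩) exNo A.u16 218103808 218103808 134217728 134217728 805306368 268435456 = true := chkC rfl A.d11 A.d15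

def A.u17 : Tr := .A A.t21 A.t22
theorem A.d17 : Tr.chk (leaf fun A => gA A ⟨7, 76, 196⟩) exNo A.u17 218103808 218103808 402653184 134217728 1006632960 67108864 = true := chkA rfl A.c21 A.c22

def A.u18 : Tr := .C A.t20 A.u17
theorem A.d18 : Tr.chk (leaf fun A => gA A ⟨7, 76, 196⟩) exNo A.u18 218103808 218103808 402653184 134217728 939524096 134217728 = true := chkC rfl A.c20 A.d17

def A.u19 : Tr := .C A.t19 A.u18
theorem A.d19 : Tr.chk (leaf fun A => gA A ⟨7, 76, 196⟩) exNo A.u19 218103808 218103808 402653184 134217728 805306368 268435456 = true := chkC rfl A.c19 A.d18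

def A.u20 : Tr := .B A.u16 A.u19
theorem A.d20 : Tr.chk (leaf fun A => gA A ⟨7, 76, 196⟩) exNo A.u20 218103808 218103808 268435456 268435456 805306368 268435456 = true := chkB rfl A.d16 A.d19

def A.u21 : Tr := .B A.t23 A.t24
theorem A.d21 : Tr.chk (leaf fun A => gA A ⟨7, 76, 196⟩) exNo A.u21 545259520 109051904 134217728 134217728 671088640 134217728 = true := chkB rfl A.c23 A.c24

def A.u22 : Tr := .C A.t25 A.t26
theorem A.d22 : Tr.chk (leaf fun A => gA A ⟨7, 76, 196⟩) exNo A.u22 763363328 109051904 67108864 67108864 671088640 134217728 = true := chkC rfl A.c25 A.c26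

def A.u23 : Tr := .B A.u22 A.t27
theorem A.d23 : Tr.chk (leaf fun A => gA A ⟨7, 76, 196⟩) exNo A.u23 763363328 109051904 134217728 134217728 671088640 134217728 = true := chkB rfl A.d22 A.c27

def A.u24 : Tr := .A A.u21 A.u23
theorem A.d24 : Tr.chk (leaf fun A => gA A ⟨7, 76, 196⟩) exNo A.u24 654311424 218103808 134217728 134217728 671088640 134217728 = true := chkA rfl A.d21 A.d23

def A.u25 : Tr := .A A.t28 A.t29
theorem A.d25 : Tr.chk (leaf fun A => gA A ⟨7, 76, 196⟩) exNo A.u25 654311424 218103808 67108864 67108864 872415232 67108864 = true := chkA rfl A.c28 A.c29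

def A.u26 : Tr := .C A.t30 A.t31
theorem A.d26 : Tr.chk (leaf fun A => gA A ⟨7, 76, 196⟩) exNo A.u26 654311424 218103808 67108864 67108864 1006632960 67108864 = true := chkC rfl A.c30 A.c31

def A.u27 : Tr := .C A.u25 A.u26
theorem A.d27 : Tr.chk (leaf fun A => gA A ⟨7, 76, 196⟩) exNo A.u27 654311424 218103808 67108864 67108864 939524096 134217728 = true := chkC rfl A.d25 A.d26

def A.u28 : Tr := .C A.t33 A.t34
theorem A.d28 : Tr.chk (leaf fun A => gA A ⟨7, 76, 196⟩) exNo A.u28 763363328 109051904 201326592 67108864 939524096 134217728 = true := chkC rfl A.c33 A.c34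

def A.u29 : Tr := .A A.t32 A.u28
theorem A.d29 : Tr.chk (leaf fun A => gA A ⟨7, 76, 196⟩) exNo A.u29 654311424 218103808 201326592 67108864 939524096 134217728 = true := chkA rfl A.c32 A.d28

def A.u30 : Tr := .B A.u27 A.u29
theorem A.d30 : Tr.chk (leaf fun A => gA A ⟨7, 76, 196⟩) exNo A.u30 654311424 218103808 134217728 134217728 939524096 134217728 = true := chkB rfl A.d27 A.d29

def A.u31 : Tr := .C A.u24 A.u30
theorem A.d31 : Tr.chk (leaf fun A => gA A ⟨7, 76, 196⟩) exNo A.u31 654311424 218103808 134217728 134217728 805306368 268435456 = true := chkC rfl A.d24 A.d30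

def A.u32 : Tr := .A A.t35 A.t36
theorem A.d32 : Tr.chk (leaf fun A => gA A ⟨7, 76, 196⟩) exNo A.u32 654311424 218103808 402653184 134217728 671088640 134217728 = true := chkA rfl A.c35 A.c36

def A.u33 : Tr := .A A.t39 A.t40
theorem A.d33 : Tr.chk (leaf fun A => gA A ⟨7, 76, 196⟩) exNo A.u33 817889280 54525952 335544320 67108864 939524096 134217728 = true := chkA rfl A.c39 A.c40

def A.u34 : Tr := .A A.t38 A.u33
theorem A.d34 : Tr.chk (leaf fun A => gA A ⟨7, 76, 196⟩) exNo A.u34 763363328 109051904 335544320 67108864 939524096 134217728 = true := chkA rfl A.c38 A.d33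

def A.u35 : Tr := .C A.t41 A.t42
theorem A.d35 : Tr.chk (leaf fun A => gA A ⟨7, 76, 196⟩) exNo A.u35 763363328 109051904 469762048 67108864 939524096 134217728 = true := chkC rfl A.c41 A.c42

def A.u36 : Tr := .B A.u34 A.u35
theorem A.d36 : Tr.chk (leaf fun A => gA A ⟨7, 76, 196⟩) exNo A.u36 763363328 109051904 402653184 134217728 939524096 134217728 = true := chkB rfl A.d34 A.d35

def A.u37 : Tr := .A A.t37 A.u36
theorem A.d37 : Tr.chk (leaf fun A => gA A ⟨7, 76, 196⟩) exNo A.u37 654311424 218103808 402653184 134217728 939524096 134217728 = true := chkA rfl A.c37 A.d36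

def A.u38 : Tr := .C A.u32 A.u37
theorem A.d38 : Tr.chk (leaf fun A => gA A ⟨7, 76, 196⟩) exNo A.u38 654311424 218103808 402653184 134217728 805306368 268435456 = true := chkC rfl A.d32 A.d37

def A.u39 : Tr := .B A.u31 A.u38
theorem A.d39 : Tr.chk (leaf fun A => gA A ⟨7, 76, 196⟩) exNo A.u39 654311424 218103808 268435456 268435456 805306368 268435456 = true := chkB rfl A.d31 A.d38

def A.u40 : Tr := .A A.u20 A.u39
theorem A.d40 : Tr.chk (leaf fun A => gA A ⟨7, 76, 196⟩) exNo A.u40 436207616 436207616 268435456 268435456 805306368 268435456 = true := chkA rfl A.d20 A.d39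

def A.u41 : Tr := .C A.u10 A.u40
theorem A.d41 : Tr.chk (leaf fun A => gA A ⟨7, 76, 196⟩) exNo A.u41 436207616 436207616 268435456 268435456 536870912 536870912 = true := chkC rfl A.d10 A.d40

def A.u42 : Tr := .B A.t45 A.t46
theorem A.d42 : Tr.chk (leaf fun A => gA A ⟨7, 76, 196⟩) exNo A.u42 218103808 218103808 671088640 134217728 469762048 67108864 = true := chkB rfl A.c45 A.c46

def A.u43 : Tr := .B A.u42 A.t47
theorem A.d43 : Tr.chk (leaf fun A => gA A ⟨7, 76, 196⟩) exNo A.u43 218103808 218103808 805306368 268435456 469762048 67108864 = true := chkB rfl A.d42 A.c47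

def A.u44 : Tr := .C A.t44 A.u43
theorem A.d44 : Tr.chk (leaf fun A => gA A ⟨7, 76, 196⟩) exNo A.u44 218103808 218103808 805306368 268435456 402653184 134217728 = true := chkC rfl A.c44 A.d43

def A.u45 : Tr := .C A.t43 A.u44
theorem A.d45 : Tr.chk (leaf fun A => gA A ⟨7, 76, 196⟩) exNo A.u45 218103808 218103808 805306368 268435456 268435456 268435456 = true := chkC rfl A.c43 A.d44

def A.u46 : Tr := .C A.t49 A.t50
theorem A.d46 : Tr.chk (leaf fun A => gA A ⟨7, 76, 196⟩) exNo A.u46 654311424 218103808 939524096 134217728 268435456 268435456 = true := chkC rfl A.c49 A.c50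

def A.u47 : Tr := .B A.t48 A.u46
theorem A.d47 : Tr.chk (leaf fun A => gA A ⟨7, 76, 196⟩) exNo A.u47 654311424 218103808 805306368 268435456 268435456 268435456 = true := chkB rfl A.c48 A.d46

def A.u48 : Tr := .A A.u45 A.u47
theorem A.d48 : Tr.chk (leaf fun A => gA A ⟨7, 76, 196⟩) exNo A.u48 436207616 436207616 805306368 268435456 268435456 268435456 = true := chkA rfl A.d45 A.d47

def A.u49 : Tr := .A A.t53 A.t54
theorem A.d49 : Tr.chk (leaf fun A => gA A ⟨7, 76, 196⟩) exNo A.u49 218103808 218103808 671088640 134217728 1006632960 67108864 = true := chkA rfl A.c53 A.c54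

def A.u50 : Tr := .C A.t52 A.u49
theorem A.d50 : Tr.chk (leaf fun A => gA A ⟨7, 76, 196⟩) exNo A.u50 218103808 218103808 671088640 134217728 939524096 134217728 = true := chkC rfl A.c52 A.d49

def A.u51 : Tr := .C A.t51 A.u50
theorem A.d51 : Tr.chk (leaf fun A => gA A ⟨7, 76, 196⟩) exNo A.u51 218103808 218103808 671088640 134217728 805306368 268435456 = true := chkC rfl A.c51 A.d50

def A.u52 : Tr := .A A.t56 A.t57
theorem A.d52 : Tr.chk (leaf fun A => gA A ⟨7, 76, 196⟩) exNo A.u52 218103808 218103808 939524096 134217728 939524096 134217728 = true := chkA rfl A.c56 A.c57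

def A.u53 : Tr := .C A.t55 A.u52
theorem A.d53 : Tr.chk (leaf fun A => gA A ⟨7, 76, 196⟩) exNo A.u53 218103808 218103808 939524096 134217728 805306368 268435456 = true := chkC rfl A.c55 A.d52

def A.u54 : Tr := .B A.u51 A.u53
theorem A.d54 : Tr.chk (leaf fun A => gA A ⟨7, 76, 196⟩) exNo A.u54 218103808 218103808 805306368 268435456 805306368 268435456 = true := chkB rfl A.d51 A.d53

def A.u55 : Tr := .B A.t60 A.t61
theorem A.d55 : Tr.chk (leaf fun A => gA A ⟨7, 76, 196⟩) exNo A.u55 599785472 54525952 671088640 134217728 939524096 134217728 = true := chkB rfl A.c60 A.c61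

def A.u56 : Tr := .A A.t59 A.u55
theorem A.d56 : Tr.chk (leaf fun A => gA A ⟨7, 76, 196⟩) exNo A.u56 545259520 109051904 671088640 134217728 939524096 134217728 = true := chkA rfl A.c59 A.d55

def A.u57 : Tr := .C A.t62 A.t63
theorem A.d57 : Tr.chk (leaf fun A => gA A ⟨7, 76, 196⟩) exNo A.u57 763363328 109051904 603979776 67108864 939524096 134217728 = true := chkC rfl A.c62 A.c63

def A.u58 : Tr := .B A.u57 A.t64
theorem A.d58 : Tr.chk (leaf fun A => gA A ⟨7, 76, 196⟩) exNo A.u58 763363328 109051904 671088640 134217728 939524096 134217728 = true := chkB rfl A.d57 A.c64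

def A.u59 : Tr := .A A.u56 A.u58
theorem A.d59 : Tr.chk (leaf fun A => gA A ⟨7, 76, 196⟩) exNo A.u59 654311424 218103808 671088640 134217728 939524096 134217728 = true := chkA rfl A.d56 A.d58

def A.u60 : Tr := .C A.t58 A.u59
theorem A.d60 : Tr.chk (leaf fun A => gA A ⟨7, 76, 196⟩) exNo A.u60 654311424 218103808 671088640 134217728 805306368 268435456 = true := chkC rfl A.c58 A.d59

def A.u61 : Tr := .C A.t66 A.t67
theorem A.d61 : Tr.chk (leaf fun A => gA A ⟨7, 76, 196⟩) exNo A.u61 545259520 109051904 872415232 67108864 939524096 134217728 = true := chkC rfl A.c66 A.c67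

def A.u62 : Tr := .B A.t70 A.t71
theorem A.d62 : Tr.chk (leaf fun A => gA A ⟨7, 76, 196⟩) exNo A.u62 599785472 54525952 1006632960 67108864 1006632960 67108864 = true := chkB rfl A.c70 A.c71

def A.u63 : Tr := .A A.t69 A.u62
theorem A.d63 : Tr.chk (leaf fun A => gA A ⟨7, 76, 196⟩) exNo A.u63 545259520 109051904 1006632960 67108864 1006632960 67108864 = true := chkA rfl A.c69 A.d62

def A.u64 : Tr := .C A.t68 A.u63
theorem A.d64 : Tr.chk (leaf fun A => gA A ⟨7, 76, 196⟩) exNo A.u64 545259520 109051904 1006632960 67108864 939524096 134217728 = true := chkC rfl A.c68 A.d63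

def A.u65 : Tr := .B A.u61 A.u64
theorem A.d65 : Tr.chk (leaf fun A => gA A ⟨7, 76, 196⟩) exNo A.u65 545259520 109051904 939524096 134217728 939524096 134217728 = true := chkB rfl A.d61 A.d64

def A.u66 : Tr := .A A.u65 A.t72
theorem A.d66 : Tr.chk (leaf fun A => gA A ⟨7, 76, 196⟩) exNo A.u66 654311424 218103808 939524096 134217728 939524096 134217728 = true := chkA rfl A.d65 A.c72

def A.u67 : Tr := .C A.t65 A.u66
theorem A.d67 : Tr.chk (leaf fun A => gA A ⟨7, 76, 196⟩) exNo A.u67 654311424 218103808 939524096 134217728 805306368 268435456 = true := chkC rfl A.c65 A.d66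

def A.u68 : Tr := .B A.u60 A.u67
theorem A.d68 : Tr.chk (leaf fun A => gA A ⟨7, 76, 196⟩) exNo A.u68 654311424 218103808 805306368 268435456 805306368 268435456 = true := chkB rfl A.d60 A.d67

def A.u69 : Tr := .A A.u54 A.u68
theorem A.d69 : Tr.chk (leaf fun A => gA A ⟨7, 76, 196⟩) exNo A.u69 436207616 436207616 805306368 268435456 805306368 268435456 = true := chkA rfl A.d54 A.d68

def A.u70 : Tr := .C A.u48 A.u69
theorem A.d70 : Tr.chk (leaf fun A => gA A ⟨7, 76, 196⟩) exNo A.u70 436207616 436207616 805306368 268435456 536870912 536870912 = true := chkC rfl A.d48 A.d69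

def A.u71 : Tr := .B A.u41 A.u70
theorem A.d71 : Tr.chk (leaf fun A => gA A ⟨7, 76, 196⟩) exNo A.u71 436207616 436207616 536870912 536870912 536870912 536870912 = true := chkB rfl A.d41 A.d70

/-- the region A -/
theorem A.all : ∃ t, Tr.chk (leaf fun A => gA A ⟨7, 76, 196⟩) exNo t 436207616 436207616 536870912 536870912 536870912 536870912 = true := ⟨A.u71, A.d71⟩

def B.u0 : Tr := .B B.t0 B.t1
theorem B.d0 : Tr.chk (leaf fun A => gB A ⟨7, 76, 196⟩) exNo B.u0 218103808 218103808 268435456 268435456 268435456 268435456 = true := chkB rfl B.c0 B.c1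

def B.u1 : Tr := .C B.t2 B.t3
theorem B.d1 : Tr.chk (leaf fun A => gB A ⟨7, 76, 196⟩) exNo B.u1 654311424 218103808 134217728 134217728 268435456 268435456 = true := chkC rfl B.c2 B.c3

def B.u2 : Tr := .C B.t5 B.t6
theorem B.d2 : Tr.chk (leaf fun A => gB A ⟨7, 76, 196⟩) exNo B.u2 545259520 109051904 469762048 67108864 134217728 134217728 = true := chkC rfl B.c5 B.c6

def B.u3 : Tr := .B B.t4 B.u2
theorem B.d3 : Tr.chk (leaf fun A => gB A ⟨7, 76, 196⟩) exNo B.u3 545259520 109051904 402653184 134217728 134217728 134217728 = true := chkB rfl B.c4 B.d2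

def B.u4 : Tr := .A B.u3 B.t7
theorem B.d4 : Tr.chk (leaf fun A => gB A ⟨7, 76, 196⟩) exNo B.u4 654311424 218103808 402653184 134217728 134217728 134217728 = true := chkA rfl B.d3 B.c7

def B.u5 : Tr := .C B.u4 B.t8
theorem B.d5 : Tr.chk (leaf fun A => gB A ⟨7, 76, 196⟩) exNo B.u5 654311424 218103808 402653184 134217728 268435456 268435456 = true := chkC rfl B.d4 B.c8

def B.u6 : Tr := .B B.u1 B.u5
theorem B.d6 : Tr.chk (leaf fun A => gB A ⟨7, 76, 196⟩) exNo B.u6 654311424 218103808 268435456 268435456 268435456 268435456 = true := chkB rfl B.d1 B.d5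

def B.u7 : Tr := .A B.u0 B.u6
theorem B.d7 : Tr.chk (leaf fun A => gB A ⟨7, 76, 196⟩) exNo B.u7 436207616 436207616 268435456 268435456 268435456 268435456 = true := chkA rfl B.d0 B.d6

def B.u8 : Tr := .C B.t9 B.t10
theorem B.d8 : Tr.chk (leaf fun A => gB A ⟨7, 76, 196⟩) exNo B.u8 218103808 218103808 134217728 134217728 805306368 268435456 = true := chkC rfl B.c9 B.c10

def B.u9 : Tr := .C B.t11 B.t12
theorem B.d9 : Tr.chk (leaf fun A => gB A ⟨7, 76, 196⟩) exNo B.u9 218103808 218103808 402653184 134217728 805306368 268435456 = true := chkC rfl B.c11 B.c12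

def B.u10 : Tr := .B B.u8 B.u9
theorem B.d10 : Tr.chk (leaf fun A => gB A ⟨7, 76, 196⟩) exNo B.u10 218103808 218103808 268435456 268435456 805306368 268435456 = true := chkB rfl B.d8 B.d9

def B.u11 : Tr := .A B.t14 B.t15
theorem B.d11 : Tr.chk (leaf fun A => gB A ⟨7, 76, 196⟩) exNo B.u11 654311424 218103808 134217728 134217728 939524096 134217728 = true := chkA rfl B.c14 B.c15

def B.u12 : Tr := .C B.t13 B.u11
theorem B.d12 : Tr.chk (leaf fun A => gB A ⟨7, 76, 196⟩) exNo B.u12 654311424 218103808 134217728 134217728 805306368 268435456 = true := chkC rfl B.c13 B.d11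

def B.u13 : Tr := .B B.t16 B.t17
theorem B.d13 : Tr.chk (leaf fun A => gB A ⟨7, 76, 196⟩) exNo B.u13 545259520 109051904 402653184 134217728 671088640 134217728 = true := chkB rfl B.c16 B.c17

def B.u14 : Tr := .A B.u13 B.t18
theorem B.d14 : Tr.chk (leaf fun A => gB A ⟨7, 76, 196⟩) exNo B.u14 654311424 218103808 402653184 134217728 671088640 134217728 = true := chkA rfl B.d13 B.c18

def B.u15 : Tr := .B B.t19 B.t20
theorem B.d15 : Tr.chk (leaf fun A => gB A ⟨7, 76, 196⟩) exNo B.u15 545259520 109051904 402653184 134217728 939524096 134217728 = true := chkB rfl B.c19 B.c20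

def B.u16 : Tr := .A B.u15 B.t21
theorem B.d16 : Tr.chk (leaf fun A => gB A ⟨7, 76, 196⟩) exNo B.u16 654311424 218103808 402653184 134217728 939524096 134217728 = true := chkA rfl B.d15 B.c21

def B.u17 : Tr := .C B.u14 B.u16
theorem B.d17 : Tr.chk (leaf fun A => gB A ⟨7, 76, 196⟩) exNo B.u17 654311424 218103808 402653184 134217728 805306368 268435456 = true := chkC rfl B.d14 B.d16

def B.u18 : Tr := .B B.u12 B.u17
theorem B.d18 : Tr.chk (leaf fun A => gB A ⟨7, 76, 196⟩) exNo B.u18 654311424 218103808 268435456 268435456 805306368 268435456 = true := chkB rfl B.d12 B.d17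

def B.u19 : Tr := .A B.u10 B.u18
theorem B.d19 : Tr.chk (leaf fun A => gB A ⟨7, 76, 196⟩) exNo B.u19 436207616 436207616 268435456 268435456 805306368 268435456 = true := chkA rfl B.d10 B.d18

def B.u20 : Tr := .C B.u7 B.u19
theorem B.d20 : Tr.chk (leaf fun A => gB A ⟨7, 76, 196⟩) exNo B.u20 436207616 436207616 268435456 268435456 536870912 536870912 = true := chkC rfl B.d7 B.d19

def B.u21 : Tr := .A B.t23 B.t24
theorem B.d21 : Tr.chk (leaf fun A => gB A ⟨7, 76, 196⟩) exNo B.u21 327155712 109051904 671088640 134217728 134217728 134217728 = true := chkA rfl B.c23 B.c24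

def B.u22 : Tr := .A B.t22 B.u21
theorem B.d22 : Tr.chk (leaf fun A => gB A ⟨7, 76, 196⟩) exNo B.u22 218103808 218103808 671088640 134217728 134217728 134217728 = true := chkA rfl B.c22 B.d21

def B.u23 : Tr := .C B.u22 B.t25
theorem B.d23 : Tr.chk (leaf fun A => gB A ⟨7, 76, 196⟩) exNo B.u23 218103808 218103808 671088640 134217728 268435456 268435456 = true := chkC rfl B.d22 B.c25

def B.u24 : Tr := .C B.t27 B.t28
theorem B.d24 : Tr.chk (leaf fun A => gB A ⟨7, 76, 196⟩) exNo B.u24 327155712 109051904 872415232 67108864 134217728 134217728 = true := chkC rfl B.c27 B.c28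

def B.u25 : Tr := .C B.t29 B.t30
theorem B.d25 : Tr.chk (leaf fun A => gB A ⟨7, 76, 196⟩) exNo B.u25 327155712 109051904 1006632960 67108864 134217728 134217728 = true := chkC rfl B.c29 B.c30

def B.u26 : Tr := .B B.u24 B.u25
theorem B.d26 : Tr.chk (leaf fun A => gB A ⟨7, 76, 196⟩) exNo B.u26 327155712 109051904 939524096 134217728 134217728 134217728 = true := chkB rfl B.d24 B.d25

def B.u27 : Tr := .A B.t26 B.u26
theorem B.d27 : Tr.chk (leaf fun A => gB A ⟨7, 76, 196⟩) exNo B.u27 218103808 218103808 939524096 134217728 134217728 134217728 = true := chkA rfl B.c26 B.d26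

def B.u28 : Tr := .B B.t32 B.t33
theorem B.d28 : Tr.chk (leaf fun A => gB A ⟨7, 76, 196⟩) exNo B.u28 327155712 109051904 939524096 134217728 402653184 134217728 = true := chkB rfl B.c32 B.c33

def B.u29 : Tr := .A B.t31 B.u28
theorem B.d29 : Tr.chk (leaf fun A => gB A ⟨7, 76, 196⟩) exNo B.u29 218103808 218103808 939524096 134217728 402653184 134217728 = true := chkA rfl B.c31 B.d28

def B.u30 : Tr := .C B.u27 B.u29
theorem B.d30 : Tr.chk (leaf fun A => gB A ⟨7, 76, 196⟩) exNo B.u30 218103808 218103808 939524096 134217728 268435456 268435456 = true := chkC rfl B.d27 B.d29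

def B.u31 : Tr := .B B.u23 B.u30
theorem B.d31 : Tr.chk (leaf fun A => gB A ⟨7, 76, 196⟩) exNo B.u31 218103808 218103808 805306368 268435456 268435456 268435456 = true := chkB rfl B.d23 B.d30

def B.u32 : Tr := .A B.t35 B.t36
theorem B.d32 : Tr.chk (leaf fun A => gB A ⟨7, 76, 196⟩) exNo B.u32 654311424 218103808 671088640 134217728 402653184 134217728 = true := chkA rfl B.c35 B.c36

def B.u33 : Tr := .C B.t34 B.u32
theorem B.d33 : Tr.chk (leaf fun A => gB A ⟨7, 76, 196⟩) exNo B.u33 654311424 218103808 671088640 134217728 268435456 268435456 = true := chkC rfl B.c34 B.d32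

def B.u34 : Tr := .B B.u33 B.t37
theorem B.d34 : Tr.chk (leaf fun A => gB A ⟨7, 76, 196⟩) exNo B.u34 654311424 218103808 805306368 268435456 268435456 268435456 = true := chkB rfl B.d33 B.c37

def B.u35 : Tr := .A B.u31 B.u34
theorem B.d35 : Tr.chk (leaf fun A => gB A ⟨7, 76, 196⟩) exNo B.u35 436207616 436207616 805306368 268435456 268435456 268435456 = true := chkA rfl B.d31 B.d34

def B.u36 : Tr := .C B.t38 B.t39
theorem B.d36 : Tr.chk (leaf fun A => gB A ⟨7, 76, 196⟩) exNo B.u36 218103808 218103808 671088640 134217728 805306368 268435456 = true := chkC rfl B.c38 B.c39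

def B.u37 : Tr := .A B.t40 B.t41
theorem B.d37 : Tr.chk (leaf fun A => gB A ⟨7, 76, 196⟩) exNo B.u37 218103808 218103808 939524096 134217728 671088640 134217728 = true := chkA rfl B.c40 B.c41

def B.u38 : Tr := .C B.u37 B.t42
theorem B.d38 : Tr.chk (leaf fun A => gB A ⟨7, 76, 196⟩) exNo B.u38 218103808 218103808 939524096 134217728 805306368 268435456 = true := chkC rfl B.d37 B.c42

def B.u39 : Tr := .B B.u36 B.u38
theorem B.d39 : Tr.chk (leaf fun A => gB A ⟨7, 76, 196⟩) exNo B.u39 218103808 218103808 805306368 268435456 805306368 268435456 = true := chkB rfl B.d36 B.d38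

def B.u40 : Tr := .B B.t44 B.t45
theorem B.d40 : Tr.chk (leaf fun A => gB A ⟨7, 76, 196⟩) exNo B.u40 545259520 109051904 671088640 134217728 939524096 134217728 = true := chkB rfl B.c44 B.c45

def B.u41 : Tr := .A B.u40 B.t46
theorem B.d41 : Tr.chk (leaf fun A => gB A ⟨7, 76, 196⟩) exNo B.u41 654311424 218103808 671088640 134217728 939524096 134217728 = true := chkA rfl B.d40 B.c46

def B.u42 : Tr := .C B.t43 B.u41
theorem B.d42 : Tr.chk (leaf fun A => gB A ⟨7, 76, 196⟩) exNo B.u42 654311424 218103808 671088640 134217728 805306368 268435456 = true := chkC rfl B.c43 B.d41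

def B.u43 : Tr := .C B.t48 B.t49
theorem B.d43 : Tr.chk (leaf fun A => gB A ⟨7, 76, 196⟩) exNo B.u43 545259520 109051904 1006632960 67108864 671088640 134217728 = true := chkC rfl B.c48 B.c49

def B.u44 : Tr := .B B.t47 B.u43
theorem B.d44 : Tr.chk (leaf fun A => gB A ⟨7, 76, 196⟩) exNo B.u44 545259520 109051904 939524096 134217728 671088640 134217728 = true := chkB rfl B.c47 B.d43

def B.u45 : Tr := .A B.u44 B.t50
theorem B.d45 : Tr.chk (leaf fun A => gB A ⟨7, 76, 196⟩) exNo B.u45 654311424 218103808 939524096 134217728 671088640 134217728 = true := chkA rfl B.d44 B.c50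

def B.u46 : Tr := .C B.t52 B.t53
theorem B.d46 : Tr.chk (leaf fun A => gB A ⟨7, 76, 196⟩) exNo B.u46 545259520 109051904 1006632960 67108864 939524096 134217728 = true := chkC rfl B.c52 B.c53

def B.u47 : Tr := .B B.t51 B.u46
theorem B.d47 : Tr.chk (leaf fun A => gB A ⟨7, 76, 196⟩) exNo B.u47 545259520 109051904 939524096 134217728 939524096 134217728 = true := chkB rfl B.c51 B.d46

def B.u48 : Tr := .A B.u47 B.t54
theorem B.d48 : Tr.chk (leaf fun A => gB A ⟨7, 76, 196⟩) exNo B.u48 654311424 218103808 939524096 134217728 939524096 134217728 = true := chkA rfl B.d47 B.c54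

def B.u49 : Tr := .C B.u45 B.u48
theorem B.d49 : Tr.chk (leaf fun A => gB A ⟨7, 76, 196⟩) exNo B.u49 654311424 218103808 939524096 134217728 805306368 268435456 = true := chkC rfl B.d45 B.d48

def B.u50 : Tr := .B B.u42 B.u49
theorem B.d50 : Tr.chk (leaf fun A => gB A ⟨7, 76, 196⟩) exNo B.u50 654311424 218103808 805306368 268435456 805306368 268435456 = true := chkB rfl B.d42 B.d49

def B.u51 : Tr := .A B.u39 B.u50
theorem B.d51 : Tr.chk (leaf fun A => gB A ⟨7, 76, 196⟩) exNo B.u51 436207616 436207616 805306368 268435456 805306368 268435456 = true := chkA rfl B.d39 B.d50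

def B.u52 : Tr := .C B.u35 B.u51
theorem B.d52 : Tr.chk (leaf fun A => gB A ⟨7, 76, 196⟩) exNo B.u52 436207616 436207616 805306368 268435456 536870912 536870912 = true := chkC rfl B.d35 B.d51

def B.u53 : Tr := .B B.u20 B.u52
theorem B.d53 : Tr.chk (leaf fun A => gB A ⟨7, 76, 196⟩) exNo B.u53 436207616 436207616 536870912 536870912 536870912 536870912 = true := chkB rfl B.d20 B.d52

/-- the region B -/
theorem B.all : ∃ t, Tr.chk (leaf fun A => gB A ⟨7, 76, 196⟩) exNo t 436207616 436207616 536870912 536870912 536870912 536870912 = true := ⟨B.u53, B.d53⟩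

def V.u0 : Tr := .A V.t0 V.t1
theorem V.d0 : Tr.chk (leaf fun A => gV A ⟨7, 76, 196⟩) exV V.u0 268435456 268435456 268435456 268435456 268435456 268435456 = true := chkA rfl V.c0 V.c1

def V.u1 : Tr := .C V.u0 V.t2
theorem V.d1 : Tr.chk (leaf fun A => gV A ⟨7, 76, 196⟩) exV V.u1 268435456 268435456 268435456 268435456 536870912 536870912 = true := chkC rfl V.d0 V.c2

def V.u2 : Tr := .C V.t4 V.t5
theorem V.d2 : Tr.chk (leaf fun A => gV A ⟨7, 76, 196⟩) exV V.u2 134217728 134217728 939524096 134217728 268435456 268435456 = true := chkC rfl V.c4 V.c5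

def V.u3 : Tr := .B V.t3 V.u2
theorem V.d3 : Tr.chk (leaf fun A => gV A ⟨7, 76, 196⟩) exV V.u3 134217728 134217728 805306368 268435456 268435456 268435456 = true := chkB rfl V.c3 V.d2

def V.u4 : Tr := .A V.u3 V.t6
theorem V.d4 : Tr.chk (leaf fun A => gV A ⟨7, 76, 196⟩) exV V.u4 268435456 268435456 805306368 268435456 268435456 268435456 = true := chkA rfl V.d3 V.c6

def V.u5 : Tr := .C V.t10 V.t11
theorem V.d5 : Tr.chk (leaf fun A => gV A ⟨7, 76, 196⟩) exV V.u5 134217728 134217728 1006632960 67108864 939524096 134217728 = true := chkC rfl V.c10 V.c11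

def V.u6 : Tr := .B V.t9 V.u5
theorem V.d6 : Tr.chk (leaf fun A => gV A ⟨7, 76, 196⟩) exV V.u6 134217728 134217728 939524096 134217728 939524096 134217728 = true := chkB rfl V.c9 V.d5

def V.u7 : Tr := .C V.t8 V.u6
theorem V.d7 : Tr.chk (leaf fun A => gV A ⟨7, 76, 196⟩) exV V.u7 134217728 134217728 939524096 134217728 805306368 268435456 = true := chkC rfl V.c8 V.d6

def V.u8 : Tr := .B V.t7 V.u7
theorem V.d8 : Tr.chk (leaf fun A => gV A ⟨7, 76, 196⟩) exV V.u8 134217728 134217728 805306368 268435456 805306368 268435456 = true := chkB rfl V.c7 V.d7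

def V.u9 : Tr := .B V.t12 V.t13
theorem V.d9 : Tr.chk (leaf fun A => gV A ⟨7, 76, 196⟩) exV V.u9 402653184 134217728 805306368 268435456 805306368 268435456 = true := chkB rfl V.c12 V.c13

def V.u10 : Tr := .A V.u8 V.u9
theorem V.d10 : Tr.chk (leaf fun A => gV A ⟨7, 76, 196⟩) exV V.u10 268435456 268435456 805306368 268435456 805306368 268435456 = true := chkA rfl V.d8 V.d9

def V.u11 : Tr := .C V.u4 V.u10
theorem V.d11 : Tr.chk (leaf fun A => gV A ⟨7, 76, 196⟩) exV V.u11 268435456 268435456 805306368 268435456 536870912 536870912 = true := chkC rfl V.d4 V.d10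

def V.u12 : Tr := .B V.u1 V.u11
theorem V.d12 : Tr.chk (leaf fun A => gV A ⟨7, 76, 196⟩) exV V.u12 268435456 268435456 536870912 536870912 536870912 536870912 = true := chkB rfl V.d1 V.d11

def V.u13 : Tr := .C V.t15 V.t16
theorem V.d13 : Tr.chk (leaf fun A => gV A ⟨7, 76, 196⟩) exV V.u13 939524096 134217728 134217728 134217728 134217728 134217728 = true := chkC rfl V.c15 V.c16

def V.u14 : Tr := .C V.u13 V.t17
theorem V.d14 : Tr.chk (leaf fun A => gV A ⟨7, 76, 196⟩) exV V.u14 939524096 134217728 134217728 134217728 268435456 268435456 = true := chkC rfl V.d13 V.c17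

def V.u15 : Tr := .B V.u14 V.t18
theorem V.d15 : Tr.chk (leaf fun A => gV A ⟨7, 76, 196⟩) exV V.u15 939524096 134217728 268435456 268435456 268435456 268435456 = true := chkB rfl V.d14 V.c18

def V.u16 : Tr := .A V.t14 V.u15
theorem V.d16 : Tr.chk (leaf fun A => gV A ⟨7, 76, 196⟩) exV V.u16 805306368 268435456 268435456 268435456 268435456 268435456 = true := chkA rfl V.c14 V.d15

def V.u17 : Tr := .C V.t21 V.t22
theorem V.d17 : Tr.chk (leaf fun A => gV A ⟨7, 76, 196⟩) exV V.u17 939524096 134217728 402653184 134217728 805306368 268435456 = true := chkC rfl V.c21 V.c22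

def V.u18 : Tr := .B V.t20 V.u17
theorem V.d18 : Tr.chk (leaf fun A => gV A ⟨7, 76, 196⟩) exV V.u18 939524096 134217728 268435456 268435456 805306368 268435456 = true := chkB rfl V.c20 V.d17

def V.u19 : Tr := .A V.t19 V.u18
theorem V.d19 : Tr.chk (leaf fun A => gV A ⟨7, 76, 196⟩) exV V.u19 805306368 268435456 268435456 268435456 805306368 268435456 = true := chkA rfl V.c19 V.d18

def V.u20 : Tr := .C V.u16 V.u19
theorem V.d20 : Tr.chk (leaf fun A => gV A ⟨7, 76, 196⟩) exV V.u20 805306368 268435456 268435456 268435456 536870912 536870912 = true := chkC rfl V.d16 V.d19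

def V.u21 : Tr := .C V.t24 V.t25
theorem V.d21 : Tr.chk (leaf fun A => gV A ⟨7, 76, 196⟩) exV V.u21 671088640 134217728 671088640 134217728 805306368 268435456 = true := chkC rfl V.c24 V.c25

def V.u22 : Tr := .B V.u21 V.t26
theorem V.d22 : Tr.chk (leaf fun A => gV A ⟨7, 76, 196⟩) exV V.u22 671088640 134217728 805306368 268435456 805306368 268435456 = true := chkB rfl V.d21 V.c26

def V.u23 : Tr := .B V.t28 V.t29
theorem V.d23 : Tr.chk (leaf fun A => gV A ⟨7, 76, 196⟩) exV V.u23 939524096 134217728 603979776 67108864 939524096 134217728 = true := chkB rfl V.c28 V.c29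

def V.u24 : Tr := .B V.u23 V.t30
theorem V.d24 : Tr.chk (leaf fun A => gV A ⟨7, 76, 196⟩) exV V.u24 939524096 134217728 671088640 134217728 939524096 134217728 = true := chkB rfl V.d23 V.c30

def V.u25 : Tr := .C V.t27 V.u24
theorem V.d25 : Tr.chk (leaf fun A => gV A ⟨7, 76, 196⟩) exV V.u25 939524096 134217728 671088640 134217728 805306368 268435456 = true := chkC rfl V.c27 V.d24

def V.u26 : Tr := .B V.u25 V.t31
theorem V.d26 : Tr.chk (leaf fun A => gV A ⟨7, 76, 196⟩) exV V.u26 939524096 134217728 805306368 268435456 805306368 268435456 = true := chkB rfl V.d25 V.c31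

def V.u27 : Tr := .A V.u22 V.u26
theorem V.d27 : Tr.chk (leaf fun A => gV A ⟨7, 76, 196⟩) exV V.u27 805306368 268435456 805306368 268435456 805306368 268435456 = true := chkA rfl V.d22 V.d26

def V.u28 : Tr := .C V.t23 V.u27
theorem V.d28 : Tr.chk (leaf fun A => gV A ⟨7, 76, 196⟩) exV V.u28 805306368 268435456 805306368 268435456 536870912 536870912 = true := chkC rfl V.c23 V.d27

def V.u29 : Tr := .B V.u20 V.u28
theorem V.d29 : Tr.chk (leaf fun A => gV A ⟨7, 76, 196⟩) exV V.u29 805306368 268435456 536870912 536870912 536870912 536870912 = true := chkB rfl V.d20 V.d28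

def V.u30 : Tr := .A V.u12 V.u29
theorem V.d30 : Tr.chk (leaf fun A => gV A ⟨7, 76, 196⟩) exV V.u30 536870912 536870912 536870912 536870912 536870912 536870912 = true := chkA rfl V.d12 V.d29

/-- the region V -/
theorem V.all : ∃ t, Tr.chk (leaf fun A => gV A ⟨7, 76, 196⟩) exV t 536870912 536870912 536870912 536870912 536870912 536870912 = true := ⟨V.u30, V.d30⟩

def HN.u0 : Tr := .C HN.t0 HN.t1
theorem HN.d0 : Tr.chk (leaf fun A => gHN A ⟨7, 76, 196⟩) exNo HN.u0 100663296 100663296 536870912 536870912 268435456 268435456 = true := chkC rfl HN.c0 HN.c1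

def HN.u1 : Tr := .C HN.u0 HN.t2
theorem HN.d1 : Tr.chk (leaf fun A => gHN A ⟨7, 76, 196⟩) exNo HN.u1 100663296 100663296 536870912 536870912 536870912 536870912 = true := chkC rfl HN.d0 HN.c2

/-- the region HN -/
theorem HN.all : ∃ t, Tr.chk (leaf fun A => gHN A ⟨7, 76, 196⟩) exNo t 100663296 100663296 536870912 536870912 536870912 536870912 = true := ⟨HN.u1, HN.d1⟩

/-- the region HP -/
theorem HP.all : ∃ t, Tr.chk (leaf fun A => gHP A ⟨7, 76, 196⟩) exNo t 100663296 100663296 536870912 536870912 536870912 536870912 = true := ⟨HP.t0, HP.c0⟩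

/-- the region HE -/
theorem HE.all : ∃ t, Tr.chk (leaf fun A => gHE A ⟨7, 76, 196⟩) exNo t 100663296 100663296 536870912 536870912 872415232 872415232 = true := ⟨HE.t0, HE.c0⟩

/-- the region SN -/
theorem SN.all : ∃ t, Tr.chk (leafS fun A => fN A ⟨7, 76, 196⟩) exNo t 436207616 436207616 67108864 67108864 536870912 536870912 = true := ⟨SN.t0, SN.c0⟩

/-- the region S1 -/
theorem S1.all : ∃ t, Tr.chk (leafS fun A => fP1 A ⟨7, 76, 196⟩) exNo t 50331648 50331648 67108864 67108864 536870912 536870912 = true := ⟨S1.t0, S1.c0⟩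

/-- the region S2 -/
theorem S2.all : ∃ t, Tr.chk (leafS fun A => fP2 A ⟨7, 76, 196⟩) exNo t 50331648 50331648 50331648 50331648 536870912 536870912 = true := ⟨S2.t0, S2.c0⟩

def F1.u0 : Tr := .C F1.t1 F1.t2
theorem F1.d0 : Tr.chk (leafS fun A => fF1 A ⟨7, 76, 196⟩) exNo F1.u0 679477248 192937984 67108864 67108864 536870912 536870912 = true := chkC rfl F1.c1 F1.c2

def F1.u1 : Tr := .A F1.t0 F1.u0
theorem F1.d1 : Tr.chk (leafS fun A => fF1 A ⟨7, 76, 196⟩) exNo F1.u1 486539264 385875968 67108864 67108864 536870912 536870912 = true := chkA rfl F1.c0 F1.d0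

/-- the region F1 -/
theorem F1.all : ∃ t, Tr.chk (leafS fun A => fF1 A ⟨7, 76, 196⟩) exNo t 486539264 385875968 67108864 67108864 536870912 536870912 = true := ⟨F1.u1, F1.d1⟩

def F2.u0 : Tr := .C F2.t0 F2.t1
theorem F2.d0 : Tr.chk (leafS fun A => fF2 A ⟨7, 76, 196⟩) exNo F2.u0 486539264 385875968 67108864 67108864 536870912 536870912 = true := chkC rfl F2.c0 F2.c1

/-- the region F2 -/
theorem F2.all : ∃ t, Tr.chk (leafS fun A => fF2 A ⟨7, 76, 196⟩) exNo t 486539264 385875968 67108864 67108864 536870912 536870912 = true := ⟨F2.u0, F2.d0⟩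

/-- the region T1 -/
theorem T1.all : ∃ t, Tr.chk (leafS fun A => fV1 A ⟨7, 76, 196⟩) exNo t 536870912 536870912 16777216 16777216 536870912 536870912 = true := ⟨T1.t0, T1.c0⟩

/-- the region T2 -/
theorem T2.all : ∃ t, Tr.chk (leafS fun A => fV2 A ⟨7, 76, 196⟩) exNo t 536870912 536870912 16777216 16777216 536870912 536870912 = true := ⟨T2.t0, T2.c0⟩

/-- the region T3 -/
theorem T3.all : ∃ t, Tr.chk (leafS fun A => fV3 A ⟨7, 76, 196⟩) exNo t 536870912 536870912 16777216 16777216 536870912 536870912 = true := ⟨T3.t0, T3.c0⟩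

theorem chk : Chk ⟨7, 76, 196⟩ :=
  ⟨N.all, A.all, B.all, V.all, HN.all, HP.all, HE.all, SN.all, S1.all, S2.all, F1.all, F2.all, T1.all, T2.all, T3.all⟩

end Pool.Agent.FTN.K7
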