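import Pool.Agent.FTN.Region

set_option maxRecDepth 100000

namespace Pool.Agent.FTN.K7

open Pool.Agent.FTA (TM Alg Tr leaf leafS exNo exV chkA chkB chkC)

def N.t0 : Tr := .C (.A .L (.C .L .L)) (.A .L (.C .L (.C .L .L)))
theorem N.c0 : Tr.chk (leaf fun A => gN A ⟨7, 76, 196⟩) exNo N.t0 218103808 218103808 268435456 268435456 118489088 118489088 = true := by decide +kernel

def N.t1 : Tr := .C (.A .L (.C (.A .L .L) (.A .L .L))) (.A .L (.C (.A .L .L) (.A .L .L)))
theorem N.c1 : Tr.chk (leaf fun A => gN A ⟨7, 76, 196⟩) exNo N.t1 218103808 218103808 268435456 268435456 296222720 59244544 = true := by decide +kernel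

def N.t2 : Tr := .C (.A .L (.C (.A .L .L) (.A .L .L))) (.C (.A .L (.C (.B .L .L) .L)) (.A .L (.C (.B .L .L) (.A .L .L))))
theorem N.c2 : Tr.chk (leaf fun A => gN A ⟨7, 76, 196⟩) exNo N.t2 218103808 218103808 268435456 268435456 414711808 59244544 = true := by decide +kernel

def N.t3 : Tr := .A (.C (.A .L (.C .L .L)) (.C (.A .L (.C .L .L)) (.A .L (.C .L .L)))) .L
theorem N.c3 : Tr.chk (leaf fun A => gN A ⟨7, 76, 196⟩) exNo N.t3 654311424 218103808 134217728 134217728 118489088 118489088 = true := by decide +kernel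

def N.t4 : Tr := .C (.C (.C (.A .L .L) (.A .L .L)) (.A .L (.C .L .L))) (.A (.C .L .L) (.C (.A .L .L) .L))
theorem N.c4 : Tr.chk (leaf fun A => gN A ⟨7, 76, 196⟩) exNo N.t4 545259520 109051904 134217728 134217728 355467264 118489088 = true := by decide +kernel

def N.t5 : Tr := .A (.C .L (.A (.C .L .L) .L)) .L
theorem N.c5 : Tr.chk (leaf fun A => gN A ⟨7, 76, 196⟩) exNo N.t5 763363328 109051904 134217728 134217728 355467264 118489088 = true := by decide +kernel

def N.t6 : Tr := .A (.C (.C .L (.A .L .L)) (.C (.A .L .L) (.C (.A .L .L) (.A .L .L)))) (.A .L .L)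
theorem N.c6 : Tr.chk (leaf fun A => gN A ⟨7, 76, 196⟩) exNo N.t6 654311424 218103808 402653184 134217728 118489088 118489088 = true := by decide +kernel

end Pool.Agent.FTN.K7
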