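import Pool.Agent.FTN.Region

set_option maxRecDepth 100000

namespace Pool.Agent.FTN.K8

open Pool.Agent.FTA (TM Alg Tr leaf leafS exNo exV chkA chkB chkC)

def A.t39 : Tr := .C (.B (.C (.A .L .L) (.B .L .L)) (.A .L (.C .L .L))) (.B (.C (.B .L .L) (.A .L .L)) (.A (.C .L .L) (.B .L .L)))
theorem A.c39 : Tr.chk (leaf fun A => gA A ⟨8, 68, 209⟩) exNo A.t39 545259520 109051904 402653184 134217728 939524096 134217728 = true := by decide +kernel

def A.t40 : Tr := .C (.A .L (.C .L .L)) (.B (.C .L .L) (.A .L .L))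
theorem A.c40 : Tr.chk (leaf fun A => gA A ⟨8, 68, 209⟩) exNo A.t40 708837376 54525952 335544320 67108864 939524096 134217728 = true := by decide +kernel

def A.t41 : Tr := .C (.A (.C .L .L) (.C .L (.B .L .L))) (.A (.C .L .L) (.B (.C .L .L) (.A (.C .L .L) (.B (.C .L .L) .L))))
theorem A.c41 : Tr.chk (leaf fun A => gA A ⟨8, 68, 209⟩) exNo A.t41 790626304 27262976 335544320 67108864 939524096 134217728 = true := by decide +kernel

def A.t42 : Tr := .B (.C .L (.A (.C .L .L) (.B (.A (.C .L .L) (.C .L .L)) .L))) (.A (.C .L (.B (.A (.C .L .L) .L) .L)) .L)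
theorem A.c42 : Tr.chk (leaf fun A => gA A ⟨8, 68, 209⟩) exNo A.t42 845152256 27262976 335544320 67108864 939524096 134217728 = true := by decide +kernel

def A.t43 : Tr := .A (.A (.C .L .L) (.A (.C .L .L) (.C .L (.B .L .L)))) .L
theorem A.c43 : Tr.chk (leaf fun A => gA A ⟨8, 68, 209⟩) exNo A.t43 763363328 109051904 469762048 67108864 872415232 67108864 = true := by decide +kernel

def A.t44 : Tr := .A (.C .L .L) (.A (.C .L .L) (.B (.C .L .L) (.A (.C .L .L) .L)))
theorem A.c44 : Tr.chk (leaf fun A => gA A ⟨8, 68, 209⟩) exNo A.t44 708837376 54525952 469762048 67108864 1006632960 67108864 = true := by decide +kernel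

def A.t45 : Tr := .A (.B (.A (.A (.C .L .L) (.B (.C .L .L) .L)) .L) .L) .L
theorem A.c45 : Tr.chk (leaf fun A => gA A ⟨8, 68, 209⟩) exNo A.t45 817889280 54525952 469762048 67108864 1006632960 67108864 = true := by decide +kernel

def A.t46 : Tr := .A .L (.C .L .L)
theorem A.c46 : Tr.chk (leaf fun A => gA A ⟨8, 68, 209⟩) exNo A.t46 218103808 218103808 805306368 268435456 134217728 134217728 = true := by decide +kernel

end Pool.Agent.FTN.K8
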