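import Pool.Agent.FTN.Region

set_option maxRecDepth 100000

namespace Pool.Agent.FTN.K8

open Pool.Agent.FTA (TM Alg Tr leaf leafS exNo exV chkA chkB chkC)

def A.t47 : Tr := .B (.C (.A .L .L) (.B (.A .L .L) (.A .L .L))) (.A .L .L)
theorem A.c47 : Tr.chk (leaf fun A => gA A ⟨8, 68, 209⟩) exNo A.t47 218103808 218103808 805306368 268435456 335544320 67108864 = true := by decide +kernel

def A.t48 : Tr := .B (.C (.B (.A .L .L) (.A .L .L)) (.B (.A .L .L) (.A .L .L))) (.C (.B (.A .L .L) (.A .L .L)) (.B (.A .L .L) (.A .L .L)))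
theorem A.c48 : Tr.chk (leaf fun A => gA A ⟨8, 68, 209⟩) exNo A.t48 218103808 218103808 671088640 134217728 436207616 33554432 = true := by decide +kernel

def A.t49 : Tr := .B (.A .L .L) (.A .L .L)
theorem A.c49 : Tr.chk (leaf fun A => gA A ⟨8, 68, 209⟩) exNo A.t49 218103808 218103808 671088640 134217728 503316480 33554432 = true := by decide +kernel

def A.t50 : Tr := .C (.B (.A .L .L) (.A .L .L)) (.A .L .L)
theorem A.c50 : Tr.chk (leaf fun A => gA A ⟨8, 68, 209⟩) exNo A.t50 218103808 218103808 939524096 134217728 469762048 67108864 = true := by decide +kernel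

def A.t51 : Tr := .C (.A (.A (.C .L .L) (.C .L .L)) .L) (.A (.B (.C (.A .L .L) (.A .L .L)) (.C (.A .L .L) (.A .L .L))) .L)
theorem A.c51 : Tr.chk (leaf fun A => gA A ⟨8, 68, 209⟩) exNo A.t51 654311424 218103808 671088640 134217728 268435456 268435456 = true := by decide +kernel

def A.t52 : Tr := .A (.C (.A .L .L) (.B (.A .L .L) (.C .L .L))) .L
theorem A.c52 : Tr.chk (leaf fun A => gA A ⟨8, 68, 209⟩) exNo A.t52 654311424 218103808 939524096 134217728 134217728 134217728 = true := by decide +kernel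

def A.t53 : Tr := .A (.C (.B (.A .L .L) (.A .L .L)) (.B (.A .L .L) (.A .L (.C .L .L)))) .L
theorem A.c53 : Tr.chk (leaf fun A => gA A ⟨8, 68, 209⟩) exNo A.t53 654311424 218103808 939524096 134217728 402653184 134217728 = true := by decide +kernel

def A.t54 : Tr := .A (.C (.C .L .L) (.A .L .L)) (.C (.B .L .L) (.A .L .L))
theorem A.c54 : Tr.chk (leaf fun A => gA A ⟨8, 68, 209⟩) exNo A.t54 218103808 218103808 671088640 134217728 671088640 134217728 = true := by decide +kernel

end Pool.Agent.FTN.K8
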