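import Pool.Agent.FTN.Region

set_option maxRecDepth 100000

namespace Pool.Agent.FTN.K8

open Pool.Agent.FTA (TM Alg Tr leaf leafS exNo exV chkA chkB chkC)

def A.t55 : Tr := .A (.A (.C .L (.A .L .L)) (.C .L .L)) (.C (.A .L .L) (.A .L .L))
theorem A.c55 : Tr.chk (leaf fun A => gA A ⟨8, 68, 209⟩) exNo A.t55 218103808 218103808 671088640 134217728 872415232 67108864 = true := by decide +kernel

def A.t56 : Tr := .C (.A (.A (.A .L .L) .L) .L) (.A (.C (.A .L .L) (.A .L .L)) (.C (.A .L .L) (.A .L .L)))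
theorem A.c56 : Tr.chk (leaf fun A => gA A ⟨8, 68, 209⟩) exNo A.t56 109051904 109051904 671088640 134217728 1006632960 67108864 = true := by decide +kernel

def A.t57 : Tr := .A (.C .L (.A .L .L)) (.B (.C .L .L) (.C .L .L))
theorem A.c57 : Tr.chk (leaf fun A => gA A ⟨8, 68, 209⟩) exNo A.t57 327155712 109051904 671088640 134217728 1006632960 67108864 = true := by decide +kernel

def A.t58 : Tr := .A (.C .L (.A .L .L)) (.C (.B (.A .L .L) (.A .L .L)) (.A .L (.B .L .L)))
theorem A.c58 : Tr.chk (leaf fun A => gA A ⟨8, 68, 209⟩) exNo A.t58 218103808 218103808 939524096 134217728 671088640 134217728 = true := by decide +kernel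

def A.t59 : Tr := .C (.A (.C .L (.A .L .L)) (.C .L .L)) (.A (.C (.A (.A .L .L) .L) (.A .L .L)) (.C (.A .L .L) (.A .L .L)))
theorem A.c59 : Tr.chk (leaf fun A => gA A ⟨8, 68, 209⟩) exNo A.t59 109051904 109051904 939524096 134217728 939524096 134217728 = true := by decide +kernel

def A.t60 : Tr := .C (.A (.A .L .L) (.C (.B .L .L) (.B .L .L))) (.A (.C (.A .L .L) (.A .L .L)) (.A (.C .L .L) (.B .L .L)))
theorem A.c60 : Tr.chk (leaf fun A => gA A ⟨8, 68, 209⟩) exNo A.t60 327155712 109051904 939524096 134217728 939524096 134217728 = true := by decide +kernel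

def A.t61 : Tr := .A (.C (.B .L .L) (.B .L .L)) (.C (.B .L (.C .L .L)) (.B (.C .L .L) (.A .L .L)))
theorem A.c61 : Tr.chk (leaf fun A => gA A ⟨8, 68, 209⟩) exNo A.t61 545259520 109051904 671088640 134217728 671088640 134217728 = true := by decide +kernel

end Pool.Agent.FTN.K8
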