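import Pool.Agent.FTN.Region

set_option maxRecDepth 100000

namespace Pool.Agent.FTN.K8

open Pool.Agent.FTA (TM Alg Tr leaf leafS exNo exV chkA chkB chkC)

def A.t71 : Tr := .A (.A .L (.C .L .L)) (.B (.A (.A .L .L) (.A (.C .L (.A .L (.B .L .L))) .L)) (.A (.A .L (.C .L (.A .L (.B .L .L)))) .L))
theorem A.c71 : Tr.chk (leaf fun A => gA A ⟨8, 68, 209⟩) exNo A.t71 545259520 109051904 872415232 67108864 1006632960 67108864 = true := by decide +kernel

def A.t72 : Tr := .A (.A .L (.C .L .L)) (.B (.A (.A .L .L) .L) (.A (.A (.C .L .L) .L) .L))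
theorem A.c72 : Tr.chk (leaf fun A => gA A ⟨8, 68, 209⟩) exNo A.t72 545259520 109051904 1006632960 67108864 872415232 67108864 = true := by decide +kernel

def A.t73 : Tr := .A (.C .L .L) (.A (.C .L .L) (.C .L (.B .L .L)))
theorem A.c73 : Tr.chk (leaf fun A => gA A ⟨8, 68, 209⟩) exNo A.t73 490733568 54525952 1006632960 67108864 1006632960 67108864 = true := by decide +kernel

def A.t74 : Tr := .C (.A (.A .L .L) .L) (.A (.A (.A .L .L) (.A (.B .L .L) .L)) .L)
theorem A.c74 : Tr.chk (leaf fun A => gA A ⟨8, 68, 209⟩) exNo A.t74 599785472 54525952 973078528 33554432 1006632960 67108864 = true := by decide +kernel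

def A.t75 : Tr := .C (.A (.A (.A .L .L) .L) .L) (.A (.A (.A (.B .L (.C .L (.A .L .L))) .L) .L) .L)
theorem A.c75 : Tr.chk (leaf fun A => gA A ⟨8, 68, 209⟩) exNo A.t75 599785472 54525952 1040187392 33554432 1006632960 67108864 = true := by decide +kernel

def A.t76 : Tr := .L
theorem A.c76 : Tr.chk (leaf fun A => gA A ⟨8, 68, 209⟩) exNo A.t76 763363328 109051904 939524096 134217728 939524096 134217728 = true := by decide +kernel

def B.t0 : Tr := .C (.A .L (.A .L (.C .L .L))) (.C (.A .L (.C (.A .L .L) (.A .L .L))) (.A .L (.A .L .L)))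
theorem B.c0 : Tr.chk (leaf fun A => gB A ⟨8, 68, 209⟩) exNo B.t0 218103808 218103808 134217728 134217728 268435456 268435456 = true := by decide +kernel

end Pool.Agent.FTN.K8
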