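import Pool.Agent.FTN.Region

set_option maxRecDepth 100000

namespace Pool.Agent.FTN.K8

open Pool.Agent.FTA (TM Alg Tr leaf leafS exNo exV chkA chkB chkC)

def B.t26 : Tr := .A (.C (.C .L .L) (.C .L (.A .L .L))) (.A (.C .L .L) (.C (.A .L (.B .L .L)) (.A .L (.B .L .L))))
theorem B.c26 : Tr.chk (leaf fun A => gB A ⟨8, 68, 209⟩) exNo B.t26 218103808 218103808 671088640 134217728 402653184 134217728 = true := by decide +kernel

def B.t27 : Tr := .C (.A .L .L) (.A .L .L)
theorem B.c27 : Tr.chk (leaf fun A => gB A ⟨8, 68, 209⟩) exNo B.t27 109051904 109051904 939524096 134217728 134217728 134217728 = true := by decide +kernel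

def B.t28 : Tr := .C (.A .L (.C (.A .L (.C .L (.B .L .L))) (.A .L (.C (.B .L .L) (.B .L .L))))) (.A .L (.A .L (.A .L .L)))
theorem B.c28 : Tr.chk (leaf fun A => gB A ⟨8, 68, 209⟩) exNo B.t28 327155712 109051904 872415232 67108864 134217728 134217728 = true := by decide +kernel

def B.t29 : Tr := .A .L (.C (.C (.B (.A .L .L) (.A .L .L)) (.B (.A .L .L) (.A .L .L))) (.A .L .L))
theorem B.c29 : Tr.chk (leaf fun A => gB A ⟨8, 68, 209⟩) exNo B.t29 327155712 109051904 1006632960 67108864 67108864 67108864 = true := by decide +kernel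

def B.t30 : Tr := .A (.A .L .L) (.A (.A .L .L) (.A (.B .L .L) .L))
theorem B.c30 : Tr.chk (leaf fun A => gB A ⟨8, 68, 209⟩) exNo B.t30 327155712 109051904 1006632960 67108864 201326592 67108864 = true := by decide +kernel

def B.t31 : Tr := .C (.C (.A .L .L) (.A .L .L)) (.A .L .L)
theorem B.c31 : Tr.chk (leaf fun A => gB A ⟨8, 68, 209⟩) exNo B.t31 109051904 109051904 939524096 134217728 402653184 134217728 = true := by decide +kernel

def B.t32 : Tr := .C (.A .L (.A .L (.A .L .L))) (.A .L (.A .L (.C .L .L)))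
theorem B.c32 : Tr.chk (leaf fun A => gB A ⟨8, 68, 209⟩) exNo B.t32 327155712 109051904 872415232 67108864 402653184 134217728 = true := by decide +kernel

def B.t33 : Tr := .C (.A (.A .L .L) (.A .L (.A .L .L))) (.A (.A .L .L) (.A .L (.C (.A .L .L) .L)))
theorem B.c33 : Tr.chk (leaf fun A => gB A ⟨8, 68, 209⟩) exNo B.t33 327155712 109051904 1006632960 67108864 402653184 134217728 = true := by decide +kernel

end Pool.Agent.FTN.K8
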