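import Pool.Agent.FTN.Region

set_option maxRecDepth 100000

namespace Pool.Agent.FTN.K8

open Pool.Agent.FTA (TM Alg Tr leaf leafS exNo exV chkA chkB chkC)

def A.t19 : Tr := .A (.C (.A .L (.B .L .L)) (.A .L (.B (.C .L (.B .L .L)) .L))) (.B (.C .L (.B .L (.A .L .L))) (.C .L (.B .L .L)))
theorem A.c19 : Tr.chk (leaf fun A => gA A ⟨8, 68, 209⟩) exNo A.t19 109051904 109051904 134217728 134217728 1056964608 16777216 = true := by decide +kernel

def A.t20 : Tr := .B (.C .L (.B .L (.C .L (.A .L .L)))) (.C (.A .L .L) (.A .L .L))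
theorem A.c20 : Tr.chk (leaf fun A => gA A ⟨8, 68, 209⟩) exNo A.t20 327155712 109051904 134217728 134217728 1040187392 33554432 = true := by decide +kernel

def A.t21 : Tr := .A (.C (.B .L .L) (.A (.C .L .L) .L)) (.C (.B (.B .L .L) .L) (.B (.A .L .L) (.A .L .L)))
theorem A.c21 : Tr.chk (leaf fun A => gA A ⟨8, 68, 209⟩) exNo A.t21 218103808 218103808 402653184 134217728 671088640 134217728 = true := by decide +kernel

def A.t22 : Tr := .A (.A (.C (.A .L .L) (.A .L .L)) (.B .L .L)) (.B (.A .L .L) (.A .L .L))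
theorem A.c22 : Tr.chk (leaf fun A => gA A ⟨8, 68, 209⟩) exNo A.t22 218103808 218103808 402653184 134217728 872415232 67108864 = true := by decide +kernel

def A.t23 : Tr := .C (.A (.A (.A .L .L) .L) (.A .L .L)) (.A (.C (.A .L .L) (.A .L (.A .L .L))) (.C (.A .L .L) (.A .L .L)))
theorem A.c23 : Tr.chk (leaf fun A => gA A ⟨8, 68, 209⟩) exNo A.t23 109051904 109051904 402653184 134217728 1006632960 67108864 = true := by decide +kernel

def A.t24 : Tr := .C (.B (.A .L .L) (.A .L .L)) (.A (.B .L .L) (.B .L .L))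
theorem A.c24 : Tr.chk (leaf fun A => gA A ⟨8, 68, 209⟩) exNo A.t24 327155712 109051904 402653184 134217728 1006632960 67108864 = true := by decide +kernel

end Pool.Agent.FTN.K8
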