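import Pool.Agent.FTN.K.P8F0
import Pool.Agent.FTN.K.P8F1
import Pool.Agent.FTN.K.P8F2
import Pool.Agent.FTN.K.P8F3
import Pool.Agent.FTN.K.P8F4
import Pool.Agent.FTN.K.P8F5
import Pool.Agent.FTN.K.P8F6
import Pool.Agent.FTN.K.P8F7
import Pool.Agent.FTN.K.P8F8
import Pool.Agent.FTN.K.P8F9
import Pool.Agent.FTN.K.P8F10
import Pool.Agent.FTN.K.P8F11
import Pool.Agent.FTN.K.P8F12
import Pool.Agent.FTN.K.P8F13
import Pool.Agent.FTN.K.P8F14
import Pool.Agent.FTN.K.P8F15
import Pool.Agent.FTN.K.P8F16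
import Pool.Agent.FTN.K.P8F17
import Pool.Agent.FTN.K.P8F18
import Pool.Agent.FTN.K.P8F19
import Pool.Agent.FTN.K.P8F20
import Pool.Agent.FTN.K.P8F21
import Pool.Agent.FTN.K.P8F22
import Pool.Agent.FTN.K.P8F23
import Pool.Agent.FTN.K.P8F24
import Pool.Agent.FTN.K.P8F25
import Pool.Agent.FTN.K.P8F26
import Pool.Agent.FTN.K.P8F27
import Pool.Agent.FTN.REG

set_option maxRecDepth 100000

namespace Pool.Agent.FTN.K8

open Pool.Agent.FTA (TM Alg Tr leaf leafS exNo exV chkA chkB chkC)

def N.u0 : Tr := .C N.t2 N.t3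
theorem N.d0 : Tr.chk (leaf fun A => gN A ⟨8, 68, 209⟩) exNo N.u0 218103808 218103808 268435456 268435456 414711808 59244544 = true := chkC rfl N.c2 N.c3

def N.u1 : Tr := .C N.t1 N.u0
theorem N.d1 : Tr.chk (leaf fun A => gN A ⟨8, 68, 209⟩) exNo N.u1 218103808 218103808 268435456 268435456 355467264 118489088 = true := chkC rfl N.c1 N.d0

def N.u2 : Tr := .C N.t0 N.u1
theorem N.d2 : Tr.chk (leaf fun A => gN A ⟨8, 68, 209⟩) exNo N.u2 218103808 218103808 268435456 268435456 236978176 236978176 = true := chkC rfl N.c0 N.d1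

def N.u3 : Tr := .A N.t5 N.t6
theorem N.d3 : Tr.chk (leaf fun A => gN A ⟨8, 68, 209⟩) exNo N.u3 654311424 218103808 134217728 134217728 355467264 118489088 = true := chkA rfl N.c5 N.c6

def N.u4 : Tr := .C N.t4 N.u3
theorem N.d4 : Tr.chk (leaf fun A => gN A ⟨8, 68, 209⟩) exNo N.u4 654311424 218103808 134217728 134217728 236978176 236978176 = true := chkC rfl N.c4 N.d3

def N.u5 : Tr := .A N.t8 N.t9
theorem N.d5 : Tr.chk (leaf fun A => gN A ⟨8, 68, 209⟩) exNo N.u5 654311424 218103808 402653184 134217728 355467264 118489088 = true := chkA rfl N.c8 N.c9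

def N.u6 : Tr := .C N.t7 N.u5
theorem N.d6 : Tr.chk (leaf fun A => gN A ⟨8, 68, 209⟩) exNo N.u6 654311424 218103808 402653184 134217728 236978176 236978176 = true := chkC rfl N.c7 N.d5

def N.u7 : Tr := .B N.u4 N.u6
theorem N.d7 : Tr.chk (leaf fun A => gN A ⟨8, 68, 209⟩) exNo N.u7 654311424 218103808 268435456 268435456 236978176 236978176 = true := chkB rfl N.d4 N.d6

def N.u8 : Tr := .A N.u2 N.u7
theorem N.d8 : Tr.chk (leaf fun A => gN A ⟨8, 68, 209⟩) exNo N.u8 436207616 436207616 268435456 268435456 236978176 236978176 = true := chkA rfl N.d2 N.d7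

def N.u9 : Tr := .C N.t10 N.t11
theorem N.d9 : Tr.chk (leaf fun A => gN A ⟨8, 68, 209⟩) exNo N.u9 218103808 218103808 268435456 268435456 592445440 118489088 = true := chkC rfl N.c10 N.c11

def N.u10 : Tr := .C N.u9 N.t12
theorem N.d10 : Tr.chk (leaf fun A => gN A ⟨8, 68, 209⟩) exNo N.u10 218103808 218103808 268435456 268435456 710934528 236978176 = true := chkC rfl N.d9 N.c12

def N.u11 : Tr := .C N.t13 N.t14
theorem N.d11 : Tr.chk (leaf fun A => gN A ⟨8, 68, 209⟩) exNo N.u11 654311424 218103808 134217728 134217728 710934528 236978176 = true := chkC rfl N.c13 N.c14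

def N.u12 : Tr := .C N.t15 N.t16
theorem N.d12 : Tr.chk (leaf fun A => gN A ⟨8, 68, 209⟩) exNo N.u12 654311424 218103808 402653184 134217728 710934528 236978176 = true := chkC rfl N.c15 N.c16

def N.u13 : Tr := .B N.u11 N.u12
theorem N.d13 : Tr.chk (leaf fun A => gN A ⟨8, 68, 209⟩) exNo N.u13 654311424 218103808 268435456 268435456 710934528 236978176 = true := chkB rfl N.d11 N.d12

def N.u14 : Tr := .A N.u10 N.u13
theorem N.d14 : Tr.chk (leaf fun A => gN A ⟨8, 68, 209⟩) exNo N.u14 436207616 436207616 268435456 268435456 710934528 236978176 = true := chkA rfl N.d10 N.d13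

def N.u15 : Tr := .C N.u8 N.u14
theorem N.d15 : Tr.chk (leaf fun A => gN A ⟨8, 68, 209⟩) exNo N.u15 436207616 436207616 268435456 268435456 473956352 473956352 = true := chkC rfl N.d8 N.d14

def N.u16 : Tr := .C N.t18 N.t19
theorem N.d16 : Tr.chk (leaf fun A => gN A ⟨8, 68, 209⟩) exNo N.u16 654311424 218103808 671088640 134217728 236978176 236978176 = true := chkC rfl N.c18 N.c19

def N.u17 : Tr := .B N.u16 N.t20
theorem N.d17 : Tr.chk (leaf fun A => gN A ⟨8, 68, 209⟩) exNo N.u17 654311424 218103808 805306368 268435456 236978176 236978176 = true := chkB rfl N.d16 N.c20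

def N.u18 : Tr := .A N.t17 N.u17
theorem N.d18 : Tr.chk (leaf fun A => gN A ⟨8, 68, 209⟩) exNo N.u18 436207616 436207616 805306368 268435456 236978176 236978176 = true := chkA rfl N.c17 N.d17

def N.u19 : Tr := .C N.t21 N.t22
theorem N.d19 : Tr.chk (leaf fun A => gN A ⟨8, 68, 209⟩) exNo N.u19 218103808 218103808 805306368 268435456 710934528 236978176 = true := chkC rfl N.c21 N.c22

def N.u20 : Tr := .C N.t23 N.t24
theorem N.d20 : Tr.chk (leaf fun A => gN A ⟨8, 68, 209⟩) exNo N.u20 654311424 218103808 671088640 134217728 710934528 236978176 = true := chkC rfl N.c23 N.c24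

def N.u21 : Tr := .C N.t25 N.t26
theorem N.d21 : Tr.chk (leaf fun A => gN A ⟨8, 68, 209⟩) exNo N.u21 654311424 218103808 939524096 134217728 710934528 236978176 = true := chkC rfl N.c25 N.c26

def N.u22 : Tr := .B N.u20 N.u21
theorem N.d22 : Tr.chk (leaf fun A => gN A ⟨8, 68, 209⟩) exNo N.u22 654311424 218103808 805306368 268435456 710934528 236978176 = true := chkB rfl N.d20 N.d21

def N.u23 : Tr := .A N.u19 N.u22
theorem N.d23 : Tr.chk (leaf fun A => gN A ⟨8, 68, 209⟩) exNo N.u23 436207616 436207616 805306368 268435456 710934528 236978176 = true := chkA rfl N.d19 N.d22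

def N.u24 : Tr := .C N.u18 N.u23
theorem N.d24 : Tr.chk (leaf fun A => gN A ⟨8, 68, 209⟩) exNo N.u24 436207616 436207616 805306368 268435456 473956352 473956352 = true := chkC rfl N.d18 N.d23

def N.u25 : Tr := .B N.u15 N.u24
theorem N.d25 : Tr.chk (leaf fun A => gN A ⟨8, 68, 209⟩) exNo N.u25 436207616 436207616 536870912 536870912 473956352 473956352 = true := chkB rfl N.d15 N.d24

/-- the region N -/
theorem N.all : ∃ t, Tr.chk (leaf fun A => gN A ⟨8, 68, 209⟩) exNo t 436207616 436207616 536870912 536870912 473956352 473956352 = true := ⟨N.u25, N.d25⟩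

def A.u0 : Tr := .B A.t2 A.t3
theorem A.d0 : Tr.chk (leaf fun A => gA A ⟨8, 68, 209⟩) exNo A.u0 218103808 218103808 134217728 134217728 469762048 67108864 = true := chkB rfl A.c2 A.c3

def A.u1 : Tr := .B A.t4 A.t5
theorem A.d1 : Tr.chk (leaf fun A => gA A ⟨8, 68, 209⟩) exNo A.u1 218103808 218103808 335544320 67108864 436207616 33554432 = true := chkB rfl A.c4 A.c5

def A.u2 : Tr := .C A.u1 A.t6
theorem A.d2 : Tr.chk (leaf fun A => gA A ⟨8, 68, 209⟩) exNo A.u2 218103808 218103808 335544320 67108864 469762048 67108864 = true := chkC rfl A.d1 A.c6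

def A.u3 : Tr := .B A.u2 A.t7
theorem A.d3 : Tr.chk (leaf fun A => gA A ⟨8, 68, 209⟩) exNo A.u3 218103808 218103808 402653184 134217728 469762048 67108864 = true := chkB rfl A.d2 A.c7

def A.u4 : Tr := .B A.u0 A.u3
theorem A.d4 : Tr.chk (leaf fun A => gA A ⟨8, 68, 209⟩) exNo A.u4 218103808 218103808 268435456 268435456 469762048 67108864 = true := chkB rfl A.d0 A.d3

def A.u5 : Tr := .C A.t1 A.u4
theorem A.d5 : Tr.chk (leaf fun A => gA A ⟨8, 68, 209⟩) exNo A.u5 218103808 218103808 268435456 268435456 402653184 134217728 = true := chkC rfl A.c1 A.d4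

def A.u6 : Tr := .C A.t0 A.u5
theorem A.d6 : Tr.chk (leaf fun A => gA A ⟨8, 68, 209⟩) exNo A.u6 218103808 218103808 268435456 268435456 268435456 268435456 = true := chkC rfl A.c0 A.d5

def A.u7 : Tr := .C A.t9 A.t10
theorem A.d7 : Tr.chk (leaf fun A => gA A ⟨8, 68, 209⟩) exNo A.u7 545259520 109051904 134217728 134217728 402653184 134217728 = true := chkC rfl A.c9 A.c10

def A.u8 : Tr := .A A.u7 A.t11
theorem A.d8 : Tr.chk (leaf fun A => gA A ⟨8, 68, 209⟩) exNo A.u8 654311424 218103808 134217728 134217728 402653184 134217728 = true := chkA rfl A.d7 A.c11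

def A.u9 : Tr := .C A.t8 A.u8
theorem A.d9 : Tr.chk (leaf fun A => gA A ⟨8, 68, 209⟩) exNo A.u9 654311424 218103808 134217728 134217728 268435456 268435456 = true := chkC rfl A.c8 A.d8

def A.u10 : Tr := .C A.t12 A.t13
theorem A.d10 : Tr.chk (leaf fun A => gA A ⟨8, 68, 209⟩) exNo A.u10 654311424 218103808 402653184 134217728 268435456 268435456 = true := chkC rfl A.c12 A.c13

def A.u11 : Tr := .B A.u9 A.u10
theorem A.d11 : Tr.chk (leaf fun A => gA A ⟨8, 68, 209⟩) exNo A.u11 654311424 218103808 268435456 268435456 268435456 268435456 = true := chkB rfl A.d9 A.d10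

def A.u12 : Tr := .A A.u6 A.u11
theorem A.d12 : Tr.chk (leaf fun A => gA A ⟨8, 68, 209⟩) exNo A.u12 436207616 436207616 268435456 268435456 268435456 268435456 = true := chkA rfl A.d6 A.d11

def A.u13 : Tr := .A A.t14 A.t15
theorem A.d13 : Tr.chk (leaf fun A => gA A ⟨8, 68, 209⟩) exNo A.u13 218103808 218103808 134217728 134217728 671088640 134217728 = true := chkA rfl A.c14 A.c15

def A.u14 : Tr := .C A.t18 A.t19
theorem A.d14 : Tr.chk (leaf fun A => gA A ⟨8, 68, 209⟩) exNo A.u14 109051904 109051904 134217728 134217728 1040187392 33554432 = true := chkC rfl A.c18 A.c19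

def A.u15 : Tr := .A A.u14 A.t20
theorem A.d15 : Tr.chk (leaf fun A => gA A ⟨8, 68, 209⟩) exNo A.u15 218103808 218103808 134217728 134217728 1040187392 33554432 = true := chkA rfl A.d14 A.c20

def A.u16 : Tr := .C A.t17 A.u15
theorem A.d16 : Tr.chk (leaf fun A => gA A ⟨8, 68, 209⟩) exNo A.u16 218103808 218103808 134217728 134217728 1006632960 67108864 = true := chkC rfl A.c17 A.d15

def A.u17 : Tr := .C A.t16 A.u16
theorem A.d17 : Tr.chk (leaf fun A => gA A ⟨8, 68, 209⟩) exNo A.u17 218103808 218103808 134217728 134217728 939524096 134217728 = true := chkC rfl A.c16 A.d16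

def A.u18 : Tr := .C A.u13 A.u17
theorem A.d18 : Tr.chk (leaf fun A => gA A ⟨8, 68, 209⟩) exNo A.u18 218103808 218103808 134217728 134217728 805306368 268435456 = true := chkC rfl A.d13 A.d17

def A.u19 : Tr := .A A.t23 A.t24
theorem A.d19 : Tr.chk (leaf fun A => gA A ⟨8, 68, 209⟩) exNo A.u19 218103808 218103808 402653184 134217728 1006632960 67108864 = true := chkA rfl A.c23 A.c24

def A.u20 : Tr := .C A.t22 A.u19
theorem A.d20 : Tr.chk (leaf fun A => gA A ⟨8, 68, 209⟩) exNo A.u20 218103808 218103808 402653184 134217728 939524096 134217728 = true := chkC rfl A.c22 A.d19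

def A.u21 : Tr := .C A.t21 A.u20
theorem A.d21 : Tr.chk (leaf fun A => gA A ⟨8, 68, 209⟩) exNo A.u21 218103808 218103808 402653184 134217728 805306368 268435456 = true := chkC rfl A.c21 A.d20

def A.u22 : Tr := .B A.u18 A.u21
theorem A.d22 : Tr.chk (leaf fun A => gA A ⟨8, 68, 209⟩) exNo A.u22 218103808 218103808 268435456 268435456 805306368 268435456 = true := chkB rfl A.d18 A.d21

def A.u23 : Tr := .B A.t25 A.t26
theorem A.d23 : Tr.chk (leaf fun A => gA A ⟨8, 68, 209⟩) exNo A.u23 545259520 109051904 134217728 134217728 671088640 134217728 = true := chkB rfl A.c25 A.c26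

def A.u24 : Tr := .C A.t27 A.t28
theorem A.d24 : Tr.chk (leaf fun A => gA A ⟨8, 68, 209⟩) exNo A.u24 763363328 109051904 67108864 67108864 671088640 134217728 = true := chkC rfl A.c27 A.c28

def A.u25 : Tr := .B A.u24 A.t29
theorem A.d25 : Tr.chk (leaf fun A => gA A ⟨8, 68, 209⟩) exNo A.u25 763363328 109051904 134217728 134217728 671088640 134217728 = true := chkB rfl A.d24 A.c29

def A.u26 : Tr := .A A.u23 A.u25
theorem A.d26 : Tr.chk (leaf fun A => gA A ⟨8, 68, 209⟩) exNo A.u26 654311424 218103808 134217728 134217728 671088640 134217728 = true := chkA rfl A.d23 A.d25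

def A.u27 : Tr := .A A.t30 A.t31
theorem A.d27 : Tr.chk (leaf fun A => gA A ⟨8, 68, 209⟩) exNo A.u27 654311424 218103808 67108864 67108864 872415232 67108864 = true := chkA rfl A.c30 A.c31

def A.u28 : Tr := .C A.t32 A.t33
theorem A.d28 : Tr.chk (leaf fun A => gA A ⟨8, 68, 209⟩) exNo A.u28 654311424 218103808 67108864 67108864 1006632960 67108864 = true := chkC rfl A.c32 A.c33

def A.u29 : Tr := .C A.u27 A.u28
theorem A.d29 : Tr.chk (leaf fun A => gA A ⟨8, 68, 209⟩) exNo A.u29 654311424 218103808 67108864 67108864 939524096 134217728 = true := chkC rfl A.d27 A.d28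

def A.u30 : Tr := .C A.t35 A.t36
theorem A.d30 : Tr.chk (leaf fun A => gA A ⟨8, 68, 209⟩) exNo A.u30 763363328 109051904 201326592 67108864 939524096 134217728 = true := chkC rfl A.c35 A.c36

def A.u31 : Tr := .A A.t34 A.u30
theorem A.d31 : Tr.chk (leaf fun A => gA A ⟨8, 68, 209⟩) exNo A.u31 654311424 218103808 201326592 67108864 939524096 134217728 = true := chkA rfl A.c34 A.d30

def A.u32 : Tr := .B A.u29 A.u31
theorem A.d32 : Tr.chk (leaf fun A => gA A ⟨8, 68, 209⟩) exNo A.u32 654311424 218103808 134217728 134217728 939524096 134217728 = true := chkB rfl A.d29 A.d31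

def A.u33 : Tr := .C A.u26 A.u32
theorem A.d33 : Tr.chk (leaf fun A => gA A ⟨8, 68, 209⟩) exNo A.u33 654311424 218103808 134217728 134217728 805306368 268435456 = true := chkC rfl A.d26 A.d32

def A.u34 : Tr := .A A.t37 A.t38
theorem A.d34 : Tr.chk (leaf fun A => gA A ⟨8, 68, 209⟩) exNo A.u34 654311424 218103808 402653184 134217728 671088640 134217728 = true := chkA rfl A.c37 A.c38

def A.u35 : Tr := .A A.t41 A.t42
theorem A.d35 : Tr.chk (leaf fun A => gA A ⟨8, 68, 209⟩) exNo A.u35 817889280 54525952 335544320 67108864 939524096 134217728 = true := chkA rfl A.c41 A.c42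

def A.u36 : Tr := .A A.t40 A.u35
theorem A.d36 : Tr.chk (leaf fun A => gA A ⟨8, 68, 209⟩) exNo A.u36 763363328 109051904 335544320 67108864 939524096 134217728 = true := chkA rfl A.c40 A.d35

def A.u37 : Tr := .A A.t44 A.t45
theorem A.d37 : Tr.chk (leaf fun A => gA A ⟨8, 68, 209⟩) exNo A.u37 763363328 109051904 469762048 67108864 1006632960 67108864 = true := chkA rfl A.c44 A.c45

def A.u38 : Tr := .C A.t43 A.u37
theorem A.d38 : Tr.chk (leaf fun A => gA A ⟨8, 68, 209⟩) exNo A.u38 763363328 109051904 469762048 67108864 939524096 134217728 = true := chkC rfl A.c43 A.d37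

def A.u39 : Tr := .B A.u36 A.u38
theorem A.d39 : Tr.chk (leaf fun A => gA A ⟨8, 68, 209⟩) exNo A.u39 763363328 109051904 402653184 134217728 939524096 134217728 = true := chkB rfl A.d36 A.d38

def A.u40 : Tr := .A A.t39 A.u39
theorem A.d40 : Tr.chk (leaf fun A => gA A ⟨8, 68, 209⟩) exNo A.u40 654311424 218103808 402653184 134217728 939524096 134217728 = true := chkA rfl A.c39 A.d39

def A.u41 : Tr := .C A.u34 A.u40
theorem A.d41 : Tr.chk (leaf fun A => gA A ⟨8, 68, 209⟩) exNo A.u41 654311424 218103808 402653184 134217728 805306368 268435456 = true := chkC rfl A.d34 A.d40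

def A.u42 : Tr := .B A.u33 A.u41
theorem A.d42 : Tr.chk (leaf fun A => gA A ⟨8, 68, 209⟩) exNo A.u42 654311424 218103808 268435456 268435456 805306368 268435456 = true := chkB rfl A.d33 A.d41

def A.u43 : Tr := .A A.u22 A.u42
theorem A.d43 : Tr.chk (leaf fun A => gA A ⟨8, 68, 209⟩) exNo A.u43 436207616 436207616 268435456 268435456 805306368 268435456 = true := chkA rfl A.d22 A.d42

def A.u44 : Tr := .C A.u12 A.u43
theorem A.d44 : Tr.chk (leaf fun A => gA A ⟨8, 68, 209⟩) exNo A.u44 436207616 436207616 268435456 268435456 536870912 536870912 = true := chkC rfl A.d12 A.d43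

def A.u45 : Tr := .C A.t48 A.t49
theorem A.d45 : Tr.chk (leaf fun A => gA A ⟨8, 68, 209⟩) exNo A.u45 218103808 218103808 671088640 134217728 469762048 67108864 = true := chkC rfl A.c48 A.c49

def A.u46 : Tr := .B A.u45 A.t50
theorem A.d46 : Tr.chk (leaf fun A => gA A ⟨8, 68, 209⟩) exNo A.u46 218103808 218103808 805306368 268435456 469762048 67108864 = true := chkB rfl A.d45 A.c50

def A.u47 : Tr := .C A.t47 A.u46
theorem A.d47 : Tr.chk (leaf fun A => gA A ⟨8, 68, 209⟩) exNo A.u47 218103808 218103808 805306368 268435456 402653184 134217728 = true := chkC rfl A.c47 A.d46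

def A.u48 : Tr := .C A.t46 A.u47
theorem A.d48 : Tr.chk (leaf fun A => gA A ⟨8, 68, 209⟩) exNo A.u48 218103808 218103808 805306368 268435456 268435456 268435456 = true := chkC rfl A.c46 A.d47

def A.u49 : Tr := .C A.t52 A.t53
theorem A.d49 : Tr.chk (leaf fun A => gA A ⟨8, 68, 209⟩) exNo A.u49 654311424 218103808 939524096 134217728 268435456 268435456 = true := chkC rfl A.c52 A.c53

def A.u50 : Tr := .B A.t51 A.u49
theorem A.d50 : Tr.chk (leaf fun A => gA A ⟨8, 68, 209⟩) exNo A.u50 654311424 218103808 805306368 268435456 268435456 268435456 = true := chkB rfl A.c51 A.d49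

def A.u51 : Tr := .A A.u48 A.u50
theorem A.d51 : Tr.chk (leaf fun A => gA A ⟨8, 68, 209⟩) exNo A.u51 436207616 436207616 805306368 268435456 268435456 268435456 = true := chkA rfl A.d48 A.d50

def A.u52 : Tr := .A A.t56 A.t57
theorem A.d52 : Tr.chk (leaf fun A => gA A ⟨8, 68, 209⟩) exNo A.u52 218103808 218103808 671088640 134217728 1006632960 67108864 = true := chkA rfl A.c56 A.c57

def A.u53 : Tr := .C A.t55 A.u52
theorem A.d53 : Tr.chk (leaf fun A => gA A ⟨8, 68, 209⟩) exNo A.u53 218103808 218103808 671088640 134217728 939524096 134217728 = true := chkC rfl A.c55 A.d52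

def A.u54 : Tr := .C A.t54 A.u53
theorem A.d54 : Tr.chk (leaf fun A => gA A ⟨8, 68, 209⟩) exNo A.u54 218103808 218103808 671088640 134217728 805306368 268435456 = true := chkC rfl A.c54 A.d53

def A.u55 : Tr := .A A.t59 A.t60
theorem A.d55 : Tr.chk (leaf fun A => gA A ⟨8, 68, 209⟩) exNo A.u55 218103808 218103808 939524096 134217728 939524096 134217728 = true := chkA rfl A.c59 A.c60

def A.u56 : Tr := .C A.t58 A.u55
theorem A.d56 : Tr.chk (leaf fun A => gA A ⟨8, 68, 209⟩) exNo A.u56 218103808 218103808 939524096 134217728 805306368 268435456 = true := chkC rfl A.c58 A.d55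

def A.u57 : Tr := .B A.u54 A.u56
theorem A.d57 : Tr.chk (leaf fun A => gA A ⟨8, 68, 209⟩) exNo A.u57 218103808 218103808 805306368 268435456 805306368 268435456 = true := chkB rfl A.d54 A.d56

def A.u58 : Tr := .A A.t61 A.t62
theorem A.d58 : Tr.chk (leaf fun A => gA A ⟨8, 68, 209⟩) exNo A.u58 654311424 218103808 671088640 134217728 671088640 134217728 = true := chkA rfl A.c61 A.c62

def A.u59 : Tr := .B A.t64 A.t65
theorem A.d59 : Tr.chk (leaf fun A => gA A ⟨8, 68, 209⟩) exNo A.u59 599785472 54525952 671088640 134217728 939524096 134217728 = true := chkB rfl A.c64 A.c65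

def A.u60 : Tr := .A A.t63 A.u59
theorem A.d60 : Tr.chk (leaf fun A => gA A ⟨8, 68, 209⟩) exNo A.u60 545259520 109051904 671088640 134217728 939524096 134217728 = true := chkA rfl A.c63 A.d59

def A.u61 : Tr := .C A.t66 A.t67
theorem A.d61 : Tr.chk (leaf fun A => gA A ⟨8, 68, 209⟩) exNo A.u61 763363328 109051904 603979776 67108864 939524096 134217728 = true := chkC rfl A.c66 A.c67

def A.u62 : Tr := .B A.u61 A.t68
theorem A.d62 : Tr.chk (leaf fun A => gA A ⟨8, 68, 209⟩) exNo A.u62 763363328 109051904 671088640 134217728 939524096 134217728 = true := chkB rfl A.d61 A.c68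

def A.u63 : Tr := .A A.u60 A.u62
theorem A.d63 : Tr.chk (leaf fun A => gA A ⟨8, 68, 209⟩) exNo A.u63 654311424 218103808 671088640 134217728 939524096 134217728 = true := chkA rfl A.d60 A.d62

def A.u64 : Tr := .C A.u58 A.u63
theorem A.d64 : Tr.chk (leaf fun A => gA A ⟨8, 68, 209⟩) exNo A.u64 654311424 218103808 671088640 134217728 805306368 268435456 = true := chkC rfl A.d58 A.d63

def A.u65 : Tr := .C A.t70 A.t71
theorem A.d65 : Tr.chk (leaf fun A => gA A ⟨8, 68, 209⟩) exNo A.u65 545259520 109051904 872415232 67108864 939524096 134217728 = true := chkC rfl A.c70 A.c71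

def A.u66 : Tr := .B A.t74 A.t75
theorem A.d66 : Tr.chk (leaf fun A => gA A ⟨8, 68, 209⟩) exNo A.u66 599785472 54525952 1006632960 67108864 1006632960 67108864 = true := chkB rfl A.c74 A.c75

def A.u67 : Tr := .A A.t73 A.u66
theorem A.d67 : Tr.chk (leaf fun A => gA A ⟨8, 68, 209⟩) exNo A.u67 545259520 109051904 1006632960 67108864 1006632960 67108864 = true := chkA rfl A.c73 A.d66

def A.u68 : Tr := .C A.t72 A.u67
theorem A.d68 : Tr.chk (leaf fun A => gA A ⟨8, 68, 209⟩) exNo A.u68 545259520 109051904 1006632960 67108864 939524096 134217728 = true := chkC rfl A.c72 A.d67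

def A.u69 : Tr := .B A.u65 A.u68
theorem A.d69 : Tr.chk (leaf fun A => gA A ⟨8, 68, 209⟩) exNo A.u69 545259520 109051904 939524096 134217728 939524096 134217728 = true := chkB rfl A.d65 A.d68

def A.u70 : Tr := .A A.u69 A.t76
theorem A.d70 : Tr.chk (leaf fun A => gA A ⟨8, 68, 209⟩) exNo A.u70 654311424 218103808 939524096 134217728 939524096 134217728 = true := chkA rfl A.d69 A.c76

def A.u71 : Tr := .C A.t69 A.u70
theorem A.d71 : Tr.chk (leaf fun A => gA A ⟨8, 68, 209⟩) exNo A.u71 654311424 218103808 939524096 134217728 805306368 268435456 = true := chkC rfl A.c69 A.d70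

def A.u72 : Tr := .B A.u64 A.u71
theorem A.d72 : Tr.chk (leaf fun A => gA A ⟨8, 68, 209⟩) exNo A.u72 654311424 218103808 805306368 268435456 805306368 268435456 = true := chkB rfl A.d64 A.d71

def A.u73 : Tr := .A A.u57 A.u72
theorem A.d73 : Tr.chk (leaf fun A => gA A ⟨8, 68, 209⟩) exNo A.u73 436207616 436207616 805306368 268435456 805306368 268435456 = true := chkA rfl A.d57 A.d72

def A.u74 : Tr := .C A.u51 A.u73
theorem A.d74 : Tr.chk (leaf fun A => gA A ⟨8, 68, 209⟩) exNo A.u74 436207616 436207616 805306368 268435456 536870912 536870912 = true := chkC rfl A.d51 A.d73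

def A.u75 : Tr := .B A.u44 A.u74
theorem A.d75 : Tr.chk (leaf fun A => gA A ⟨8, 68, 209⟩) exNo A.u75 436207616 436207616 536870912 536870912 536870912 536870912 = true := chkB rfl A.d44 A.d74

/-- the region A -/
theorem A.all : ∃ t, Tr.chk (leaf fun A => gA A ⟨8, 68, 209⟩) exNo t 436207616 436207616 536870912 536870912 536870912 536870912 = true := ⟨A.u75, A.d75⟩

def B.u0 : Tr := .B B.t0 B.t1
theorem B.d0 : Tr.chk (leaf fun A => gB A ⟨8, 68, 209⟩) exNo B.u0 218103808 218103808 268435456 268435456 268435456 268435456 = true := chkB rfl B.c0 B.c1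

def B.u1 : Tr := .C B.t2 B.t3
theorem B.d1 : Tr.chk (leaf fun A => gB A ⟨8, 68, 209⟩) exNo B.u1 654311424 218103808 134217728 134217728 268435456 268435456 = true := chkC rfl B.c2 B.c3

def B.u2 : Tr := .C B.t5 B.t6
theorem B.d2 : Tr.chk (leaf fun A => gB A ⟨8, 68, 209⟩) exNo B.u2 545259520 109051904 469762048 67108864 134217728 134217728 = true := chkC rfl B.c5 B.c6

def B.u3 : Tr := .B B.t4 B.u2
theorem B.d3 : Tr.chk (leaf fun A => gB A ⟨8, 68, 209⟩) exNo B.u3 545259520 109051904 402653184 134217728 134217728 134217728 = true := chkB rfl B.c4 B.d2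

def B.u4 : Tr := .A B.u3 B.t7
theorem B.d4 : Tr.chk (leaf fun A => gB A ⟨8, 68, 209⟩) exNo B.u4 654311424 218103808 402653184 134217728 134217728 134217728 = true := chkA rfl B.d3 B.c7

def B.u5 : Tr := .C B.u4 B.t8
theorem B.d5 : Tr.chk (leaf fun A => gB A ⟨8, 68, 209⟩) exNo B.u5 654311424 218103808 402653184 134217728 268435456 268435456 = true := chkC rfl B.d4 B.c8

def B.u6 : Tr := .B B.u1 B.u5
theorem B.d6 : Tr.chk (leaf fun A => gB A ⟨8, 68, 209⟩) exNo B.u6 654311424 218103808 268435456 268435456 268435456 268435456 = true := chkB rfl B.d1 B.d5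

def B.u7 : Tr := .A B.u0 B.u6
theorem B.d7 : Tr.chk (leaf fun A => gB A ⟨8, 68, 209⟩) exNo B.u7 436207616 436207616 268435456 268435456 268435456 268435456 = true := chkA rfl B.d0 B.d6

def B.u8 : Tr := .C B.t9 B.t10
theorem B.d8 : Tr.chk (leaf fun A => gB A ⟨8, 68, 209⟩) exNo B.u8 218103808 218103808 134217728 134217728 805306368 268435456 = true := chkC rfl B.c9 B.c10

def B.u9 : Tr := .C B.t11 B.t12
theorem B.d9 : Tr.chk (leaf fun A => gB A ⟨8, 68, 209⟩) exNo B.u9 218103808 218103808 402653184 134217728 805306368 268435456 = true := chkC rfl B.c11 B.c12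

def B.u10 : Tr := .B B.u8 B.u9
theorem B.d10 : Tr.chk (leaf fun A => gB A ⟨8, 68, 209⟩) exNo B.u10 218103808 218103808 268435456 268435456 805306368 268435456 = true := chkB rfl B.d8 B.d9

def B.u11 : Tr := .B B.t14 B.t15
theorem B.d11 : Tr.chk (leaf fun A => gB A ⟨8, 68, 209⟩) exNo B.u11 545259520 109051904 134217728 134217728 939524096 134217728 = true := chkB rfl B.c14 B.c15

def B.u12 : Tr := .A B.u11 B.t16
theorem B.d12 : Tr.chk (leaf fun A => gB A ⟨8, 68, 209⟩) exNo B.u12 654311424 218103808 134217728 134217728 939524096 134217728 = true := chkA rfl B.d11 B.c16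

def B.u13 : Tr := .C B.t13 B.u12
theorem B.d13 : Tr.chk (leaf fun A => gB A ⟨8, 68, 209⟩) exNo B.u13 654311424 218103808 134217728 134217728 805306368 268435456 = true := chkC rfl B.c13 B.d12

def B.u14 : Tr := .B B.t17 B.t18
theorem B.d14 : Tr.chk (leaf fun A => gB A ⟨8, 68, 209⟩) exNo B.u14 545259520 109051904 402653184 134217728 671088640 134217728 = true := chkB rfl B.c17 B.c18

def B.u15 : Tr := .A B.u14 B.t19
theorem B.d15 : Tr.chk (leaf fun A => gB A ⟨8, 68, 209⟩) exNo B.u15 654311424 218103808 402653184 134217728 671088640 134217728 = true := chkA rfl B.d14 B.c19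

def B.u16 : Tr := .B B.t20 B.t21
theorem B.d16 : Tr.chk (leaf fun A => gB A ⟨8, 68, 209⟩) exNo B.u16 545259520 109051904 402653184 134217728 939524096 134217728 = true := chkB rfl B.c20 B.c21

def B.u17 : Tr := .A B.u16 B.t22
theorem B.d17 : Tr.chk (leaf fun A => gB A ⟨8, 68, 209⟩) exNo B.u17 654311424 218103808 402653184 134217728 939524096 134217728 = true := chkA rfl B.d16 B.c22

def B.u18 : Tr := .C B.u15 B.u17
theorem B.d18 : Tr.chk (leaf fun A => gB A ⟨8, 68, 209⟩) exNo B.u18 654311424 218103808 402653184 134217728 805306368 268435456 = true := chkC rfl B.d15 B.d17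

def B.u19 : Tr := .B B.u13 B.u18
theorem B.d19 : Tr.chk (leaf fun A => gB A ⟨8, 68, 209⟩) exNo B.u19 654311424 218103808 268435456 268435456 805306368 268435456 = true := chkB rfl B.d13 B.d18

def B.u20 : Tr := .A B.u10 B.u19
theorem B.d20 : Tr.chk (leaf fun A => gB A ⟨8, 68, 209⟩) exNo B.u20 436207616 436207616 268435456 268435456 805306368 268435456 = true := chkA rfl B.d10 B.d19

def B.u21 : Tr := .C B.u7 B.u20
theorem B.d21 : Tr.chk (leaf fun A => gB A ⟨8, 68, 209⟩) exNo B.u21 436207616 436207616 268435456 268435456 536870912 536870912 = true := chkC rfl B.d7 B.d20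

def B.u22 : Tr := .A B.t24 B.t25
theorem B.d22 : Tr.chk (leaf fun A => gB A ⟨8, 68, 209⟩) exNo B.u22 327155712 109051904 671088640 134217728 134217728 134217728 = true := chkA rfl B.c24 B.c25

def B.u23 : Tr := .A B.t23 B.u22
theorem B.d23 : Tr.chk (leaf fun A => gB A ⟨8, 68, 209⟩) exNo B.u23 218103808 218103808 671088640 134217728 134217728 134217728 = true := chkA rfl B.c23 B.d22

def B.u24 : Tr := .C B.u23 B.t26
theorem B.d24 : Tr.chk (leaf fun A => gB A ⟨8, 68, 209⟩) exNo B.u24 218103808 218103808 671088640 134217728 268435456 268435456 = true := chkC rfl B.d23 B.c26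

def B.u25 : Tr := .C B.t29 B.t30
theorem B.d25 : Tr.chk (leaf fun A => gB A ⟨8, 68, 209⟩) exNo B.u25 327155712 109051904 1006632960 67108864 134217728 134217728 = true := chkC rfl B.c29 B.c30

def B.u26 : Tr := .B B.t28 B.u25
theorem B.d26 : Tr.chk (leaf fun A => gB A ⟨8, 68, 209⟩) exNo B.u26 327155712 109051904 939524096 134217728 134217728 134217728 = true := chkB rfl B.c28 B.d25

def B.u27 : Tr := .A B.t27 B.u26
theorem B.d27 : Tr.chk (leaf fun A => gB A ⟨8, 68, 209⟩) exNo B.u27 218103808 218103808 939524096 134217728 134217728 134217728 = true := chkA rfl B.c27 B.d26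

def B.u28 : Tr := .B B.t32 B.t33
theorem B.d28 : Tr.chk (leaf fun A => gB A ⟨8, 68, 209⟩) exNo B.u28 327155712 109051904 939524096 134217728 402653184 134217728 = true := chkB rfl B.c32 B.c33

def B.u29 : Tr := .A B.t31 B.u28
theorem B.d29 : Tr.chk (leaf fun A => gB A ⟨8, 68, 209⟩) exNo B.u29 218103808 218103808 939524096 134217728 402653184 134217728 = true := chkA rfl B.c31 B.d28

def B.u30 : Tr := .C B.u27 B.u29
theorem B.d30 : Tr.chk (leaf fun A => gB A ⟨8, 68, 209⟩) exNo B.u30 218103808 218103808 939524096 134217728 268435456 268435456 = true := chkC rfl B.d27 B.d29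

def B.u31 : Tr := .B B.u24 B.u30
theorem B.d31 : Tr.chk (leaf fun A => gB A ⟨8, 68, 209⟩) exNo B.u31 218103808 218103808 805306368 268435456 268435456 268435456 = true := chkB rfl B.d24 B.d30

def B.u32 : Tr := .B B.t35 B.t36
theorem B.d32 : Tr.chk (leaf fun A => gB A ⟨8, 68, 209⟩) exNo B.u32 545259520 109051904 671088640 134217728 402653184 134217728 = true := chkB rfl B.c35 B.c36

def B.u33 : Tr := .A B.u32 B.t37
theorem B.d33 : Tr.chk (leaf fun A => gB A ⟨8, 68, 209⟩) exNo B.u33 654311424 218103808 671088640 134217728 402653184 134217728 = true := chkA rfl B.d32 B.c37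

def B.u34 : Tr := .C B.t34 B.u33
theorem B.d34 : Tr.chk (leaf fun A => gB A ⟨8, 68, 209⟩) exNo B.u34 654311424 218103808 671088640 134217728 268435456 268435456 = true := chkC rfl B.c34 B.d33

def B.u35 : Tr := .B B.u34 B.t38
theorem B.d35 : Tr.chk (leaf fun A => gB A ⟨8, 68, 209⟩) exNo B.u35 654311424 218103808 805306368 268435456 268435456 268435456 = true := chkB rfl B.d34 B.c38

def B.u36 : Tr := .A B.u31 B.u35
theorem B.d36 : Tr.chk (leaf fun A => gB A ⟨8, 68, 209⟩) exNo B.u36 436207616 436207616 805306368 268435456 268435456 268435456 = true := chkA rfl B.d31 B.d35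

def B.u37 : Tr := .C B.t39 B.t40
theorem B.d37 : Tr.chk (leaf fun A => gB A ⟨8, 68, 209⟩) exNo B.u37 218103808 218103808 671088640 134217728 805306368 268435456 = true := chkC rfl B.c39 B.c40

def B.u38 : Tr := .A B.t41 B.t42
theorem B.d38 : Tr.chk (leaf fun A => gB A ⟨8, 68, 209⟩) exNo B.u38 218103808 218103808 939524096 134217728 671088640 134217728 = true := chkA rfl B.c41 B.c42

def B.u39 : Tr := .A B.t43 B.t44
theorem B.d39 : Tr.chk (leaf fun A => gB A ⟨8, 68, 209⟩) exNo B.u39 218103808 218103808 939524096 134217728 939524096 134217728 = true := chkA rfl B.c43 B.c44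

def B.u40 : Tr := .C B.u38 B.u39
theorem B.d40 : Tr.chk (leaf fun A => gB A ⟨8, 68, 209⟩) exNo B.u40 218103808 218103808 939524096 134217728 805306368 268435456 = true := chkC rfl B.d38 B.d39

def B.u41 : Tr := .B B.u37 B.u40
theorem B.d41 : Tr.chk (leaf fun A => gB A ⟨8, 68, 209⟩) exNo B.u41 218103808 218103808 805306368 268435456 805306368 268435456 = true := chkB rfl B.d37 B.d40

def B.u42 : Tr := .A B.t45 B.t46
theorem B.d42 : Tr.chk (leaf fun A => gB A ⟨8, 68, 209⟩) exNo B.u42 654311424 218103808 671088640 134217728 671088640 134217728 = true := chkA rfl B.c45 B.c46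

def B.u43 : Tr := .B B.t47 B.t48
theorem B.d43 : Tr.chk (leaf fun A => gB A ⟨8, 68, 209⟩) exNo B.u43 545259520 109051904 671088640 134217728 939524096 134217728 = true := chkB rfl B.c47 B.c48

def B.u44 : Tr := .A B.u43 B.t49
theorem B.d44 : Tr.chk (leaf fun A => gB A ⟨8, 68, 209⟩) exNo B.u44 654311424 218103808 671088640 134217728 939524096 134217728 = true := chkA rfl B.d43 B.c49

def B.u45 : Tr := .C B.u42 B.u44
theorem B.d45 : Tr.chk (leaf fun A => gB A ⟨8, 68, 209⟩) exNo B.u45 654311424 218103808 671088640 134217728 805306368 268435456 = true := chkC rfl B.d42 B.d44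

def B.u46 : Tr := .C B.t51 B.t52
theorem B.d46 : Tr.chk (leaf fun A => gB A ⟨8, 68, 209⟩) exNo B.u46 545259520 109051904 1006632960 67108864 671088640 134217728 = true := chkC rfl B.c51 B.c52

def B.u47 : Tr := .B B.t50 B.u46
theorem B.d47 : Tr.chk (leaf fun A => gB A ⟨8, 68, 209⟩) exNo B.u47 545259520 109051904 939524096 134217728 671088640 134217728 = true := chkB rfl B.c50 B.d46

def B.u48 : Tr := .A B.u47 B.t53
theorem B.d48 : Tr.chk (leaf fun A => gB A ⟨8, 68, 209⟩) exNo B.u48 654311424 218103808 939524096 134217728 671088640 134217728 = true := chkA rfl B.d47 B.c53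

def B.u49 : Tr := .C B.t55 B.t56
theorem B.d49 : Tr.chk (leaf fun A => gB A ⟨8, 68, 209⟩) exNo B.u49 545259520 109051904 1006632960 67108864 939524096 134217728 = true := chkC rfl B.c55 B.c56

def B.u50 : Tr := .B B.t54 B.u49
theorem B.d50 : Tr.chk (leaf fun A => gB A ⟨8, 68, 209⟩) exNo B.u50 545259520 109051904 939524096 134217728 939524096 134217728 = true := chkB rfl B.c54 B.d49

def B.u51 : Tr := .A B.u50 B.t57
theorem B.d51 : Tr.chk (leaf fun A => gB A ⟨8, 68, 209⟩) exNo B.u51 654311424 218103808 939524096 134217728 939524096 134217728 = true := chkA rfl B.d50 B.c57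

def B.u52 : Tr := .C B.u48 B.u51
theorem B.d52 : Tr.chk (leaf fun A => gB A ⟨8, 68, 209⟩) exNo B.u52 654311424 218103808 939524096 134217728 805306368 268435456 = true := chkC rfl B.d48 B.d51

def B.u53 : Tr := .B B.u45 B.u52
theorem B.d53 : Tr.chk (leaf fun A => gB A ⟨8, 68, 209⟩) exNo B.u53 654311424 218103808 805306368 268435456 805306368 268435456 = true := chkB rfl B.d45 B.d52

def B.u54 : Tr := .A B.u41 B.u53
theorem B.d54 : Tr.chk (leaf fun A => gB A ⟨8, 68, 209⟩) exNo B.u54 436207616 436207616 805306368 268435456 805306368 268435456 = true := chkA rfl B.d41 B.d53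

def B.u55 : Tr := .C B.u36 B.u54
theorem B.d55 : Tr.chk (leaf fun A => gB A ⟨8, 68, 209⟩) exNo B.u55 436207616 436207616 805306368 268435456 536870912 536870912 = true := chkC rfl B.d36 B.d54

def B.u56 : Tr := .B B.u21 B.u55
theorem B.d56 : Tr.chk (leaf fun A => gB A ⟨8, 68, 209⟩) exNo B.u56 436207616 436207616 536870912 536870912 536870912 536870912 = true := chkB rfl B.d21 B.d55

/-- the region B -/
theorem B.all : ∃ t, Tr.chk (leaf fun A => gB A ⟨8, 68, 209⟩) exNo t 436207616 436207616 536870912 536870912 536870912 536870912 = true := ⟨B.u56, B.d56⟩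

def V.u0 : Tr := .A V.t0 V.t1
theorem V.d0 : Tr.chk (leaf fun A => gV A ⟨8, 68, 209⟩) exV V.u0 268435456 268435456 268435456 268435456 268435456 268435456 = true := chkA rfl V.c0 V.c1

def V.u1 : Tr := .C V.u0 V.t2
theorem V.d1 : Tr.chk (leaf fun A => gV A ⟨8, 68, 209⟩) exV V.u1 268435456 268435456 268435456 268435456 536870912 536870912 = true := chkC rfl V.d0 V.c2

def V.u2 : Tr := .C V.t4 V.t5
theorem V.d2 : Tr.chk (leaf fun A => gV A ⟨8, 68, 209⟩) exV V.u2 134217728 134217728 939524096 134217728 268435456 268435456 = true := chkC rfl V.c4 V.c5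

def V.u3 : Tr := .B V.t3 V.u2
theorem V.d3 : Tr.chk (leaf fun A => gV A ⟨8, 68, 209⟩) exV V.u3 134217728 134217728 805306368 268435456 268435456 268435456 = true := chkB rfl V.c3 V.d2

def V.u4 : Tr := .A V.u3 V.t6
theorem V.d4 : Tr.chk (leaf fun A => gV A ⟨8, 68, 209⟩) exV V.u4 268435456 268435456 805306368 268435456 268435456 268435456 = true := chkA rfl V.d3 V.c6

def V.u5 : Tr := .C V.t10 V.t11
theorem V.d5 : Tr.chk (leaf fun A => gV A ⟨8, 68, 209⟩) exV V.u5 134217728 134217728 1006632960 67108864 939524096 134217728 = true := chkC rfl V.c10 V.c11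

def V.u6 : Tr := .B V.t9 V.u5
theorem V.d6 : Tr.chk (leaf fun A => gV A ⟨8, 68, 209⟩) exV V.u6 134217728 134217728 939524096 134217728 939524096 134217728 = true := chkB rfl V.c9 V.d5

def V.u7 : Tr := .C V.t8 V.u6
theorem V.d7 : Tr.chk (leaf fun A => gV A ⟨8, 68, 209⟩) exV V.u7 134217728 134217728 939524096 134217728 805306368 268435456 = true := chkC rfl V.c8 V.d6

def V.u8 : Tr := .B V.t7 V.u7
theorem V.d8 : Tr.chk (leaf fun A => gV A ⟨8, 68, 209⟩) exV V.u8 134217728 134217728 805306368 268435456 805306368 268435456 = true := chkB rfl V.c7 V.d7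

def V.u9 : Tr := .B V.t12 V.t13
theorem V.d9 : Tr.chk (leaf fun A => gV A ⟨8, 68, 209⟩) exV V.u9 402653184 134217728 805306368 268435456 805306368 268435456 = true := chkB rfl V.c12 V.c13

def V.u10 : Tr := .A V.u8 V.u9
theorem V.d10 : Tr.chk (leaf fun A => gV A ⟨8, 68, 209⟩) exV V.u10 268435456 268435456 805306368 268435456 805306368 268435456 = true := chkA rfl V.d8 V.d9

def V.u11 : Tr := .C V.u4 V.u10
theorem V.d11 : Tr.chk (leaf fun A => gV A ⟨8, 68, 209⟩) exV V.u11 268435456 268435456 805306368 268435456 536870912 536870912 = true := chkC rfl V.d4 V.d10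

def V.u12 : Tr := .B V.u1 V.u11
theorem V.d12 : Tr.chk (leaf fun A => gV A ⟨8, 68, 209⟩) exV V.u12 268435456 268435456 536870912 536870912 536870912 536870912 = true := chkB rfl V.d1 V.d11

def V.u13 : Tr := .C V.t15 V.t16
theorem V.d13 : Tr.chk (leaf fun A => gV A ⟨8, 68, 209⟩) exV V.u13 939524096 134217728 134217728 134217728 134217728 134217728 = true := chkC rfl V.c15 V.c16

def V.u14 : Tr := .C V.u13 V.t17
theorem V.d14 : Tr.chk (leaf fun A => gV A ⟨8, 68, 209⟩) exV V.u14 939524096 134217728 134217728 134217728 268435456 268435456 = true := chkC rfl V.d13 V.c17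

def V.u15 : Tr := .B V.u14 V.t18
theorem V.d15 : Tr.chk (leaf fun A => gV A ⟨8, 68, 209⟩) exV V.u15 939524096 134217728 268435456 268435456 268435456 268435456 = true := chkB rfl V.d14 V.c18

def V.u16 : Tr := .A V.t14 V.u15
theorem V.d16 : Tr.chk (leaf fun A => gV A ⟨8, 68, 209⟩) exV V.u16 805306368 268435456 268435456 268435456 268435456 268435456 = true := chkA rfl V.c14 V.d15

def V.u17 : Tr := .C V.t21 V.t22
theorem V.d17 : Tr.chk (leaf fun A => gV A ⟨8, 68, 209⟩) exV V.u17 939524096 134217728 402653184 134217728 805306368 268435456 = true := chkC rfl V.c21 V.c22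

def V.u18 : Tr := .B V.t20 V.u17
theorem V.d18 : Tr.chk (leaf fun A => gV A ⟨8, 68, 209⟩) exV V.u18 939524096 134217728 268435456 268435456 805306368 268435456 = true := chkB rfl V.c20 V.d17

def V.u19 : Tr := .A V.t19 V.u18
theorem V.d19 : Tr.chk (leaf fun A => gV A ⟨8, 68, 209⟩) exV V.u19 805306368 268435456 268435456 268435456 805306368 268435456 = true := chkA rfl V.c19 V.d18

def V.u20 : Tr := .C V.u16 V.u19
theorem V.d20 : Tr.chk (leaf fun A => gV A ⟨8, 68, 209⟩) exV V.u20 805306368 268435456 268435456 268435456 536870912 536870912 = true := chkC rfl V.d16 V.d19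

def V.u21 : Tr := .B V.t25 V.t26
theorem V.d21 : Tr.chk (leaf fun A => gV A ⟨8, 68, 209⟩) exV V.u21 671088640 134217728 671088640 134217728 939524096 134217728 = true := chkB rfl V.c25 V.c26

def V.u22 : Tr := .C V.t24 V.u21
theorem V.d22 : Tr.chk (leaf fun A => gV A ⟨8, 68, 209⟩) exV V.u22 671088640 134217728 671088640 134217728 805306368 268435456 = true := chkC rfl V.c24 V.d21

def V.u23 : Tr := .B V.u22 V.t27
theorem V.d23 : Tr.chk (leaf fun A => gV A ⟨8, 68, 209⟩) exV V.u23 671088640 134217728 805306368 268435456 805306368 268435456 = true := chkB rfl V.d22 V.c27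

def V.u24 : Tr := .B V.t29 V.t30
theorem V.d24 : Tr.chk (leaf fun A => gV A ⟨8, 68, 209⟩) exV V.u24 939524096 134217728 603979776 67108864 939524096 134217728 = true := chkB rfl V.c29 V.c30

def V.u25 : Tr := .B V.u24 V.t31
theorem V.d25 : Tr.chk (leaf fun A => gV A ⟨8, 68, 209⟩) exV V.u25 939524096 134217728 671088640 134217728 939524096 134217728 = true := chkB rfl V.d24 V.c31

def V.u26 : Tr := .C V.t28 V.u25
theorem V.d26 : Tr.chk (leaf fun A => gV A ⟨8, 68, 209⟩) exV V.u26 939524096 134217728 671088640 134217728 805306368 268435456 = true := chkC rfl V.c28 V.d25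

def V.u27 : Tr := .B V.u26 V.t32
theorem V.d27 : Tr.chk (leaf fun A => gV A ⟨8, 68, 209⟩) exV V.u27 939524096 134217728 805306368 268435456 805306368 268435456 = true := chkB rfl V.d26 V.c32

def V.u28 : Tr := .A V.u23 V.u27
theorem V.d28 : Tr.chk (leaf fun A => gV A ⟨8, 68, 209⟩) exV V.u28 805306368 268435456 805306368 268435456 805306368 268435456 = true := chkA rfl V.d23 V.d27

def V.u29 : Tr := .C V.t23 V.u28
theorem V.d29 : Tr.chk (leaf fun A => gV A ⟨8, 68, 209⟩) exV V.u29 805306368 268435456 805306368 268435456 536870912 536870912 = true := chkC rfl V.c23 V.d28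

def V.u30 : Tr := .B V.u20 V.u29
theorem V.d30 : Tr.chk (leaf fun A => gV A ⟨8, 68, 209⟩) exV V.u30 805306368 268435456 536870912 536870912 536870912 536870912 = true := chkB rfl V.d20 V.d29

def V.u31 : Tr := .A V.u12 V.u30
theorem V.d31 : Tr.chk (leaf fun A => gV A ⟨8, 68, 209⟩) exV V.u31 536870912 536870912 536870912 536870912 536870912 536870912 = true := chkA rfl V.d12 V.d30

/-- the region V -/
theorem V.all : ∃ t, Tr.chk (leaf fun A => gV A ⟨8, 68, 209⟩) exV t 536870912 536870912 536870912 536870912 536870912 536870912 = true := ⟨V.u31, V.d31⟩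

def HN.u0 : Tr := .C HN.t0 HN.t1
theorem HN.d0 : Tr.chk (leaf fun A => gHN A ⟨8, 68, 209⟩) exNo HN.u0 100663296 100663296 536870912 536870912 134217728 134217728 = true := chkC rfl HN.c0 HN.c1

def HN.u1 : Tr := .C HN.u0 HN.t2
theorem HN.d1 : Tr.chk (leaf fun A => gHN A ⟨8, 68, 209⟩) exNo HN.u1 100663296 100663296 536870912 536870912 268435456 268435456 = true := chkC rfl HN.d0 HN.c2

def HN.u2 : Tr := .C HN.u1 HN.t3
theorem HN.d2 : Tr.chk (leaf fun A => gHN A ⟨8, 68, 209⟩) exNo HN.u2 100663296 100663296 536870912 536870912 536870912 536870912 = true := chkC rfl HN.d1 HN.c3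

/-- the region HN -/
theorem HN.all : ∃ t, Tr.chk (leaf fun A => gHN A ⟨8, 68, 209⟩) exNo t 100663296 100663296 536870912 536870912 536870912 536870912 = true := ⟨HN.u2, HN.d2⟩

/-- the region HP -/
theorem HP.all : ∃ t, Tr.chk (leaf fun A => gHP A ⟨8, 68, 209⟩) exNo t 100663296 100663296 536870912 536870912 536870912 536870912 = true := ⟨HP.t0, HP.c0⟩

/-- the region HE -/
theorem HE.all : ∃ t, Tr.chk (leaf fun A => gHE A ⟨8, 68, 209⟩) exNo t 100663296 100663296 536870912 536870912 872415232 872415232 = true := ⟨HE.t0, HE.c0⟩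

/-- the region SN -/
theorem SN.all : ∃ t, Tr.chk (leafS fun A => fN A ⟨8, 68, 209⟩) exNo t 436207616 436207616 67108864 67108864 536870912 536870912 = true := ⟨SN.t0, SN.c0⟩

/-- the region S1 -/
theorem S1.all : ∃ t, Tr.chk (leafS fun A => fP1 A ⟨8, 68, 209⟩) exNo t 50331648 50331648 67108864 67108864 536870912 536870912 = true := ⟨S1.t0, S1.c0⟩

/-- the region S2 -/
theorem S2.all : ∃ t, Tr.chk (leafS fun A => fP2 A ⟨8, 68, 209⟩) exNo t 50331648 50331648 50331648 50331648 536870912 536870912 = true := ⟨S2.t0, S2.c0⟩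

def F1.u0 : Tr := .C F1.t1 F1.t2
theorem F1.d0 : Tr.chk (leafS fun A => fF1 A ⟨8, 68, 209⟩) exNo F1.u0 679477248 192937984 67108864 67108864 536870912 536870912 = true := chkC rfl F1.c1 F1.c2

def F1.u1 : Tr := .A F1.t0 F1.u0
theorem F1.d1 : Tr.chk (leafS fun A => fF1 A ⟨8, 68, 209⟩) exNo F1.u1 486539264 385875968 67108864 67108864 536870912 536870912 = true := chkA rfl F1.c0 F1.d0

/-- the region F1 -/
theorem F1.all : ∃ t, Tr.chk (leafS fun A => fF1 A ⟨8, 68, 209⟩) exNo t 486539264 385875968 67108864 67108864 536870912 536870912 = true := ⟨F1.u1, F1.d1⟩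

def F2.u0 : Tr := .C F2.t1 F2.t2
theorem F2.d0 : Tr.chk (leafS fun A => fF2 A ⟨8, 68, 209⟩) exNo F2.u0 679477248 192937984 67108864 67108864 536870912 536870912 = true := chkC rfl F2.c1 F2.c2

def F2.u1 : Tr := .A F2.t0 F2.u0
theorem F2.d1 : Tr.chk (leafS fun A => fF2 A ⟨8, 68, 209⟩) exNo F2.u1 486539264 385875968 67108864 67108864 536870912 536870912 = true := chkA rfl F2.c0 F2.d0

/-- the region F2 -/
theorem F2.all : ∃ t, Tr.chk (leafS fun A => fF2 A ⟨8, 68, 209⟩) exNo t 486539264 385875968 67108864 67108864 536870912 536870912 = true := ⟨F2.u1, F2.d1⟩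

/-- the region T1 -/
theorem T1.all : ∃ t, Tr.chk (leafS fun A => fV1 A ⟨8, 68, 209⟩) exNo t 536870912 536870912 16777216 16777216 536870912 536870912 = true := ⟨T1.t0, T1.c0⟩

/-- the region T2 -/
theorem T2.all : ∃ t, Tr.chk (leafS fun A => fV2 A ⟨8, 68, 209⟩) exNo t 536870912 536870912 16777216 16777216 536870912 536870912 = true := ⟨T2.t0, T2.c0⟩

/-- the region T3 -/
theorem T3.all : ∃ t, Tr.chk (leafS fun A => fV3 A ⟨8, 68, 209⟩) exNo t 536870912 536870912 16777216 16777216 536870912 536870912 = true := ⟨T3.t0, T3.c0⟩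

theorem chk : Chk ⟨8, 68, 209⟩ :=
  ⟨N.all, A.all, B.all, V.all, HN.all, HP.all, HE.all, SN.all, S1.all, S2.all, F1.all, F2.all, T1.all, T2.all, T3.all⟩

end Pool.Agent.FTN.K8
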