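import Pool.Agent.FTN.Region

set_option maxRecDepth 100000

namespace Pool.Agent.FTN.K9

open Pool.Agent.FTA (TM Alg Tr leaf leafS exNo exV chkA chkB chkC)

def V.t8 : Tr := .B (.C (.A .L .L) (.B .L .L)) (.C (.C (.C (.A .L .L) (.A .L .L)) (.B .L .L)) (.B (.C .L .L) (.C (.C .L .L) (.B .L .L))))
theorem V.c8 : Tr.chk (leaf fun A => gV A ⟨9, 62, 218⟩) exV V.t8 134217728 134217728 939524096 134217728 671088640 134217728 = true := by decide +kernel

def V.t9 : Tr := .C (.B .L (.A .L .L)) (.B .L (.C .L (.A .L .L)))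
theorem V.c9 : Tr.chk (leaf fun A => gV A ⟨9, 62, 218⟩) exV V.t9 134217728 134217728 872415232 67108864 939524096 134217728 = true := by decide +kernel

def V.t10 : Tr := .B (.C .L (.B .L .L)) (.C (.B .L (.C .L .L)) (.B (.A .L .L) (.C .L (.B .L .L))))
theorem V.c10 : Tr.chk (leaf fun A => gV A ⟨9, 62, 218⟩) exV V.t10 134217728 134217728 1006632960 67108864 872415232 67108864 = true := by decide +kernel

def V.t11 : Tr := .B (.C (.B .L .L) (.A .L (.B .L .L))) (.C (.B (.A .L .L) (.B (.C .L .L) (.C .L .L))) .L)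
theorem V.c11 : Tr.chk (leaf fun A => gV A ⟨9, 62, 218⟩) exV V.t11 134217728 134217728 1006632960 67108864 1006632960 67108864 = true := by decide +kernel

def V.t12 : Tr := .B (.C (.B .L (.A .L .L)) (.B .L (.C .L .L))) (.C (.B (.A .L (.C .L .L)) (.C .L .L)) (.B (.C .L .L) (.C .L (.A .L .L))))
theorem V.c12 : Tr.chk (leaf fun A => gV A ⟨9, 62, 218⟩) exV V.t12 402653184 134217728 671088640 134217728 805306368 268435456 = true := by decide +kernel

def V.t13 : Tr := .C (.C (.B (.C .L (.A .L .L)) .L) (.B (.B (.A .L .L) .L) .L)) (.B (.C (.B (.A .L .L) .L) (.B (.A .L .L) (.A .L .L))) .L)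
theorem V.c13 : Tr.chk (leaf fun A => gV A ⟨9, 62, 218⟩) exV V.t13 402653184 134217728 939524096 134217728 805306368 268435456 = true := by decide +kernel

end Pool.Agent.FTN.K9
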