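import Pool.Agent.FTN.Region

set_option maxRecDepth 100000

namespace Pool.Agent.FTN.K9

open Pool.Agent.FTA (TM Alg Tr leaf leafS exNo exV chkA chkB chkC)

def V.t14 : Tr := .B (.C (.C (.C (.B .L .L) .L) .L) (.C .L .L)) (.C (.B (.C .L .L) (.B .L .L)) (.B (.B .L .L) (.B .L .L)))
theorem V.c14 : Tr.chk (leaf fun A => gV A ⟨9, 62, 218⟩) exV V.t14 671088640 134217728 268435456 268435456 268435456 268435456 = true := by decide +kernel

def V.t15 : Tr := .C (.B (.C (.B (.C (.B (.A .L (.C (.B (.C (.B (.A .L (.B (.A .L .X) .L)) .L) .L) .L) .L)) .L) .L) .L) .L) .L) (.C .L .L)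
theorem V.c15 : Tr.chk (leaf fun A => gV A ⟨9, 62, 218⟩) exV V.t15 939524096 134217728 134217728 134217728 67108864 67108864 = true := by decide +kernel

def V.t16 : Tr := .C .L .L
theorem V.c16 : Tr.chk (leaf fun A => gV A ⟨9, 62, 218⟩) exV V.t16 939524096 134217728 134217728 134217728 201326592 67108864 = true := by decide +kernel

def V.t17 : Tr := .B .L .L
theorem V.c17 : Tr.chk (leaf fun A => gV A ⟨9, 62, 218⟩) exV V.t17 939524096 134217728 134217728 134217728 402653184 134217728 = true := by decide +kernel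

def V.t18 : Tr := .C (.B (.C .L .L) (.B .L .L)) (.B (.B .L .L) (.B .L (.C .L .L)))
theorem V.c18 : Tr.chk (leaf fun A => gV A ⟨9, 62, 218⟩) exV V.t18 939524096 134217728 402653184 134217728 268435456 268435456 = true := by decide +kernel

def V.t19 : Tr := .B (.C .L .L) (.C (.B .L (.B .L (.C .L .L))) (.B .L (.B .L (.A .L .L))))
theorem V.c19 : Tr.chk (leaf fun A => gV A ⟨9, 62, 218⟩) exV V.t19 671088640 134217728 268435456 268435456 805306368 268435456 = true := by decide +kernel

def V.t20 : Tr := .C (.B .L .L) (.B .L (.B .L .L))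
theorem V.c20 : Tr.chk (leaf fun A => gV A ⟨9, 62, 218⟩) exV V.t20 939524096 134217728 134217728 134217728 805306368 268435456 = true := by decide +kernel

def V.t21 : Tr := .B (.B .L .L) (.B (.A .L (.C .L .L)) (.A (.C .L .L) (.C .L .L)))
theorem V.c21 : Tr.chk (leaf fun A => gV A ⟨9, 62, 218⟩) exV V.t21 939524096 134217728 402653184 134217728 671088640 134217728 = true := by decide +kernel

end Pool.Agent.FTN.K9
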