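import Pool.Agent.FTN.Region

set_option maxRecDepth 100000

namespace Pool.Agent.FTN.K9

open Pool.Agent.FTA (TM Alg Tr leaf leafS exNo exV chkA chkB chkC)

def V.t22 : Tr := .B (.B .L (.A .L .L)) (.B (.A .L (.B (.A .L .L) (.A .L (.C .L .L)))) (.A (.B (.C .L .L) (.C .L .L)) (.C .L .L)))
theorem V.c22 : Tr.chk (leaf fun A => gV A ⟨9, 62, 218⟩) exV V.t22 939524096 134217728 402653184 134217728 939524096 134217728 = true := by decide +kernel

def V.t23 : Tr := .A (.B (.C (.B (.B .L .L) .L) (.C (.B .L .L) (.B (.B .L .L) .L))) .L) (.B (.C .L (.A .L .L)) .L)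
theorem V.c23 : Tr.chk (leaf fun A => gV A ⟨9, 62, 218⟩) exV V.t23 805306368 268435456 805306368 268435456 268435456 268435456 = true := by decide +kernel

def V.t24 : Tr := .B (.C (.B .L .L) (.B .L .L)) (.C .L (.B (.A .L .L) .L))
theorem V.c24 : Tr.chk (leaf fun A => gV A ⟨9, 62, 218⟩) exV V.t24 671088640 134217728 671088640 134217728 671088640 134217728 = true := by decide +kernel

def V.t25 : Tr := .B (.B (.A .L (.B (.C .L .L) (.C .L .L))) (.A (.C .L .L) (.C .L .L))) (.B (.A (.C .L .L) (.C .L .L)) (.A .L .L))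
theorem V.c25 : Tr.chk (leaf fun A => gV A ⟨9, 62, 218⟩) exV V.t25 671088640 134217728 671088640 134217728 939524096 134217728 = true := by decide +kernel

def V.t26 : Tr := .C .L .L
theorem V.c26 : Tr.chk (leaf fun A => gV A ⟨9, 62, 218⟩) exV V.t26 671088640 134217728 939524096 134217728 805306368 268435456 = true := by decide +kernel

def V.t27 : Tr := .B (.C (.B .L .L) (.B .L .L)) .L
theorem V.c27 : Tr.chk (leaf fun A => gV A ⟨9, 62, 218⟩) exV V.t27 939524096 134217728 671088640 134217728 671088640 134217728 = true := by decide +kernel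

def V.t28 : Tr := .A (.B (.A (.C .L .L) (.C .L .L)) (.A (.C .L .L) (.C .L .L))) (.B (.C .L (.A .L (.B .L .L))) (.C .L (.A .L .L)))
theorem V.c28 : Tr.chk (leaf fun A => gV A ⟨9, 62, 218⟩) exV V.t28 939524096 134217728 570425344 33554432 939524096 134217728 = true := by decide +kernel

def V.t29 : Tr := .A (.C .L (.A .L .L)) .L
theorem V.c29 : Tr.chk (leaf fun A => gV A ⟨9, 62, 218⟩) exV V.t29 939524096 134217728 637534208 33554432 939524096 134217728 = true := by decide +kernel

def V.t30 : Tr := .L
theorem V.c30 : Tr.chk (leaf fun A => gV A ⟨9, 62, 218⟩) exV V.t30 939524096 134217728 738197504 67108864 939524096 134217728 = true := by decide +kernel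

def V.t31 : Tr := .L
theorem V.c31 : Tr.chk (leaf fun A => gV A ⟨9, 62, 218⟩) exV V.t31 939524096 134217728 939524096 134217728 805306368 268435456 = true := by decide +kernel

end Pool.Agent.FTN.K9
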