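import Pool.Agent.FTN.Region

set_option maxRecDepth 100000

namespace Pool.Agent.FTN.K9

open Pool.Agent.FTA (TM Alg Tr leaf leafS exNo exV chkA chkB chkC)

def HN.t0 : Tr := .A (.B (.C (.A (.C (.A (.C (.A .L .L) .L) .L) .L) .L) .L) (.C (.A (.C (.A (.C (.A .L .L) .L) .L) .L) .L) .L)) (.B .L .L)
theorem HN.c0 : Tr.chk (leaf fun A => gHN A ⟨9, 62, 218⟩) exNo HN.t0 50331648 50331648 536870912 536870912 33554432 33554432 = true := by decide +kernel

def HN.t1 : Tr := .B .L .L
theorem HN.c1 : Tr.chk (leaf fun A => gHN A ⟨9, 62, 218⟩) exNo HN.t1 50331648 50331648 536870912 536870912 100663296 33554432 = true := by decide +kernel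

def HN.t2 : Tr := .B .L .L
theorem HN.c2 : Tr.chk (leaf fun A => gHN A ⟨9, 62, 218⟩) exNo HN.t2 150994944 50331648 536870912 536870912 67108864 67108864 = true := by decide +kernel

def HN.t3 : Tr := .B (.B .L .L) .L
theorem HN.c3 : Tr.chk (leaf fun A => gHN A ⟨9, 62, 218⟩) exNo HN.t3 100663296 100663296 536870912 536870912 201326592 67108864 = true := by decide +kernel

def HN.t4 : Tr := .B (.B .L .L) (.C .L .L)
theorem HN.c4 : Tr.chk (leaf fun A => gHN A ⟨9, 62, 218⟩) exNo HN.t4 100663296 100663296 536870912 536870912 402653184 134217728 = true := by decide +kernel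

def HN.t5 : Tr := .B (.C .L .L) (.C (.A .L .L) (.A .L .L))
theorem HN.c5 : Tr.chk (leaf fun A => gHN A ⟨9, 62, 218⟩) exNo HN.t5 100663296 100663296 536870912 536870912 805306368 268435456 = true := by decide +kernel

def HP.t0 : Tr := .C (.C .L (.B .L .L)) (.B .L (.B (.C .L .L) (.C .L (.A (.B .L .L) .L))))
theorem HP.c0 : Tr.chk (leaf fun A => gHP A ⟨9, 62, 218⟩) exNo HP.t0 100663296 100663296 536870912 536870912 536870912 536870912 = true := by decide +kernel

def HE.t0 : Tr := .C (.C (.A (.C (.A (.A (.C (.A (.C (.A .L .L) .L) .L) .L) .L) .L) .L) .L) (.A .L .L)) .L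
theorem HE.c0 : Tr.chk (leaf fun A => gHE A ⟨9, 62, 218⟩) exNo HE.t0 100663296 100663296 536870912 536870912 872415232 872415232 = true := by decide +kernel

def SN.t0 : Tr := .A (.A (.A .L .L) (.A .L .L)) (.A (.A .L (.C .L .L)) (.A (.C .L .L) (.C (.A .L (.C .L .L)) .L)))
theorem SN.c0 : Tr.chk (leafS fun A => fN A ⟨9, 62, 218⟩) exNo SN.t0 436207616 436207616 67108864 67108864 536870912 536870912 = true := by decide +kernel

def S1.t0 : Tr := .C (.C .L .L) (.C .L .L)
theorem S1.c0 : Tr.chk (leafS fun A => fP1 A ⟨9, 62, 218⟩) exNo S1.t0 50331648 50331648 67108864 67108864 536870912 536870912 = true := by decide +kernel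

def S2.t0 : Tr := .L
theorem S2.c0 : Tr.chk (leafS fun A => fP2 A ⟨9, 62, 218⟩) exNo S2.t0 50331648 50331648 50331648 50331648 536870912 536870912 = true := by decide +kernel

end Pool.Agent.FTN.K9
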