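import Pool.Agent.FTN.Region

set_option maxRecDepth 100000

namespace Pool.Agent.FTN.K9

open Pool.Agent.FTA (TM Alg Tr leaf leafS exNo exV chkA chkB chkC)

def F1.t0 : Tr := .A (.A (.C .L .L) (.C .L .L)) (.C (.C .L .L) (.C .L .L))
theorem F1.c0 : Tr.chk (leafS fun A => fF1 A ⟨9, 62, 218⟩) exNo F1.t0 293601280 192937984 67108864 67108864 536870912 536870912 = true := by decide +kernel

def F1.t1 : Tr := .A (.C (.C .L .L) .L) (.C (.A .L (.C .L .L)) (.A .L (.C .L .L)))
theorem F1.c1 : Tr.chk (leafS fun A => fF1 A ⟨9, 62, 218⟩) exNo F1.t1 679477248 192937984 67108864 67108864 268435456 268435456 = true := by decide +kernel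

def F1.t2 : Tr := .A (.C (.C .L .L) (.C .L .L)) (.C (.A .L (.C .L .L)) (.A .L (.A .L (.A .L (.B .L .L)))))
theorem F1.c2 : Tr.chk (leafS fun A => fF1 A ⟨9, 62, 218⟩) exNo F1.t2 679477248 192937984 67108864 67108864 805306368 268435456 = true := by decide +kernel

def F2.t0 : Tr := .C (.C (.A (.C .L .L) (.C .L .L)) (.A .L .L)) (.C (.A .L .L) (.A .L .L))
theorem F2.c0 : Tr.chk (leafS fun A => fF2 A ⟨9, 62, 218⟩) exNo F2.t0 293601280 192937984 67108864 67108864 536870912 536870912 = true := by decide +kernel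

def F2.t1 : Tr := .A (.C (.C .L .L) .L) (.A (.C .L .L) (.C (.C .L .L) (.A .L .L)))
theorem F2.c1 : Tr.chk (leafS fun A => fF2 A ⟨9, 62, 218⟩) exNo F2.t1 679477248 192937984 67108864 67108864 268435456 268435456 = true := by decide +kernel

def F2.t2 : Tr := .A (.C .L (.A .L .L)) (.A (.C .L .L) (.A (.C .L .L) (.C (.C .L .L) (.A .L .L))))
theorem F2.c2 : Tr.chk (leafS fun A => fF2 A ⟨9, 62, 218⟩) exNo F2.t2 679477248 192937984 67108864 67108864 805306368 268435456 = true := by decide +kernel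

def T1.t0 : Tr := .A (.C .L .L) .L
theorem T1.c0 : Tr.chk (leafS fun A => fV1 A ⟨9, 62, 218⟩) exNo T1.t0 536870912 536870912 16777216 16777216 536870912 536870912 = true := by decide +kernel

def T2.t0 : Tr := .L
theorem T2.c0 : Tr.chk (leafS fun A => fV2 A ⟨9, 62, 218⟩) exNo T2.t0 536870912 536870912 16777216 16777216 536870912 536870912 = true := by decide +kernel

def T3.t0 : Tr := .L
theorem T3.c0 : Tr.chk (leafS fun A => fV3 A ⟨9, 62, 218⟩) exNo T3.t0 536870912 536870912 16777216 16777216 536870912 536870912 = true := by decide +kernel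

end Pool.Agent.FTN.K9
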