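import Pool.Agent.FTN.Region

set_option maxRecDepth 100000

namespace Pool.Agent.FTN.K9

open Pool.Agent.FTA (TM Alg Tr leaf leafS exNo exV chkA chkB chkC)

def A.t6 : Tr := .A (.C (.C .L (.A .L .L)) (.C (.A .L .L) (.B (.C (.A .L .L) (.B (.A .L .L) (.A .L .L))) (.C (.A .L .L) (.B .L .L))))) .L
theorem A.c6 : Tr.chk (leaf fun A => gA A ⟨9, 62, 218⟩) exNo A.t6 654311424 218103808 134217728 134217728 134217728 134217728 = true := by decide +kernel

def A.t7 : Tr := .B (.C (.B (.C (.A .L .L) (.A .L .L)) (.A .L .L)) (.A .L .L)) (.C (.B (.A .L .L) (.A .L .L)) (.A .L .L))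
theorem A.c7 : Tr.chk (leaf fun A => gA A ⟨9, 62, 218⟩) exNo A.t7 545259520 109051904 134217728 134217728 335544320 67108864 = true := by decide +kernel

def A.t8 : Tr := .B (.B (.A .L (.C .L .L)) (.A .L (.C .L .L))) (.A .L (.B .L .L))
theorem A.c8 : Tr.chk (leaf fun A => gA A ⟨9, 62, 218⟩) exNo A.t8 545259520 109051904 134217728 134217728 469762048 67108864 = true := by decide +kernel

def A.t9 : Tr := .B (.A (.C .L (.C .L (.B .L .L))) .L) (.A (.C .L (.C .L .L)) .L)
theorem A.c9 : Tr.chk (leaf fun A => gA A ⟨9, 62, 218⟩) exNo A.t9 763363328 109051904 134217728 134217728 402653184 134217728 = true := by decide +kernel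

def A.t10 : Tr := .A (.C (.A .L .L) (.C (.B (.A .L .L) (.A .L .L)) (.B (.B (.C .L .L) (.C .L .L)) (.B (.A .L .L) (.A .L .L))))) .L
theorem A.c10 : Tr.chk (leaf fun A => gA A ⟨9, 62, 218⟩) exNo A.t10 654311424 218103808 402653184 134217728 134217728 134217728 = true := by decide +kernel

def A.t11 : Tr := .A (.C (.B (.A .L (.B .L .L)) (.A .L .L)) (.B (.A .L .L) (.A .L .L))) .L
theorem A.c11 : Tr.chk (leaf fun A => gA A ⟨9, 62, 218⟩) exNo A.t11 654311424 218103808 402653184 134217728 402653184 134217728 = true := by decide +kernel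

end Pool.Agent.FTN.K9
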