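import Pool.Agent.FTN.Region

set_option maxRecDepth 100000

namespace Pool.Agent.FTN.K9

open Pool.Agent.FTA (TM Alg Tr leaf leafS exNo exV chkA chkB chkC)

def B.t8 : Tr := .A (.B (.C (.A (.A .L .L) .L) (.A (.A .L .L) .L)) (.C (.A (.A .L .L) .L) (.A (.A .L .L) .L))) .L
theorem B.c8 : Tr.chk (leaf fun A => gB A ⟨9, 62, 218⟩) exNo B.t8 654311424 218103808 402653184 134217728 402653184 134217728 = true := by decide +kernel

def B.t9 : Tr := .A (.C .L (.A .L .L)) (.C (.A .L .L) (.A .L .L))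
theorem B.c9 : Tr.chk (leaf fun A => gB A ⟨9, 62, 218⟩) exNo B.t9 218103808 218103808 134217728 134217728 671088640 134217728 = true := by decide +kernel

def B.t10 : Tr := .A (.C (.A (.C .L .L) .L) (.A (.C (.A .L .L) (.A .L .L)) (.C .L .L))) (.C (.A .L .L) (.A (.C .L .L) (.C .L .L)))
theorem B.c10 : Tr.chk (leaf fun A => gB A ⟨9, 62, 218⟩) exNo B.t10 218103808 218103808 134217728 134217728 939524096 134217728 = true := by decide +kernel

def B.t11 : Tr := .A (.C (.A .L .L) (.A .L .L)) (.C (.A .L (.A .L .L)) (.A .L (.A .L .L)))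
theorem B.c11 : Tr.chk (leaf fun A => gB A ⟨9, 62, 218⟩) exNo B.t11 218103808 218103808 402653184 134217728 671088640 134217728 = true := by decide +kernel

def B.t12 : Tr := .A (.C (.A (.C .L .L) .L) (.A (.C (.A .L .L) (.A .L .L)) (.C .L .L))) (.C (.A .L (.C .L .L)) (.A (.C .L .L) (.A .L .L)))
theorem B.c12 : Tr.chk (leaf fun A => gB A ⟨9, 62, 218⟩) exNo B.t12 218103808 218103808 402653184 134217728 939524096 134217728 = true := by decide +kernel

def B.t13 : Tr := .A (.B (.C (.A .L .L) (.A (.C .L .L) .L)) (.C (.A (.C .L .L) .L) (.A (.C .L .L) .L))) .L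
theorem B.c13 : Tr.chk (leaf fun A => gB A ⟨9, 62, 218⟩) exNo B.t13 654311424 218103808 134217728 134217728 671088640 134217728 = true := by decide +kernel

end Pool.Agent.FTN.K9
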